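import Pool.Agent.H7.GEN.Dm
import Pool.Agent.H46.MIC.Ev

/-!
# Almost independence and events

`dm_event`: the two halves of a segment are almost independent, so `X` and `Y` are, where on a
large event `X` has few values given the left half and `Y` given the right half, and `X` has a
bounded number of values everywhere.
-/

set_option autoImplicit false

namespace Pool.MIC7

open Finset Real
open Pool.Agent.H49.Ent Pool.Agent.H32.Dense Pool.STK Pool.MIC Pool.DM
open Pool.BFL (Pb)

variable {Ω : Type} [Fintype Ω]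

theorem cond_false_card {q : Ω → ℝ} (hq : IsLaw q) {S U : Type} (E : Ω → Prop) (X : Ω → S)
    (c : Ω → U) (F : Finset S) (hF : ∀ ω, 0 < q ω → X ω ∈ F) :
    Pb q (fun ω => ¬ E ω) * CH (cond q E False) X c ≤
      Pb q (fun ω => ¬ E ω) * Real.log F.card := by
  rcases (Pb_nonneg hq.nonneg (fun ω => ¬ E ω)).eq_or_lt with h0 | h0
  · rw [← h0, zero_mul, zero_mul]
  · have hl : IsLaw (cond q E False) :=
      ⟨cond_nonneg hq.nonneg E False, sum_cond q E (by rw [law_False]; exact h0.ne')⟩
    refine mul_le_mul_of_nonneg_left ?_ h0.le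
    have h1 := CH_le_card hl.nonneg hl.sum_one X c (fun _ => F) (fun ω hω =>
      hF ω ((cond_pos_iff hq.nonneg E False ω).1 hω).1)
    rwa [Ex_const hl.sum_one] at h1

/-- From the large event to the whole law. -/
theorem info_back {q : Ω → ℝ} (hq : IsLaw q) {S S' U : Type} (E : Ω → Prop) (X : Ω → S)
    (Y : Ω → S') (c : Ω → U) (F : Finset S) (hF : ∀ ω, 0 < q ω → X ω ∈ F) {m : ℝ} (hm : 0 ≤ m)
    (h : CH (cond q E True) X c ≤ CH (cond q E True) X (fun ω => (Y ω, c ω)) + m) :
    CH q X c ≤ CH q X (fun ω => (Y ω, c ω)) +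
      (m + Pb q (fun ω => ¬ E ω) * Real.log F.card + Real.log 2) := by
  have h0 := hq.nonneg
  have a1 := CH_le_add h0 X E c
  have a2 := CH_prop_le h0 hq.sum_one E c
  have a3 : CH q X (fun ω => (E ω, c ω)) = CH q X (fun ω => (c ω, E ω)) := CH_swc h0 X E c
  have a4 := CH_two h0 X c E
  have a5 := cond_false_card hq E X c F hF
  have a6 := CH_ev_le h0 X (fun ω => (Y ω, c ω)) E
  have e0 := Pb_nonneg h0 E
  have e1 : Pb q E ≤ 1 := by
    have := Pb_not hq.sum_one E
    have := Pb_nonneg h0 (fun ω => ¬ E ω)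
    linarith
  have a7 : Pb q E * CH (cond q E True) X c ≤
      Pb q E * CH (cond q E True) X (fun ω => (Y ω, c ω)) + m := by
    have := mul_le_mul_of_nonneg_left h e0
    have : Pb q E * m ≤ 1 * m := mul_le_mul_of_nonneg_right e1 hm
    nlinarith
  linarith

variable {Γ Τ P : Type} [AddCommGroup P]

/-- **Independence from the dyadic Markov lemma.** -/
theorem dm_event {q : Ω → ℝ} (hq : IsLaw q) {T : Ω → Τ} {R : P → Ω → Γ} {b d : P} {r : ℕ}
    {S S' : Type} (E : Ω → Prop) (hE : 1 / 2 ≤ Pb q E) (X : Ω → S) (Y : Ω → S') (F : Finset S)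
    (hF : ∀ ω, 0 < q ω → X ω ∈ F) {e₁ e₂ : ℝ}
    (h1 : CH (cond q E True) X (fun ω => (sg R (b - r • d) d r ω, T ω)) ≤ e₁)
    (h2 : CH (cond q E True) Y (fun ω => (sg R b d r ω, T ω)) ≤ e₂) :
    CH q X (fun ω => (R b ω, T ω)) ≤ CH q X (fun ω => (Y ω, (R b ω, T ω))) +
      (2 * mi q T R (b - r • d) d r + e₁ + e₂ + Pb q (fun ω => ¬ E ω) * Real.log F.card +
        3 * Real.log 2) := by
  have h0 := hq.nonneg
  have hE0 : 0 < Pb q E := by linarith
  have hl := isLaw_ev hq E hE0
  have m0 := mi_nonneg (T := T) (R := R) h0 (b - r • d) d r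
  have l0 : 0 ≤ Real.log 2 := Real.log_nonneg (by norm_num)
  -- the information given the event
  have k1 : mi (cond q E True) T R (b - r • d) d r ≤
      2 * mi q T R (b - r • d) d r + 2 * Real.log 2 := by
    have eb : b - r • d + r • d = b := sub_add_cancel _ _
    have dA : Det q (fun ω => (sg R (b - r • d) d r ω, T ω)) (fun ω => (R b ω, T ω)) := by
      intro ω ω' a c hh
      have e := Prod.ext_iff.mp hh
      have := sg_pt (R := R) (b - r • d) d (r := r) (t := r) le_rfl q ω ω' a c e.1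
      rw [eb] at this
      exact Prod.ext this e.2
    have := mi_event hq (sg R b d r) (fun ω => (R b ω, T ω))
      (fun ω => (sg R (b - r • d) d r ω, T ω)) dA (θ := mi q T R (b - r • d) d r) (by
        unfold mi
        rw [eb]
        linarith) E
    have m1 : Pb q E * mi (cond q E True) T R (b - r • d) d r ≤
        mi q T R (b - r • d) d r + Real.log 2 := by
      have e : mi (cond q E True) T R (b - r • d) d r =
          CH (cond q E True) (sg R b d r) (fun ω => (R b ω, T ω)) -
          CH (cond q E True) (sg R b d r) (fun ω => (sg R (b - r • d) d r ω, T ω)) := by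
        unfold mi
        rw [eb]
      rw [e, mul_sub]
      linarith
    have m2 := mi_nonneg (T := T) (R := R) hl.nonneg (b - r • d) d r
    have m3 : 1 / 2 * mi (cond q E True) T R (b - r • d) d r ≤
        Pb q E * mi (cond q E True) T R (b - r • d) d r := mul_le_mul_of_nonneg_right hE m2
    linarith
  have k2 := Pool.DM.use (T := T) (R := R) hl.nonneg h1 h2
  have e10 : 0 ≤ e₁ := (CH_nonneg hl.nonneg _ _).trans h1
  have e20 : 0 ≤ e₂ := (CH_nonneg hl.nonneg _ _).trans h2
  have k3 := info_back hq E X Y (fun ω => (R b ω, T ω)) F hF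
    (m := 2 * mi q T R (b - r • d) d r + 2 * Real.log 2 + e₁ + e₂) (by positivity) (by linarith)
  linarith

/-- The conditional form. -/
theorem info_cond {q : Ω → ℝ} (hq : IsLaw q) {S S' V U : Type} (X : Ω → S) (W : Ω → V)
    (Y : Ω → S') (c : Ω → U) {m : ℝ}
    (h : CH q (fun ω => (X ω, W ω)) c ≤
      CH q (fun ω => (X ω, W ω)) (fun ω => (Y ω, c ω)) + m) :
    CH q X (fun ω => (W ω, c ω)) ≤ CH q X (fun ω => (Y ω, (W ω, c ω))) + m := by
  have h0 := hq.nonneg
  have a1 := CH_chain h0 X W c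
  have a2 := CH_chain h0 X W (fun ω => (Y ω, c ω))
  have a3 : CH q W (fun ω => (Y ω, c ω)) ≤ CH q W c :=
    CH_mono_cond h0 fun _ _ _ _ e => (Prod.ext_iff.1 e).2
  have a4 : CH q X (fun ω => (W ω, (Y ω, c ω))) = CH q X (fun ω => (Y ω, (W ω, c ω))) := by
    refine CH_congr h0 ?_ ?_ ?_ ?_ <;>
    · intro w w' _ _ hh
      simp only [Prod.mk.injEq] at hh ⊢
      tauto
  linarith

end Pool.MIC7
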