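import Pool.Agent.H7.MIC.Sgen

/-!
# Collinear contexts in a sub-cell

`DMA`: the contexts on the two half lines through a place of the grid are almost independent given
the context at the place and the exact time. `lla_dma`: every cell has a sub-cell with `LLA` and
`DMA`.
-/

set_option autoImplicit false

namespace Pool.STAT

open Pool.Agent.H49.Ent Pool.Agent.H32.Dense

/-- **Collinear contexts.** -/
def NDat2.DMA (D : NDat2) (z M : ℕ) (κ : ℝ) (q : D.Ω → ℝ) : Prop :=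
  ∀ i j a b s s' : ℕ, i + s * a ≤ M → s * b ≤ j → s' * a ≤ i → j + s' * b ≤ M →
    CH q (fun ω (k : Fin (s + 1)) => D.c (i + k * a) (j - k * b) ω)
        (fun ω => (D.c i j ω, D.T ω)) ≤
      CH q (fun ω (k : Fin (s + 1)) => D.c (i + k * a) (j - k * b) ω)
        (fun ω => ((fun k : Fin (s' + 1) => D.c (i - k * a) (j + k * b) ω),
          (D.c i j ω, D.T ω))) + κ * z

namespace NDat2

variable {D : NDat2} {z M : ℕ} {κ κ' : ℝ} {q : D.Ω → ℝ}

/-- Mutual information is symmetric. -/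
theorem mi_symm {Ω S T U : Type} [Fintype Ω] {q : Ω → ℝ} (hq : ∀ ω, 0 ≤ q ω) (X : Ω → S)
    (Y : Ω → T) (W : Ω → U) : CH q X W - CH q X (fun ω => (Y ω, W ω)) =
      CH q Y W - CH q Y (fun ω => (X ω, W ω)) := by
  have h1 := CH_chain hq X Y W
  have h2 := CH_chain hq Y X W
  have h3 : CH q (fun ω => (X ω, Y ω)) W = CH q (fun ω => (Y ω, X ω)) W := by
    refine CH_congr hq ?_ ?_ (fun _ _ _ _ h => h) (fun _ _ _ _ h => h)
    · intro ω ω' _ _ h
      simp only [Prod.mk.injEq] at h ⊢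
      exact ⟨h.1.2, h.1.1⟩
    · intro ω ω' _ _ h
      simp only [Prod.mk.injEq] at h ⊢
      exact ⟨h.1.2, h.1.1⟩
  linarith

/-- The left sides. -/
def lft (D : NDat2) (i j a b s : ℕ) (ω : D.Ω) (k : Fin (s + 1)) : D.Γ :=
  D.c (i + k * a) (j - k * b) ω

/-- The right sides. -/
def rgt (D : NDat2) (i j a b s : ℕ) (ω : D.Ω) (k : Fin (s + 1)) : D.Γ :=
  D.c (i - k * a) (j + k * b) ω

theorem DMA.mono (h : D.DMA z M κ q) (hκ : κ ≤ κ') : D.DMA z M κ' q := by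
  intro i j a b s s' h1 h2 h3 h4
  have := mul_le_mul_of_nonneg_right hκ (Nat.cast_nonneg (α := ℝ) z)
  have := h i j a b s s' h1 h2 h3 h4
  linarith

theorem DMA.lr (h : D.DMA z M κ q) {i j a b s s' : ℕ} (h1 : i + s * a ≤ M) (h2 : s * b ≤ j)
    (h3 : s' * a ≤ i) (h4 : j + s' * b ≤ M) :
    CH q (D.lft i j a b s) (fun ω => (D.c i j ω, D.T ω)) ≤
      CH q (D.lft i j a b s) (fun ω => (D.rgt i j a b s' ω, (D.c i j ω, D.T ω))) + κ * z :=
  h i j a b s s' h1 h2 h3 h4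

/-- The sides exchanged. -/
theorem DMA.rl (h : D.DMA z M κ q) (hq : ∀ ω, 0 ≤ q ω) {i j a b s s' : ℕ} (h1 : i + s * a ≤ M)
    (h2 : s * b ≤ j) (h3 : s' * a ≤ i) (h4 : j + s' * b ≤ M) :
    CH q (D.rgt i j a b s') (fun ω => (D.c i j ω, D.T ω)) ≤
      CH q (D.rgt i j a b s') (fun ω => (D.lft i j a b s ω, (D.c i j ω, D.T ω))) + κ * z := by
  have h5 := h.lr h1 h2 h3 h4
  have h6 := mi_symm hq (D.lft i j a b s) (D.rgt i j a b s') (fun ω => (D.c i j ω, D.T ω))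
  linarith

/-- **Functions of the two sides.** -/
theorem DMA.use (h : D.DMA z M κ q) (hq : ∀ ω, 0 ≤ q ω) {i j a b s s' : ℕ}
    (h1 : i + s * a ≤ M) (h2 : s * b ≤ j) (h3 : s' * a ≤ i) (h4 : j + s' * b ≤ M) {S₁ S₂ : Type}
    {X : D.Ω → S₁} {Y : D.Ω → S₂} {e₁ e₂ : ℝ}
    (hX : CH q X (fun ω => (D.lft i j a b s ω, (D.c i j ω, D.T ω))) ≤ e₁)
    (hY : CH q Y (fun ω => (D.rgt i j a b s' ω, (D.c i j ω, D.T ω))) ≤ e₂) :
    CH q X (fun ω => (D.c i j ω, D.T ω)) ≤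
        CH q X (fun ω => (Y ω, (D.c i j ω, D.T ω))) + (κ * z + e₁ + e₂) ∧
      CH q Y (fun ω => (D.c i j ω, D.T ω)) ≤
        CH q Y (fun ω => (X ω, (D.c i j ω, D.T ω))) + (κ * z + e₁ + e₂) := by
  have key : CH q X (fun ω => (D.c i j ω, D.T ω)) ≤
      CH q X (fun ω => (Y ω, (D.c i j ω, D.T ω))) + (κ * z + e₁ + e₂) := by
    have h5 := h.lr h1 h2 h3 h4
    set L := D.lft i j a b s with hL
    set R := D.rgt i j a b s' with hR
    set W := fun ω => (D.c i j ω, D.T ω) with hW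
    -- from `Y` to `R`: `X` given `W` and `X` given `(Y, W)`
    have a1 : CH q X (fun ω => (R ω, W ω)) ≤ CH q X (fun ω => (Y ω, W ω)) + e₂ := by
      have b1 : CH q X (fun ω => (Y ω, (R ω, W ω))) ≤ CH q X (fun ω => (Y ω, W ω)) :=
        CH_mono_cond hq fun ω ω' _ _ e => by
          simp only [Prod.mk.injEq] at e ⊢
          exact ⟨e.1, e.2.2⟩
      have b2 := CH_le_add hq X Y (fun ω => (R ω, W ω))
      linarith
    -- `X` against `R`
    have a2 : CH q X W ≤ CH q X (fun ω => (R ω, W ω)) + κ * z + e₁ := by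
      have s1 := mi_symm hq X R W
      have s2 := mi_symm hq L R W
      have b1 : CH q R (fun ω => (L ω, W ω)) ≤ CH q R (fun ω => (X ω, W ω)) + e₁ := by
        have c1 : CH q R (fun ω => (L ω, W ω)) ≤
            CH q R (fun ω => (X ω, (L ω, W ω))) + CH q X (fun ω => (L ω, W ω)) := by
          have d1 := CH_le_add hq R X (fun ω => (L ω, W ω))
          linarith
        have c2 : CH q R (fun ω => (X ω, (L ω, W ω))) ≤ CH q R (fun ω => (X ω, W ω)) :=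
          CH_mono_cond hq fun ω ω' _ _ e => by
            simp only [Prod.mk.injEq] at e ⊢
            exact ⟨e.1, e.2.2⟩
        linarith
      linarith
    linarith
  refine ⟨key, ?_⟩
  have s1 := mi_symm hq X Y (fun ω => (D.c i j ω, D.T ω))
  linarith

end NDat2

end Pool.STAT

namespace Pool.MIC7

open Finset Real MvPolynomial
open Pool.Agent.H49.Ent Pool.Agent.H32.Dense Pool.STK Pool.STAT Pool.MIC.Frm Pool.MIC24 Pool.DM
open Pool.MIC
open Pool.BFL (Pb)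

/-- The contexts on both sides of a good place. -/
theorem loc_dma (n K : ℕ) (lam gam : ℕ → ℝ) (C₁ κ' : ℝ) (S a b : ℕ) :
    Loc n K lam gam C₁ κ' (fun D q z N i j => ∀ s ≤ S, ∀ s' ≤ S,
      CH q (fun ω (k : Fin (s + 1)) => D.c (i + k * (a * N)) (j - k * (b * N)) ω)
          (fun ω => (D.c i j ω, D.T ω)) ≤
        CH q (fun ω (k : Fin (s + 1)) => D.c (i + k * (a * N)) (j - k * (b * N)) ω)
          (fun ω => ((fun k : Fin (s' + 1) => D.c (i - k * (a * N)) (j + k * (b * N)) ω),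
            (D.c i j ω, D.T ω))) + κ' * ((N * z : ℕ) : ℝ)) := by
  refine ⟨(-((2 ^ S * a : ℕ) : ℤ), ((2 ^ S * b : ℕ) : ℤ)), S * a + S * b, S, ?_, ?_, ?_⟩
  · simp only
    omega
  · simp only
    omega
  intro Nm _
  refine ⟨1, 0, one_pos, ?_⟩
  intro J a₀ w₀ z M κ D q _ _ hO l N i j hl hN _ hWi hWi' hWj hWj' hmi s hs s' hs'
  have hq := hO.isLaw.nonneg
  obtain ⟨x, hx⟩ : ∃ x : ℕ, N = x * 2 ^ S := by
    refine ⟨2 ^ (l - S), ?_⟩
    rw [hN, ← pow_add]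
    congr 1
    omega
  have hS2 : S ≤ 2 ^ S := (Nat.lt_two_pow_self (n := S)).le
  have hk : ∀ k ≤ S, k * x ≤ N := by
    intro k hk
    rw [hx, Nat.mul_comm x]
    exact Nat.mul_le_mul_right x (hk.trans hS2)
  have eW : (S * a + S * b) * N = S * (a * N) + S * (b * N) := by ring
  rw [eW] at hWi hWi' hWj hWj'
  have hka : ∀ k ≤ S, k * (a * N) ≤ S * (a * N) := fun k hk => Nat.mul_le_mul_right _ hk
  have hkb : ∀ k ≤ S, k * (b * N) ≤ S * (b * N) := fun k hk => Nat.mul_le_mul_right _ hk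
  have ea : ∀ k : ℕ, k * x * (2 ^ S * a) = k * (a * N) := by
    intro k
    rw [hx]
    ring
  have eb : ∀ k : ℕ, k * x * (2 ^ S * b) = k * (b * N) := by
    intro k
    rw [hx]
    ring
  obtain ⟨d, hd⟩ : ∃ d : ℤ × ℤ, d = (-((2 ^ S * a : ℕ) : ℤ), ((2 ^ S * b : ℕ) : ℤ)) := ⟨_, rfl⟩
  rw [← hd] at hmi
  -- the two sides
  have dl : Det q (fun ω => (sg (Rc D) (((i : ℤ), (j : ℤ)) - N • d) d N ω, D.T ω))
      (fun ω (k : Fin (s + 1)) => D.c (i + k * (a * N)) (j - k * (b * N)) ω) := by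
    intro ω ω' p1 p2 e
    funext k
    have hkS : (k : ℕ) ≤ S := by
      have := k.2
      omega
    have h1 := sg_pt (R := Rc D) (((i : ℤ), (j : ℤ)) - N • d) d (r := N) (t := N - k * x)
      (Nat.sub_le _ _) q ω ω' p1 p2 (Prod.ext_iff.1 e).1
    have h2 : (((i : ℤ), (j : ℤ)) : ℤ × ℤ) - N • d + (N - k * x : ℕ) • d =
        (((i + k * (a * N) : ℕ) : ℤ), ((j - k * (b * N) : ℕ) : ℤ)) := by
      have h3 : (((i : ℤ), (j : ℤ)) : ℤ × ℤ) - N • d + (N - k * x : ℕ) • d =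
          ((i : ℤ), (j : ℤ)) - (k * x) • d := by
        have h4 : N • d = (N - k * x : ℕ) • d + (k * x) • d := by
          rw [← add_smul, Nat.sub_add_cancel (hk _ hkS)]
        rw [h4]
        abel
      have h5 := hkb _ hkS
      rw [h3, hd, pl_left (by rw [eb]; omega), ea, eb]
    rw [h2] at h1
    exact h1
  have dr : Det q (fun ω => (sg (Rc D) ((i : ℤ), (j : ℤ)) d N ω, D.T ω))
      (fun ω (k : Fin (s' + 1)) => D.c (i - k * (a * N)) (j + k * (b * N)) ω) := by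
    intro ω ω' p1 p2 e
    funext k
    have hkS : (k : ℕ) ≤ S := by
      have := k.2
      omega
    have h1 := sg_pt (R := Rc D) ((i : ℤ), (j : ℤ)) d (r := N) (t := k * x)
      (hk _ hkS) q ω ω' p1 p2 (Prod.ext_iff.1 e).1
    have h5 := hka _ hkS
    rw [hd, pl_right (by rw [ea]; omega), ea, eb] at h1
    exact h1
  have h3 := Pool.DM.use (T := D.T) (R := Rc D) hq (b := ((i : ℤ), (j : ℤ))) (d := d) (r := N)
    (CH_eq_zero hq dl).le (CH_eq_zero hq dr).le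
  have h4 : (N : ℝ) * (κ' * z) = κ' * ((N * z : ℕ) : ℝ) := by
    push_cast
    ring
  rw [h4] at hmi
  refine h3.trans ?_
  rw [add_zero, add_zero]
  exact add_le_add le_rfl hmi

/-- The base is full given an own label. -/
theorem loc_v (n K : ℕ) (hn : 1 ≤ n) (lam gam : ℕ → ℝ) (hlam : ∀ l, 1 ≤ lam l)
    (hgam : ∀ l, 0 ≤ gam l) (C₁ : ℝ) (hC : 0 ≤ C₁) (u₁ u₂ V : ℕ) (κ' : ℝ) (hκ' : 0 < κ')
    (h1 : ∀ l, 1 ≤ l → l < n → gam l * u₂ < lam l * u₁) :
    Loc n K lam gam C₁ (κ' / 8) (fun D q z N i j => ∀ U' ≤ V,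
      ((n - 1 : ℕ) : ℝ) * (U' * ((N * z : ℕ) : ℝ)) * Real.log 2 -
        κ' * ((N * z : ℕ) : ℝ) ≤ CH q (D.vd n i j (U' * (N * z))) (fun ω =>
          (D.s (i - N * u₁) (j + N * u₂) ω, (D.c i j ω, D.T ω)))) :=
  at_v n K hn lam gam hlam hgam C₁ hC u₁ u₂ V κ' hκ' h1

/-- The height of the target and the shape. -/
theorem loc_h (n K : ℕ) (hn : 1 ≤ n) (lam gam : ℕ → ℝ) (hlam : ∀ l, 1 ≤ lam l)
    (hgam : ∀ l, 0 ≤ gam l) (C₁ : ℝ) (hC : 0 ≤ C₁) (u₁ u₂ U V : ℕ) (κ' : ℝ) (hκ' : 0 < κ')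
    (hUV : U ≤ V) (h1 : ∀ l, 1 ≤ l → l < n → gam l * u₂ < lam l * u₁)
    (h2 : lam n * u₁ + U < gam n * u₂) :
    Loc n K lam gam C₁ (κ' / 8) (fun D q z N i j => ∀ U' ≤ V,
      CH q (D.nd n i j (U * (N * z))) (fun ω =>
          (D.vd n i j (U' * (N * z)) ω, (D.c i j ω, D.T ω))) ≤
        CH q (D.nd n i j (U * (N * z))) (fun ω =>
          (D.ss n i j (i - N * u₁) (j + N * u₂) (U * (N * z)) ω,
            (D.vd n i j (U' * (N * z)) ω, (D.c i j ω, D.T ω)))) + κ' * ((N * z : ℕ) : ℝ)) :=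
  at_h n K hn lam gam hlam hgam C₁ hC u₁ u₂ U V κ' hκ' hUV h1 h2

/-- The statements of a sub-cell: `0` fullness, `1` shapes, `2` collinear contexts. -/
def PrA (n M' : ℕ) (κ' : ℝ) (x : ℕ × (ℕ × ℕ) × (ℕ × ℕ) × ℕ) (D : NDat2) (q : D.Ω → ℝ)
    (z N i j : ℕ) : Prop :=
  (x.1 = 0 → ∀ U' ≤ M', ((n - 1 : ℕ) : ℝ) * (U' * ((N * z : ℕ) : ℝ)) * Real.log 2 -
        κ' * ((N * z : ℕ) : ℝ) ≤ CH q (D.vd n i j (U' * (N * z))) (fun ω =>
          (D.s (i - N * x.2.2.1.1) (j + N * x.2.2.1.2) ω, (D.c i j ω, D.T ω)))) ∧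
  (x.1 = 1 → ∀ U' ≤ M', CH q (D.nd n i j (x.2.2.2 * (N * z))) (fun ω =>
          (D.vd n i j (U' * (N * z)) ω, (D.c i j ω, D.T ω))) ≤
        CH q (D.nd n i j (x.2.2.2 * (N * z))) (fun ω =>
          (D.ss n i j (i - N * x.2.2.1.1) (j + N * x.2.2.1.2) (x.2.2.2 * (N * z)) ω,
            (D.vd n i j (U' * (N * z)) ω, (D.c i j ω, D.T ω)))) + κ' * ((N * z : ℕ) : ℝ)) ∧
  (x.1 = 2 → ∀ s ≤ M', ∀ s' ≤ M',
      CH q (fun ω (k : Fin (s + 1)) => D.c (i + k * (x.2.2.1.1 * N))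
          (j - k * (x.2.2.1.2 * N)) ω) (fun ω => (D.c i j ω, D.T ω)) ≤
        CH q (fun ω (k : Fin (s + 1)) => D.c (i + k * (x.2.2.1.1 * N))
          (j - k * (x.2.2.1.2 * N)) ω)
          (fun ω => ((fun k : Fin (s' + 1) => D.c (i - k * (x.2.2.1.1 * N))
            (j + k * (x.2.2.1.2 * N)) ω), (D.c i j ω, D.T ω))) + κ' / 8 * ((N * z : ℕ) : ℝ))

theorem Loc.imp {n K : ℕ} {lam gam : ℕ → ℝ} {C₁ κ' : ℝ}
    {Pr Pr' : ∀ D : NDat2, (D.Ω → ℝ) → ℕ → ℕ → ℕ → ℕ → Prop} (h : Loc n K lam gam C₁ κ' Pr)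
    (h' : ∀ (D : NDat2) (q : D.Ω → ℝ) (z N i j : ℕ), Pr D q z N i j → Pr' D q z N i j) :
    Loc n K lam gam C₁ κ' Pr' := by
  obtain ⟨d, W, m₁, h1, h2, h3⟩ := h
  refine ⟨d, W, m₁, h1, h2, fun Nm hNm => ?_⟩
  obtain ⟨κ₀, z₀, h4, h5⟩ := h3 Nm hNm
  exact ⟨κ₀, z₀, h4, fun J a₀ w₀ z M κ D q a1 a2 a3 l N i j b1 b2 b3 b4 b5 b6 b7 b8 =>
    h' D q z N i j (h5 J a₀ w₀ z M κ D q a1 a2 a3 l N i j b1 b2 b3 b4 b5 b6 b7 b8)⟩

/-- **A sub-cell with own leaves and collinear contexts.** -/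
theorem lla_dma (n K : ℕ) (hn : 1 ≤ n) (lam gam : ℕ → ℝ) (hlam : ∀ l, 1 ≤ lam l)
    (hgam : ∀ l, 0 ≤ gam l) (C₁ : ℝ) (hC : 0 ≤ C₁) (M' m₀ : ℕ) (κ' : ℝ) (hκ' : 0 < κ') :
    ∃ (M : ℕ) (κ : ℝ) (z₀ : ℕ), 0 < κ ∧ ∀ (J a₀ w₀ z : ℕ) (D : NDat2) (q : D.Ω → ℝ), z₀ ≤ z →
      D.Ok2 n K J a₀ w₀ z M lam gam κ C₁ q → ∃ (N i₀ j₀ : ℕ), m₀ ≤ N ∧ NDat2.SubG i₀ j₀ N M' M ∧
      (D.sc J w₀ i₀ j₀ N z).LLA n (N * z) M' lam gam κ' q ∧
      (D.sc J w₀ i₀ j₀ N z).DMA (N * z) M' κ' q := by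
  classical
  obtain ⟨R, hR⟩ : ∃ R : Finset ℕ, R = range (M' + 1) := ⟨_, rfl⟩
  have hmR : ∀ x, x ≤ M' → x ∈ R := fun x hx => by
    rw [hR, mem_range]
    omega
  have hmR' : ∀ x, x ∈ R → x ≤ M' := fun x hx => by
    rw [hR, mem_range] at hx
    omega
  obtain ⟨Q, hQ⟩ : ∃ Q : ℕ × (ℕ × ℕ) × (ℕ × ℕ) × ℕ → Prop, ∀ x, Q x ↔
      (x.1 = 2 ∨ ∀ l, 1 ≤ l → l < n → gam l * x.2.2.1.2 < lam l * x.2.2.1.1) ∧
        (x.1 = 1 → lam n * x.2.2.1.1 + x.2.2.2 < gam n * x.2.2.1.2) :=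
    ⟨_, fun _ => Iff.rfl⟩
  obtain ⟨M, κ, z₀, hκ, h⟩ := sub_gen n K lam gam C₁ (κ' / 8) (by positivity) M' m₀
    ((range 3 ×ˢ ((R ×ˢ R) ×ˢ ((R ×ˢ R) ×ˢ R))).filter Q)
    (fun x => x.2.1) (fun x hx => by
      obtain ⟨h1, -⟩ := mem_filter.1 hx
      obtain ⟨-, h2⟩ := mem_product.1 h1
      obtain ⟨h3, -⟩ := mem_product.1 h2
      obtain ⟨h4, h5⟩ := mem_product.1 h3
      exact ⟨hmR' _ h4, hmR' _ h5⟩) (PrA n M' κ')
    (fun x hx => by
      obtain ⟨h1, h2⟩ := mem_filter.1 hx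
      obtain ⟨h2, h3⟩ := (hQ x).1 h2
      obtain ⟨h0, h1⟩ := mem_product.1 h1
      obtain ⟨-, h1⟩ := mem_product.1 h1
      obtain ⟨-, h1⟩ := mem_product.1 h1
      have hU := hmR' _ h1
      have h0' := mem_range.1 h0
      obtain ⟨t, p, u, U⟩ := x
      simp only at h0' h2 h3 hU
      interval_cases t
      · have h2' := h2.resolve_left (by norm_num)
        exact (loc_v n K hn lam gam hlam hgam C₁ hC u.1 u.2 M' κ' hκ' h2').imp
          (fun D q z N i j hP => ⟨fun _ => hP, fun hh => absurd hh (by norm_num),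
            fun hh => absurd hh (by norm_num)⟩)
      · have h2' := h2.resolve_left (by norm_num)
        exact (loc_h n K hn lam gam hlam hgam C₁ hC u.1 u.2 U M' κ' hκ' hU h2' (h3 rfl)).imp
          (fun D q z N i j hP => ⟨fun hh => absurd hh (by norm_num), fun _ => hP,
            fun hh => absurd hh (by norm_num)⟩)
      · exact (loc_dma n K lam gam C₁ (κ' / 8) M' u.1 u.2).imp
          (fun D q z N i j hP => ⟨fun hh => absurd hh (by norm_num),
            fun hh => absurd hh (by norm_num), fun _ => hP⟩))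
  refine ⟨M, κ, z₀, hκ, ?_⟩
  intro J a₀ w₀ z D q hz hO
  obtain ⟨N, i₀, j₀, hN, hG, hP⟩ := h J a₀ w₀ z D q hz hO
  have hq := hO.isLaw.nonneg
  have hmem : ∀ (t i j u₁ u₂ U : ℕ), t < 3 → i ≤ M' → j ≤ M' → u₁ ≤ M' → u₂ ≤ M' → U ≤ M' →
      (t = 2 ∨ ∀ l, 1 ≤ l → l < n → gam l * u₂ < lam l * u₁) →
      (t = 1 → lam n * u₁ + U < gam n * u₂) →
      PrA n M' κ' (t, (i, j), (u₁, u₂), U) D q z N (i₀ + i * N) (j₀ + j * N) := by
    intro t i j u₁ u₂ U a1 a2 a3 a4 a5 a6 a7 a8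
    exact hP (t, (i, j), (u₁, u₂), U) (mem_filter.2 ⟨mem_product.2 ⟨mem_range.2 a1,
      mem_product.2 ⟨mem_product.2 ⟨hmR i a2, hmR j a3⟩, mem_product.2
        ⟨mem_product.2 ⟨hmR u₁ a4, hmR u₂ a5⟩, hmR U a6⟩⟩⟩, (hQ _).2 ⟨a7, a8⟩⟩)
  refine ⟨N, i₀, j₀, hN, hG, ⟨?_, ?_⟩, ?_⟩
  · intro i j u₁ u₂ U hi hj hu hU hc
    show ((n - 1 : ℕ) : ℝ) * (U * ((N * z : ℕ) : ℝ)) * Real.log 2 - κ' * ((N * z : ℕ) : ℝ) ≤
      CH q (D.vd n (i₀ + i * N) (j₀ + j * N) (U * (N * z))) (fun ω =>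
        (D.s (i₀ + (i - u₁) * N) (j₀ + (j + u₂) * N) ω,
          (D.c (i₀ + i * N) (j₀ + j * N) ω, D.T ω)))
    have h2 := (hmem 0 i j u₁ u₂ 0 (by norm_num) hi (by omega) (by omega) (by omega)
      (Nat.zero_le _) (Or.inr hc) (fun hh => absurd hh (by norm_num))).1 rfl U hU
    simp only at h2
    have e1 : i₀ + i * N - N * u₁ = i₀ + (i - u₁) * N := by
      have b1 := Nat.mul_le_mul_right N hu
      rw [Nat.sub_mul, Nat.mul_comm N u₁]
      omega
    have e2 : j₀ + j * N + N * u₂ = j₀ + (j + u₂) * N := by ring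
    rw [e1, e2] at h2
    exact h2
  · intro i j u₁ u₂ U U' hi hj hu hU hU' hc hcn
    show CH q (D.nd n (i₀ + i * N) (j₀ + j * N) (U * (N * z))) (fun ω =>
        (D.vd n (i₀ + i * N) (j₀ + j * N) (U' * (N * z)) ω,
          (D.c (i₀ + i * N) (j₀ + j * N) ω, D.T ω))) ≤
      CH q (D.nd n (i₀ + i * N) (j₀ + j * N) (U * (N * z))) (fun ω =>
        (D.ss n (i₀ + i * N) (j₀ + j * N) (i₀ + (i - u₁) * N) (j₀ + (j + u₂) * N)
          (U * (N * z)) ω, (D.vd n (i₀ + i * N) (j₀ + j * N) (U' * (N * z)) ω,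
          (D.c (i₀ + i * N) (j₀ + j * N) ω, D.T ω)))) + κ' * ((N * z : ℕ) : ℝ)
    have h2 := (hmem 1 i j u₁ u₂ U (by norm_num) hi (by omega) (by omega) (by omega)
      hU (Or.inr hc) (fun _ => hcn)).2.1 rfl U' hU'
    simp only at h2
    have e1 : i₀ + i * N - N * u₁ = i₀ + (i - u₁) * N := by
      have b1 := Nat.mul_le_mul_right N hu
      rw [Nat.sub_mul, Nat.mul_comm N u₁]
      omega
    have e2 : j₀ + j * N + N * u₂ = j₀ + (j + u₂) * N := by ring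
    rw [e1, e2] at h2
    exact h2
  · intro i j a b s s' h1 h2 h3 h4
    show CH q (fun ω (k : Fin (s + 1)) => D.c (i₀ + (i + k * a) * N) (j₀ + (j - k * b) * N) ω)
        (fun ω => (D.c (i₀ + i * N) (j₀ + j * N) ω, D.T ω)) ≤
      CH q (fun ω (k : Fin (s + 1)) => D.c (i₀ + (i + k * a) * N) (j₀ + (j - k * b) * N) ω)
        (fun ω => ((fun k : Fin (s' + 1) => D.c (i₀ + (i - k * a) * N) (j₀ + (j + k * b) * N) ω),
          (D.c (i₀ + i * N) (j₀ + j * N) ω, D.T ω))) + κ' * ((N * z : ℕ) : ℝ)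
    have hnn : 0 ≤ κ' * ((N * z : ℕ) : ℝ) := mul_nonneg hκ'.le (Nat.cast_nonneg _)
    by_cases hab : a = 0 ∧ b = 0
    · obtain ⟨rfl, rfl⟩ := hab
      have h5 : CH q (fun ω (k : Fin (s + 1)) => D.c (i₀ + (i + k * 0) * N)
          (j₀ + (j - k * 0) * N) ω) (fun ω => (D.c (i₀ + i * N) (j₀ + j * N) ω, D.T ω)) = 0 := by
        refine CH_eq_zero hq fun ω ω' _ _ e => ?_
        funext k
        rw [Nat.mul_zero, Nat.add_zero, Nat.sub_zero]
        exact (Prod.ext_iff.1 e).1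
      rw [h5]
      exact add_nonneg (CH_nonneg hq _ _) hnn
    · have hb : ∀ s : ℕ, s * a ≤ M' → s * b ≤ M' → s ≤ M' := by
        intro s a1 a2
        rcases Nat.eq_zero_or_pos a with h0 | h0
        · rcases Nat.eq_zero_or_pos b with h00 | h00
          · exact absurd ⟨h0, h00⟩ hab
          · exact (Nat.le_mul_of_pos_right s h00).trans a2
        · exact (Nat.le_mul_of_pos_right s h0).trans a1
      have hi : i ≤ M' := by omega
      have hj : j ≤ M' := by omega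
      by_cases hs0 : s = 0
      · subst hs0
        have h5 : CH q (fun ω (k : Fin (0 + 1)) => D.c (i₀ + (i + k * a) * N)
            (j₀ + (j - k * b) * N) ω) (fun ω => (D.c (i₀ + i * N) (j₀ + j * N) ω, D.T ω)) = 0 := by
          refine CH_eq_zero hq fun ω ω' _ _ e => ?_
          funext k
          have hk : (k : ℕ) = 0 := by
            have := k.2
            omega
          rw [hk, Nat.zero_mul, Nat.zero_mul, Nat.add_zero, Nat.sub_zero]
          exact (Prod.ext_iff.1 e).1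
        rw [h5]
        exact add_nonneg (CH_nonneg hq _ _) hnn
      · have hsp : 0 < s := Nat.pos_of_ne_zero hs0
        have ha0 : a ≤ s * a := Nat.le_mul_of_pos_left a hsp
        have ha : a ≤ M' := by omega
        have hb' : b ≤ M' := (Nat.le_mul_of_pos_left b hsp).trans (h2.trans hj)
        have h5 := (hmem 2 i j a b 0 (by norm_num) hi hj ha hb' (Nat.zero_le _) (Or.inl rfl)
          (fun hh => absurd hh (by norm_num))).2.2 rfl s (hb s (by omega) (h2.trans hj)) s'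
          (hb s' (h3.trans hi) (by omega))
        simp only at h5
        have e1 : (fun ω (k : Fin (s + 1)) => D.c (i₀ + i * N + k * (a * N))
            (j₀ + j * N - k * (b * N)) ω) = fun ω (k : Fin (s + 1)) =>
              D.c (i₀ + (i + k * a) * N) (j₀ + (j - k * b) * N) ω := by
          funext ω k
          have hk : (k : ℕ) ≤ s := by
            have := k.2
            omega
          have b1 : (k : ℕ) * b ≤ j := (Nat.mul_le_mul_right b hk).trans h2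
          have b2 := Nat.mul_le_mul_right N b1
          have b3 : i₀ + i * N + k * (a * N) = i₀ + (i + k * a) * N := by ring
          have b5 : (k : ℕ) * (b * N) = k * b * N := (Nat.mul_assoc _ _ _).symm
          have b4 : j₀ + j * N - k * (b * N) = j₀ + (j - k * b) * N := by
            rw [Nat.sub_mul, b5]
            omega
          rw [b3, b4]
        have e2 : (fun ω => ((fun k : Fin (s' + 1) => D.c (i₀ + i * N - k * (a * N))
            (j₀ + j * N + k * (b * N)) ω), (D.c (i₀ + i * N) (j₀ + j * N) ω, D.T ω))) =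
            fun ω => ((fun k : Fin (s' + 1) => D.c (i₀ + (i - k * a) * N)
              (j₀ + (j + k * b) * N) ω), (D.c (i₀ + i * N) (j₀ + j * N) ω, D.T ω)) := by
          funext ω
          refine Prod.ext ?_ rfl
          funext k
          have hk : (k : ℕ) ≤ s' := by
            have := k.2
            omega
          have b1 : (k : ℕ) * a ≤ i := (Nat.mul_le_mul_right a hk).trans h3
          have b2 := Nat.mul_le_mul_right N b1
          have b3 : j₀ + j * N + k * (b * N) = j₀ + (j + k * b) * N := by ring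
          have b5 : (k : ℕ) * (a * N) = k * a * N := (Nat.mul_assoc _ _ _).symm
          have b4 : i₀ + i * N - k * (a * N) = i₀ + (i - k * a) * N := by
            rw [Nat.sub_mul, b5]
            omega
          simp only
          rw [b3, b4]
        rw [e1, e2] at h5
        refine h5.trans (add_le_add le_rfl ?_)
        have h6 : 0 ≤ ((N * z : ℕ) : ℝ) := Nat.cast_nonneg _
        nlinarith

end Pool.MIC7
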