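import Pool.Agent.H41.GSD.HtB
import Pool.Agent.H41.GSD.Own1

/-!
# Planks

Two samples with the same time, the same labels at `a` and the same labels at `a'`. The coordinates
which are deeper at `a'` than at `a` are determined, at `a`, by the other ones.
-/

set_option autoImplicit false

namespace Pool.PLK

open Finset Real MvPolynomial
open Pool.Agent.H49.Ent Pool.Agent.H32.Dense Pool.STK Pool.STAT Pool.MIC.Frm Pool.MIC7 Pool.FRM
open Pool.MIC Pool.MicA Pool.GSD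
open Pool.BFL (Pl Pb)

/-! ### The frame of a sample -/

section pure

variable {K c : ℕ} {g g' : ℕ → ℕ} {F F' : ℕ → PN} {E W ε : ℝ}

/-- **The plank.** `ζ` is the origin of the chart. -/
theorem plank_y (h : Nb K c g F E) (h' : Nb K c g' F' E) (hE : 1 ≤ E) (hW : W = 4 * E)
    {y y' u ζ ζ' : ℕ → ℝ} (hζ : Pt c g F y ζ) (z0 : ∀ l ≤ c, ζ l = 0) (hp : Pt c g F y' ζ')
    (hp' : Pt c g' F' u ζ') (hy : ∀ l, 1 ≤ l → l ≤ c → |y' l| ≤ E)
    (hu : ∀ l, 1 ≤ l → l ≤ c → |u l| ≤ E) (hε : 0 ≤ ε)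
    (hd : ∀ l, 1 ≤ l → l ≤ c → |y' l - y l| ≤ ε ∨ (2 : ℝ) ^ g l ≤ ε * 2 ^ g' l) :
    ∀ l ≤ c, |ζ' l| ≤ W ^ dd K l * ε / 2 ^ g l := by
  have hW4 : 4 ≤ W := by linarith
  have b1 := h.pt hE hW hp hy
  have b2 := h'.pt hE hW hp' hu
  intro l
  induction l using Nat.strong_induction_on with
  | _ l ih =>
    intro hl
    rcases Nat.eq_zero_or_pos l with h0 | h0
    · subst h0
      rw [hp.1, abs_zero]
      positivity
    · obtain ⟨m, rfl⟩ : ∃ m, l = m + 1 := ⟨l - 1, by omega⟩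
      rcases hd (m + 1) h0 hl with h1 | h1
      · -- a given digit
        have hB : (1 : ℝ) ≤ W ^ dd K m := one_le_pow₀ (by linarith)
        have e1 := h.lip hl (B := W ^ dd K m) (δ := W ^ dd K m * ε) hB (by positivity) (β := ζ')
          (β' := ζ) (fun k hk => (b1 k (by omega)).trans
            (div_le_div_of_nonneg_right (pow_le_pow_right₀ (by linarith) (dd_mono (by omega)))
              (by positivity)))
          (fun k hk => by
            rw [z0 k (by omega), abs_zero]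
            positivity)
          (fun k hk => by
            rw [z0 k (by omega), sub_zero]
            refine (ih k hk (by omega)).trans (div_le_div_of_nonneg_right ?_ (by positivity))
            exact mul_le_mul_of_nonneg_right (pow_le_pow_right₀ (by linarith)
              (dd_mono (by omega))) hε)
        have e2 : ζ' (m + 1) = (eval ζ' (F (m + 1)) - eval ζ (F (m + 1))) +
            (y' (m + 1) - y (m + 1)) / 2 ^ g (m + 1) := by
          have f1 := hp.2 (m + 1) h0 hl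
          have f2 := hζ.2 (m + 1) h0 hl
          rw [z0 (m + 1) hl] at f2
          rw [sub_div]
          linarith
        have e3 : |(y' (m + 1) - y (m + 1)) / 2 ^ g (m + 1)| ≤ ε / 2 ^ g (m + 1) := by
          rw [abs_div, abs_of_pos (by positivity : (0 : ℝ) < 2 ^ g (m + 1))]
          exact div_le_div_of_nonneg_right h1 (by positivity)
        rw [e2]
        refine (abs_add_le _ _).trans ((add_le_add e1 e3).trans ?_)
        rw [← add_div]
        refine div_le_div_of_nonneg_right ?_ (by positivity)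
        have e4 := sz2 (K := K) (l := m) hE hW
        have e5 : K * (W ^ dd K m) ^ K * E * (W ^ dd K m * ε) + ε =
            (K * (W ^ dd K m) ^ K * E * W ^ dd K m + 1) * ε := by ring
        rw [e5]
        exact mul_le_mul_of_nonneg_right (by linarith) hε
      · -- a deep coordinate
        refine (b2 (m + 1) hl).trans ?_
        rw [div_le_div_iff₀ (by positivity) (by positivity)]
        calc W ^ dd K (m + 1) * 2 ^ g (m + 1) ≤ W ^ dd K (m + 1) * (ε * 2 ^ g' (m + 1)) :=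
              mul_le_mul_of_nonneg_left h1 (by positivity)
          _ = W ^ dd K (m + 1) * ε * 2 ^ g' (m + 1) := by ring

/-- **Small differences of heights.** -/
theorem plank_out (h : Nb K c g F E) {y y' ζ ζ' : ℕ → ℝ} (hζ : Pt c g F y ζ)
    (z0 : ∀ l ≤ c, ζ l = 0) (hp : Pt c g F y' ζ') {A : ℝ} (hA : 1 ≤ A) (hε : 0 ≤ ε) (hε1 : ε ≤ 1)
    (hd : ∀ l ≤ c, |ζ' l| ≤ A * ε / 2 ^ g l) :
    ∀ l, 1 ≤ l → l ≤ c → |y' l - y l| ≤ (K * A ^ K * E + 1) * A * ε := by
  intro l h0 hl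
  have e1 := h.lip hl (B := A) (δ := A * ε) hA (by positivity) (β := ζ') (β' := ζ)
    (fun k hk => (hd k (by omega)).trans (div_le_div_of_nonneg_right (by nlinarith)
      (by positivity)))
    (fun k hk => by
      rw [z0 k (by omega), abs_zero]
      positivity)
    (fun k hk => by
      rw [z0 k (by omega), sub_zero]
      exact hd k (by omega))
  have hg : (0 : ℝ) < 2 ^ g l := by positivity
  have f1 := hp.2 l h0 hl
  have f2 := hζ.2 l h0 hl
  rw [z0 l hl] at f2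
  have e2 : (y' l - y l) / 2 ^ g l = ζ' l - (eval ζ' (F l) - eval ζ (F l)) := by
    rw [sub_div]
    linarith
  have e3 : |(y' l - y l) / 2 ^ g l| ≤ A * ε / 2 ^ g l + K * A ^ K * E * (A * ε) / 2 ^ g l := by
    rw [e2]
    exact (abs_sub _ _).trans (add_le_add (hd l hl) e1)
  rw [abs_div, abs_of_pos hg, ← add_div, div_le_div_iff_of_pos_right hg] at e3
  refine e3.trans (le_of_eq ?_)
  ring

end pure

/-! ### Two samples -/

theorem c_le_e {a b : ℝ} {z : ℕ} (h : a ≤ b) : exp (a * z) ≤ exp (b * z) :=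
  exp_le_exp.2 (mul_le_mul_of_nonneg_right h (Nat.cast_nonneg z))

theorem two_le_e (c z : ℕ) : (2 : ℝ) ^ (c * z) ≤ exp (c * z) := by
  have h : (2 : ℝ) ≤ exp 1 := by linarith [Real.exp_one_gt_d9]
  have h1 : (2 : ℝ) ^ (c * z) ≤ exp 1 ^ (c * z) := pow_le_pow_left₀ (by norm_num) h _
  refine h1.trans (le_of_eq ?_)
  rw [← exp_nat_mul, mul_one]
  push_cast
  rfl

/-- **Two samples with the same labels at three places.** -/
theorem plk_two (n K' : ℕ) (C : ℝ) (hC : 0 ≤ C) (c : ℕ) : ∃ C₂ : ℝ, 1 ≤ C₂ ∧ ∀ (D : NDat2)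
    (K z M i j i' j' i'' j'' m X : ℕ) (S S' S'' : D.Ω → ℕ → PN) (ω ω' : D.Ω) (P : ℕ → PN),
    K ≤ K' → 1 ≤ z → i < M → j < M → i' < M → j' < M → i'' < M → j'' < M → m ≤ n →
    (∀ i j x, TriN (D.G i j x)) → (∀ i j x l, (D.G i j x l).totalDegree ≤ K) →
    FrP D n K' M z C P ω → Sd D n K i j S ω → Sd D n K i' j' S' ω → Sd D n K i'' j'' S'' ω →
    Sd D n K i j S ω' → Sd D n K i' j' S' ω' → S ω' = S ω → S' ω' = S' ω → S'' ω' = S'' ω →
    D.X ω' 0 = D.X ω 0 →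
    (∀ l, 1 ≤ l → l ≤ m → |ztS D i j S ω' l - ztS D i j S ω l| ≤ 1 / 2 ^ X ∨
      D.g i j l + X ≤ D.g i' j' l + c * z) →
    (∀ l, 1 ≤ l → l ≤ m → D.g i'' j'' l ≤ D.g i j l + c * z) →
    ∀ l, 1 ≤ l → l ≤ m →
      |ztS D i'' j'' S'' ω' l - ztS D i'' j'' S'' ω l| ≤ exp (C₂ * z) / 2 ^ X := by
  obtain ⟨C₃, hC₃, hpk⟩ := fr_pack n K' C hC
  obtain ⟨K₂, hK₂⟩ : ∃ K₂ : ℕ, K₂ = K' * (K' + 1) ^ n := ⟨_, rfl⟩
  obtain ⟨a, ha⟩ : ∃ a : ℝ, a = (C₃ + 2) * dd K₂ n + 2 * c := ⟨_, rfl⟩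
  have ha0 : 0 ≤ a := by rw [ha]; positivity
  refine ⟨1 + K₂ + a * K₂ + C₃ + a, by
    have : 0 ≤ a * K₂ := by positivity
    have : (0 : ℝ) ≤ K₂ := Nat.cast_nonneg _
    linarith, ?_⟩
  intro D K z M i j i' j' i'' j'' m X S S' S'' ω ω' P hK hz hi hj hi' hj' hi'' hj'' hm tG dG hF
    sS sS' sS'' tS tS' eS eS' eS'' e0 hdig hlev
  have hz1 : (1 : ℝ) ≤ z := by exact_mod_cast hz
  have hz0 : (0 : ℝ) ≤ z := by linarith
  obtain ⟨p1, -, -⟩ := hpk D K z M i j S ω P hK hz hi hj tG dG hF sS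
  obtain ⟨p2, -, -⟩ := hpk D K z M i' j' S' ω P hK hz hi' hj' tG dG hF sS'
  obtain ⟨p3, -, -⟩ := hpk D K z M i'' j'' S'' ω P hK hz hi'' hj'' tG dG hF sS''
  rw [← hK₂] at p1 p2 p3
  obtain ⟨E, hE⟩ : ∃ E : ℝ, E = exp (C₃ * z) := ⟨_, rfl⟩
  rw [← hE] at p1 p2 p3
  have hE1 : 1 ≤ E := by
    rw [hE]
    exact one_le_e hC₃
  obtain ⟨W, hW⟩ : ∃ W : ℝ, W = 4 * E := ⟨_, rfl⟩
  have hW1 : 1 ≤ W := by linarith
  obtain ⟨hP, dP, vP, nP⟩ := hF
  have hx0 : eval (D.X ω) (P 0) = D.X ω 0 := vP 0 (Nat.zero_le _)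
  have z0 : ∀ l ≤ m, zs P (D.X ω) l = 0 := fun l hl => by
    unfold zs
    rw [vP l (hl.trans hm), sub_self]
  have q1 := pt_of (Ψ := S ω) (g := D.g i j) hP (rfl : D.X ω 0 = D.X ω 0) hx0 m
  have q1' := pt_of (Ψ := S ω) (g := D.g i j) hP e0 hx0 m
  have q2' := pt_of (Ψ := S' ω) (g := D.g i' j') hP e0 hx0 m
  have q3 := pt_of (Ψ := S'' ω) (g := D.g i'' j'') hP (rfl : D.X ω 0 = D.X ω 0) hx0 m
  have q3' := pt_of (Ψ := S'' ω) (g := D.g i'' j'') hP e0 hx0 m
  have hX1 : (1 : ℝ) ≤ 2 ^ X := one_le_pow₀ (by norm_num)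
  have h2c : (1 : ℝ) ≤ 2 ^ (c * z) := one_le_pow₀ (by norm_num)
  obtain ⟨ε, hε⟩ : ∃ ε : ℝ, ε = 1 / 2 ^ X := ⟨_, rfl⟩
  have hε0 : 0 ≤ ε := by rw [hε]; positivity
  have hε1 : ε ≤ 1 := by
    rw [hε, div_le_one (by positivity)]
    exact hX1
  have hεX : ε * 2 ^ X = 1 := by
    rw [hε]
    field_simp
  have r1 := plank_y (ε := 2 ^ (c * z) * ε) (p1 m hm) (p2 m hm) hE1 hW q1 z0 q1' q2'
    (fun l h1 h2 => by
      have := nat_le (tS.hgt l h1 (h2.trans hm))
      rw [eS] at this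
      exact this.trans hE1)
    (fun l h1 h2 => by
      have := nat_le (tS'.hgt l h1 (h2.trans hm))
      rw [eS'] at this
      exact this.trans hE1) (by positivity)
    (fun l h1 h2 => by
      rcases hdig l h1 h2 with h3 | h3
      · left
        unfold ztS at h3
        rw [eS, ← hε] at h3
        refine h3.trans ?_
        nlinarith
      · right
        have h4 : (2 : ℝ) ^ D.g i j l * 2 ^ X ≤ 2 ^ D.g i' j' l * 2 ^ (c * z) := by
          rw [← pow_add, ← pow_add]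
          exact pow_le_pow_right₀ (by norm_num) h3
        calc (2 : ℝ) ^ D.g i j l = ε * (2 ^ D.g i j l * 2 ^ X) := by
              rw [mul_left_comm, hεX, mul_one]
          _ ≤ ε * (2 ^ D.g i' j' l * 2 ^ (c * z)) := mul_le_mul_of_nonneg_left h4 hε0
          _ = 2 ^ (c * z) * ε * 2 ^ D.g i' j' l := by ring)
  obtain ⟨A, hA⟩ : ∃ A : ℝ, A = W ^ dd K₂ m * 2 ^ (c * z) * 2 ^ (c * z) := ⟨_, rfl⟩
  have hA1 : 1 ≤ A := by
    rw [hA]
    exact one_le_mul_of_one_le_of_one_le (one_le_mul_of_one_le_of_one_le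
      (one_le_pow₀ hW1) h2c) h2c
  have r2 : ∀ l ≤ m, |zs P (D.X ω') l| ≤ A * ε / 2 ^ D.g i'' j'' l := by
    intro l hl
    rcases Nat.eq_zero_or_pos l with h0 | h0
    · subst h0
      rw [zs_zero hP e0 hx0, abs_zero]
      positivity
    · refine (r1 l hl).trans ?_
      have h4 : (2 : ℝ) ^ D.g i'' j'' l ≤ 2 ^ D.g i j l * 2 ^ (c * z) := by
        rw [← pow_add]
        exact pow_le_pow_right₀ (by norm_num) (hlev l h0 hl)
      have h5 : W ^ dd K₂ l ≤ W ^ dd K₂ m := pow_le_pow_right₀ hW1 (dd_mono hl)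
      rw [div_le_div_iff₀ (by positivity) (by positivity)]
      calc W ^ dd K₂ l * (2 ^ (c * z) * ε) * 2 ^ D.g i'' j'' l
          ≤ W ^ dd K₂ m * (2 ^ (c * z) * ε) * (2 ^ D.g i j l * 2 ^ (c * z)) :=
            mul_le_mul (mul_le_mul_of_nonneg_right h5 (by positivity)) h4 (by positivity)
              (by positivity)
        _ = A * ε * 2 ^ D.g i j l := by
            rw [hA]
            ring
  have r3 := plank_out (p3 m hm) q3 z0 q3' hA1 hε0 hε1 r2
  -- constants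
  have hdm : dd K₂ m ≤ dd K₂ n := dd_mono hm
  have hAe : A ≤ exp (a * z) := by
    have h1 : W ≤ exp ((C₃ + 2) * z) := by
      have h4 : (4 : ℝ) ≤ exp (2 * z) := by
        have h := Real.exp_one_gt_d9
        have e : exp 2 = exp 1 * exp 1 := by
          rw [← exp_add]
          norm_num
        have : (4 : ℝ) ≤ exp 2 := by
          rw [e]
          nlinarith
        exact this.trans (exp_le_exp.2 (by linarith))
      rw [hW, hE]
      calc 4 * exp (C₃ * z) ≤ exp (2 * z) * exp (C₃ * z) :=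
            mul_le_mul_of_nonneg_right h4 (exp_pos _).le
        _ = exp ((C₃ + 2) * z) := by
            rw [← exp_add]
            congr 1
            ring
    have h2 : W ^ dd K₂ m ≤ exp ((C₃ + 2) * dd K₂ n * z) := by
      calc W ^ dd K₂ m ≤ W ^ dd K₂ n := pow_le_pow_right₀ hW1 hdm
        _ ≤ exp ((C₃ + 2) * z) ^ dd K₂ n := pow_le_pow_left₀ (by linarith) h1 _
        _ = exp ((C₃ + 2) * dd K₂ n * z) := by
            rw [← exp_nat_mul]
            congr 1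
            ring
    have h3 := two_le_e c z
    rw [hA]
    calc W ^ dd K₂ m * 2 ^ (c * z) * 2 ^ (c * z)
        ≤ exp ((C₃ + 2) * dd K₂ n * z) * exp (c * z) * exp (c * z) :=
          mul_le_mul (mul_le_mul h2 h3 (by positivity) (exp_pos _).le) h3 (by positivity)
            (by positivity)
      _ = exp (a * z) := by
          rw [← exp_add, ← exp_add, ha]
          congr 1
          ring
  have hKe : (K₂ : ℝ) + 1 ≤ exp (K₂ * z) := by
    refine (Real.add_one_le_exp (K₂ : ℝ)).trans (exp_le_exp.2 ?_)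
    have : (0 : ℝ) ≤ K₂ := Nat.cast_nonneg _
    nlinarith
  have hfin : (K₂ * A ^ K₂ * E + 1) * A ≤ exp ((1 + K₂ + a * K₂ + C₃ + a) * z) := by
    have h1 : (1 : ℝ) ≤ A ^ K₂ * E := one_le_mul_of_one_le_of_one_le (one_le_pow₀ hA1) hE1
    have h2 : A ^ K₂ ≤ exp (a * K₂ * z) := by
      calc A ^ K₂ ≤ exp (a * z) ^ K₂ := pow_le_pow_left₀ (by linarith) hAe _
        _ = exp (a * K₂ * z) := by
            rw [← exp_nat_mul]
            congr 1
            ring
    calc (K₂ * A ^ K₂ * E + 1) * A ≤ ((K₂ + 1) * (A ^ K₂ * E)) * A := by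
          refine mul_le_mul_of_nonneg_right ?_ (by linarith)
          nlinarith
      _ ≤ (exp (K₂ * z) * (exp (a * K₂ * z) * exp (C₃ * z))) * exp (a * z) := by
          refine mul_le_mul (mul_le_mul hKe ?_ (by positivity) (exp_pos _).le) hAe (by linarith)
            (by positivity)
          rw [hE]
          exact mul_le_mul_of_nonneg_right h2 (exp_pos _).le
      _ = exp ((K₂ + a * K₂ + C₃ + a) * z) := by
          rw [← exp_add, ← exp_add, ← exp_add]
          congr 1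
          ring
      _ ≤ _ := c_le_e (by linarith)
  intro l h1 h2
  have r4 := r3 l h1 h2
  unfold ztS
  rw [eS'']
  refine r4.trans ?_
  calc (K₂ * A ^ K₂ * E + 1) * A * ε ≤ exp ((1 + K₂ + a * K₂ + C₃ + a) * z) * ε :=
        mul_le_mul_of_nonneg_right hfin hε0
    _ = exp ((1 + K₂ + a * K₂ + C₃ + a) * z) / 2 ^ X := by
        rw [hε]
        ring

/-! ### Few values -/

/-- `X` digits of the height of the coordinate `l` over the side `S` at `(i, j)`. -/
noncomputable def hdS (D : NDat2) (i j X : ℕ) (S : D.Ω → ℕ → PN) (ω : D.Ω) (l : ℕ) : ℤ :=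
  ⌊(2 : ℝ) ^ X * ztS D i j S ω l⌋

/-- The digits of the base coordinates. -/
noncomputable def hvS (D : NDat2) (m i j X : ℕ) (S : D.Ω → ℕ → PN) (ω : D.Ω) (l : Fin m) : ℤ :=
  hdS D i j X S ω (l + 1)

theorem vd_eq (D : NDat2) (n i j X : ℕ) : D.vd n i j X = hvS D (n - 1) i j X (D.Ψ i j) := by
  funext ω l
  unfold NDat2.vd hvS hdS ztS nat NDat2.sh
  congr 1
  rw [pow_add]
  ring

theorem nd_eq (D : NDat2) (n i j X : ℕ) : D.nd n i j X = fun ω => hdS D i j X (D.Ψ i j) ω n := by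
  funext ω
  unfold NDat2.nd hdS ztS nat NDat2.sh
  congr 1
  rw [pow_add]
  ring

theorem det_vis {D : NDat2} {n K J a₀ w₀ z M : ℕ} {lam gam : ℕ → ℝ} {κ C₁ : ℝ} {q : D.Ω → ℝ}
    (hO : D.Ok2 n K J a₀ w₀ z M lam gam κ C₁ q) {i j : ℕ} (hi : i ≤ M) (hj : j ≤ M) {Y : Type}
    {y : D.Ω → Y} (h : Det q y (D.c i j)) (hT : Det q y D.T) : Det q y (D.Ψ i j) := by
  intro ω ω' h1 h2 e
  have h3 := hO.s_c i hi j hj ω ω' h1 h2 (Prod.ext (h ω ω' h1 h2 e) (hT ω ω' h1 h2 e))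
  unfold NDat2.Ψ
  rw [h3]

theorem det_line {D : NDat2} {q : D.Ω → ℝ} {i j : ℕ} {Y : Type} {y : D.Ω → Y}
    (h : Det q y (D.c i j)) : Det q y (D.Φ i j) := by
  intro ω ω' h1 h2 e
  unfold NDat2.Φ
  rw [h ω ω' h1 h2 e]

theorem fl_close {x x' : ℝ} {X : ℕ} (h : ⌊(2 : ℝ) ^ X * x⌋ = ⌊(2 : ℝ) ^ X * x'⌋) :
    |x - x'| ≤ 1 / 2 ^ X := by
  have h0 : (0 : ℝ) < 2 ^ X := by positivity
  have e1 := Int.floor_le ((2 : ℝ) ^ X * x)
  have e2 := Int.lt_floor_add_one ((2 : ℝ) ^ X * x)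
  have e3 := Int.floor_le ((2 : ℝ) ^ X * x')
  have e4 := Int.lt_floor_add_one ((2 : ℝ) ^ X * x')
  rw [h] at e1 e2
  rw [le_div_iff₀ h0]
  have e5 : |x - x'| * 2 ^ X = |2 ^ X * x - 2 ^ X * x'| := by
    rw [← mul_sub, abs_mul, abs_of_pos h0, mul_comm]
  rw [e5, abs_le]
  constructor <;> linarith

/-- **Few values**: the digits over the side `S''` at `(i'', j'')` given the labels at three places,
the time and the digits at `(i, j)` of the coordinates which are not deeper at `(i', j')`. -/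
theorem plk_few (n K : ℕ) (lam gam : ℕ → ℝ) (C₁ : ℝ) (hC₁ : 1 ≤ C₁) (c : ℕ) : ∃ C : ℝ, 1 ≤ C ∧
    ∀ (M : ℕ) (η : ℝ), 2 ≤ M → 0 < η → ∃ (κ₀ : ℝ) (z₀ : ℕ), 0 < κ₀ ∧
    ∀ (J a₀ w₀ z : ℕ) (κ : ℝ) (D : NDat2) (q : D.Ω → ℝ), z₀ ≤ z → κ ≤ κ₀ →
      D.Ok2 n K J a₀ w₀ z M lam gam κ C₁ q →
      ∀ (i j i' j' i'' j'' m X : ℕ) (S S' S'' : D.Ω → ℕ → PN) (Y : Type) (y : D.Ω → Y),
        i < M → j < M → i' < M → j' < M → i'' < M → j'' < M → m ≤ n →
        (∀ ω, 0 < q ω → Sd D n K i j S ω) → (∀ ω, 0 < q ω → Sd D n K i' j' S' ω) →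
        (∀ ω, 0 < q ω → Sd D n K i'' j'' S'' ω) →
        Det q y S → Det q y S' → Det q y S'' → Det q y D.T →
        (∀ l < m, D.g i j (l + 1) + X ≤ D.g i' j' (l + 1) + c * z ∨
          Det q y (fun ω => hdS D i j X S ω (l + 1))) →
        (∀ l < m, D.g i'' j'' (l + 1) ≤ D.g i j (l + 1) + c * z) →
        CH q (hvS D m i'' j'' X S'') y ≤ C * z + η * X := by
  classical
  obtain ⟨K', C, hKK, hC, hfr⟩ := frm_ev n K lam gam C₁ hC₁
  obtain ⟨C₂, hC₂, htwo⟩ := plk_two n K' C hC c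
  have hn0 : (0 : ℝ) ≤ n := Nat.cast_nonneg n
  refine ⟨n * (C₂ + 2) + 3 * n + 1, by
    have : 0 ≤ (n : ℝ) * (C₂ + 2) := mul_nonneg hn0 (by linarith)
    linarith, fun M η hM hη => ?_⟩
  obtain ⟨η', hη'⟩ : ∃ η' : ℝ, η' = min 1 (η / (n + 1)) := ⟨_, rfl⟩
  have hη'0 : 0 < η' := by
    rw [hη']
    exact lt_min one_pos (by positivity)
  have hη'1 : η' ≤ 1 := by
    rw [hη']
    exact min_le_left _ _
  have hη'2 : η' * n ≤ η := by
    have h1 : η' ≤ η / (n + 1) := by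
      rw [hη']
      exact min_le_right _ _
    rw [le_div_iff₀ (by positivity)] at h1
    nlinarith
  obtain ⟨κ₀, z₀, hκ₀, hfr⟩ := hfr M η' hM hη'0
  refine ⟨κ₀, max z₀ 1, hκ₀, ?_⟩
  intro J a₀ w₀ z κ D q hz hκ hO i j i' j' i'' j'' m X S S' S'' Y y hi hj hi' hj' hi'' hj'' hm
    sS sS' sS'' eS eS' eS'' eT hdig hlev
  have hz1 : 1 ≤ z := (le_max_right _ _).trans hz
  have hzr : (1 : ℝ) ≤ z := by exact_mod_cast hz1
  have hbad := hfr J a₀ w₀ z κ D q ((le_max_left _ _).trans hz) hκ hO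
  have hq := hO.isLaw
  have hX1 : (1 : ℝ) ≤ 2 ^ X := one_le_pow₀ (by norm_num)
  have h1 := Pool.UP35.few_of_good hq m (X + 1) (⌈exp (C₂ * z)⌉₊ + 1) (hvS D m i'' j'' X S'') ∅ y
    (Fra D n K' M z C) (fun ω hω l => by
      have h2 := nat_le ((sS'' ω hω).hgt (l + 1) (by omega) (by omega))
      have h3 : |(2 : ℝ) ^ X * ztS D i'' j'' S'' ω (l + 1)| ≤ 2 ^ X := by
        rw [abs_mul, abs_of_pos (by positivity : (0 : ℝ) < 2 ^ X)]
        unfold ztS
        nlinarith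
      have h4 := Int.floor_le ((2 : ℝ) ^ X * ztS D i'' j'' S'' ω (l + 1))
      have h5 := Int.lt_floor_add_one ((2 : ℝ) ^ X * ztS D i'' j'' S'' ω (l + 1))
      rw [abs_le] at h3
      have h6 : |((hvS D m i'' j'' X S'' ω l : ℤ) : ℝ)| ≤ 2 ^ (X + 1) := by
        unfold hvS hdS
        rw [pow_succ, abs_le]
        constructor <;> linarith [h3.1, h3.2]
      rw [← Int.cast_abs] at h6
      exact_mod_cast h6)
    (fun ω ω' h2 h3 h4 h5 _ l => by
      obtain ⟨P, hP⟩ := h4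
      have e0 : D.X ω' 0 = D.X ω 0 := by
        rw [hO.X_zero, hO.X_zero, eT ω ω' h2 h3 h5]
      have h6 := htwo D K z M i j i' j' i'' j'' m X S S' S'' ω ω' P hKK hz1 hi hj hi' hj' hi''
        hj'' hm hO.G_tri hO.G_deg hP (sS ω h2) (sS' ω h2) (sS'' ω h2) (sS ω' h3) (sS' ω' h3)
        (eS ω ω' h2 h3 h5).symm (eS' ω ω' h2 h3 h5).symm (eS'' ω ω' h2 h3 h5).symm e0
        (fun k k1 k2 => by
          obtain ⟨k, rfl⟩ : ∃ k', k = k' + 1 := ⟨k - 1, by omega⟩
          rcases hdig k (by omega) with h7 | h7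
          · exact Or.inr h7
          · left
            exact fl_close (h7 ω' ω h3 h2 h5.symm))
        (fun k k1 k2 => by
          obtain ⟨k, rfl⟩ : ∃ k', k = k' + 1 := ⟨k - 1, by omega⟩
          exact hlev k (by omega)) (l + 1) (by omega) (by omega)
      have e1 := dg_near (h := X) h6
      have e2 : (2 : ℝ) ^ X * (exp (C₂ * z) / 2 ^ X) = exp (C₂ * z) := by
        field_simp
      rw [e2] at e1
      have e3 := Nat.le_ceil (exp (C₂ * z))
      have e4 : |((hvS D m i'' j'' X S'' ω' l - hvS D m i'' j'' X S'' ω l : ℤ) : ℝ)| ≤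
          exp (C₂ * z) + 1 := e1
      have e5 : ((|hvS D m i'' j'' X S'' ω l - hvS D m i'' j'' X S'' ω' l| : ℤ) : ℝ) ≤
          (((⌈exp (C₂ * z)⌉₊ + 1 : ℕ) : ℤ) : ℝ) := by
        rw [abs_sub_comm, Int.cast_abs]
        refine e4.trans ?_
        push_cast
        linarith
      exact_mod_cast e5)
    hbad
  refine h1.trans ?_
  have hl2 : Real.log 2 ≤ 1 := by linarith [Real.log_two_lt_d9]
  have hl20 : 0 ≤ Real.log 2 := Real.log_nonneg (by norm_num)
  have e1 : Real.log (2 * ((⌈exp (C₂ * z)⌉₊ + 1 : ℕ) : ℝ) + 1) ≤ (C₂ + 2) * z := by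
    have f0 : 1 ≤ exp (C₂ * z) := one_le_exp (by positivity)
    have f1 : 2 * ((⌈exp (C₂ * z)⌉₊ + 1 : ℕ) : ℝ) + 1 ≤ exp ((C₂ + 2) * z) := by
      have f2 := Nat.ceil_lt_add_one (exp_pos (C₂ * z)).le
      have f3 : exp ((C₂ + 2) * z) = exp (2 * z) * exp (C₂ * z) := by
        rw [← exp_add]
        congr 1
        ring
      have f4 : (7 : ℝ) ≤ exp (2 * z) := by
        have h7 : (7 : ℝ) ≤ exp 2 := by
          have h := Real.exp_one_gt_d9
          have e : exp 2 = exp 1 * exp 1 := by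
            rw [← exp_add]
            norm_num
          rw [e]
          nlinarith
        exact h7.trans (exp_le_exp.2 (by linarith))
      rw [f3]
      push_cast
      nlinarith
    calc Real.log (2 * ((⌈exp (C₂ * z)⌉₊ + 1 : ℕ) : ℝ) + 1) ≤ Real.log (exp ((C₂ + 2) * z)) :=
          Real.log_le_log (by positivity) f1
      _ = (C₂ + 2) * z := Real.log_exp _
  have hmn : (m : ℝ) ≤ n := by exact_mod_cast hm
  have hm0 : (0 : ℝ) ≤ m := Nat.cast_nonneg m
  have hX0 : (0 : ℝ) ≤ X := Nat.cast_nonneg X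
  have e2 : (m : ℝ) * Real.log (2 * ((⌈exp (C₂ * z)⌉₊ + 1 : ℕ) : ℝ) + 1) ≤
      n * ((C₂ + 2) * z) := by
    have f1 : 0 ≤ (C₂ + 2) * z := by positivity
    calc _ ≤ (m : ℝ) * ((C₂ + 2) * z) := mul_le_mul_of_nonneg_left e1 hm0
      _ ≤ _ := mul_le_mul_of_nonneg_right hmn f1
  have e3 : η' * (m * (((X + 1 : ℕ) : ℝ) * Real.log 2 + 2 * Real.log 2)) ≤
      η * X + 3 * n * z := by
    have f1 : ((X + 1 : ℕ) : ℝ) * Real.log 2 + 2 * Real.log 2 ≤ X + 3 := by
      push_cast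
      nlinarith
    have f2 : (m : ℝ) * (((X + 1 : ℕ) : ℝ) * Real.log 2 + 2 * Real.log 2) ≤ n * (X + 3) := by
      calc _ ≤ (m : ℝ) * (X + 3) := mul_le_mul_of_nonneg_left f1 hm0
        _ ≤ _ := mul_le_mul_of_nonneg_right hmn (by linarith)
    have f3 : η' * ((n : ℝ) * (X + 3)) = η' * n * X + 3 * (η' * n) := by ring
    have f4 : η' * n * X ≤ η * X := mul_le_mul_of_nonneg_right hη'2 hX0
    have f5 : η' * n ≤ n * z := by
      have : η' * n ≤ 1 * n := mul_le_mul_of_nonneg_right hη'1 hn0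
      have : (1 : ℝ) * n ≤ n * z := by nlinarith
      linarith
    have f6 := mul_le_mul_of_nonneg_left f2 hη'0.le
    linarith
  rw [Finset.card_empty, Nat.cast_zero, zero_mul, zero_add]
  have e4 : (n : ℝ) * ((C₂ + 2) * z) + (η * X + 3 * n * z) + z =
      (n * (C₂ + 2) + 3 * n + 1) * z + η * X := by ring
  have hz0 : (0 : ℝ) ≤ z := by linarith
  linarith

end Pool.PLK
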