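import Pool.Agent.H7.MIC.Adj

/-!
# What a path of labels knows

On the event where neighbouring labels agree along a path of pairs: the near digits at the last
pair have few values given the labels at both ends (`vd_few`, `nd_few`), and the difference of two
labels of the target is almost constant on the natural box of the first pair (`shp_var`).
-/

set_option autoImplicit false

namespace Pool.MIC7

open Finset Real MvPolynomial
open Pool.Agent.H49.Ent Pool.Agent.H32.Dense Pool.STK Pool.STAT Pool.MIC.Frm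
open Pool.BFL (Pb)

/-- Integer vectors which are near to each other given `y`. -/
theorem few_vec {Ω Y : Type} [Fintype Ω] {m : ℕ} {p : Ω → ℝ} (hp : IsLaw p) (f : Ω → Fin m → ℤ)
    (y : Ω → Y) (R : ℕ) (h : ∀ ω ω', 0 < p ω → 0 < p ω' → y ω = y ω' → ∀ i,
      |f ω i - f ω' i| ≤ R) : CH p f y ≤ m * Real.log (2 * R + 1) := by
  classical
  set F : Y → Finset (Fin m → ℤ) := fun w =>
    if hw : ∃ ω, 0 < p ω ∧ y ω = w then
      Fintype.piFinset fun i => Finset.Icc (f hw.choose i - R) (f hw.choose i + R) else ∅ with hF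
  have h1 := CH_le_card hp.nonneg hp.sum_one f y F (fun ω hω => by
    have hw : ∃ ω', 0 < p ω' ∧ y ω' = y ω := ⟨ω, hω, rfl⟩
    rw [hF]
    simp only
    rw [dif_pos hw, Fintype.mem_piFinset]
    intro i
    have := h ω hw.choose hω hw.choose_spec.1 hw.choose_spec.2.symm i
    rw [abs_le] at this
    rw [mem_Icc]
    constructor <;> linarith [this.1, this.2])
  refine h1.trans ?_
  rw [← Ex_const hp.sum_one (m * Real.log (2 * R + 1))]
  refine Ex_mono hp.nonneg fun ω hω => ?_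
  have hw : ∃ ω', 0 < p ω' ∧ y ω' = y ω := ⟨ω, hω, rfl⟩
  rw [hF]
  simp only
  rw [dif_pos hw, Fintype.card_piFinset]
  have e : ∀ i : Fin m, (Finset.Icc (f hw.choose i - R) (f hw.choose i + R)).card = 2 * R + 1 := by
    intro i
    rw [Int.card_Icc]
    omega
  simp only [e]
  rw [Finset.prod_const, Finset.card_univ, Fintype.card_fin]
  push_cast
  rw [Real.log_pow]

section path

variable {D : NDat2} {n K J a₀ w₀ z M : ℕ} {lam gam : ℕ → ℝ} {κ C₁ : ℝ} {q : D.Ω → ℝ}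

/-- The hypotheses along a path of pairs. -/
structure Way (D : NDat2) (n z M : ℕ) (e : ℝ) (P : ℕ → ℕ × ℕ) (θ : ℕ → ℝ) (s : ℕ) : Prop where
  le : ∀ k ≤ s, (P k).1 ≤ M ∧ (P k).2 ≤ M
  θ0 : θ 0 = 0
  θp : ∀ k ≤ s, 0 ≤ θ k
  lev : ∀ k ≤ s, ∀ k' ≤ k, ∀ l, 1 ≤ l → l < n →
    (D.g (P k).1 (P k).2 l : ℝ) * Real.log 2 + (θ k - θ k') * z ≤
      D.g (P k').1 (P k').2 l * Real.log 2 + e * z

theorem pos_fr (hO : D.Ok2 n K J a₀ w₀ z M lam gam κ C₁ q) {p : ℕ × ℕ} (h1 : p.1 ≤ M)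
    (h2 : p.2 ≤ M) {ω : D.Ω} (hω : 0 < q ω) : ∀ i ≤ n,
    |nat (D.g p.1 p.2) (fr D p ω) (D.X ω) i| ≤ 1 := by
  intro i hi
  unfold fr
  rcases Nat.eq_zero_or_pos i with rfl | hi0
  · rw [nat_fz_zero, sub_self, mul_zero, abs_zero]
    exact zero_le_one
  · rw [nat_fz' _ _ rfl hi0]
    have := hO.pos _ h1 _ h2 ω hω i hi0 hi
    unfold NDat2.sh at this
    unfold nat
    rw [abs_mul, abs_of_pos (by positivity)]
    rw [le_div_iff₀ (by positivity)] at this
    linarith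

/-- The path of frames. -/
theorem way_pth (hO : D.Ok2 n K J a₀ w₀ z M lam gam κ C₁ q) {e : ℝ} (he : 0 ≤ e) {P : ℕ → ℕ × ℕ}
    {θ : ℕ → ℝ} {s : ℕ} (hW : Way D n z M e P θ s) {N : ℝ} (hN : (s : ℝ) ≤ N) (hN1 : 1 ≤ N)
    {ω : D.Ω} (hω : 0 < q ω) (hA : ∀ k < s, Adj D n (Real.exp (e * z)) (P k) (P (k + 1)) ω) :
    Pth n K s (fun k => D.g (P k).1 (P k).2) (fun k => fr D (P k) ω) (D.X ω)
      (fun k => Real.exp (-(θ k * z))) N (Real.exp (e * z)) where
  sN := hN
  N1 := hN1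
  E1 := Real.one_le_exp (by positivity)
  tri := fun _ _ => tri_fz (hO.G_tri _ _ _) _
  deg := fun _ _ _ _ => deg_fz (hO.G_deg _ _ _ _) _
  r0 := by
    rw [hW.θ0, zero_mul, neg_zero, Real.exp_zero]
  rp := fun _ _ => Real.exp_pos _
  r1 := fun k hk => by
    rw [Real.exp_le_one_iff]
    have := mul_nonneg (hW.θp k hk) (Nat.cast_nonneg (α := ℝ) z)
    linarith
  pos := fun k hk i hi => pos_fr hO (hW.le k hk).1 (hW.le k hk).2 hω i hi.le
  lev := fun k hk k' hk' i hi hin => by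
    have h1 := hW.lev k hk k' hk' i hi hin
    have h2 : ∀ m : ℕ, (2 : ℝ) ^ m = Real.exp (m * Real.log 2) := fun m => by
      rw [Real.exp_nat_mul, Real.exp_log (by norm_num)]
    rw [h2, h2, ← Real.exp_add, ← Real.exp_add, ← Real.exp_add]
    refine Real.exp_le_exp.2 ?_
    linarith
  adj := fun k hk l hl hln b hb => hA k hk l hl hln b hb

/-- Digits. -/
theorem flr {x y : ℝ} {R : ℕ} (h : |x - y| ≤ R) : |⌊x⌋ - ⌊y⌋| ≤ ((R + 1 : ℕ) : ℤ) := by
  have h1 := abs_le.1 h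
  have a1 := Int.floor_le x
  have a2 := Int.lt_floor_add_one x
  have a3 := Int.floor_le y
  have a4 := Int.lt_floor_add_one y
  have b1 : ((⌊x⌋ - ⌊y⌋ : ℤ) : ℝ) < R + 1 := by
    push_cast
    linarith
  have b2 : -((R : ℝ) + 1) < ((⌊x⌋ - ⌊y⌋ : ℤ) : ℝ) := by
    push_cast
    linarith
  rw [abs_le]
  push_cast
  constructor
  · have : -((R : ℤ) + 1) < ⌊x⌋ - ⌊y⌋ := by exact_mod_cast b2
    omega
  · have : ⌊x⌋ - ⌊y⌋ < (R : ℤ) + 1 := by exact_mod_cast b1
    omega

theorem exp_big {A z : ℝ} (hA : 0 ≤ A) (hz : 1 ≤ z) : A ≤ Real.exp (A * z) := by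
  have := Real.add_one_le_exp (A * z)
  nlinarith

/-- The difference of the labels along a part of the path varies little. -/
theorem tel {Φ : ℕ → ℕ → PN} {X b : ℕ → ℝ} {l j m : ℕ} {A : ℝ}
    (h : ∀ k, j ≤ k → k < j + m →
      |(eval b (Φ k l) - eval b (Φ (k + 1) l)) - (eval X (Φ k l) - eval X (Φ (k + 1) l))| ≤ A) :
    |(eval b (Φ j l) - eval b (Φ (j + m) l)) - (eval X (Φ j l) - eval X (Φ (j + m) l))| ≤
      m * A := by
  have e1 := Finset.sum_range_sub' (fun i => eval b (Φ (j + i) l) - eval X (Φ (j + i) l)) m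
  have e2 : (eval b (Φ j l) - eval b (Φ (j + m) l)) - (eval X (Φ j l) - eval X (Φ (j + m) l)) =
      ∑ i ∈ range m, ((eval b (Φ (j + i) l) - eval X (Φ (j + i) l)) -
        (eval b (Φ (j + (i + 1)) l) - eval X (Φ (j + (i + 1)) l))) := by
    rw [e1, add_zero]
    ring
  rw [e2]
  refine (abs_sum_le_sum_abs _ _).trans ?_
  have e3 : ∑ i ∈ range m, |((eval b (Φ (j + i) l) - eval X (Φ (j + i) l)) -
        (eval b (Φ (j + (i + 1)) l) - eval X (Φ (j + (i + 1)) l)))| ≤ ∑ _i ∈ range m, A := by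
    refine sum_le_sum fun i hi => ?_
    have := h (j + i) (by omega) (by have := mem_range.1 hi; omega)
    have e4 : ((eval b (Φ (j + i) l) - eval X (Φ (j + i) l)) -
        (eval b (Φ (j + (i + 1)) l) - eval X (Φ (j + (i + 1)) l))) =
        (eval b (Φ (j + i) l) - eval b (Φ (j + i + 1) l)) -
          (eval X (Φ (j + i) l) - eval X (Φ (j + i + 1) l)) := by
      rw [← add_assoc j i 1]
      ring
    rw [e4]
    exact this
  rw [sum_const, card_range, nsmul_eq_mul] at e3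
  exact e3

/-- The bounds on the event. -/
theorem way_bd (n K : ℕ) : ∃ A : ℝ, 1 ≤ A ∧ ∀ (D : NDat2) (J a₀ w₀ z M : ℕ) (lam gam : ℕ → ℝ)
    (κ C₁ : ℝ) (q : D.Ω → ℝ), D.Ok2 n K J a₀ w₀ z M lam gam κ C₁ q → ∀ (e B : ℝ) (P : ℕ → ℕ × ℕ)
    (θ : ℕ → ℝ) (s : ℕ), 0 ≤ e → 1 ≤ B → B ≤ Real.exp z → 1 ≤ z → Way D n z M e P θ s →
    (s : ℝ) ≤ Real.exp z →
    ∀ ω, 0 < q ω → (∀ k < s, Adj D n (Real.exp (e * z)) (P k) (P (k + 1)) ω) →
    ∀ b : ℕ → ℝ, b 0 = D.X ω 0 →
    (∀ i < n, |nat (D.g (P 0).1 (P 0).2) (fr D (P 0) ω) b i| ≤ B) →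
    (∀ k ≤ s, ∀ i < n, |nat (D.g (P k).1 (P k).2) (fr D (P k) ω) b i -
      nat (D.g (P k).1 (P k).2) (fr D (P k) ω) (D.X ω) i| ≤
        Real.exp (A * (e + 1) * z) * Real.exp (-(θ k * z))) ∧
    ∀ (j m l : ℕ) (L : ℝ), j + m ≤ s → l ≤ n →
      (∀ k, j ≤ k → k < j + m → L ≤ D.g (P k).1 (P k).2 l * Real.log 2 + θ k * z) →
      |(eval b (fr D (P j) ω l) - eval b (fr D (P (j + m)) ω l)) -
        (eval (D.X ω) (fr D (P j) ω l) - eval (D.X ω) (fr D (P (j + m)) ω l))| ≤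
        Real.exp (A * (e + 1) * z) * Real.exp (-L) := by
  obtain ⟨C, E, hC, h⟩ := pth n K
  refine ⟨C + 3 * E + 1, by
    have : (0 : ℝ) ≤ E := Nat.cast_nonneg _
    linarith, ?_⟩
  intro D J a₀ w₀ z M lam gam κ C₁ q hO e B P θ s he hB hBz hz hW hs ω hω hA b b0 hb
  have hz1 : (1 : ℝ) ≤ z := by exact_mod_cast hz
  have hE0 : (0 : ℝ) ≤ E := Nat.cast_nonneg _
  have hez : 1 ≤ Real.exp (z : ℝ) := Real.one_le_exp (by linarith)
  have hP := way_pth hO he hW (N := Real.exp z) hs hez hω hA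
  obtain ⟨h1, h2⟩ := h s _ _ _ _ _ _ B hP hB b b0 hb
  have key : C * (Real.exp z * Real.exp (e * z) * B) ^ E ≤
      Real.exp ((C + 3 * E) * (e + 1) * z) := by
    have k1 : Real.exp z * Real.exp (e * z) * B ≤ Real.exp ((e + 2) * z) := by
      calc Real.exp z * Real.exp (e * z) * B ≤ Real.exp z * Real.exp (e * z) * Real.exp z :=
            mul_le_mul_of_nonneg_left hBz (by positivity)
        _ = Real.exp ((e + 2) * z) := by
            rw [← Real.exp_add, ← Real.exp_add]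
            congr 1
            ring
    have k2 : (Real.exp z * Real.exp (e * z) * B) ^ E ≤ Real.exp (E * ((e + 2) * z)) := by
      rw [Real.exp_nat_mul]
      exact pow_le_pow_left₀ (by positivity) k1 _
    have k3 : C ≤ Real.exp (C * z) := exp_big (by linarith) hz1
    calc C * (Real.exp z * Real.exp (e * z) * B) ^ E
        ≤ Real.exp (C * z) * Real.exp (E * ((e + 2) * z)) :=
          mul_le_mul k3 k2 (by positivity) (Real.exp_pos _).le
      _ = Real.exp (C * z + E * ((e + 2) * z)) := by rw [← Real.exp_add]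
      _ ≤ Real.exp ((C + 3 * E) * (e + 1) * z) := by
          refine Real.exp_le_exp.2 ?_
          have p1 : 0 ≤ C * e * z := by positivity
          have p2 : 0 ≤ (E : ℝ) * e * z := by positivity
          have p3 : 0 ≤ (E : ℝ) * z := by positivity
          nlinarith
  have key2 : Real.exp ((C + 3 * E) * (e + 1) * z) ≤
      Real.exp ((C + 3 * E + 1) * (e + 1) * z) := by
    refine Real.exp_le_exp.2 ?_
    have : 0 ≤ (e + 1) * (z : ℝ) := by positivity
    nlinarith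
  refine ⟨fun k hk i hi => ?_, ?_⟩
  · refine (h1 k hk i hi).trans ?_
    exact mul_le_mul_of_nonneg_right (key.trans key2) (Real.exp_pos _).le
  · intro j m l L hjm hl hL
    have t := tel (Φ := fun k => fr D (P k) ω) (X := D.X ω) (b := b) (l := l) (j := j) (m := m)
      (A := Real.exp ((C + 3 * E) * (e + 1) * z) * Real.exp (-L)) (fun k hk hk' => by
        refine (h2 k (by omega) l hl).trans ?_
        have e1 : (2 : ℝ) ^ D.g (P k).1 (P k).2 l =
            Real.exp (D.g (P k).1 (P k).2 l * Real.log 2) := by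
          rw [Real.exp_nat_mul, Real.exp_log (by norm_num)]
        rw [e1, mul_div_assoc, ← Real.exp_sub]
        refine mul_le_mul key (Real.exp_le_exp.2 ?_) (Real.exp_pos _).le (Real.exp_pos _).le
        have := hL k hk hk'
        linarith)
    refine t.trans ?_
    have e2 : (m : ℝ) ≤ Real.exp z := le_trans (by exact_mod_cast (by omega : m ≤ s)) hs
    calc (m : ℝ) * (Real.exp ((C + 3 * E) * (e + 1) * z) * Real.exp (-L))
        ≤ Real.exp z * (Real.exp ((C + 3 * E) * (e + 1) * z) * Real.exp (-L)) :=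
          mul_le_mul_of_nonneg_right e2 (by positivity)
      _ = Real.exp (z + (C + 3 * E) * (e + 1) * z) * Real.exp (-L) := by
          rw [Real.exp_add]
          ring
      _ ≤ Real.exp ((C + 3 * E + 1) * (e + 1) * z) * Real.exp (-L) := by
          refine mul_le_mul_of_nonneg_right (Real.exp_le_exp.2 ?_) (Real.exp_pos _).le
          have : 0 ≤ e * (z : ℝ) := by positivity
          nlinarith

/-- The number of values. -/
theorem log_few {A z : ℝ} (hA : 0 ≤ A) (hz : 1 ≤ z) {R : ℕ} (hR : R = ⌈Real.exp (A * z)⌉₊ + 1) :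
    Real.log (2 * R + 1) ≤ (A + 2) * z := by
  have h0 : 1 ≤ Real.exp (A * z) := Real.one_le_exp (by positivity)
  have h1 : (R : ℝ) ≤ Real.exp (A * z) + 2 := by
    rw [hR]
    push_cast
    have := Nat.ceil_lt_add_one (Real.exp_pos (A * z)).le
    linarith
  have h2 : 2 * (R : ℝ) + 1 ≤ 7 * Real.exp (A * z) := by linarith
  have h3 : (7 : ℝ) ≤ Real.exp 2 := by
    have := Real.exp_one_gt_d9
    have e : Real.exp 2 = Real.exp 1 * Real.exp 1 := by
      rw [← Real.exp_add]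
      norm_num
    rw [e]
    nlinarith
  calc Real.log (2 * R + 1) ≤ Real.log (Real.exp 2 * Real.exp (A * z)) := by
        refine Real.log_le_log (by positivity) (h2.trans ?_)
        exact mul_le_mul_of_nonneg_right h3 (Real.exp_pos _).le
    _ = 2 + A * z := by rw [← Real.exp_add, Real.log_exp]
    _ ≤ (A + 2) * z := by nlinarith

/-- **The near digits of the base** are few given the labels at both ends of a path along which
the boxes grow. -/
theorem vd_few (n K : ℕ) : ∃ A : ℝ, 1 ≤ A ∧ ∀ (D : NDat2) (J a₀ w₀ z M : ℕ) (lam gam : ℕ → ℝ)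
    (κ C₁ : ℝ) (q p : D.Ω → ℝ), D.Ok2 n K J a₀ w₀ z M lam gam κ C₁ q → IsLaw p →
    ∀ (e : ℝ) (P : ℕ → ℕ × ℕ) (θ : ℕ → ℝ) (s r : ℕ) (Y : Type) (y : D.Ω → Y), 0 ≤ e → 1 ≤ z →
    Way D n z M e P θ s → (s : ℝ) ≤ Real.exp z →
    (∀ ω, 0 < p ω → 0 < q ω ∧ ∀ k < s, Adj D n (Real.exp (e * z)) (P k) (P (k + 1)) ω) →
    Det p y D.T → Det p y (D.s (P 0).1 (P 0).2) → Det p y (D.s (P s).1 (P s).2) →
    r * Real.log 2 ≤ θ s * z + e * z →
    CH p (D.vd n (P s).1 (P s).2 r) y ≤ A * (e + 1) * z := by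
  obtain ⟨A, hA, h⟩ := way_bd n K
  refine ⟨n * (A + 3) + 1, by
    have : 0 ≤ (n : ℝ) * (A + 3) := by positivity
    linarith, ?_⟩
  intro D J a₀ w₀ z M lam gam κ C₁ q p hO hp e P θ s r Y y he hz hW hs hG hT ha hb hr
  have hz1 : (1 : ℝ) ≤ z := by exact_mod_cast hz
  set A' : ℝ := (A + 1) * (e + 1) with hA'
  have hA'0 : 0 ≤ A' := by positivity
  obtain ⟨R, hR⟩ : ∃ R : ℕ, R = ⌈Real.exp (A' * z)⌉₊ + 1 := ⟨_, rfl⟩
  have key := few_vec hp (D.vd n (P s).1 (P s).2 r) y R (fun ω ω' hω hω' hy i => by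
    obtain ⟨q1, G1⟩ := hG ω hω
    obtain ⟨q2, -⟩ := hG ω' hω'
    have eT := hT ω ω' hω hω' hy
    have ea := ha ω ω' hω hω' hy
    have eb := hb ω ω' hω hω' hy
    have eX : D.X ω 0 = D.X ω' 0 := by rw [hO.X_zero, hO.X_zero, eT]
    have fa : fr D (P 0) ω = fr D (P 0) ω' := by
      unfold fr NDat2.Ψ
      rw [ea, eX]
    have fb : fr D (P s) ω = fr D (P s) ω' := by
      unfold fr NDat2.Ψ
      rw [eb, eX]
    have hbx : ∀ i < n, |nat (D.g (P 0).1 (P 0).2) (fr D (P 0) ω) (D.X ω') i| ≤ 1 := by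
      intro i hi
      rw [fa]
      exact pos_fr hO (hW.le 0 (Nat.zero_le _)).1 (hW.le 0 (Nat.zero_le _)).2 q2 i hi.le
    obtain ⟨k1, -⟩ := h D J a₀ w₀ z M lam gam κ C₁ q hO e 1 P θ s he le_rfl
      (Real.one_le_exp (by linarith)) hz hW hs ω q1 G1 (D.X ω') eX.symm hbx
    have hi1 : (i : ℕ) + 1 < n := by have := i.2; omega
    have k2 := k1 s le_rfl (i + 1) hi1
    have v : ∀ ω, D.vd n (P s).1 (P s).2 r ω i =
        ⌊(2 : ℝ) ^ r * nat (D.g (P s).1 (P s).2) (fr D (P s) ω) (D.X ω) (i + 1)⌋ := by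
      intro ω
      unfold NDat2.vd NDat2.sh fr
      rw [nat_fz' _ _ rfl (by omega)]
      unfold nat
      rw [pow_add]
      congr 1
      ring
    rw [v ω, v ω', ← fb]
    have k3 : |(2 : ℝ) ^ r * nat (D.g (P s).1 (P s).2) (fr D (P s) ω) (D.X ω) (i + 1) -
        2 ^ r * nat (D.g (P s).1 (P s).2) (fr D (P s) ω) (D.X ω') (i + 1)| ≤
        (⌈Real.exp (A' * z)⌉₊ : ℕ) := by
      rw [← mul_sub, abs_mul, abs_of_pos (by positivity), abs_sub_comm]
      have e1 : (2 : ℝ) ^ r = Real.exp (r * Real.log 2) := by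
        rw [Real.exp_nat_mul, Real.exp_log (by norm_num)]
      calc (2 : ℝ) ^ r * _ ≤ Real.exp (r * Real.log 2) * (Real.exp (A * (e + 1) * z) *
            Real.exp (-(θ s * z))) := by
            rw [e1]
            exact mul_le_mul_of_nonneg_left k2 (Real.exp_pos _).le
        _ = Real.exp (r * Real.log 2 + A * (e + 1) * z + -(θ s * z)) := by
            rw [← Real.exp_add, ← Real.exp_add]
            congr 1
            ring
        _ ≤ Real.exp (A' * z) := by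
            refine Real.exp_le_exp.2 ?_
            rw [hA']
            nlinarith
        _ ≤ _ := Nat.le_ceil _
    have := flr k3
    rw [hR]
    exact this)
  refine key.trans ?_
  have l1 := log_few (A := A') hA'0 hz1 hR
  have n1 : ((n - 1 : ℕ) : ℝ) ≤ n := by exact_mod_cast Nat.sub_le n 1
  have l0 : 0 ≤ Real.log (2 * (R : ℝ) + 1) := Real.log_nonneg (by
    have : (0 : ℝ) ≤ R := Nat.cast_nonneg _
    linarith)
  calc ((n - 1 : ℕ) : ℝ) * Real.log (2 * R + 1) ≤ n * ((A' + 2) * z) :=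
        mul_le_mul n1 l1 l0 (Nat.cast_nonneg _)
    _ ≤ (n * (A + 3) + 1) * (e + 1) * z := by
        rw [hA']
        have p1 : (0 : ℝ) ≤ n * e * z := by positivity
        have p2 : 0 ≤ (e + 1) * (z : ℝ) := by positivity
        nlinarith

/-- **The near digits of the height of the target.** -/
theorem nd_few (n K : ℕ) (hn : 1 ≤ n) : ∃ A : ℝ, 1 ≤ A ∧ ∀ (D : NDat2) (J a₀ w₀ z M : ℕ)
    (lam gam : ℕ → ℝ) (κ C₁ : ℝ) (q p : D.Ω → ℝ), D.Ok2 n K J a₀ w₀ z M lam gam κ C₁ q →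
    IsLaw p → ∀ (e : ℝ) (P : ℕ → ℕ × ℕ) (θ : ℕ → ℝ) (s r : ℕ) (Y : Type) (y : D.Ω → Y),
    0 ≤ e → 1 ≤ z → Way D n z M e P θ s → (s : ℝ) ≤ Real.exp z →
    (∀ ω, 0 < p ω → 0 < q ω ∧ ∀ k < s, Adj D n (Real.exp (e * z)) (P k) (P (k + 1)) ω) →
    Det p y D.T → Det p y (D.s (P 0).1 (P 0).2) → Det p y (D.s (P s).1 (P s).2) →
    ((D.g (P s).1 (P s).2 n + r : ℕ) : ℝ) * Real.log 2 ≤
      D.g (P 0).1 (P 0).2 n * Real.log 2 + e * z →
    (∀ k < s, ((D.g (P s).1 (P s).2 n + r : ℕ) : ℝ) * Real.log 2 ≤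
      D.g (P k).1 (P k).2 n * Real.log 2 + θ k * z + e * z) →
    CH p (D.nd n (P s).1 (P s).2 r) y ≤ A * (e + 1) * z := by
  obtain ⟨A, hA, h⟩ := way_bd n K
  refine ⟨A + 6, by linarith, ?_⟩
  intro D J a₀ w₀ z M lam gam κ C₁ q p hO hp e P θ s r Y y he hz hW hs hG hT ha hb hr hr2
  have hz1 : (1 : ℝ) ≤ z := by exact_mod_cast hz
  set A' : ℝ := (A + 3) * (e + 1) with hA'
  have hA'0 : 0 ≤ A' := by positivity
  obtain ⟨R, hR⟩ : ∃ R : ℕ, R = ⌈Real.exp (A' * z)⌉₊ + 1 := ⟨_, rfl⟩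
  have key := few_vec hp (fun ω (_ : Fin 1) => D.nd n (P s).1 (P s).2 r ω) y R
    (fun ω ω' hω hω' hy i => by
    obtain ⟨q1, G1⟩ := hG ω hω
    obtain ⟨q2, -⟩ := hG ω' hω'
    have eT := hT ω ω' hω hω' hy
    have ea := ha ω ω' hω hω' hy
    have eb := hb ω ω' hω hω' hy
    have eX : D.X ω 0 = D.X ω' 0 := by rw [hO.X_zero, hO.X_zero, eT]
    have fa : fr D (P 0) ω = fr D (P 0) ω' := by
      unfold fr NDat2.Ψ
      rw [ea, eX]
    have fb : fr D (P s) ω = fr D (P s) ω' := by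
      unfold fr NDat2.Ψ
      rw [eb, eX]
    have hbx : ∀ i < n, |nat (D.g (P 0).1 (P 0).2) (fr D (P 0) ω) (D.X ω') i| ≤ 1 := by
      intro i hi
      rw [fa]
      exact pos_fr hO (hW.le 0 (Nat.zero_le _)).1 (hW.le 0 (Nat.zero_le _)).2 q2 i hi.le
    obtain ⟨-, k1⟩ := h D J a₀ w₀ z M lam gam κ C₁ q hO e 1 P θ s he le_rfl
      (Real.one_le_exp (by linarith)) hz hW hs ω q1 G1 (D.X ω') eX.symm hbx
    have k2 := k1 0 s n (((D.g (P s).1 (P s).2 n + r : ℕ) : ℝ) * Real.log 2 - e * z)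
      (by omega) le_rfl (fun k _ hk => by
        have := hr2 k (by omega)
        linarith)
    rw [zero_add] at k2
    have p0 : ∀ ω, 0 < q ω → |D.X ω n - eval (D.X ω) (fr D (P 0) ω n)| ≤
        1 / 2 ^ D.g (P 0).1 (P 0).2 n := by
      intro ω hω
      have := pos_fr hO (hW.le 0 (Nat.zero_le _)).1 (hW.le 0 (Nat.zero_le _)).2 hω n le_rfl
      unfold nat at this
      rw [abs_mul, abs_of_pos (by positivity)] at this
      rw [le_div_iff₀ (by positivity), mul_comm]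
      exact this
    have v : ∀ ω, D.nd n (P s).1 (P s).2 r ω =
        ⌊(2 : ℝ) ^ (D.g (P s).1 (P s).2 n + r) * (D.X ω n - eval (D.X ω) (fr D (P s) ω n))⌋ := by
      intro ω
      unfold NDat2.nd NDat2.sh fr
      rw [eval_fz' _ rfl hn]
    rw [v ω, v ω', ← fb]
    have a1 := p0 ω q1
    have a2 := p0 ω' q2
    rw [← fa] at a2
    have a3 : (D.X ω n - eval (D.X ω) (fr D (P s) ω n)) -
        (D.X ω' n - eval (D.X ω') (fr D (P s) ω n)) =
        (D.X ω n - eval (D.X ω) (fr D (P 0) ω n)) -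
          (D.X ω' n - eval (D.X ω') (fr D (P 0) ω n)) -
        ((eval (D.X ω') (fr D (P 0) ω n) - eval (D.X ω') (fr D (P s) ω n)) -
          (eval (D.X ω) (fr D (P 0) ω n) - eval (D.X ω) (fr D (P s) ω n))) := by ring
    have a4 : |(D.X ω n - eval (D.X ω) (fr D (P s) ω n)) -
        (D.X ω' n - eval (D.X ω') (fr D (P s) ω n))| ≤
        1 / 2 ^ D.g (P 0).1 (P 0).2 n + 1 / 2 ^ D.g (P 0).1 (P 0).2 n +
        Real.exp (A * (e + 1) * z) * Real.exp (-(((D.g (P s).1 (P s).2 n + r : ℕ) : ℝ) *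
          Real.log 2 - e * z)) := by
      rw [a3]
      refine (abs_sub _ _).trans (add_le_add ((abs_sub _ _).trans (add_le_add a1 a2)) k2)
    have two : ∀ m : ℕ, (2 : ℝ) ^ m = Real.exp (m * Real.log 2) := fun m => by
      rw [Real.exp_nat_mul, Real.exp_log (by norm_num)]
    have k3 : |(2 : ℝ) ^ (D.g (P s).1 (P s).2 n + r) *
        (D.X ω n - eval (D.X ω) (fr D (P s) ω n)) - 2 ^ (D.g (P s).1 (P s).2 n + r) *
        (D.X ω' n - eval (D.X ω') (fr D (P s) ω n))| ≤ (⌈Real.exp (A' * z)⌉₊ : ℕ) := by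
      rw [← mul_sub, abs_mul, abs_of_pos (by positivity)]
      have b1 : (2 : ℝ) ^ (D.g (P s).1 (P s).2 n + r) * (1 / 2 ^ D.g (P 0).1 (P 0).2 n) ≤
          Real.exp (e * z) := by
        rw [two, two, one_div, ← Real.exp_neg, ← Real.exp_add]
        refine Real.exp_le_exp.2 ?_
        linarith
      have b2 : (2 : ℝ) ^ (D.g (P s).1 (P s).2 n + r) * (Real.exp (A * (e + 1) * z) *
          Real.exp (-(((D.g (P s).1 (P s).2 n + r : ℕ) : ℝ) * Real.log 2 - e * z))) =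
          Real.exp (A * (e + 1) * z + e * z) := by
        rw [two, ← Real.exp_add, ← Real.exp_add]
        congr 1
        ring
      have b3 : Real.exp (e * z) ≤ Real.exp (A * (e + 1) * z + e * z) := by
        refine Real.exp_le_exp.2 ?_
        have : 0 ≤ A * (e + 1) * (z : ℝ) := by positivity
        linarith
      have b4 : (3 : ℝ) ≤ Real.exp (2 * z) := by
        have := Real.add_one_le_exp (2 * (z : ℝ))
        linarith
      calc (2 : ℝ) ^ (D.g (P s).1 (P s).2 n + r) * _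
          ≤ 2 ^ (D.g (P s).1 (P s).2 n + r) * (1 / 2 ^ D.g (P 0).1 (P 0).2 n +
            1 / 2 ^ D.g (P 0).1 (P 0).2 n + Real.exp (A * (e + 1) * z) *
            Real.exp (-(((D.g (P s).1 (P s).2 n + r : ℕ) : ℝ) * Real.log 2 - e * z))) :=
            mul_le_mul_of_nonneg_left a4 (by positivity)
        _ ≤ 3 * Real.exp (A * (e + 1) * z + e * z) := by
            rw [mul_add, mul_add, b2]
            linarith
        _ ≤ Real.exp (2 * z) * Real.exp (A * (e + 1) * z + e * z) :=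
            mul_le_mul_of_nonneg_right b4 (Real.exp_pos _).le
        _ ≤ Real.exp (A' * z) := by
            rw [← Real.exp_add]
            refine Real.exp_le_exp.2 ?_
            rw [hA']
            have : 0 ≤ e * (z : ℝ) := by positivity
            nlinarith
        _ ≤ _ := Nat.le_ceil _
    have := flr k3
    rw [hR]
    exact this)
  have c1 : CH p (D.nd n (P s).1 (P s).2 r) y ≤
      CH p (fun ω (_ : Fin 1) => D.nd n (P s).1 (P s).2 r ω) y :=
    CH_mono_left hp.nonneg fun ω ω' _ _ hh => congrFun (Prod.ext_iff.1 hh).1 0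
  refine c1.trans (key.trans ?_)
  have l1 := log_few (A := A') hA'0 hz1 hR
  rw [Nat.cast_one, one_mul]
  refine l1.trans ?_
  rw [hA']
  have : 0 ≤ e * (z : ℝ) := by positivity
  nlinarith

end path

end Pool.MIC7
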