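import Pool.Agent.H7.MIC.LLe

/-!
# The base is full given two contexts

`llc3`: several steps on the right, several steps on the left. `llc_one`: the direction `(1, r)`,
one step on the left; `llc_all`: the form with the loss `C z`.
-/

set_option autoImplicit false

namespace Pool.MIC7

open Finset Real MvPolynomial
open Pool.Agent.H49.Ent Pool.Agent.H32.Dense Pool.STK Pool.STAT Pool.MIC.Frm Pool.MIC24 Pool.DM
open Pool.MIC
open Pool.BFL (Pb)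
open Pool.PLK (plk_few det_vis vd_eq)
open Pool.GSD (sd_vis)

/-- **The base is full given all contexts on the left half line** in a cheap direction, if the
coordinates are deeper by `U z` at `(i + s a, j + s b)`. -/
theorem llc3 (n K : ℕ) (lam gam : ℕ → ℝ) (C₁ : ℝ) (hC₁ : 1 ≤ C₁) : ∃ C : ℝ, 1 ≤ C ∧
    ∀ (M : ℕ) (η : ℝ), 2 ≤ M → 0 < η → ∃ (κ₀ : ℝ) (z₀ : ℕ), 0 < κ₀ ∧
    ∀ (J a₀ w₀ z : ℕ) (κ κ' : ℝ) (D : NDat2) (q : D.Ω → ℝ), z₀ ≤ z → κ ≤ κ₀ →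
      D.Ok2 n K J a₀ w₀ z M lam gam κ C₁ q → D.DMP z M κ' q →
      ∀ (i j a b s s' U : ℕ), i + s * a < M → j + s * b < M → i + U ≤ M → s' * a ≤ i →
        s' * b ≤ j → (∀ l, 1 ≤ l → l < n → (U : ℝ) ≤ lam l * (s * a : ℕ) + gam l * (s * b : ℕ)) →
        ((n - 1 : ℕ) : ℝ) * (U * z) * Real.log 2 - ((C + κ + κ') * z + η * (U * z)) ≤
          CH q (D.vd n i j (U * z)) (fun ω => (D.frt i j a b s' ω, (D.c i j ω, D.T ω))) := by
  obtain ⟨c, hc⟩ := exists_nat_ge (2 * C₁)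
  obtain ⟨C, hC, hfew⟩ := plk_few n K lam gam C₁ hC₁ c
  refine ⟨C, hC, fun M η hM hη => ?_⟩
  obtain ⟨κ₀, z₀, hκ₀, hfew⟩ := hfew M η hM hη
  refine ⟨κ₀, z₀, hκ₀, ?_⟩
  intro J a₀ w₀ z κ κ' D q hz hκ hO hD i j a b s s' U h1 h2 h3 h4 h5 hU
  have hq := hO.isLaw.nonneg
  have hi : i < M := by omega
  have hj : j < M := by omega
  have dT : Det q (fun ω => (D.bck i j a b s ω, (D.c i j ω, D.T ω))) D.T :=
    fun ω ω' _ _ e => congrArg (fun x => x.2.2) e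
  have dc : Det q (fun ω => (D.bck i j a b s ω, (D.c i j ω, D.T ω))) (D.c i j) :=
    fun ω ω' _ _ e => congrArg (fun x => x.2.1) e
  have db : Det q (fun ω => (D.bck i j a b s ω, (D.c i j ω, D.T ω)))
      (D.c (i + s * a) (j + s * b)) := by
    intro ω ω' _ _ e
    have e0 : D.bck i j a b s ω = D.bck i j a b s ω' := congrArg (fun x => x.1) e
    have e1 : D.c (i + s * a) (j + s * b) ω = D.c (i + s * a) (j + s * b) ω' :=
      congrFun e0 (Fin.last s)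
    exact e1
  have f1 := det_vis hO hi.le hj.le dc dT
  have f2 := det_vis hO h1.le h2.le db dT
  have few := hfew J a₀ w₀ z κ D q hz hκ hO i j (i + s * a) (j + s * b) i j (n - 1) (U * z)
    (D.Ψ i j) (D.Ψ (i + s * a) (j + s * b)) (D.Ψ i j) _
    (fun ω => (D.bck i j a b s ω, (D.c i j ω, D.T ω)))
    hi hj h1 h2 hi hj (Nat.sub_le _ _) (fun ω hω => sd_vis hO hi.le hj.le hω)
    (fun ω hω => sd_vis hO h1.le h2.le hω) (fun ω hω => sd_vis hO hi.le hj.le hω)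
    f1 f2 f1 dT
    (fun l hl => Or.inl (lev_pos hO hc h1.le h2.le (by omega) (by omega)
      (hU (l + 1) (by omega) (by omega))))
    (fun l _ => Nat.le_add_right _ _)
  rw [← vd_eq] at few
  have hf := hO.full i hi.le j hj.le U h3
  have hY : CH q (D.frt i j a b s') (fun ω => (D.frt i j a b s' ω, (D.c i j ω, D.T ω))) ≤ 0 :=
    (CH_eq_zero hq (fun _ _ _ _ e => congrArg (fun x => x.1) e)).le
  have h6 := (hD.use hq (s := s) (s' := s') h1.le h2.le h4 h5 few hY).1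
  push_cast at few h6
  linarith

/-- **The base is full given two contexts**, the second one of larger radius (one step) and longer
window. -/
theorem llc_one (n K : ℕ) (lam gam : ℕ → ℝ) (C₁ : ℝ) (hC₁ : 1 ≤ C₁)
    (hlam : ∀ l, 1 ≤ l → l < n → 1 ≤ lam l) (hgam : ∀ l, 0 ≤ gam l) : ∃ C : ℝ, 1 ≤ C ∧
    ∀ (M : ℕ) (η : ℝ), 2 ≤ M → 0 < η → ∃ (κ₀ : ℝ) (z₀ : ℕ), 0 < κ₀ ∧
    ∀ (J a₀ w₀ z : ℕ) (κ κ' : ℝ) (D : NDat2) (q : D.Ω → ℝ), z₀ ≤ z → κ ≤ κ₀ →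
      D.Ok2 n K J a₀ w₀ z M lam gam κ C₁ q → D.DMP z M κ' q →
      ∀ (i j r U : ℕ), 1 ≤ i → r ≤ j → i + U < M → j + U * r < M →
        ((n - 1 : ℕ) : ℝ) * (U * z) * Real.log 2 - ((C + κ + κ') * z + η * (U * z)) ≤
          CH q (D.vd n i j (U * z)) (fun ω => (D.c (i - 1) (j - r) ω, (D.c i j ω, D.T ω))) := by
  obtain ⟨C, hC, h⟩ := llc3 n K lam gam C₁ hC₁
  refine ⟨C, hC, fun M η hM hη => ?_⟩
  obtain ⟨κ₀, z₀, hκ₀, h⟩ := h M η hM hη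
  refine ⟨κ₀, z₀, hκ₀, ?_⟩
  intro J a₀ w₀ z κ κ' D q hz hκ hO hD i j r U h1 h2 h3 h4
  refine (h J a₀ w₀ z κ κ' D q hz hκ hO hD i j 1 r U 1 U (by omega) h4 (by omega) (by omega)
    (by omega) (fun l a b => ?_)).trans ?_
  · have e1 := hlam l a b
    have e2 := hgam l
    have e3 : (0 : ℝ) ≤ ((U * r : ℕ) : ℝ) := Nat.cast_nonneg _
    have e4 : (0 : ℝ) ≤ U := Nat.cast_nonneg _
    have e5 : 0 ≤ gam l * ((U * r : ℕ) : ℝ) := mul_nonneg e2 e3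
    rw [Nat.mul_one]
    nlinarith
  · refine CH_mono_cond hO.isLaw.nonneg fun ω ω' _ _ e => ?_
    have e0 : D.frt i j 1 r 1 ω = D.frt i j 1 r 1 ω' := congrArg (fun x => x.1) e
    have e1 : D.c (i - 1 * 1) (j - 1 * r) ω = D.c (i - 1 * 1) (j - 1 * r) ω' :=
      congrFun e0 (1 : Fin (1 + 1))
    rw [Nat.one_mul, Nat.one_mul] at e1
    exact Prod.ext e1 (congrArg (fun x => x.2) e)

/-- **The base is full given two contexts**, loss `C z`. -/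
theorem llc_all (n K : ℕ) (lam gam : ℕ → ℝ) (C₁ : ℝ) (hC₁ : 1 ≤ C₁)
    (hlam : ∀ l, 1 ≤ l → l < n → 1 ≤ lam l) (hgam : ∀ l, 0 ≤ gam l) : ∃ C : ℝ, 1 ≤ C ∧
    ∀ M : ℕ, 2 ≤ M → ∃ (κ₀ : ℝ) (z₀ : ℕ), 0 < κ₀ ∧
    ∀ (J a₀ w₀ z : ℕ) (κ κ' : ℝ) (D : NDat2) (q : D.Ω → ℝ), z₀ ≤ z → κ ≤ κ₀ → κ' ≤ 1 →
      D.Ok2 n K J a₀ w₀ z M lam gam κ C₁ q → D.DMP z M κ' q →
      ∀ (i j r U : ℕ), 1 ≤ i → r ≤ j → i + U < M → j + U * r < M →
        ((n - 1 : ℕ) : ℝ) * (U * z) * Real.log 2 - C * z ≤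
          CH q (D.vd n i j (U * z)) (fun ω => (D.c (i - 1) (j - r) ω, (D.c i j ω, D.T ω))) := by
  obtain ⟨C, hC, h⟩ := llc_one n K lam gam C₁ hC₁ hlam hgam
  refine ⟨C + 3, by linarith, fun M hM => ?_⟩
  have hM0 : (0 : ℝ) < M := by
    have : 0 < M := by omega
    exact_mod_cast this
  obtain ⟨κ₀, z₀, hκ₀, h⟩ := h M (1 / M) hM (by positivity)
  refine ⟨min κ₀ 1, z₀, lt_min hκ₀ one_pos, ?_⟩
  intro J a₀ w₀ z κ κ' D q hz hκ hκ' hO hD i j r U h1 h2 h3 h4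
  refine le_trans ?_ (h J a₀ w₀ z κ κ' D q hz (hκ.trans (min_le_left _ _)) hO hD i j r U h1 h2
    h3 h4)
  have hκ1 : κ ≤ 1 := hκ.trans (min_le_right _ _)
  have hz0 : (0 : ℝ) ≤ z := Nat.cast_nonneg z
  have hUM : (U : ℝ) ≤ M := by
    have : U ≤ M := by omega
    exact_mod_cast this
  have e1 : 1 / (M : ℝ) * (U * z) ≤ z := by
    rw [one_div, inv_mul_le_iff₀ hM0]
    exact mul_le_mul_of_nonneg_right hUM hz0
  have e2 : (C + κ + κ') * z ≤ (C + 2) * z := mul_le_mul_of_nonneg_right (by linarith) hz0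
  nlinarith

end Pool.MIC7
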