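import Pool.Agent.H7.MIC.LLd
import Pool.Agent.H7.MIC.DmP
import Pool.Agent.H7.MIC.Plk

/-!
# Contexts in cheap directions

`DMP`: the contexts on the two half lines through a place of the grid, in the directions in which
radius and window both grow, are almost independent given the context at the place and the exact
time. `lla_dmp`: every cell has a sub-cell with `LLA`, `DMA` and `DMP`. `llc2`: with `DMP` the base
is full given the context at the place and all contexts on the left half line.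
-/

set_option autoImplicit false

namespace Pool.STAT

open Pool.Agent.H49.Ent Pool.Agent.H32.Dense

/-- **Contexts in a cheap direction.** -/
def NDat2.DMP (D : NDat2) (z M : ℕ) (κ : ℝ) (q : D.Ω → ℝ) : Prop :=
  ∀ i j a b s s' : ℕ, i + s * a ≤ M → j + s * b ≤ M → s' * a ≤ i → s' * b ≤ j →
    CH q (fun ω (k : Fin (s + 1)) => D.c (i + k * a) (j + k * b) ω)
        (fun ω => (D.c i j ω, D.T ω)) ≤
      CH q (fun ω (k : Fin (s + 1)) => D.c (i + k * a) (j + k * b) ω)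
        (fun ω => ((fun k : Fin (s' + 1) => D.c (i - k * a) (j - k * b) ω),
          (D.c i j ω, D.T ω))) + κ * z

namespace NDat2

variable {D : NDat2} {z M : ℕ} {κ κ' : ℝ} {q : D.Ω → ℝ}

/-- The larger radii and the longer windows. -/
def frt (D : NDat2) (i j a b s : ℕ) (ω : D.Ω) (k : Fin (s + 1)) : D.Γ :=
  D.c (i - k * a) (j - k * b) ω

/-- The smaller radii and the shorter windows. -/
def bck (D : NDat2) (i j a b s : ℕ) (ω : D.Ω) (k : Fin (s + 1)) : D.Γ :=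
  D.c (i + k * a) (j + k * b) ω

theorem DMP.mono (h : D.DMP z M κ q) (hκ : κ ≤ κ') : D.DMP z M κ' q := by
  intro i j a b s s' h1 h2 h3 h4
  have := mul_le_mul_of_nonneg_right hκ (Nat.cast_nonneg (α := ℝ) z)
  have := h i j a b s s' h1 h2 h3 h4
  linarith

/-- **Functions of two almost independent variables.** -/
theorem mi_fun {Ω S₁ S₂ S₃ S₄ T : Type} [Fintype Ω] {q : Ω → ℝ} (hq : ∀ ω, 0 ≤ q ω) {L : Ω → S₁}
    {R : Ω → S₂} {X : Ω → S₃} {Y : Ω → S₄} {W : Ω → T} {e e₁ e₂ : ℝ}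
    (h : CH q L W ≤ CH q L (fun ω => (R ω, W ω)) + e) (hX : CH q X (fun ω => (L ω, W ω)) ≤ e₁)
    (hY : CH q Y (fun ω => (R ω, W ω)) ≤ e₂) :
    CH q X W ≤ CH q X (fun ω => (Y ω, W ω)) + (e + e₁ + e₂) := by
  have a1 : CH q X (fun ω => (R ω, W ω)) ≤ CH q X (fun ω => (Y ω, W ω)) + e₂ := by
    have b1 : CH q X (fun ω => (Y ω, (R ω, W ω))) ≤ CH q X (fun ω => (Y ω, W ω)) :=
      CH_mono_cond hq fun ω ω' _ _ e => by
        simp only [Prod.mk.injEq] at e ⊢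
        exact ⟨e.1, e.2.2⟩
    have b2 := CH_le_add hq X Y (fun ω => (R ω, W ω))
    linarith
  have a2 : CH q X W ≤ CH q X (fun ω => (R ω, W ω)) + e + e₁ := by
    have s1 := mi_symm hq X R W
    have s2 := mi_symm hq L R W
    have b1 : CH q R (fun ω => (L ω, W ω)) ≤ CH q R (fun ω => (X ω, W ω)) + e₁ := by
      have d1 := CH_le_add hq R X (fun ω => (L ω, W ω))
      have c2 : CH q R (fun ω => (X ω, (L ω, W ω))) ≤ CH q R (fun ω => (X ω, W ω)) :=
        CH_mono_cond hq fun ω ω' _ _ e => by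
          simp only [Prod.mk.injEq] at e ⊢
          exact ⟨e.1, e.2.2⟩
      linarith
    linarith
  linarith

/-- **Functions of the two sides.** -/
theorem DMP.use (h : D.DMP z M κ q) (hq : ∀ ω, 0 ≤ q ω) {i j a b s s' : ℕ}
    (h1 : i + s * a ≤ M) (h2 : j + s * b ≤ M) (h3 : s' * a ≤ i) (h4 : s' * b ≤ j) {S₁ S₂ : Type}
    {X : D.Ω → S₁} {Y : D.Ω → S₂} {e₁ e₂ : ℝ}
    (hX : CH q X (fun ω => (D.bck i j a b s ω, (D.c i j ω, D.T ω))) ≤ e₁)
    (hY : CH q Y (fun ω => (D.frt i j a b s' ω, (D.c i j ω, D.T ω))) ≤ e₂) :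
    CH q X (fun ω => (D.c i j ω, D.T ω)) ≤
        CH q X (fun ω => (Y ω, (D.c i j ω, D.T ω))) + (κ * z + e₁ + e₂) ∧
      CH q Y (fun ω => (D.c i j ω, D.T ω)) ≤
        CH q Y (fun ω => (X ω, (D.c i j ω, D.T ω))) + (κ * z + e₁ + e₂) := by
  have key := mi_fun hq (L := D.bck i j a b s) (R := D.frt i j a b s') (X := X) (Y := Y)
    (W := fun ω => (D.c i j ω, D.T ω)) (h i j a b s s' h1 h2 h3 h4) hX hY
  refine ⟨key, ?_⟩
  have s1 := mi_symm hq X Y (fun ω => (D.c i j ω, D.T ω))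
  linarith

end NDat2

end Pool.STAT

namespace Pool.MIC7

open Finset Real MvPolynomial
open Pool.Agent.H49.Ent Pool.Agent.H32.Dense Pool.STK Pool.STAT Pool.MIC.Frm Pool.MIC24 Pool.DM
open Pool.MIC
open Pool.BFL (Pb)
open Pool.PLK (plk_few det_vis vd_eq)
open Pool.GSD (sd_vis)

/-- **A local statement**, all cheap directions. -/
def LocP (n K : ℕ) (lam gam : ℕ → ℝ) (C₁ κ' : ℝ)
    (Pr : ∀ D : NDat2, (D.Ω → ℝ) → ℕ → ℕ → ℕ → ℕ → Prop) : Prop :=
  ∃ (d : ℤ × ℤ) (W m₁ : ℕ), d.1 ≤ d.2 ∧ 0 ≤ d.2 ∧ ∀ Nm : ℕ, 1 ≤ Nm →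
    ∃ (κ₀ : ℝ) (z₀ : ℕ), 0 < κ₀ ∧ ∀ (J a₀ w₀ z M : ℕ) (κ : ℝ) (D : NDat2) (q : D.Ω → ℝ),
      z₀ ≤ z → κ ≤ κ₀ → D.Ok2 n K J a₀ w₀ z M lam gam κ C₁ q → ∀ (l N i j : ℕ), m₁ ≤ l →
      N = 2 ^ l → N ≤ Nm → W * N ≤ i → i + W * N ≤ M → W * N ≤ j → j + W * N ≤ M →
      mi q D.T (Rc D) (((i : ℤ), (j : ℤ)) - N • d) d N ≤ N * (κ' * z) → Pr D q z N i j

theorem Loc.toP {n K : ℕ} {lam gam : ℕ → ℝ} {C₁ κ' : ℝ}
    {Pr : ∀ D : NDat2, (D.Ω → ℝ) → ℕ → ℕ → ℕ → ℕ → Prop} (h : Loc n K lam gam C₁ κ' Pr) :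
    LocP n K lam gam C₁ κ' Pr := by
  obtain ⟨d, W, m₁, h1, h2, h3⟩ := h
  exact ⟨d, W, m₁, by omega, h2, h3⟩

theorem LocP.imp {n K : ℕ} {lam gam : ℕ → ℝ} {C₁ κ' : ℝ}
    {Pr Pr' : ∀ D : NDat2, (D.Ω → ℝ) → ℕ → ℕ → ℕ → ℕ → Prop} (h : LocP n K lam gam C₁ κ' Pr)
    (h' : ∀ (D : NDat2) (q : D.Ω → ℝ) (z N i j : ℕ), Pr D q z N i j → Pr' D q z N i j) :
    LocP n K lam gam C₁ κ' Pr' := by
  obtain ⟨d, W, m₁, h1, h2, h3⟩ := h
  refine ⟨d, W, m₁, h1, h2, fun Nm hNm => ?_⟩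
  obtain ⟨κ₀, z₀, h4, h5⟩ := h3 Nm hNm
  exact ⟨κ₀, z₀, h4, fun J a₀ w₀ z M κ D q a1 a2 a3 l N i j b1 b2 b3 b4 b5 b6 b7 b8 =>
    h' D q z N i j (h5 J a₀ w₀ z M κ D q a1 a2 a3 l N i j b1 b2 b3 b4 b5 b6 b7 b8)⟩

/-- **Sub-cells** with finitely many local statements. -/
theorem sub_genP {α : Type} (n K : ℕ) (lam gam : ℕ → ℝ) (C₁ κ' : ℝ) (hκ' : 0 < κ') (M' m₀ : ℕ)
    (F : Finset α) (o : α → ℕ × ℕ) (ho : ∀ x ∈ F, (o x).1 ≤ M' ∧ (o x).2 ≤ M')
    (Pr : α → ∀ D : NDat2, (D.Ω → ℝ) → ℕ → ℕ → ℕ → ℕ → Prop)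
    (H : ∀ x ∈ F, LocP n K lam gam C₁ κ' (Pr x)) :
    ∃ (M : ℕ) (κ : ℝ) (z₀ : ℕ), 0 < κ ∧ ∀ (J a₀ w₀ z : ℕ) (D : NDat2) (q : D.Ω → ℝ), z₀ ≤ z →
      D.Ok2 n K J a₀ w₀ z M lam gam κ C₁ q → ∃ (N i₀ j₀ : ℕ), m₀ ≤ N ∧ NDat2.SubG i₀ j₀ N M' M ∧
      ∀ x ∈ F, Pr x D q z N (i₀ + (o x).1 * N) (j₀ + (o x).2 * N) := by
  classical
  have hH : ∀ x : α, ∃ (d : ℤ × ℤ) (W m₁ : ℕ), d.1 ≤ d.2 ∧ 0 ≤ d.2 ∧ (x ∈ F → ∀ Nm : ℕ, 1 ≤ Nm →
      ∃ (κ₀ : ℝ) (z₀ : ℕ), 0 < κ₀ ∧ ∀ (J a₀ w₀ z M : ℕ) (κ : ℝ) (D : NDat2) (q : D.Ω → ℝ),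
      z₀ ≤ z → κ ≤ κ₀ → D.Ok2 n K J a₀ w₀ z M lam gam κ C₁ q → ∀ (l N i j : ℕ), m₁ ≤ l →
      N = 2 ^ l → N ≤ Nm → W * N ≤ i → i + W * N ≤ M → W * N ≤ j → j + W * N ≤ M →
      mi q D.T (Rc D) (((i : ℤ), (j : ℤ)) - N • d) d N ≤ N * (κ' * z) → Pr x D q z N i j) := by
    intro x
    by_cases hx : x ∈ F
    · obtain ⟨d, W, m₁, h1, h2, h3⟩ := H x hx
      exact ⟨d, W, m₁, h1, h2, fun _ => h3⟩
    · exact ⟨(0, 0), 0, 0, le_rfl, le_rfl, fun h => absurd h hx⟩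
  choose dv Wv mv hv1 hv2 hv3 using hH
  obtain ⟨W1, hW1⟩ := nat_ub F Wv
  obtain ⟨k1, hk1⟩ := nat_ub F mv
  obtain ⟨m₂, M, hdm⟩ := dm_grid_p
    (F.image (fun x => ((((o x).1 : ℤ), ((o x).2 : ℤ)), dv x)))
    (by
      intro x hx
      obtain ⟨y, -, rfl⟩ := mem_image.1 hx
      exact ⟨hv1 _, hv2 _⟩) (W1 + M' + 1) (k1 + m₀) C₁ κ' hκ'
  obtain ⟨Nm, hNm⟩ : ∃ Nm : ℕ, Nm = 2 ^ (k1 + m₀ + m₂) := ⟨_, rfl⟩
  have hNm1 : 1 ≤ Nm := by rw [hNm]; exact Nat.one_le_two_pow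
  have gv : ∀ x : α, ∃ (κ₀ : ℝ) (z₀ : ℕ), 0 < κ₀ ∧ (x ∈ F →
      ∀ (J a₀ w₀ z M : ℕ) (κ : ℝ) (D : NDat2) (q : D.Ω → ℝ),
      z₀ ≤ z → κ ≤ κ₀ → D.Ok2 n K J a₀ w₀ z M lam gam κ C₁ q → ∀ (l N i j : ℕ), mv x ≤ l →
      N = 2 ^ l → N ≤ Nm → Wv x * N ≤ i → i + Wv x * N ≤ M → Wv x * N ≤ j → j + Wv x * N ≤ M →
      mi q D.T (Rc D) (((i : ℤ), (j : ℤ)) - N • dv x) (dv x) N ≤ N * (κ' * z) →
      Pr x D q z N i j) := by
    intro x
    by_cases hx : x ∈ F
    · obtain ⟨κ₀, z₀, h1, h2⟩ := hv3 x hx Nm hNm1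
      exact ⟨κ₀, z₀, h1, fun _ => h2⟩
    · exact ⟨1, 0, one_pos, fun h => absurd h hx⟩
  choose κv zv pv gv2 using gv
  obtain ⟨κ1, hκ1, hκ1'⟩ := pos_lb F κv pv
  obtain ⟨z1, hz1⟩ := nat_ub F zv
  refine ⟨M, κ1, z1, hκ1, ?_⟩
  intro J a₀ w₀ z D q hz hO
  obtain ⟨l, i₀, j₀, hl, hl', hWi, hWi', hWj, hWj', hmi⟩ := hdm D q z hO.isLaw hO.c_i hO.ij_few
  obtain ⟨N, hN⟩ : ∃ N : ℕ, N = 2 ^ l := ⟨_, rfl⟩
  have hR2 : (2 : ℝ) ^ l = N := by
    rw [hN]
    push_cast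
    rfl
  rw [hR2] at hmi
  rw [← hN] at hWi hWi' hWj hWj' hmi
  have hN1 : 1 ≤ N := by rw [hN]; exact Nat.one_le_two_pow
  have hNN : N ≤ Nm := by
    rw [hN, hNm]
    exact Nat.pow_le_pow_right (by norm_num) hl'.le
  have hm0 : m₀ ≤ N := by
    rw [hN]
    refine (Nat.lt_two_pow_self (n := m₀)).le.trans (Nat.pow_le_pow_right (by norm_num) ?_)
    omega
  have eW : (W1 + M' + 1) * N = W1 * N + M' * N + N := by ring
  rw [eW] at hWi hWi' hWj hWj'
  have epl : ∀ i j : ℕ, (((i₀ : ℤ), (j₀ : ℤ)) : ℤ × ℤ) + N • ((i : ℤ), (j : ℤ)) =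
      (((i₀ + i * N : ℕ) : ℤ), ((j₀ + j * N : ℕ) : ℤ)) := by
    intro i j
    refine Prod.ext ?_ ?_
    · simp
      ring
    · simp
      ring
  have hmul : ∀ i, i ≤ M' → i * N ≤ M' * N := fun i hi => Nat.mul_le_mul_right N hi
  refine ⟨N, i₀, j₀, hm0, ⟨hN1, ?_, ?_⟩, ?_⟩
  · have : (M' + 1) * N = M' * N + N := by ring
    omega
  · have : (M' + 1) * N = M' * N + N := by ring
    omega
  · intro x hx
    have h1 := hmi _ (mem_image_of_mem _ hx)
    simp only at h1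
    rw [epl] at h1
    have a1 := hmul _ (ho x hx).1
    have a2 := hmul _ (ho x hx).2
    have a3 := Nat.mul_le_mul_right N (hW1 _ hx)
    exact gv2 x hx J a₀ w₀ z M _ D q ((hz1 _ hx).trans hz)
      (hκ1' _ hx) hO l N (i₀ + (o x).1 * N) (j₀ + (o x).2 * N)
      (by have := hk1 _ hx; omega) hN hNN (by omega) (by omega) (by omega) (by omega) h1


theorem pl_lp (i j a b k : ℕ) (ha : k * a ≤ i) (hb : k * b ≤ j) :
    (((i : ℤ), (j : ℤ)) : ℤ × ℤ) - k • (((a : ℕ) : ℤ), ((b : ℕ) : ℤ)) =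
      (((i - k * a : ℕ) : ℤ), ((j - k * b : ℕ) : ℤ)) := by
  refine Prod.ext ?_ ?_
  · rw [Prod.fst_sub, Prod.smul_fst, nsmul_eq_mul, Nat.cast_sub ha, Nat.cast_mul]
  · rw [Prod.snd_sub, Prod.smul_snd, nsmul_eq_mul, Nat.cast_sub hb, Nat.cast_mul]

theorem pl_rp (i j a b k : ℕ) :
    (((i : ℤ), (j : ℤ)) : ℤ × ℤ) + k • (((a : ℕ) : ℤ), ((b : ℕ) : ℤ)) =
      (((i + k * a : ℕ) : ℤ), ((j + k * b : ℕ) : ℤ)) := by
  refine Prod.ext ?_ ?_
  · rw [Prod.fst_add, Prod.smul_fst, nsmul_eq_mul, Nat.cast_add, Nat.cast_mul]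
  · simp

/-- The contexts on both sides of a good place, cheap directions. -/
theorem loc_dmp (n K : ℕ) (lam gam : ℕ → ℝ) (C₁ κ' : ℝ) (S a b : ℕ) (hab : a ≤ b) :
    LocP n K lam gam C₁ κ' (fun D q z N i j => ∀ s ≤ S, ∀ s' ≤ S,
      CH q (fun ω (k : Fin (s + 1)) => D.c (i + k * (a * N)) (j + k * (b * N)) ω)
          (fun ω => (D.c i j ω, D.T ω)) ≤
        CH q (fun ω (k : Fin (s + 1)) => D.c (i + k * (a * N)) (j + k * (b * N)) ω)
          (fun ω => ((fun k : Fin (s' + 1) => D.c (i - k * (a * N)) (j - k * (b * N)) ω),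
            (D.c i j ω, D.T ω))) + κ' * ((N * z : ℕ) : ℝ)) := by
  refine ⟨(((2 ^ S * a : ℕ) : ℤ), ((2 ^ S * b : ℕ) : ℤ)), S * a + S * b, S, ?_, ?_, ?_⟩
  · have h1 : 2 ^ S * a ≤ 2 ^ S * b := Nat.mul_le_mul_left _ hab
    simp only
    omega
  · simp only
    omega
  intro Nm _
  refine ⟨1, 0, one_pos, ?_⟩
  intro J a₀ w₀ z M κ D q _ _ hO l N i j hl hN _ hWi hWi' hWj hWj' hmi s hs s' hs'
  have hq := hO.isLaw.nonneg
  obtain ⟨x, hx⟩ : ∃ x : ℕ, N = x * 2 ^ S := by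
    refine ⟨2 ^ (l - S), ?_⟩
    rw [hN, ← pow_add]
    congr 1
    omega
  have hS2 : S ≤ 2 ^ S := (Nat.lt_two_pow_self (n := S)).le
  have hk : ∀ k ≤ S, k * x ≤ N := by
    intro k hk
    rw [hx, Nat.mul_comm x]
    exact Nat.mul_le_mul_right x (hk.trans hS2)
  have eW : (S * a + S * b) * N = S * (a * N) + S * (b * N) := by ring
  rw [eW] at hWi hWi' hWj hWj'
  have hka : ∀ k ≤ S, k * (a * N) ≤ S * (a * N) := fun k hk => Nat.mul_le_mul_right _ hk
  have hkb : ∀ k ≤ S, k * (b * N) ≤ S * (b * N) := fun k hk => Nat.mul_le_mul_right _ hk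
  have ea : ∀ k : ℕ, k * x * (2 ^ S * a) = k * (a * N) := by
    intro k
    rw [hx]
    ring
  have eb : ∀ k : ℕ, k * x * (2 ^ S * b) = k * (b * N) := by
    intro k
    rw [hx]
    ring
  obtain ⟨d, hd⟩ : ∃ d : ℤ × ℤ, d = (((2 ^ S * a : ℕ) : ℤ), ((2 ^ S * b : ℕ) : ℤ)) := ⟨_, rfl⟩
  rw [← hd] at hmi
  -- the two sides
  have dl : Det q (fun ω => (sg (Rc D) (((i : ℤ), (j : ℤ)) - N • d) d N ω, D.T ω))
      (fun ω (k : Fin (s' + 1)) => D.c (i - k * (a * N)) (j - k * (b * N)) ω) := by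
    intro ω ω' p1 p2 e
    funext k
    have hkS : (k : ℕ) ≤ S := by
      have := k.2
      omega
    have h1 := sg_pt (R := Rc D) (((i : ℤ), (j : ℤ)) - N • d) d (r := N) (t := N - k * x)
      (Nat.sub_le _ _) q ω ω' p1 p2 (Prod.ext_iff.1 e).1
    have h2 : (((i : ℤ), (j : ℤ)) : ℤ × ℤ) - N • d + (N - k * x : ℕ) • d =
        (((i - k * (a * N) : ℕ) : ℤ), ((j - k * (b * N) : ℕ) : ℤ)) := by
      have h3 : (((i : ℤ), (j : ℤ)) : ℤ × ℤ) - N • d + (N - k * x : ℕ) • d =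
          ((i : ℤ), (j : ℤ)) - (k * x) • d := by
        have h4 : N • d = (N - k * x : ℕ) • d + (k * x) • d := by
          rw [← add_smul, Nat.sub_add_cancel (hk _ hkS)]
        rw [h4]
        abel
      have h5 := hkb _ hkS
      have h6 := hka _ hkS
      rw [h3, hd, pl_lp _ _ _ _ _ (by rw [ea]; omega) (by rw [eb]; omega), ea, eb]
    rw [h2] at h1
    exact h1
  have dr : Det q (fun ω => (sg (Rc D) ((i : ℤ), (j : ℤ)) d N ω, D.T ω))
      (fun ω (k : Fin (s + 1)) => D.c (i + k * (a * N)) (j + k * (b * N)) ω) := by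
    intro ω ω' p1 p2 e
    funext k
    have hkS : (k : ℕ) ≤ S := by
      have := k.2
      omega
    have h1 := sg_pt (R := Rc D) ((i : ℤ), (j : ℤ)) d (r := N) (t := k * x)
      (hk _ hkS) q ω ω' p1 p2 (Prod.ext_iff.1 e).1
    rw [hd, pl_rp, ea, eb] at h1
    exact h1
  have h3 := Pool.DM.use (T := D.T) (R := Rc D) hq (b := ((i : ℤ), (j : ℤ))) (d := d) (r := N)
    (CH_eq_zero hq dl).le (CH_eq_zero hq dr).le
  have h4 : (N : ℝ) * (κ' * z) = κ' * ((N * z : ℕ) : ℝ) := by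
    push_cast
    ring
  rw [h4] at hmi
  have h6 := NDat2.mi_symm hq
    (fun ω (k : Fin (s' + 1)) => D.c (i - k * (a * N)) (j - k * (b * N)) ω)
    (fun ω (k : Fin (s + 1)) => D.c (i + k * (a * N)) (j + k * (b * N)) ω)
    (fun ω => (D.c i j ω, D.T ω))
  rw [add_zero, add_zero] at h3
  have h7 : CH q (fun ω (k : Fin (s' + 1)) => D.c (i - k * (a * N)) (j - k * (b * N)) ω)
      (fun ω => (D.c i j ω, D.T ω)) ≤
      CH q (fun ω (k : Fin (s' + 1)) => D.c (i - k * (a * N)) (j - k * (b * N)) ω)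
        (fun ω => ((fun k : Fin (s + 1) => D.c (i + k * (a * N)) (j + k * (b * N)) ω),
          (D.c i j ω, D.T ω))) + κ' * ((N * z : ℕ) : ℝ) := h3.trans (add_le_add le_rfl hmi)
  linarith

/-- The context at a place determines the contexts of larger radius and longer window. -/
theorem det_pos {D : NDat2} {n K J a₀ w₀ z M : ℕ} {lam gam : ℕ → ℝ} {κ C₁ : ℝ} {q : D.Ω → ℝ}
    (hO : D.Ok2 n K J a₀ w₀ z M lam gam κ C₁ q) {i j a b : ℕ} (hb : b ≤ a) (hi : i + a ≤ M)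
    (hj : j + b ≤ M) : Det q (D.c (i + a) (j + b)) (D.c i j) := by
  have hd : ∀ k : ℕ, k ≤ b → Det q (D.c (i + k) (j + k)) (D.c i j) := by
    intro k
    induction k with
    | zero => exact fun _ _ _ _ _ h => h
    | succ k ih =>
      intro hk ω ω' p1 p2 h
      exact ih (by omega) ω ω' p1 p2 (hO.c_ij (i + k) (by omega) (j + k) (by omega) ω ω' p1 p2 h)
  intro ω ω' p1 p2 h
  refine hd b le_rfl ω ω' p1 p2 ?_
  have h1 := det_i hO.c_i (i + b) (j + b) hj (a - b) (by omega) ω ω' p1 p2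
  have e : i + b + (a - b) = i + a := by omega
  rw [e] at h1
  exact h1 h

/-- The statements of a sub-cell: `3` cheap directions. -/
def PrP (n M' : ℕ) (κ' : ℝ) (x : ℕ × (ℕ × ℕ) × (ℕ × ℕ) × ℕ) (D : NDat2) (q : D.Ω → ℝ)
    (z N i j : ℕ) : Prop :=
  PrA n M' κ' x D q z N i j ∧
  (x.1 = 3 → ∀ s ≤ M', ∀ s' ≤ M',
      CH q (fun ω (k : Fin (s + 1)) => D.c (i + k * (x.2.2.1.1 * N))
          (j + k * (x.2.2.1.2 * N)) ω) (fun ω => (D.c i j ω, D.T ω)) ≤
        CH q (fun ω (k : Fin (s + 1)) => D.c (i + k * (x.2.2.1.1 * N))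
          (j + k * (x.2.2.1.2 * N)) ω)
          (fun ω => ((fun k : Fin (s' + 1) => D.c (i - k * (x.2.2.1.1 * N))
            (j - k * (x.2.2.1.2 * N)) ω), (D.c i j ω, D.T ω))) + κ' / 8 * ((N * z : ℕ) : ℝ))

/-- **A sub-cell with own leaves, collinear contexts, contexts in cheap directions.** -/
theorem lla_dmp (n K : ℕ) (hn : 1 ≤ n) (lam gam : ℕ → ℝ) (hlam : ∀ l, 1 ≤ lam l)
    (hgam : ∀ l, 0 ≤ gam l) (C₁ : ℝ) (hC : 0 ≤ C₁) (M' m₀ : ℕ) (κ' : ℝ) (hκ' : 0 < κ') :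
    ∃ (M : ℕ) (κ : ℝ) (z₀ : ℕ), 0 < κ ∧ ∀ (J a₀ w₀ z : ℕ) (D : NDat2) (q : D.Ω → ℝ), z₀ ≤ z →
      D.Ok2 n K J a₀ w₀ z M lam gam κ C₁ q → ∃ (N i₀ j₀ : ℕ), m₀ ≤ N ∧ NDat2.SubG i₀ j₀ N M' M ∧
      (D.sc J w₀ i₀ j₀ N z).LLA n (N * z) M' lam gam κ' q ∧
      (D.sc J w₀ i₀ j₀ N z).DMA (N * z) M' κ' q ∧
      (D.sc J w₀ i₀ j₀ N z).DMP (N * z) M' κ' q := by
  classical
  obtain ⟨R, hR⟩ : ∃ R : Finset ℕ, R = range (M' + 1) := ⟨_, rfl⟩
  have hmR : ∀ x, x ≤ M' → x ∈ R := fun x hx => by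
    rw [hR, mem_range]
    omega
  have hmR' : ∀ x, x ∈ R → x ≤ M' := fun x hx => by
    rw [hR, mem_range] at hx
    omega
  obtain ⟨Q, hQ⟩ : ∃ Q : ℕ × (ℕ × ℕ) × (ℕ × ℕ) × ℕ → Prop, ∀ x, Q x ↔
      (2 ≤ x.1 ∨ ∀ l, 1 ≤ l → l < n → gam l * x.2.2.1.2 < lam l * x.2.2.1.1) ∧
        (x.1 = 1 → lam n * x.2.2.1.1 + x.2.2.2 < gam n * x.2.2.1.2) ∧
        (x.1 = 3 → x.2.2.1.1 ≤ x.2.2.1.2) :=
    ⟨_, fun _ => Iff.rfl⟩
  obtain ⟨M, κ, z₀, hκ, h⟩ := sub_genP n K lam gam C₁ (κ' / 8) (by positivity) M' m₀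
    ((range 4 ×ˢ ((R ×ˢ R) ×ˢ ((R ×ˢ R) ×ˢ R))).filter Q)
    (fun x => x.2.1) (fun x hx => by
      obtain ⟨h1, -⟩ := mem_filter.1 hx
      obtain ⟨-, h2⟩ := mem_product.1 h1
      obtain ⟨h3, -⟩ := mem_product.1 h2
      obtain ⟨h4, h5⟩ := mem_product.1 h3
      exact ⟨hmR' _ h4, hmR' _ h5⟩) (PrP n M' κ')
    (fun x hx => by
      obtain ⟨h1, h2⟩ := mem_filter.1 hx
      obtain ⟨h2, h3, h4⟩ := (hQ x).1 h2
      obtain ⟨h0, h1⟩ := mem_product.1 h1
      obtain ⟨-, h1⟩ := mem_product.1 h1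
      obtain ⟨-, h1⟩ := mem_product.1 h1
      have hU := hmR' _ h1
      have h0' := mem_range.1 h0
      obtain ⟨t, p, u, U⟩ := x
      simp only at h0' h2 h3 h4 hU
      interval_cases t
      · have h2' := h2.resolve_left (by norm_num)
        exact (loc_v n K hn lam gam
          (by first | exact hlam | exact ⟨fun l => zero_lt_one.trans_le (hlam l), hlam n⟩)
          hgam C₁ hC u.1 u.2 M' κ' hκ' h2').toP.imp
          (fun D q z N i j hP => ⟨⟨fun _ => hP, fun hh => absurd hh (by norm_num),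
            fun hh => absurd hh (by norm_num)⟩, fun hh => absurd hh (by norm_num)⟩)
      · have h2' := h2.resolve_left (by norm_num)
        exact (loc_h n K hn lam gam
          (by first | exact hlam | exact ⟨fun l => zero_lt_one.trans_le (hlam l), hlam n⟩)
          hgam C₁ hC u.1 u.2 U M' κ' hκ' hU h2' (h3 rfl)).toP.imp
          (fun D q z N i j hP => ⟨⟨fun hh => absurd hh (by norm_num), fun _ => hP,
            fun hh => absurd hh (by norm_num)⟩, fun hh => absurd hh (by norm_num)⟩)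
      · exact (loc_dma n K lam gam C₁ (κ' / 8) M' u.1 u.2).toP.imp
          (fun D q z N i j hP => ⟨⟨fun hh => absurd hh (by norm_num),
            fun hh => absurd hh (by norm_num), fun _ => hP⟩, fun hh => absurd hh (by norm_num)⟩)
      · exact (loc_dmp n K lam gam C₁ (κ' / 8) M' u.1 u.2 (h4 rfl)).imp
          (fun D q z N i j hP => ⟨⟨fun hh => absurd hh (by norm_num),
            fun hh => absurd hh (by norm_num), fun hh => absurd hh (by norm_num)⟩, fun _ => hP⟩))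
  refine ⟨M, κ, z₀, hκ, ?_⟩
  intro J a₀ w₀ z D q hz hO
  obtain ⟨N, i₀, j₀, hN, hG, hP⟩ := h J a₀ w₀ z D q hz hO
  have hq := hO.isLaw.nonneg
  have hmem : ∀ (t i j u₁ u₂ U : ℕ), t < 4 → i ≤ M' → j ≤ M' → u₁ ≤ M' → u₂ ≤ M' → U ≤ M' →
      (2 ≤ t ∨ ∀ l, 1 ≤ l → l < n → gam l * u₂ < lam l * u₁) →
      (t = 1 → lam n * u₁ + U < gam n * u₂) → (t = 3 → u₁ ≤ u₂) →
      PrP n M' κ' (t, (i, j), (u₁, u₂), U) D q z N (i₀ + i * N) (j₀ + j * N) := by
    intro t i j u₁ u₂ U a1 a2 a3 a4 a5 a6 a7 a8 a9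
    exact hP (t, (i, j), (u₁, u₂), U) (mem_filter.2 ⟨mem_product.2 ⟨mem_range.2 a1,
      mem_product.2 ⟨mem_product.2 ⟨hmR i a2, hmR j a3⟩, mem_product.2
        ⟨mem_product.2 ⟨hmR u₁ a4, hmR u₂ a5⟩, hmR U a6⟩⟩⟩, (hQ _).2 ⟨a7, a8, a9⟩⟩)
  refine ⟨N, i₀, j₀, hN, hG, ⟨?_, ?_⟩, ?_, ?_⟩
  · intro i j u₁ u₂ U hi hj hu hU hc
    show ((n - 1 : ℕ) : ℝ) * (U * ((N * z : ℕ) : ℝ)) * Real.log 2 - κ' * ((N * z : ℕ) : ℝ) ≤
      CH q (D.vd n (i₀ + i * N) (j₀ + j * N) (U * (N * z))) (fun ω =>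
        (D.s (i₀ + (i - u₁) * N) (j₀ + (j + u₂) * N) ω,
          (D.c (i₀ + i * N) (j₀ + j * N) ω, D.T ω)))
    have h2 := (hmem 0 i j u₁ u₂ 0 (by norm_num) hi (by omega) (by omega) (by omega)
      (Nat.zero_le _) (Or.inr hc) (fun hh => absurd hh (by norm_num))
      (fun hh => absurd hh (by norm_num))).1.1 rfl U hU
    simp only at h2
    have e1 : i₀ + i * N - N * u₁ = i₀ + (i - u₁) * N := by
      have b1 := Nat.mul_le_mul_right N hu
      rw [Nat.sub_mul, Nat.mul_comm N u₁]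
      omega
    have e2 : j₀ + j * N + N * u₂ = j₀ + (j + u₂) * N := by ring
    rw [e1, e2] at h2
    exact h2
  · intro i j u₁ u₂ U U' hi hj hu hU hU' hc hcn
    show CH q (D.nd n (i₀ + i * N) (j₀ + j * N) (U * (N * z))) (fun ω =>
        (D.vd n (i₀ + i * N) (j₀ + j * N) (U' * (N * z)) ω,
          (D.c (i₀ + i * N) (j₀ + j * N) ω, D.T ω))) ≤
      CH q (D.nd n (i₀ + i * N) (j₀ + j * N) (U * (N * z))) (fun ω =>
        (D.ss n (i₀ + i * N) (j₀ + j * N) (i₀ + (i - u₁) * N) (j₀ + (j + u₂) * N)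
          (U * (N * z)) ω, (D.vd n (i₀ + i * N) (j₀ + j * N) (U' * (N * z)) ω,
          (D.c (i₀ + i * N) (j₀ + j * N) ω, D.T ω)))) + κ' * ((N * z : ℕ) : ℝ)
    have h2 := (hmem 1 i j u₁ u₂ U (by norm_num) hi (by omega) (by omega) (by omega)
      hU (Or.inr hc) (fun _ => hcn) (fun hh => absurd hh (by norm_num))).1.2.1 rfl U' hU'
    simp only at h2
    have e1 : i₀ + i * N - N * u₁ = i₀ + (i - u₁) * N := by
      have b1 := Nat.mul_le_mul_right N hu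
      rw [Nat.sub_mul, Nat.mul_comm N u₁]
      omega
    have e2 : j₀ + j * N + N * u₂ = j₀ + (j + u₂) * N := by ring
    rw [e1, e2] at h2
    exact h2
  · intro i j a b s s' h1 h2 h3 h4
    show CH q (fun ω (k : Fin (s + 1)) => D.c (i₀ + (i + k * a) * N) (j₀ + (j - k * b) * N) ω)
        (fun ω => (D.c (i₀ + i * N) (j₀ + j * N) ω, D.T ω)) ≤
      CH q (fun ω (k : Fin (s + 1)) => D.c (i₀ + (i + k * a) * N) (j₀ + (j - k * b) * N) ω)
        (fun ω => ((fun k : Fin (s' + 1) => D.c (i₀ + (i - k * a) * N) (j₀ + (j + k * b) * N) ω),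
          (D.c (i₀ + i * N) (j₀ + j * N) ω, D.T ω))) + κ' * ((N * z : ℕ) : ℝ)
    have hnn : 0 ≤ κ' * ((N * z : ℕ) : ℝ) := mul_nonneg hκ'.le (Nat.cast_nonneg _)
    by_cases hab : a = 0 ∧ b = 0
    · obtain ⟨rfl, rfl⟩ := hab
      have h5 : CH q (fun ω (k : Fin (s + 1)) => D.c (i₀ + (i + k * 0) * N)
          (j₀ + (j - k * 0) * N) ω) (fun ω => (D.c (i₀ + i * N) (j₀ + j * N) ω, D.T ω)) = 0 := by
        refine CH_eq_zero hq fun ω ω' _ _ e => ?_
        funext k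
        rw [Nat.mul_zero, Nat.add_zero, Nat.sub_zero]
        exact (Prod.ext_iff.1 e).1
      rw [h5]
      exact add_nonneg (CH_nonneg hq _ _) hnn
    · have hb : ∀ s : ℕ, s * a ≤ M' → s * b ≤ M' → s ≤ M' := by
        intro s a1 a2
        rcases Nat.eq_zero_or_pos a with h0 | h0
        · rcases Nat.eq_zero_or_pos b with h00 | h00
          · exact absurd ⟨h0, h00⟩ hab
          · exact (Nat.le_mul_of_pos_right s h00).trans a2
        · exact (Nat.le_mul_of_pos_right s h0).trans a1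
      have hi : i ≤ M' := by omega
      have hj : j ≤ M' := by omega
      by_cases hs0 : s = 0
      · subst hs0
        have h5 : CH q (fun ω (k : Fin (0 + 1)) => D.c (i₀ + (i + k * a) * N)
            (j₀ + (j - k * b) * N) ω) (fun ω => (D.c (i₀ + i * N) (j₀ + j * N) ω, D.T ω)) = 0 := by
          refine CH_eq_zero hq fun ω ω' _ _ e => ?_
          funext k
          have hk : (k : ℕ) = 0 := by
            have := k.2
            omega
          rw [hk, Nat.zero_mul, Nat.zero_mul, Nat.add_zero, Nat.sub_zero]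
          exact (Prod.ext_iff.1 e).1
        rw [h5]
        exact add_nonneg (CH_nonneg hq _ _) hnn
      · have hsp : 0 < s := Nat.pos_of_ne_zero hs0
        have ha0 : a ≤ s * a := Nat.le_mul_of_pos_left a hsp
        have ha : a ≤ M' := by omega
        have hb' : b ≤ M' := (Nat.le_mul_of_pos_left b hsp).trans (h2.trans hj)
        have h5 := (hmem 2 i j a b 0 (by norm_num) hi hj ha hb' (Nat.zero_le _) (Or.inl le_rfl)
          (fun hh => absurd hh (by norm_num)) (fun hh => absurd hh (by norm_num))).1.2.2 rfl s (hb s (by omega) (h2.trans hj)) s'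
          (hb s' (h3.trans hi) (by omega))
        simp only at h5
        have e1 : (fun ω (k : Fin (s + 1)) => D.c (i₀ + i * N + k * (a * N))
            (j₀ + j * N - k * (b * N)) ω) = fun ω (k : Fin (s + 1)) =>
              D.c (i₀ + (i + k * a) * N) (j₀ + (j - k * b) * N) ω := by
          funext ω k
          have hk : (k : ℕ) ≤ s := by
            have := k.2
            omega
          have b1 : (k : ℕ) * b ≤ j := (Nat.mul_le_mul_right b hk).trans h2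
          have b2 := Nat.mul_le_mul_right N b1
          have b3 : i₀ + i * N + k * (a * N) = i₀ + (i + k * a) * N := by ring
          have b5 : (k : ℕ) * (b * N) = k * b * N := (Nat.mul_assoc _ _ _).symm
          have b4 : j₀ + j * N - k * (b * N) = j₀ + (j - k * b) * N := by
            rw [Nat.sub_mul, b5]
            omega
          rw [b3, b4]
        have e2 : (fun ω => ((fun k : Fin (s' + 1) => D.c (i₀ + i * N - k * (a * N))
            (j₀ + j * N + k * (b * N)) ω), (D.c (i₀ + i * N) (j₀ + j * N) ω, D.T ω))) =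
            fun ω => ((fun k : Fin (s' + 1) => D.c (i₀ + (i - k * a) * N)
              (j₀ + (j + k * b) * N) ω), (D.c (i₀ + i * N) (j₀ + j * N) ω, D.T ω)) := by
          funext ω
          refine Prod.ext ?_ rfl
          funext k
          have hk : (k : ℕ) ≤ s' := by
            have := k.2
            omega
          have b1 : (k : ℕ) * a ≤ i := (Nat.mul_le_mul_right a hk).trans h3
          have b2 := Nat.mul_le_mul_right N b1
          have b3 : j₀ + j * N + k * (b * N) = j₀ + (j + k * b) * N := by ring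
          have b5 : (k : ℕ) * (a * N) = k * a * N := (Nat.mul_assoc _ _ _).symm
          have b4 : i₀ + i * N - k * (a * N) = i₀ + (i - k * a) * N := by
            rw [Nat.sub_mul, b5]
            omega
          simp only
          rw [b3, b4]
        rw [e1, e2] at h5
        refine h5.trans (add_le_add le_rfl ?_)
        have h6 : 0 ≤ ((N * z : ℕ) : ℝ) := Nat.cast_nonneg _
        nlinarith
  · intro i j a b s s' h1 h2 h3 h4
    show CH q (fun ω (k : Fin (s + 1)) => D.c (i₀ + (i + k * a) * N) (j₀ + (j + k * b) * N) ω)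
        (fun ω => (D.c (i₀ + i * N) (j₀ + j * N) ω, D.T ω)) ≤
      CH q (fun ω (k : Fin (s + 1)) => D.c (i₀ + (i + k * a) * N) (j₀ + (j + k * b) * N) ω)
        (fun ω => ((fun k : Fin (s' + 1) => D.c (i₀ + (i - k * a) * N) (j₀ + (j - k * b) * N) ω),
          (D.c (i₀ + i * N) (j₀ + j * N) ω, D.T ω))) + κ' * ((N * z : ℕ) : ℝ)
    have hnn : 0 ≤ κ' * ((N * z : ℕ) : ℝ) := mul_nonneg hκ'.le (Nat.cast_nonneg _)
    have hi : i ≤ M' := by omega
    have hj : j ≤ M' := by omega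
    have hNi := Nat.mul_le_mul_right N hi
    have hNj := Nat.mul_le_mul_right N hj
    obtain ⟨hG1, hG2, hG3⟩ := hG
    have hM1 : (M' + 1) * N = M' * N + N := by ring
    rw [hM1] at hG2 hG3
    by_cases hba : b ≤ a
    · -- the left half line is determined
      have h5 : CH q (fun ω (k : Fin (s' + 1)) => D.c (i₀ + (i - k * a) * N)
          (j₀ + (j - k * b) * N) ω) (fun ω => (D.c (i₀ + i * N) (j₀ + j * N) ω, D.T ω)) = 0 := by
        refine CH_eq_zero hq fun ω ω' p1 p2 e => ?_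
        funext k
        have hk : (k : ℕ) ≤ s' := by
          have := k.2
          omega
        have b1 : (k : ℕ) * a ≤ i := (Nat.mul_le_mul_right a hk).trans h3
        have b2 : (k : ℕ) * b ≤ j := (Nat.mul_le_mul_right b hk).trans h4
        have b3 : (k : ℕ) * b ≤ k * a := Nat.mul_le_mul_left _ hba
        have c1 := Nat.mul_le_mul_right N b1
        have c2 := Nat.mul_le_mul_right N b2
        have c3 := Nat.mul_le_mul_right N b3
        have e1 : i₀ + (i - k * a) * N + k * a * N = i₀ + i * N := by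
          rw [Nat.sub_mul]
          omega
        have e2 : j₀ + (j - k * b) * N + k * b * N = j₀ + j * N := by
          rw [Nat.sub_mul]
          omega
        have h6 := det_pos hO (i := i₀ + (i - k * a) * N) (j := j₀ + (j - k * b) * N)
          (a := k * a * N) (b := k * b * N) c3 (by omega) (by omega) ω ω' p1 p2
        rw [e1, e2] at h6
        exact h6 (Prod.ext_iff.1 e).1
      have h6 := CH_le_add hq (fun ω (k : Fin (s + 1)) => D.c (i₀ + (i + k * a) * N)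
          (j₀ + (j + k * b) * N) ω) (fun ω (k : Fin (s' + 1)) => D.c (i₀ + (i - k * a) * N)
          (j₀ + (j - k * b) * N) ω) (fun ω => (D.c (i₀ + i * N) (j₀ + j * N) ω, D.T ω))
      linarith
    · have hab : a ≤ b := by omega
      have hb0 : 0 < b := by omega
      by_cases hs0 : s = 0
      · subst hs0
        have h5 : CH q (fun ω (k : Fin (0 + 1)) => D.c (i₀ + (i + k * a) * N)
            (j₀ + (j + k * b) * N) ω) (fun ω => (D.c (i₀ + i * N) (j₀ + j * N) ω, D.T ω)) = 0 := by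
          refine CH_eq_zero hq fun ω ω' _ _ e => ?_
          funext k
          have hk : (k : ℕ) = 0 := by
            have := k.2
            omega
          rw [hk, Nat.zero_mul, Nat.zero_mul, Nat.add_zero, Nat.add_zero]
          exact (Prod.ext_iff.1 e).1
        rw [h5]
        exact add_nonneg (CH_nonneg hq _ _) hnn
      · have hsp : 0 < s := Nat.pos_of_ne_zero hs0
        have hb1 : b ≤ s * b := Nat.le_mul_of_pos_left b hsp
        have hb : b ≤ M' := by omega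
        have hs1 : s ≤ s * b := Nat.le_mul_of_pos_right s hb0
        have hs2 : s' ≤ s' * b := Nat.le_mul_of_pos_right s' hb0
        have h5 := (hmem 3 i j a b 0 (by norm_num) hi hj (hab.trans hb) hb (Nat.zero_le _)
          (Or.inl (by norm_num)) (fun hh => absurd hh (by norm_num)) (fun _ => hab)).2 rfl s
          (by omega) s' (by omega)
        simp only at h5
        have e1 : (fun ω (k : Fin (s + 1)) => D.c (i₀ + i * N + k * (a * N))
            (j₀ + j * N + k * (b * N)) ω) = fun ω (k : Fin (s + 1)) =>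
              D.c (i₀ + (i + k * a) * N) (j₀ + (j + k * b) * N) ω := by
          funext ω k
          have b3 : i₀ + i * N + k * (a * N) = i₀ + (i + k * a) * N := by ring
          have b4 : j₀ + j * N + k * (b * N) = j₀ + (j + k * b) * N := by ring
          rw [b3, b4]
        have e2 : (fun ω => ((fun k : Fin (s' + 1) => D.c (i₀ + i * N - k * (a * N))
            (j₀ + j * N - k * (b * N)) ω), (D.c (i₀ + i * N) (j₀ + j * N) ω, D.T ω))) =
            fun ω => ((fun k : Fin (s' + 1) => D.c (i₀ + (i - k * a) * N)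
              (j₀ + (j - k * b) * N) ω), (D.c (i₀ + i * N) (j₀ + j * N) ω, D.T ω)) := by
          funext ω
          refine Prod.ext ?_ rfl
          funext k
          have hk : (k : ℕ) ≤ s' := by
            have := k.2
            omega
          have b1 : (k : ℕ) * a ≤ i := (Nat.mul_le_mul_right a hk).trans h3
          have b2 := Nat.mul_le_mul_right N b1
          have b1' : (k : ℕ) * b ≤ j := (Nat.mul_le_mul_right b hk).trans h4
          have b2' := Nat.mul_le_mul_right N b1'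
          have b5 : (k : ℕ) * (a * N) = k * a * N := (Nat.mul_assoc _ _ _).symm
          have b5' : (k : ℕ) * (b * N) = k * b * N := (Nat.mul_assoc _ _ _).symm
          have b4 : i₀ + i * N - k * (a * N) = i₀ + (i - k * a) * N := by
            rw [Nat.sub_mul, b5]
            omega
          have b4' : j₀ + j * N - k * (b * N) = j₀ + (j - k * b) * N := by
            rw [Nat.sub_mul, b5']
            omega
          simp only
          rw [b4, b4']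
        rw [e1, e2] at h5
        refine h5.trans (add_le_add le_rfl ?_)
        have h6 : 0 ≤ ((N * z : ℕ) : ℝ) := Nat.cast_nonneg _
        nlinarith


/-- The levels of a place in a cheap direction. -/
theorem lev_pos {D : NDat2} {n K J a₀ w₀ z M : ℕ} {lam gam : ℕ → ℝ} {κ C₁ : ℝ} {q : D.Ω → ℝ}
    (hO : D.Ok2 n K J a₀ w₀ z M lam gam κ C₁ q) {i j a b U c l : ℕ} (hc : 2 * C₁ ≤ c)
    (hi : i + a ≤ M) (hj : j + b ≤ M) (h0 : 1 ≤ l) (hl : l ≤ n)
    (hU : (U : ℝ) ≤ lam l * a + gam l * b) :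
    D.g i j l + U * z ≤ D.g (i + a) (j + b) l + c * z := by
  have h1 := abs_le.1 (hO.hom i (by omega) j (by omega) l h0 hl)
  have h2 := abs_le.1 (hO.hom (i + a) hi (j + b) hj l h0 hl)
  have hz : (0 : ℝ) ≤ z := Nat.cast_nonneg z
  have h3 : (U : ℝ) * z ≤ (lam l * a + gam l * b) * z := mul_le_mul_of_nonneg_right hU hz
  have h4 : 2 * C₁ * z ≤ c * z := mul_le_mul_of_nonneg_right hc hz
  have h5 : ((D.g i j l + U * z : ℕ) : ℝ) ≤ ((D.g (i + a) (j + b) l + c * z : ℕ) : ℝ) := by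
    push_cast
    push_cast at h2
    have e1 : (lam l * (i + a) + gam l * (j + b)) * z =
        (lam l * i + gam l * j) * z + (lam l * a + gam l * b) * z := by ring
    rw [e1] at h2
    linarith [h1.1, h1.2, h2.1, h2.2]
  exact_mod_cast h5

/-- **The base is full given all contexts on the left half line** in a cheap direction, if the
coordinates are deeper by `U z` at `(i + a, j + b)`. -/
theorem llc2 (n K : ℕ) (lam gam : ℕ → ℝ) (C₁ : ℝ) (hC₁ : 1 ≤ C₁) : ∃ C : ℝ, 1 ≤ C ∧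
    ∀ (M : ℕ) (η : ℝ), 2 ≤ M → 0 < η → ∃ (κ₀ : ℝ) (z₀ : ℕ), 0 < κ₀ ∧
    ∀ (J a₀ w₀ z : ℕ) (κ κ' : ℝ) (D : NDat2) (q : D.Ω → ℝ), z₀ ≤ z → κ ≤ κ₀ →
      D.Ok2 n K J a₀ w₀ z M lam gam κ C₁ q → D.DMP z M κ' q →
      ∀ (i j a b s' U : ℕ), i + a < M → j + b < M → i + U ≤ M → s' * a ≤ i → s' * b ≤ j →
        (∀ l, 1 ≤ l → l < n → (U : ℝ) ≤ lam l * a + gam l * b) →
        ((n - 1 : ℕ) : ℝ) * (U * z) * Real.log 2 - ((C + κ + κ') * z + η * (U * z)) ≤
          CH q (D.vd n i j (U * z)) (fun ω => (D.frt i j a b s' ω, (D.c i j ω, D.T ω))) := by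
  obtain ⟨c, hc⟩ := exists_nat_ge (2 * C₁)
  obtain ⟨C, hC, hfew⟩ := plk_few n K lam gam C₁ hC₁ c
  refine ⟨C, hC, fun M η hM hη => ?_⟩
  obtain ⟨κ₀, z₀, hκ₀, hfew⟩ := hfew M η hM hη
  refine ⟨κ₀, z₀, hκ₀, ?_⟩
  intro J a₀ w₀ z κ κ' D q hz hκ hO hD i j a b s' U h1 h2 h3 h4 h5 hU
  have hq := hO.isLaw.nonneg
  have hi : i < M := by omega
  have hj : j < M := by omega
  have dT : Det q (fun ω => (D.bck i j a b 1 ω, (D.c i j ω, D.T ω))) D.T :=
    fun ω ω' _ _ e => congrArg (fun x => x.2.2) e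
  have dc : Det q (fun ω => (D.bck i j a b 1 ω, (D.c i j ω, D.T ω))) (D.c i j) :=
    fun ω ω' _ _ e => congrArg (fun x => x.2.1) e
  have db : Det q (fun ω => (D.bck i j a b 1 ω, (D.c i j ω, D.T ω))) (D.c (i + a) (j + b)) := by
    intro ω ω' _ _ e
    have e0 : D.bck i j a b 1 ω = D.bck i j a b 1 ω' := congrArg (fun x => x.1) e
    have e1 : D.c (i + 1 * a) (j + 1 * b) ω = D.c (i + 1 * a) (j + 1 * b) ω' :=
      congrFun e0 (1 : Fin (1 + 1))
    rw [Nat.one_mul, Nat.one_mul] at e1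
    exact e1
  have f1 := det_vis hO hi.le hj.le dc dT
  have f2 := det_vis hO h1.le h2.le db dT
  have few := hfew J a₀ w₀ z κ D q hz hκ hO i j (i + a) (j + b) i j (n - 1) (U * z) (D.Ψ i j)
    (D.Ψ (i + a) (j + b)) (D.Ψ i j) _ (fun ω => (D.bck i j a b 1 ω, (D.c i j ω, D.T ω)))
    hi hj h1 h2 hi hj (Nat.sub_le _ _) (fun ω hω => sd_vis hO hi.le hj.le hω)
    (fun ω hω => sd_vis hO h1.le h2.le hω) (fun ω hω => sd_vis hO hi.le hj.le hω)
    f1 f2 f1 dT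
    (fun l hl => Or.inl (lev_pos hO hc h1.le h2.le (by omega) (by omega)
      (hU (l + 1) (by omega) (by omega))))
    (fun l _ => Nat.le_add_right _ _)
  rw [← vd_eq] at few
  have hf := hO.full i hi.le j hj.le U h3
  have hY : CH q (D.frt i j a b s') (fun ω => (D.frt i j a b s' ω, (D.c i j ω, D.T ω))) ≤ 0 :=
    (CH_eq_zero hq (fun _ _ _ _ e => congrArg (fun x => x.1) e)).le
  have h6 := (hD.use hq (s := 1) (s' := s') (by omega) (by omega) h4 h5 few hY).1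
  push_cast at few h6
  linarith

/-- **The base is full given two contexts**, the second one of larger radius and longer window. -/
theorem llc_bb (n K : ℕ) (lam gam : ℕ → ℝ) (C₁ : ℝ) (hC₁ : 1 ≤ C₁) : ∃ C : ℝ, 1 ≤ C ∧
    ∀ (M : ℕ) (η : ℝ), 2 ≤ M → 0 < η → ∃ (κ₀ : ℝ) (z₀ : ℕ), 0 < κ₀ ∧
    ∀ (J a₀ w₀ z : ℕ) (κ κ' : ℝ) (D : NDat2) (q : D.Ω → ℝ), z₀ ≤ z → κ ≤ κ₀ →
      D.Ok2 n K J a₀ w₀ z M lam gam κ C₁ q → D.DMP z M κ' q →
      ∀ (i j a r U : ℕ), i + a < M → j + r < M → i + U ≤ M → a ≤ i → r ≤ j →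
        (∀ l, 1 ≤ l → l < n → (U : ℝ) ≤ lam l * a + gam l * r) →
        ((n - 1 : ℕ) : ℝ) * (U * z) * Real.log 2 - ((C + κ + κ') * z + η * (U * z)) ≤
          CH q (D.vd n i j (U * z))
            (fun ω => (D.c (i - a) (j - r) ω, (D.c i j ω, D.T ω))) := by
  obtain ⟨C, hC, h⟩ := llc2 n K lam gam C₁ hC₁
  refine ⟨C, hC, fun M η hM hη => ?_⟩
  obtain ⟨κ₀, z₀, hκ₀, h⟩ := h M η hM hη
  refine ⟨κ₀, z₀, hκ₀, ?_⟩
  intro J a₀ w₀ z κ κ' D q hz hκ hO hD i j a r U h1 h2 h3 h4 h5 hU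
  refine (h J a₀ w₀ z κ κ' D q hz hκ hO hD i j a r 1 U h1 h2 h3 (by omega) (by omega) hU).trans ?_
  refine CH_mono_cond hO.isLaw.nonneg fun ω ω' _ _ e => ?_
  have e0 : D.frt i j a r 1 ω = D.frt i j a r 1 ω' := congrArg (fun x => x.1) e
  have e1 : D.c (i - 1 * a) (j - 1 * r) ω = D.c (i - 1 * a) (j - 1 * r) ω' :=
    congrFun e0 (1 : Fin (1 + 1))
  rw [Nat.one_mul, Nat.one_mul] at e1
  exact Prod.ext e1 (congrArg (fun x => x.2) e)

end Pool.MIC7
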