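import Pool.Agent.H7.MIC.Dir

/-!
# Independence in a cell from the dyadic Markov lemma

`ind_v`: the base is full given another label in a direction in which the base coordinates grow.
`ind_h`: the height of the target is almost independent of a function of the labels on the other
side of the place.
-/

set_option autoImplicit false

namespace Pool.MIC7

open Finset Real MvPolynomial
open Pool.Agent.H49.Ent Pool.Agent.H32.Dense Pool.STK Pool.STAT Pool.MIC.Frm Pool.MIC24 Pool.DM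
open Pool.MIC
open Pool.BFL (Pb)

section

variable {D : NDat2} {n K J a₀ w₀ z M : ℕ} {lam gam : ℕ → ℝ} {κ C₁ : ℝ} {q : D.Ω → ℝ}

/-- The box of the line side in the frame of the point. -/
theorem line_box (n K : ℕ) : ∃ B : ℝ, 1 ≤ B ∧ ∀ (D : NDat2) (J a₀ w₀ z M : ℕ) (lam gam : ℕ → ℝ)
    (κ C₁ : ℝ) (q : D.Ω → ℝ), D.Ok2 n K J a₀ w₀ z M lam gam κ C₁ q → ∀ p : ℕ × ℕ, p.1 ≤ M →
    p.2 ≤ M → ∀ ω, 0 < q ω → ∀ b : ℕ → ℝ, b 0 = D.X ω 0 →
    (∀ k, 1 ≤ k → k < n → |b k - eval b (D.Φ p.1 p.2 ω k)| ≤ 1 / 2 ^ D.g p.1 p.2 k) →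
    ∀ i < n, |nat (D.g p.1 p.2) (fr D p ω) b i| ≤ B := by
  obtain ⟨B, hB, h⟩ := agree n K 1 le_rfl
  refine ⟨B, hB, ?_⟩
  intro D J a₀ w₀ z M lam gam κ C₁ q hO p h1 h2 ω hω b b0 hb
  refine (h (D.g p.1 p.2) (fr D p ω) (fz (D.X ω 0) (D.Φ p.1 p.2 ω)) (tri_fz (hO.G_tri _ _ _) _)
    (tri_fz (hO.P_tri _ _ _) _) (fun i _ => deg_fz (hO.G_deg _ _ _ _) _)
    (fun i _ => deg_fz (hO.P_deg _ _ _ _) _) (by unfold fr; rw [fz_zero, fz_zero]) ?_ n le_rfl b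
    ?_).1
  · intro l hl hln b' hb'
    unfold fr
    rw [eval_fz _ _ _ hl, eval_fz _ _ _ hl]
    refine hO.agr _ h1 _ h2 ω hω l hl hln _ ⟨?_, fun k hk hkl => ?_⟩
    · rw [Function.update_self, sub_self, abs_zero]
      positivity
    · have h3 := hb' k hkl
      unfold fr at h3
      rw [nat_fz _ _ _ _ hk] at h3
      unfold nat at h3
      rw [abs_mul, abs_of_pos (by positivity : (0 : ℝ) < 2 ^ D.g p.1 p.2 k)] at h3
      rw [le_div_iff₀ (by positivity)]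
      linarith
  · intro i hi
    rcases Nat.eq_zero_or_pos i with rfl | hi0
    · rw [nat_fz_zero, b0, sub_self, mul_zero, abs_zero]
      exact zero_le_one
    · rw [nat_fz' _ _ b0 hi0]
      have h3 := hb i hi0 hi
      unfold nat
      rw [abs_mul, abs_of_pos (by positivity)]
      rw [le_div_iff₀ (by positivity)] at h3
      linarith

/-! ### The ranges -/

theorem fl_mem {x : ℝ} {g r : ℕ} (h : |x| ≤ 1 / 2 ^ g) :
    ⌊(2 : ℝ) ^ (g + r) * x⌋ ∈ Finset.Icc (-((2 : ℤ) ^ r)) (2 ^ r) := by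
  have h1 : |(2 : ℝ) ^ (g + r) * x| ≤ 2 ^ r := by
    rw [abs_mul, abs_of_pos (by positivity), pow_add]
    rw [le_div_iff₀ (by positivity)] at h
    calc (2 : ℝ) ^ g * 2 ^ r * |x| = 2 ^ r * (|x| * 2 ^ g) := by ring
      _ ≤ 2 ^ r * 1 := mul_le_mul_of_nonneg_left h (by positivity)
      _ = 2 ^ r := mul_one _
  rw [abs_le] at h1
  rw [mem_Icc]
  constructor
  · rw [Int.le_floor]
    push_cast
    exact h1.1
  · have := Int.floor_le ((2 : ℝ) ^ (g + r) * x)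
    have h2 : ((⌊(2 : ℝ) ^ (g + r) * x⌋ : ℤ) : ℝ) ≤ ((2 ^ r : ℤ) : ℝ) := by
      push_cast
      linarith [h1.2]
    exact_mod_cast h2

theorem log_icc (r : ℕ) : Real.log (((Finset.Icc (-((2 : ℤ) ^ r)) (2 ^ r)).card : ℕ) : ℝ) ≤
    (r + 2) * Real.log 2 := by
  have h1 : (Finset.Icc (-((2 : ℤ) ^ r)) (2 ^ r)).card = 2 * 2 ^ r + 1 := by
    rw [Int.card_Icc]
    have e : (2 : ℤ) ^ r + 1 - -2 ^ r = ((2 * 2 ^ r + 1 : ℕ) : ℤ) := by
      push_cast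
      ring
    rw [e, Int.toNat_natCast]
  rw [h1]
  have h2 : ((2 * 2 ^ r + 1 : ℕ) : ℝ) ≤ 2 ^ (r + 2) := by
    have : 2 * 2 ^ r + 1 ≤ 2 ^ (r + 2) := by
      have := Nat.one_le_two_pow (n := r)
      rw [pow_add]
      omega
    exact_mod_cast this
  calc Real.log ((2 * 2 ^ r + 1 : ℕ) : ℝ) ≤ Real.log (2 ^ (r + 2)) :=
        Real.log_le_log (by positivity) h2
    _ = (r + 2) * Real.log 2 := by
        rw [Real.log_pow]
        push_cast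
        ring

/-- The range of the near digits of the base. -/
noncomputable def Fv (n r : ℕ) : Finset (Fin (n - 1) → ℤ) :=
  Fintype.piFinset fun _ => Finset.Icc (-((2 : ℤ) ^ r)) (2 ^ r)

theorem log_Fv (n r : ℕ) : Real.log ((Fv n r).card : ℝ) ≤ ((n - 1 : ℕ) : ℝ) * ((r + 2) *
    Real.log 2) := by
  unfold Fv
  rw [Fintype.card_piFinset, Finset.prod_const, Finset.card_univ, Fintype.card_fin]
  push_cast
  rw [Real.log_pow]
  exact mul_le_mul_of_nonneg_left (log_icc r) (Nat.cast_nonneg _)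

theorem vd_mem (hO : D.Ok2 n K J a₀ w₀ z M lam gam κ C₁ q) {i j : ℕ} (hi : i ≤ M) (hj : j ≤ M)
    (r : ℕ) {ω : D.Ω} (hω : 0 < q ω) : D.vd n i j r ω ∈ Fv n r := by
  unfold Fv
  rw [Fintype.mem_piFinset]
  intro l
  exact fl_mem (hO.pos i hi j hj ω hω (l + 1) (by omega) (by have := l.2; omega))

/-- The range with the target. -/
noncomputable def Fh (n r r' : ℕ) : Finset (ℤ × (Fin (n - 1) → ℤ)) :=
  Finset.Icc (-((2 : ℤ) ^ r)) (2 ^ r) ×ˢ Fv n r'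

theorem log_Fh {n : ℕ} (hn : 1 ≤ n) {r r' V : ℕ} (h1 : r ≤ V) (h2 : r' ≤ V) :
    Real.log ((Fh n r r').card : ℝ) ≤ n * ((V + 2) * Real.log 2) := by
  have hl0 : 0 < Real.log 2 := Real.log_pos (by norm_num)
  unfold Fh
  rw [Finset.card_product]
  push_cast
  have p1 : 0 < ((Finset.Icc (-((2 : ℤ) ^ r)) (2 ^ r)).card : ℝ) := by
    have : (0 : ℤ) ∈ Finset.Icc (-((2 : ℤ) ^ r)) (2 ^ r) := by
      rw [mem_Icc]
      constructor
      · have : (0 : ℤ) < 2 ^ r := by positivity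
        omega
      · positivity
    exact_mod_cast Finset.card_pos.2 ⟨0, this⟩
  have p2 : 0 < ((Fv n r').card : ℝ) := by
    have : (fun _ => 0 : Fin (n - 1) → ℤ) ∈ Fv n r' := by
      unfold Fv
      rw [Fintype.mem_piFinset]
      intro _
      rw [mem_Icc]
      constructor
      · have : (0 : ℤ) < 2 ^ r' := by positivity
        omega
      · positivity
    exact_mod_cast Finset.card_pos.2 ⟨_, this⟩
  rw [Real.log_mul p1.ne' p2.ne']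
  have a1 := log_icc r
  have a2 := log_Fv n r'
  have b1 : ((r : ℝ) + 2) * Real.log 2 ≤ (V + 2) * Real.log 2 := by
    refine mul_le_mul_of_nonneg_right ?_ hl0.le
    have : (r : ℝ) ≤ V := by exact_mod_cast h1
    linarith
  have b2 : ((n - 1 : ℕ) : ℝ) * (((r' : ℝ) + 2) * Real.log 2) ≤
      ((n - 1 : ℕ) : ℝ) * (((V : ℝ) + 2) * Real.log 2) := by
    refine mul_le_mul_of_nonneg_left (mul_le_mul_of_nonneg_right ?_ hl0.le) (Nat.cast_nonneg _)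
    have : (r' : ℝ) ≤ V := by exact_mod_cast h2
    linarith
  have b3 : ((n - 1 : ℕ) : ℝ) + 1 = n := by
    have : n - 1 + 1 = n := by omega
    exact_mod_cast this
  calc _ ≤ (V + 2) * Real.log 2 + ((n - 1 : ℕ) : ℝ) * (((V : ℝ) + 2) * Real.log 2) := by linarith
    _ = (((n - 1 : ℕ) : ℝ) + 1) * (((V : ℝ) + 2) * Real.log 2) := by ring
    _ = _ := by rw [b3]

theorem xv_mem (hO : D.Ok2 n K J a₀ w₀ z M lam gam κ C₁ q) (hn : 1 ≤ n) {i j : ℕ} (hi : i ≤ M)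
    (hj : j ≤ M) (r r' : ℕ) {ω : D.Ω} (hω : 0 < q ω) :
    (D.nd n i j r ω, D.vd n i j r' ω) ∈ Fh n r r' := by
  unfold Fh
  rw [mem_product]
  exact ⟨fl_mem (hO.pos i hi j hj ω hω n hn le_rfl), vd_mem hO hi hj r' hω⟩

/-! ### Segments -/

/-- The context at a place of the segment. -/
theorem sg_c {o d : ℤ × ℤ} {r k : ℕ} (hk : k ≤ r) {a : ℕ × ℕ}
    (ha : o + k • d = ((a.1 : ℤ), (a.2 : ℤ))) (p : D.Ω → ℝ) :
    Det p (fun ω => (sg (Rc D) o d r ω, D.T ω)) (D.c a.1 a.2) := by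
  intro ω ω' h1 h2 hh
  have e := sg_pt (R := Rc D) o d hk p ω ω' h1 h2 (Prod.ext_iff.1 hh).1
  rw [ha] at e
  exact e

theorem sg_s (hO : D.Ok2 n K J a₀ w₀ z M lam gam κ C₁ q) {o d : ℤ × ℤ} {r k : ℕ} (hk : k ≤ r)
    {a : ℕ × ℕ} (ha : o + k • d = ((a.1 : ℤ), (a.2 : ℤ))) (h1 : a.1 ≤ M) (h2 : a.2 ≤ M)
    {p : D.Ω → ℝ} (hp : ∀ ω, 0 < p ω → 0 < q ω) :
    Det p (fun ω => (sg (Rc D) o d r ω, D.T ω)) (D.s a.1 a.2) := by
  intro ω ω' a1 a2 hh
  exact hO.s_c _ h1 _ h2 ω ω' (hp ω a1) (hp ω' a2)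
    (Prod.ext (sg_c hk ha p ω ω' a1 a2 hh) (Prod.ext_iff.1 hh).2)

/-- **The base is full given another label** on the other side of the place. -/
theorem ind_v (n K : ℕ) : ∃ A : ℝ, 1 ≤ A ∧ ∀ (D : NDat2) (J a₀ w₀ z M : ℕ) (lam gam : ℕ → ℝ)
    (κ C₁ : ℝ) (q : D.Ω → ℝ), D.Ok2 n K J a₀ w₀ z M lam gam κ C₁ q →
    ∀ (e : ℝ) (P : ℕ → ℕ × ℕ) (θ : ℕ → ℝ) (s : ℕ) (b d : ℤ × ℤ) (E : D.Ω → Prop) (k N : ℕ)
    (p' : ℕ × ℕ) (i j r : ℕ), 0 ≤ e → 1 ≤ z → Way D n z M e P θ s → (s : ℝ) ≤ Real.exp z →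
    (∀ ω, E ω → ∀ k < s, Adj D n (Real.exp (e * z)) (P k) (P (k + 1)) ω) → 1 / 2 ≤ Pb q E →
    b = ((i : ℤ), (j : ℤ)) → P s = (i, j) → b - N • d = (((P 0).1 : ℤ), ((P 0).2 : ℤ)) → k ≤ N →
    b + k • d = ((p'.1 : ℤ), (p'.2 : ℤ)) → p'.1 ≤ M → p'.2 ≤ M →
    r * Real.log 2 ≤ θ s * z + e * z →
    CH q (D.vd n i j r) (fun ω => (D.c i j ω, D.T ω)) ≤
      CH q (D.vd n i j r) (fun ω => (D.s p'.1 p'.2 ω, (D.c i j ω, D.T ω))) +
        (2 * mi q D.T (Rc D) (b - N • d) d N + A * (e + 1) * z +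
          Pb q (fun ω => ¬ E ω) * (n * ((r + 2) * Real.log 2)) + 3 * Real.log 2) := by
  obtain ⟨A, hA, h⟩ := vd_few n K
  refine ⟨A, hA, ?_⟩
  intro D J a₀ w₀ z M lam gam κ C₁ q hO e P θ s b d E k N p' i j r he hz hW hs hadj hE hb hPs hP0
    hk hp' h1' h2' hr
  have hq := hO.isLaw
  have hE0 : 0 < Pb q E := by linarith
  have hl := isLaw_ev hq E hE0
  have hpos : ∀ ω, 0 < cond q E True ω → 0 < q ω := fun ω hω => (ev_pos hq.nonneg E hω).1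
  obtain ⟨hsi, hsj⟩ := hW.le s le_rfl
  obtain ⟨h0i, h0j⟩ := hW.le 0 (Nat.zero_le _)
  have ee : b - N • d + N • d = b := sub_add_cancel _ _
  have k1 : CH (cond q E True) (D.vd n i j r) (fun ω => (sg (Rc D) (b - N • d) d N ω, D.T ω)) ≤
      A * (e + 1) * z := by
    have := h D J a₀ w₀ z M lam gam κ C₁ q (cond q E True) hO hl e P θ s r _
      (fun ω => (sg (Rc D) (b - N • d) d N ω, D.T ω)) he hz hW hs (fun ω hω =>
        ⟨hpos ω hω, hadj ω (ev_pos hq.nonneg E hω).2⟩) (fun _ _ _ _ hh => (Prod.ext_iff.1 hh).2)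
      (sg_s hO (k := 0) (Nat.zero_le _) (by rw [zero_smul, add_zero]; exact hP0) h0i h0j hpos)
      (sg_s hO (k := N) le_rfl (by rw [ee, hPs, hb]) hsi hsj hpos) hr
    rw [hPs] at this
    exact this
  have k2 : CH (cond q E True) (D.s p'.1 p'.2) (fun ω => (sg (Rc D) b d N ω, D.T ω)) ≤ 0 :=
    (CH_eq_zero hl.nonneg (sg_s hO hk hp' h1' h2' hpos)).le
  have hb' : i ≤ M ∧ j ≤ M := by
    rw [hPs] at hsi hsj
    exact ⟨hsi, hsj⟩
  have k3 := dm_event hq (T := D.T) (R := Rc D) E hE (D.vd n i j r) (D.s p'.1 p'.2) (Fv n r)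
    (fun ω hω => vd_mem hO hb'.1 hb'.2 r hω) k1 k2
  have e1 : (Rc D b) = D.c i j := by rw [hb]; rfl
  rw [e1] at k3
  refine k3.trans ?_
  have k4 := log_Fv n r
  have k5 : ((n - 1 : ℕ) : ℝ) * (((r : ℝ) + 2) * Real.log 2) ≤ n * ((r + 2) * Real.log 2) := by
    refine mul_le_mul_of_nonneg_right (by exact_mod_cast Nat.sub_le n 1) ?_
    have := Real.log_pos (one_lt_two)
    positivity
  have k6 := mul_le_mul_of_nonneg_left (k4.trans k5) (Pb_nonneg hq.nonneg (fun ω => ¬ E ω))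
  linarith

/-- **The height of the target** and a function of the other side of the place. -/
theorem ind_h (n K : ℕ) (hn : 1 ≤ n) : ∃ A : ℝ, 1 ≤ A ∧ ∀ (D : NDat2) (J a₀ w₀ z M : ℕ)
    (lam gam : ℕ → ℝ) (κ C₁ : ℝ) (q : D.Ω → ℝ), D.Ok2 n K J a₀ w₀ z M lam gam κ C₁ q →
    ∀ (e : ℝ) (P : ℕ → ℕ × ℕ) (θ : ℕ → ℝ) (s : ℕ) (b d : ℤ × ℤ) (E : D.Ω → Prop) (N i j : ℕ)
    (r r' V : ℕ), 0 ≤ e → 1 ≤ z → Way D n z M e P θ s → (s : ℝ) ≤ Real.exp z →
    (∀ ω, E ω → ∀ k < s, Adj D n (Real.exp (e * z)) (P k) (P (k + 1)) ω) → 1 / 2 ≤ Pb q E →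
    b = ((i : ℤ), (j : ℤ)) → P s = (i, j) → b - N • d = (((P 0).1 : ℤ), ((P 0).2 : ℤ)) →
    r' * Real.log 2 ≤ θ s * z + e * z → r ≤ V → r' ≤ V →
    ((D.g i j n + r : ℕ) : ℝ) * Real.log 2 ≤ D.g (P 0).1 (P 0).2 n * Real.log 2 + e * z →
    (∀ k < s, ((D.g i j n + r : ℕ) : ℝ) * Real.log 2 ≤
      D.g (P k).1 (P k).2 n * Real.log 2 + θ k * z + e * z) → ∀ (S : Type) (Y : D.Ω → S) (e₂ : ℝ),
    CH (cond q E True) Y (fun ω => (sg (Rc D) b d N ω, D.T ω)) ≤ e₂ →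
    CH q (D.nd n i j r) (fun ω => (D.vd n i j r' ω, (D.c i j ω, D.T ω))) ≤
      CH q (D.nd n i j r) (fun ω => (Y ω, (D.vd n i j r' ω, (D.c i j ω, D.T ω)))) +
        (2 * mi q D.T (Rc D) (b - N • d) d N + A * (e + 1) * z + e₂ +
          Pb q (fun ω => ¬ E ω) * (n * ((V + 2) * Real.log 2)) + 3 * Real.log 2) := by
  obtain ⟨A, hA, h⟩ := vd_few n K
  obtain ⟨A', hA', h'⟩ := nd_few n K hn
  refine ⟨A + A', by linarith, ?_⟩
  intro D J a₀ w₀ z M lam gam κ C₁ q hO e P θ s b d E N i j r r' V he hz hW hs hadj hE hb hPs hP0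
    hr' hrV hrV' hg0 hgk S Y e₂ hY
  have hq := hO.isLaw
  have hE0 : 0 < Pb q E := by linarith
  have hl := isLaw_ev hq E hE0
  have hpos : ∀ ω, 0 < cond q E True ω → 0 < q ω := fun ω hω => (ev_pos hq.nonneg E hω).1
  obtain ⟨hsi, hsj⟩ := hW.le s le_rfl
  obtain ⟨h0i, h0j⟩ := hW.le 0 (Nat.zero_le _)
  have ee : b - N • d + N • d = b := sub_add_cancel _ _
  have hT : Det (cond q E True) (fun ω => (sg (Rc D) (b - N • d) d N ω, D.T ω)) D.T :=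
    fun _ _ _ _ hh => (Prod.ext_iff.1 hh).2
  have hd0 := sg_s hO (o := b - N • d) (d := d) (r := N) (a := P 0) (k := 0) (Nat.zero_le _) (by
    rw [zero_smul, add_zero]
    exact hP0) h0i h0j hpos
  have hds := sg_s hO (o := b - N • d) (d := d) (r := N) (a := P s) (k := N) le_rfl (by
    rw [ee, hPs, hb]) hsi hsj hpos
  have hA1 : ∀ ω, 0 < cond q E True ω → 0 < q ω ∧ ∀ k < s,
      Adj D n (Real.exp (e * z)) (P k) (P (k + 1)) ω := fun ω hω =>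
    ⟨hpos ω hω, hadj ω (ev_pos hq.nonneg E hω).2⟩
  have k1 : CH (cond q E True) (D.vd n i j r') (fun ω => (sg (Rc D) (b - N • d) d N ω, D.T ω)) ≤
      A * (e + 1) * z := by
    have := h D J a₀ w₀ z M lam gam κ C₁ q (cond q E True) hO hl e P θ s r' _
      (fun ω => (sg (Rc D) (b - N • d) d N ω, D.T ω)) he hz hW hs hA1 hT hd0 hds hr'
    rw [hPs] at this
    exact this
  have k1' : CH (cond q E True) (D.nd n i j r) (fun ω => (sg (Rc D) (b - N • d) d N ω, D.T ω)) ≤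
      A' * (e + 1) * z := by
    have := h' D J a₀ w₀ z M lam gam κ C₁ q (cond q E True) hO hl e P θ s r _
      (fun ω => (sg (Rc D) (b - N • d) d N ω, D.T ω)) he hz hW hs hA1 hT hd0 hds
      (by rw [hPs]; exact hg0) (by rw [hPs]; exact hgk)
    rw [hPs] at this
    exact this
  have k2 := CH_subadd hl.nonneg (D.nd n i j r) (D.vd n i j r')
    (fun ω => (sg (Rc D) (b - N • d) d N ω, D.T ω))
  have hb' : i ≤ M ∧ j ≤ M := by
    rw [hPs] at hsi hsj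
    exact ⟨hsi, hsj⟩
  have k3 := dm_event hq (T := D.T) (R := Rc D) E hE (fun ω => (D.nd n i j r ω, D.vd n i j r' ω))
    Y (Fh n r r') (fun ω hω => xv_mem hO hn hb'.1 hb'.2 r r' hω)
    (e₁ := A * (e + 1) * z + A' * (e + 1) * z) (by linarith) hY
  have e1 : (Rc D b) = D.c i j := by rw [hb]; rfl
  rw [e1] at k3
  have k4 := info_cond hq _ _ _ _ k3
  refine k4.trans ?_
  have k6 := mul_le_mul_of_nonneg_left (log_Fh hn hrV hrV')
    (Pb_nonneg hq.nonneg (fun ω => ¬ E ω))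
  linarith

end

end Pool.MIC7
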