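import Pool.Agent.H7.MIC.Plk
import Pool.Agent.H7.MIC.LLd

/-!
# Full digits at a place of a plank

`P = (i, j)`, `P+ = (i + s a, j - s b)`, `o = (i - s₁ a, j + s₁ b)`. The coordinates in `F` are deeper
at `o` than at `P`, the others are deeper at `P+` than at `P`. The digits at `P` of the coordinates
outside `F` are full given the contexts at `o` and `P` and the time, the digits of the coordinates in
`F` are few given these.
-/

set_option autoImplicit false

namespace Pool.PLK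

open Finset Real MvPolynomial
open Pool.Agent.H49.Ent Pool.Agent.H32.Dense Pool.STK Pool.STAT Pool.MIC.Frm Pool.MIC7 Pool.FRM
open Pool.MIC Pool.MicA Pool.GSD
open Pool.BFL (Pl Pb)

/-- **Full given the other side.** -/
theorem ful_of {Ω S₁ S₂ S₃ S₄ S₅ : Type} [Fintype Ω] {q : Ω → ℝ} (hq : ∀ ω, 0 ≤ q ω)
    (V : Ω → S₁) (R : Ω → S₂) (A : Ω → S₃) (B : Ω → S₄) (W : Ω → S₅) {F e₁ e₂ k : ℝ}
    (h1 : F ≤ CH q V W) (h2 : CH q V (fun ω => (B ω, W ω)) ≤ e₁)
    (h3 : CH q B W ≤ CH q B (fun ω => (A ω, W ω)) + k)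
    (h4 : CH q V (fun ω => (R ω, (A ω, W ω))) ≤ e₂) :
    F - e₁ - k - e₂ ≤ CH q R (fun ω => (A ω, W ω)) := by
  have m1 := NDat2.mi_symm hq V B W
  have m2 := NDat2.mi_symm hq V B (fun ω => (A ω, W ω))
  have m3 : CH q B (fun ω => (V ω, (A ω, W ω))) ≤ CH q B (fun ω => (V ω, W ω)) :=
    CH_mono_cond hq fun ω ω' _ _ h => by
      simp only [Prod.mk.injEq] at h ⊢
      exact ⟨h.1, h.2.2⟩
  have m4 := CH_nonneg hq V (fun ω => (B ω, (A ω, W ω)))
  have m5 := CH_le_add hq V R (fun ω => (A ω, W ω))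
  linarith

open Classical in
/-- The digits of the coordinates outside `F`. -/
noncomputable def off {Ω : Type} {m : ℕ} (F : Finset (Fin m)) (v : Ω → Fin m → ℤ) (ω : Ω)
    (l : Fin m) : ℤ := if l ∈ F then 0 else v ω l

theorem off_eq {Ω : Type} {m : ℕ} {F : Finset (Fin m)} {v : Ω → Fin m → ℤ} {ω ω' : Ω}
    (h : off F v ω = off F v ω') {l : Fin m} (hl : l ∉ F) : v ω l = v ω' l := by
  have := congrFun h l
  unfold off at this
  rwa [if_neg hl, if_neg hl] at this

/-- The digits of the coordinates in `F`. -/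
theorem in_le {Ω Y : Type} [Fintype Ω] {q : Ω → ℝ} (hq : IsLaw q) {m X : ℕ}
    (F : Finset (Fin m)) (v : Ω → Fin m → ℤ) (y : Ω → Y)
    (hb : ∀ ω, 0 < q ω → ∀ l, |v ω l| ≤ 2 ^ X) :
    CH q (off Fᶜ v) y ≤ F.card * (X * Real.log 2 + 2 * Real.log 2) := by
  classical
  have h1 := Pool.UP35.few_of_good hq m X 0 (off Fᶜ v) F y (fun _ => True) (η := 0)
    (fun ω hω l => by
      unfold off
      split_ifs
      · rw [abs_zero]
        positivity
      · exact hb ω hω l)
    (fun ω ω' _ _ _ _ h l => by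
      by_cases hl : l ∈ F
      · rw [h l hl, sub_self, abs_zero]
        exact le_refl _
      · unfold off
        rw [if_pos (mem_compl.2 hl), if_pos (mem_compl.2 hl), sub_self, abs_zero]
        exact le_refl _)
    (by
      unfold Pb
      refine le_of_eq (Finset.sum_eq_zero fun ω _ => ?_)
      simp)
  refine h1.trans (le_of_eq ?_)
  simp

theorem hv_le {D : NDat2} {n K i j m X : ℕ} {S : D.Ω → ℕ → PN} {ω : D.Ω} (hm : m ≤ n)
    (hS : Sd D n K i j S ω) (l : Fin m) : |hvS D m i j X S ω l| ≤ 2 ^ (X + 1) := by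
  have h2 := nat_le (hS.hgt (l + 1) (by omega) (by omega))
  have hX1 : (1 : ℝ) ≤ 2 ^ X := one_le_pow₀ (by norm_num)
  have h3 : |(2 : ℝ) ^ X * ztS D i j S ω (l + 1)| ≤ 2 ^ X := by
    rw [abs_mul, abs_of_pos (by positivity : (0 : ℝ) < 2 ^ X)]
    unfold ztS
    nlinarith
  have h4 := Int.floor_le ((2 : ℝ) ^ X * ztS D i j S ω (l + 1))
  have h5 := Int.lt_floor_add_one ((2 : ℝ) ^ X * ztS D i j S ω (l + 1))
  rw [abs_le] at h3
  have h6 : |((hvS D m i j X S ω l : ℤ) : ℝ)| ≤ 2 ^ (X + 1) := by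
    unfold hvS hdS
    rw [pow_succ, abs_le]
    constructor <;> linarith [h3.1, h3.2]
  rw [← Int.cast_abs] at h6
  exact_mod_cast h6

/-- **(H3)**: the digits of the coordinates outside `F` are full, the digits of the coordinates in
`F` are few. -/
theorem pl_full (n K : ℕ) (lam gam : ℕ → ℝ) (C₁ : ℝ) (hC₁ : 1 ≤ C₁) (c : ℕ) : ∃ C : ℝ, 1 ≤ C ∧
    ∀ (M : ℕ) (η : ℝ), 2 ≤ M → 0 < η → ∃ (κ₀ : ℝ) (z₀ : ℕ), 0 < κ₀ ∧
    ∀ (J a₀ w₀ z : ℕ) (κ κ' : ℝ) (D : NDat2) (q : D.Ω → ℝ), z₀ ≤ z → κ ≤ κ₀ → κ' ≤ 1 →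
      D.Ok2 n K J a₀ w₀ z M lam gam κ C₁ q → D.DMA z M κ' q →
      ∀ (i j a b s s₁ s' U : ℕ) (S : D.Ω → ℕ → PN) (F : Finset (Fin (n - 1))),
        i + s * a < M → s * b ≤ j → j < M → s' * a ≤ i → j + s' * b < M → s₁ ≤ s' → i + U ≤ M →
        (∀ ω, 0 < q ω → Sd D n K i j S ω) → Det q (fun ω => (D.c i j ω, D.T ω)) S →
        (∀ l : Fin (n - 1), l ∉ F →
          D.g i j (l + 1) + U * z ≤ D.g (i + s * a) (j - s * b) (l + 1) + c * z) →
        (∀ l : Fin (n - 1), l ∈ F →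
          D.g i j (l + 1) + U * z ≤ D.g (i - s₁ * a) (j + s₁ * b) (l + 1) + c * z) →
        ((n - 1 : ℕ) - F.card : ℝ) * (U * z) * Real.log 2 - (C * z + η * (U * z)) ≤
            CH q (off F (hvS D (n - 1) i j (U * z) S))
              (fun ω => (D.rgt i j a b s' ω, (D.c i j ω, D.T ω))) ∧
          CH q (hvS D (n - 1) i j (U * z) S) (fun ω => (off F (hvS D (n - 1) i j (U * z) S) ω,
            (D.c (i - s₁ * a) (j + s₁ * b) ω, (D.c i j ω, D.T ω)))) ≤ C * z + η * (U * z) := by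
  classical
  obtain ⟨C, hC, hfew⟩ := plk_few n K lam gam C₁ hC₁ c
  have hn0 : (0 : ℝ) ≤ n := Nat.cast_nonneg n
  refine ⟨3 * C + 3 * n + 2, by linarith, fun M η hM hη => ?_⟩
  obtain ⟨κ₀, z₀, hκ₀, hfew⟩ := hfew M (η / 3) hM (by positivity)
  refine ⟨min κ₀ 1, max z₀ 1, lt_min hκ₀ one_pos, ?_⟩
  intro J a₀ w₀ z κ κ' D q hz hκ hκ' hO hD i j a b s s₁ s' U S F h1 h2 h3 h4 h5 h6 h7 sS eS hN hF
  have hz1 : 1 ≤ z := (le_max_right _ _).trans hz
  have hzr : (1 : ℝ) ≤ z := by exact_mod_cast hz1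
  have hz0 : (0 : ℝ) ≤ z := by linarith
  have hq := hO.isLaw
  have few := hfew J a₀ w₀ z κ D q ((le_max_left _ _).trans hz) (hκ.trans (min_le_left _ _)) hO
  have hκ1 : κ ≤ 1 := hκ.trans (min_le_right _ _)
  have hi : i < M := by omega
  have hl2 : Real.log 2 ≤ 1 := by linarith [Real.log_two_lt_d9]
  have hl20 : 0 ≤ Real.log 2 := Real.log_nonneg (by norm_num)
  have ms : s₁ * a ≤ s' * a := Nat.mul_le_mul_right _ h6
  have ms' : s₁ * b ≤ s' * b := Nat.mul_le_mul_right _ h6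
  have hX0 : (0 : ℝ) ≤ (U * z : ℝ) := by positivity
  obtain ⟨V, hV⟩ : ∃ V, V = hvS D (n - 1) i j (U * z) S := ⟨_, rfl⟩
  obtain ⟨B, hB⟩ : ∃ B, B = D.lft i j a b s := ⟨_, rfl⟩
  obtain ⟨A, hA⟩ : ∃ A, A = D.rgt i j a b s' := ⟨_, rfl⟩
  obtain ⟨W, hW⟩ : ∃ W : D.Ω → D.Γ × ℕ, W = fun ω => (D.c i j ω, D.T ω) := ⟨_, rfl⟩
  rw [← hV, ← hA]
  -- the two sides of the label at `P`
  have f0 : CH q (D.vd n i j (U * z)) (fun ω => (V ω, W ω)) ≤ C * z + η / 3 * (U * z) := by
    rw [vd_eq]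
    have := few i j i j i j (n - 1) (U * z) S S (D.Ψ i j) _ (fun ω => (V ω, W ω)) hi h3 hi h3 hi h3
      (Nat.sub_le _ _) sS sS (fun ω hω => sd_vis hO hi.le h3.le hω)
      (fun ω ω' p p' e => eS ω ω' p p' (by
        rw [hW] at e
        exact (Prod.ext_iff.1 e).2))
      (fun ω ω' p p' e => eS ω ω' p p' (by
        rw [hW] at e
        exact (Prod.ext_iff.1 e).2))
      (det_vis hO hi.le h3.le (fun ω ω' p p' e => by
        rw [hW] at e
        exact (Prod.ext_iff.1 (Prod.ext_iff.1 e).2).1) (fun ω ω' p p' e => by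
        rw [hW] at e
        exact (Prod.ext_iff.1 (Prod.ext_iff.1 e).2).2))
      (fun ω ω' p p' e => by
        rw [hW] at e
        exact (Prod.ext_iff.1 (Prod.ext_iff.1 e).2).2)
      (fun l hl => Or.inr fun ω ω' p p' e => by
        have e1 : V ω = V ω' := (Prod.ext_iff.1 e).1
        rw [hV] at e1
        exact congrFun e1 ⟨l, hl⟩)
      (fun l hl => Nat.le_add_right _ _)
    push_cast at this
    exact this
  have f1 : ((n - 1 : ℕ) : ℝ) * (U * z) * Real.log 2 - κ * z - (C * z + η / 3 * (U * z)) ≤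
      CH q V W := by
    have e1 := hO.full i hi.le j h3.le U h7
    have e2 := CH_le_add hq.nonneg (D.vd n i j (U * z)) V W
    rw [hW] at e2 f0 ⊢
    linarith
  -- the digits given the left side
  have f2 : CH q V (fun ω => (B ω, W ω)) ≤
      F.card * (U * z) * Real.log 2 + 3 * n * z + (C * z + η / 3 * (U * z)) := by
    have e1 := in_le hq (X := U * z + 1) F V (fun ω => (B ω, W ω)) (fun ω hω l => by
      rw [hV]
      exact hv_le (Nat.sub_le _ _) (sS ω hω) l)
    have e2 := CH_le_add hq.nonneg V (off Fᶜ V) (fun ω => (B ω, W ω))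
    have e3 := few i j (i + s * a) (j - s * b) i j (n - 1) (U * z) S
      (D.Ψ (i + s * a) (j - s * b)) S _ (fun ω => (off Fᶜ V ω, (B ω, W ω))) hi h3 h1 (by omega)
      hi h3 (Nat.sub_le _ _) sS (fun ω hω => sd_vis hO h1.le (by omega) hω) sS
      (fun ω ω' p p' e => eS ω ω' p p' (by
        rw [hW] at e
        exact (Prod.ext_iff.1 (Prod.ext_iff.1 e).2).2))
      (det_vis hO h1.le (by omega) (fun ω ω' p p' e => by
        rw [hB] at e
        exact congrFun (Prod.ext_iff.1 (Prod.ext_iff.1 e).2).1 (Fin.last s)) (fun ω ω' p p' e => by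
        rw [hW] at e
        exact (Prod.ext_iff.1 (Prod.ext_iff.1 (Prod.ext_iff.1 e).2).2).2))
      (fun ω ω' p p' e => eS ω ω' p p' (by
        rw [hW] at e
        exact (Prod.ext_iff.1 (Prod.ext_iff.1 e).2).2))
      (fun ω ω' p p' e => by
        rw [hW] at e
        exact (Prod.ext_iff.1 (Prod.ext_iff.1 (Prod.ext_iff.1 e).2).2).2)
      (fun l hl => by
        by_cases hlF : (⟨l, hl⟩ : Fin (n - 1)) ∈ F
        · right
          intro ω ω' p p' e
          have e4 : off Fᶜ V ω = off Fᶜ V ω' := (Prod.ext_iff.1 e).1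
          have e5 := off_eq e4 (l := ⟨l, hl⟩) (by
            rw [mem_compl, not_not]
            exact hlF)
          rw [hV] at e5
          exact e5
        · left
          exact hN ⟨l, hl⟩ hlF)
      (fun l hl => Nat.le_add_right _ _)
    rw [← hV] at e3
    push_cast at e3 e1
    have e6 : (F.card : ℝ) * (((U : ℝ) * z + 1) * Real.log 2 + 2 * Real.log 2) ≤
        F.card * (U * z) * Real.log 2 + 3 * n * z := by
      have g1 : (F.card : ℝ) ≤ n := by
        have := Finset.card_le_univ F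
        rw [Fintype.card_fin] at this
        exact_mod_cast this.trans (Nat.sub_le _ _)
      have g2 : (F.card : ℝ) * (3 * Real.log 2) ≤ n * 3 :=
        mul_le_mul g1 (by linarith) (by positivity) hn0
      have g3 : (n : ℝ) * 3 ≤ 3 * n * z := by nlinarith
      have g4 : (F.card : ℝ) * (((U : ℝ) * z + 1) * Real.log 2 + 2 * Real.log 2) =
          F.card * (U * z) * Real.log 2 + F.card * (3 * Real.log 2) := by ring
      linarith
    linarith
  -- the directions
  have f3 : CH q B W ≤ CH q B (fun ω => (A ω, W ω)) + κ' * z := by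
    rw [hB, hA, hW]
    exact hD.lr h1.le h2 h4 h5.le
  -- the digits given the right side
  have f4 : CH q V (fun ω => (off F V ω,
      (D.c (i - s₁ * a) (j + s₁ * b) ω, W ω))) ≤ C * z + η / 3 * (U * z) := by
    have e3 := few i j (i - s₁ * a) (j + s₁ * b) i j (n - 1) (U * z) S
      (D.Ψ (i - s₁ * a) (j + s₁ * b)) S _
      (fun ω => (off F V ω, (D.c (i - s₁ * a) (j + s₁ * b) ω, W ω))) hi h3 (by omega) (by omega)
      hi h3 (Nat.sub_le _ _) sS (fun ω hω => sd_vis hO (by omega) (by omega) hω) sS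
      (fun ω ω' p p' e => eS ω ω' p p' (by
        rw [hW] at e
        exact (Prod.ext_iff.1 (Prod.ext_iff.1 e).2).2))
      (det_vis hO (by omega) (by omega) (fun ω ω' p p' e => by
        exact (Prod.ext_iff.1 (Prod.ext_iff.1 e).2).1) (fun ω ω' p p' e => by
        rw [hW] at e
        exact (Prod.ext_iff.1 (Prod.ext_iff.1 (Prod.ext_iff.1 e).2).2).2))
      (fun ω ω' p p' e => eS ω ω' p p' (by
        rw [hW] at e
        exact (Prod.ext_iff.1 (Prod.ext_iff.1 e).2).2))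
      (fun ω ω' p p' e => by
        rw [hW] at e
        exact (Prod.ext_iff.1 (Prod.ext_iff.1 (Prod.ext_iff.1 e).2).2).2)
      (fun l hl => by
        by_cases hlF : (⟨l, hl⟩ : Fin (n - 1)) ∈ F
        · left
          exact hF ⟨l, hl⟩ hlF
        · right
          intro ω ω' p p' e
          have e4 : off F V ω = off F V ω' := (Prod.ext_iff.1 e).1
          have e5 := off_eq e4 (l := ⟨l, hl⟩) hlF
          rw [hV] at e5
          exact e5)
      (fun l hl => Nat.le_add_right _ _)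
    rw [← hV] at e3
    push_cast at e3
    exact e3
  have f5 : CH q V (fun ω => (off F V ω, (A ω, W ω))) ≤ C * z + η / 3 * (U * z) := by
    refine le_trans (CH_mono_cond hq.nonneg fun ω ω' p p' e => ?_) f4
    have e1 : A ω = A ω' := (Prod.ext_iff.1 (Prod.ext_iff.1 e).2).1
    rw [hA] at e1
    have e2 := congrFun e1 ⟨s₁, by omega⟩
    unfold NDat2.rgt at e2
    exact Prod.ext (Prod.ext_iff.1 e).1 (Prod.ext e2 (Prod.ext_iff.1 (Prod.ext_iff.1 e).2).2)
  have f6 := ful_of hq.nonneg V (off F V) A B W f1 f2 f3 f5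
  rw [hW] at f6 f4
  have hC0 : 0 ≤ C * z := by nlinarith
  have hη0 : 0 ≤ η * ((U : ℝ) * z) := by positivity
  have hnz : 0 ≤ 3 * (n : ℝ) * z := by positivity
  have k1 : κ * z ≤ z := by nlinarith
  have k2 : κ' * z ≤ z := by nlinarith
  constructor
  · refine le_trans ?_ f6
    have e : ((n - 1 : ℕ) - F.card : ℝ) * (U * z) * Real.log 2 -
        ((3 * C + 3 * n + 2) * z + η * (U * z)) = ((n - 1 : ℕ) : ℝ) * (U * z) * Real.log 2 -
        κ * z - (C * z + η / 3 * (U * z)) - (F.card * (U * z) * Real.log 2 + 3 * n * z +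
        (C * z + η / 3 * (U * z))) - κ' * z - (C * z + η / 3 * (U * z)) -
        ((z - κ * z) + (z - κ' * z)) := by ring
    rw [e]
    linarith
  · refine f4.trans ?_
    have : (3 * C + 3 * n + 2) * (z : ℝ) + η * (U * z) = (C * z + η / 3 * (U * z)) +
      (2 * (C * z) + 3 * n * z + 2 * z + 2 / 3 * (η * (U * z))) := by ring
    linarith

end Pool.PLK
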