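import Pool.Agent.H7.MIC.Pth

/-!
# Own leaves in a sub-cell, from the axioms of a cell alone

`LLat`: the base is full given the label of the own pair, and the height of the target is almost
independent of the shape of the own leaf, at one pair. `llat`: every cell has a sub-cell with
`LLat` at a given pair, if the own pair is finer exactly in the target.
-/

set_option autoImplicit false

namespace Pool.STAT

open Pool.Agent.H49.Ent Pool.Agent.H32.Dense

/-- **Own leaves at one pair.** -/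
structure NDat2.LLat (D : NDat2) (n z i j i' j' U V : ℕ) (κ : ℝ) (q : D.Ω → ℝ) : Prop where
  v : ∀ U' ≤ V, ((n - 1 : ℕ) : ℝ) * (U' * z) * Real.log 2 - κ * z ≤
    CH q (D.vd n i j (U' * z)) (fun ω => (D.s i' j' ω, (D.c i j ω, D.T ω)))
  h : ∀ U' ≤ V, CH q (D.nd n i j (U * z)) (fun ω => (D.vd n i j (U' * z) ω, (D.c i j ω, D.T ω))) ≤
    CH q (D.nd n i j (U * z)) (fun ω => (D.ss n i j i' j' (U * z) ω,
      (D.vd n i j (U' * z) ω, (D.c i j ω, D.T ω)))) + κ * z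

end Pool.STAT

namespace Pool.MIC7

open Finset Real MvPolynomial
open Pool.Agent.H49.Ent Pool.Agent.H32.Dense Pool.STK Pool.STAT Pool.MIC.Frm Pool.MIC24 Pool.DM
open Pool.MIC
open Pool.BFL (Pb)

/-- The place on the left. -/
theorem pl_left {i j x₁ x₂ N : ℕ} (h : N * x₂ ≤ j) :
    (((i : ℤ), (j : ℤ)) : ℤ × ℤ) - N • (-(x₁ : ℤ), (x₂ : ℤ)) =
      (((i + N * x₁ : ℕ) : ℤ), ((j - N * x₂ : ℕ) : ℤ)) := by
  have e : ((j - N * x₂ : ℕ) : ℤ) = j - N * x₂ := by
    rw [Nat.cast_sub h]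
    push_cast
    ring
  rw [e]
  refine Prod.ext ?_ ?_
  · simp
  · simp

/-- The place on the right. -/
theorem pl_right {i j x₁ x₂ k : ℕ} (h : k * x₁ ≤ i) :
    (((i : ℤ), (j : ℤ)) : ℤ × ℤ) + k • (-(x₁ : ℤ), (x₂ : ℤ)) =
      (((i - k * x₁ : ℕ) : ℤ), ((j + k * x₂ : ℕ) : ℤ)) := by
  have e : ((i - k * x₁ : ℕ) : ℤ) = i - k * x₁ := by
    rw [Nat.cast_sub h]
    push_cast
    ring
  rw [e]
  refine Prod.ext ?_ ?_
  · simp
    ring
  · simp

/-- Three bad events. -/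
theorem bad3 {Ω : Type} [Fintype Ω] {q : Ω → ℝ} (hq : ∀ ω, 0 ≤ q ω) {A B C : ℕ → Ω → Prop}
    {a b c : ℕ} {x y w : ℝ} (h1 : Pb q (fun ω => ∃ k ∈ range a, ¬ A k ω) ≤ x)
    (h2 : Pb q (fun ω => ∃ k ∈ range b, ¬ B k ω) ≤ y)
    (h3 : Pb q (fun ω => ∃ k ∈ range c, ¬ C k ω) ≤ w) :
    Pb q (fun ω => ¬ ((∀ k < a, A k ω) ∧ (∀ k < b, B k ω) ∧ ∀ k < c, C k ω)) ≤ x + y + w := by
  have h4 : Pb q (fun ω => ¬ ((∀ k < a, A k ω) ∧ (∀ k < b, B k ω) ∧ ∀ k < c, C k ω)) ≤
      Pb q (fun ω => ∃ k ∈ range a, ¬ A k ω) + Pb q (fun ω => ∃ k ∈ range b, ¬ B k ω) +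
        Pb q (fun ω => ∃ k ∈ range c, ¬ C k ω) := by
    unfold Pb
    rw [← Finset.sum_add_distrib, ← Finset.sum_add_distrib]
    refine Finset.sum_le_sum fun ω _ => ?_
    have n0 := hq ω
    by_cases hA : ∃ k ∈ range a, ¬ A k ω
    · rw [if_pos hA]
      split_ifs <;> linarith
    by_cases hB : ∃ k ∈ range b, ¬ B k ω
    · rw [if_pos hB]
      split_ifs <;> linarith
    by_cases hC : ∃ k ∈ range c, ¬ C k ω
    · rw [if_pos hC]
      split_ifs <;> linarith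
    rw [if_neg hA, if_neg hB, if_neg hC, if_neg]
    · simp
    · rw [not_not]
      push Not at hA hB hC
      exact ⟨fun k hk => hA k (mem_range.2 hk), fun k hk => hB k (mem_range.2 hk),
        fun k hk => hC k (mem_range.2 hk)⟩
  linarith

/-- **Own leaves in a sub-cell.** -/
theorem llat (n K : ℕ) (hn : 1 ≤ n) (hss : SsFew n K) (lam gam : ℕ → ℝ) (hlam : ∀ l, 1 ≤ lam l)
    (hgam : ∀ l, 0 ≤ gam l) (C₁ : ℝ) (hC : 0 ≤ C₁) (ir jr u₁ u₂ U V M' m₁ : ℕ) (κ' : ℝ)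
    (hκ' : 0 < κ') (hi : u₁ ≤ ir) (hi2 : ir ≤ M') (hj : jr + u₂ ≤ M') (hUV : U ≤ V)
    (h1 : ∀ l, 1 ≤ l → l < n → gam l * u₂ < lam l * u₁) (h2 : lam n * u₁ + U < gam n * u₂) :
    ∃ (M : ℕ) (κ : ℝ) (z₀ : ℕ), 0 < κ ∧ ∀ (J a₀ w₀ z : ℕ) (D : NDat2) (q : D.Ω → ℝ), z₀ ≤ z →
      D.Ok2 n K J a₀ w₀ z M lam gam κ C₁ q → ∃ (N i₀ j₀ : ℕ), m₁ ≤ N ∧ NDat2.SubG i₀ j₀ N M' M ∧
      (D.sc J w₀ i₀ j₀ N z).LLat n (N * z) ir jr (ir - u₁) (jr + u₂) U V κ' q := by
  have hl0 : 0 < Real.log 2 := Real.log_pos (by norm_num)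
  have hl1 : Real.log 2 ≤ 1 := by
    have := Real.log_two_lt_d9
    linarith
  obtain ⟨cu, μ, v₁, v₂, cw, hcu, hμ, hcu2, huv1, huv2, hcw, hv, hvn, hw, hwn⟩ :=
    dir_ex n lam gam hlam hgam u₁ u₂ U V h1 h2
  obtain ⟨S, hS⟩ : ∃ S : ℕ, S = 2 ^ μ * u₁ + 2 ^ μ * u₂ + v₁ + v₂ := ⟨_, rfl⟩
  obtain ⟨c, hc, hstp⟩ := stp_bad n K S lam gam C₁ hlam hgam hC
  obtain ⟨e, he⟩ : ∃ e : ℝ, e = c + 2 * C₁ := ⟨_, rfl⟩
  have he0 : 0 ≤ e := by rw [he]; positivity
  have heC : 2 * C₁ ≤ e := by linarith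
  have hec : c ≤ e := by linarith
  obtain ⟨Av, hAv, hindv⟩ := ind_v n K
  obtain ⟨Ah, hAh, hindh⟩ := ind_h n K hn
  obtain ⟨Ar, z₁, hAr, hrgt⟩ := rgt_ss n K hn hss
  obtain ⟨Ct, hCt⟩ : ∃ Ct : ℝ, Ct = (Av + Ah + Ar) * (e + 1) + 3 := ⟨_, rfl⟩
  have hCt0 : 0 < Ct := by rw [hCt]; positivity
  have hn0 : (0 : ℝ) < n := by exact_mod_cast hn
  obtain ⟨η, hη⟩ : ∃ η : ℝ, η = min (1 / 2) (κ' / (4 * (n * (V + 2)))) := ⟨_, rfl⟩
  have hη0 : 0 < η := by
    rw [hη]
    exact lt_min (by norm_num) (by positivity)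
  have hη1 : η ≤ 1 / 2 := by rw [hη]; exact min_le_left _ _
  have hη2 : η * (n * (V + 2)) ≤ κ' / 4 := by
    have h3 : η ≤ κ' / (4 * (n * (V + 2))) := by rw [hη]; exact min_le_right _ _
    rw [le_div_iff₀ (by positivity)] at h3
    linarith
  set δ : ℝ := gam n * u₂ - lam n * u₁ with hδ
  have hδ0 : 0 < δ := by
    have : (0 : ℝ) ≤ U := Nat.cast_nonneg _
    linarith
  obtain ⟨m, hm⟩ := exists_nat_ge (max (m₁ : ℝ) (max (4 * Ct / κ') (max (2 * C₁ / cu)
    ((2 * C₁ + 1) / δ))))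
  have hmm : (m : ℝ) ≤ 2 ^ (m + μ) := by
    have : m ≤ 2 ^ (m + μ) := (Nat.lt_two_pow_self (n := m)).le.trans
      (Nat.pow_le_pow_right (by norm_num) (Nat.le_add_right _ _))
    exact_mod_cast this
  obtain ⟨m₂, M, hdm⟩ := dm_grid {(-((2 ^ μ * u₁ : ℕ) : ℤ), ((2 ^ μ * u₂ : ℕ) : ℤ)),
    (-(v₁ : ℤ), (v₂ : ℤ))} (by
      intro d hd
      rw [mem_insert, mem_singleton] at hd
      rcases hd with rfl | rfl <;> simp only <;> omega) (M' + 2 * S + V + 2) (m + μ) C₁ (κ' / 8)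
      (by positivity)
  obtain ⟨Nm, hNm⟩ : ∃ Nm : ℕ, Nm = 2 ^ (m + μ + m₂) := ⟨_, rfl⟩
  have hNm0 : (0 : ℝ) < Nm := by
    rw [hNm]
    positivity
  obtain ⟨κ₀, z₂, hκ₀, hstp2⟩ := hstp (η / (4 * Nm)) (by positivity) (by
    rw [div_le_one (by positivity)]
    have : (1 : ℝ) ≤ Nm := by
      rw [hNm]
      push_cast
      exact one_le_pow₀ (by norm_num)
    linarith)
  refine ⟨M, min κ₀ (κ' / 8), max z₁ (max z₂ (max 1 (2 * Nm))), lt_min hκ₀ (by positivity), ?_⟩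
  intro J a₀ w₀ z D q hz hO
  have hq := hO.isLaw
  have hzz1 : z₁ ≤ z := (le_max_left _ _).trans hz
  have hzz2 : z₂ ≤ z := (le_max_left _ _).trans ((le_max_right _ _).trans hz)
  have hzz3 : 1 ≤ z := (le_max_left _ _).trans ((le_max_right _ _).trans
    ((le_max_right _ _).trans hz))
  have hzz4 : 2 * Nm ≤ z := (le_max_right _ _).trans ((le_max_right _ _).trans
    ((le_max_right _ _).trans hz))
  have hz1 : (1 : ℝ) ≤ z := by exact_mod_cast hzz3
  obtain ⟨l, i, j, hl, hl', hWi, hWi', hWj, hWj', hmi⟩ := hdm D q z hq hO.c_i hO.ij_few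
  obtain ⟨N, hN⟩ : ∃ N : ℕ, N = 2 ^ l := ⟨_, rfl⟩
  rw [← hN] at hWi hWi' hWj hWj' hmi
  have hN1 : 1 ≤ N := by rw [hN]; exact Nat.one_le_two_pow
  have hNN : N ≤ Nm := by
    rw [hN, hNm]
    exact Nat.pow_le_pow_right (by norm_num) (by omega)
  have hNr : (m : ℝ) ≤ N := by
    refine hmm.trans ?_
    rw [hN]
    push_cast
    exact pow_le_pow_right₀ (by norm_num) hl
  have hNR : (N : ℝ) ≤ Nm := by exact_mod_cast hNN
  have hN0 : (0 : ℝ) < N := by exact_mod_cast hN1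
  have hNb := hm.trans hNr
  have hNb1 : (m₁ : ℝ) ≤ N := (le_max_left _ _).trans hNb
  have hNb2 : 4 * Ct / κ' ≤ N := (le_max_left _ _).trans ((le_max_right _ _).trans hNb)
  have hNb3 : 2 * C₁ / cu ≤ N := (le_max_left _ _).trans ((le_max_right _ _).trans
    ((le_max_right _ _).trans hNb))
  have hNb4 : (2 * C₁ + 1) / δ ≤ N := (le_max_right _ _).trans ((le_max_right _ _).trans
    ((le_max_right _ _).trans hNb))
  -- bounds for products
  have q1 : N * (2 ^ μ * u₁) ≤ N * S := Nat.mul_le_mul_left N (by omega)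
  have q2 : N * (2 ^ μ * u₂) ≤ N * S := Nat.mul_le_mul_left N (by omega)
  have q3 : N * v₁ ≤ N * S := Nat.mul_le_mul_left N (by omega)
  have q4 : N * v₂ ≤ N * S := Nat.mul_le_mul_left N (by omega)
  have q5 : S ≤ N * S := Nat.le_mul_of_pos_left S hN1
  have q6 : N * u₁ ≤ N * v₁ := Nat.mul_le_mul_left N huv1
  have q7 : N * u₂ ≤ N * v₂ := Nat.mul_le_mul_left N huv2
  have eW : (M' + 2 * S + V + 2) * N = M' * N + 2 * (N * S) + V * N + 2 * N := by ring
  have q8 : N * (v₁ - u₁) = N * v₁ - N * u₁ := Nat.mul_sub N v₁ u₁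
  have q9 : N * (v₂ - u₂) = N * v₂ - N * u₂ := Nat.mul_sub N v₂ u₂
  have q10 : ir * N ≤ M' * N := Nat.mul_le_mul_right N hi2
  have q11 : jr * N ≤ M' * N := Nat.mul_le_mul_right N (by omega)
  rw [eW] at hWi hWi' hWj hWj'
  -- the three paths
  have w1 := way_line hO hC heC (i := i + N * (2 ^ μ * u₁)) (j := j - N * (2 ^ μ * u₂))
    (x₁ := 2 ^ μ * u₁) (x₂ := 2 ^ μ * u₂) (N := N) (c := 2 ^ μ * cu) (by positivity)
    (by omega) (by omega) (by omega) (fun l hl hln => by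
      have h3 := mul_le_mul_of_nonneg_left (hcu2 l hl hln) (by positivity : (0 : ℝ) ≤ 2 ^ μ)
      push_cast
      linarith)
  have w2 := way_line hO hC heC (i := i + N * v₁) (j := j - N * v₂)
    (x₁ := v₁) (x₂ := v₂) (N := N) (c := V) (Nat.cast_nonneg _)
    (by omega) (by omega) (by omega) hv
  have w3 := way_cor hO hC heC (i := i) (j := j) (x₁ := u₁) (x₂ := u₂) (y₁ := v₁ - u₁)
    (y₂ := v₂ - u₂) (N := N) (c := cu) (c' := cw) hcu.le hcw (by omega) (by omega) (by omega)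
    hcu2 (fun l hl hln => by
      rw [Nat.cast_sub huv1, Nat.cast_sub huv2]
      exact hw l hl hln)
  have s1 : Steps M S (fun k => (i + N * (2 ^ μ * u₁) - k * (2 ^ μ * u₁),
      j - N * (2 ^ μ * u₂) + k * (2 ^ μ * u₂))) N :=
    steps_line (by omega) (by omega) (by omega) (by omega)
  have s2 : Steps M S (fun k => (i + N * v₁ - k * v₁, j - N * v₂ + k * v₂)) N :=
    steps_line (by omega) (by omega) (by omega) (by omega)
  have s3 : Steps M S (cor i j u₁ u₂ (v₁ - u₁) (v₂ - u₂) N) (N + N) :=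
    steps_cor (by omega) (by omega) (by omega) (by omega) (by
      have : u₁ + u₂ ≤ v₁ + v₂ := by omega
      omega) (by omega)
  -- the good event
  have hbad : ∀ (p : ℕ × ℕ) (x₁ x₂ : ℕ), x₁ ≤ p.1 → x₁ + x₂ ≤ S → p.1 + x₂ < M → p.2 + x₂ ≤ M →
      Pb q (fun ω => ¬ Adj D n (Real.exp (e * z)) p (p.1 - x₁, p.2 + x₂) ω) ≤ η / (4 * Nm) := by
    intro p x₁ x₂ a1 a2 a3 a4
    refine le_trans ?_ (hstp2 D J a₀ w₀ z M _ q hO (min_le_left _ _) hzz2 p x₁ x₂ a1 a2 a3 a4)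
    refine Pool.Agent.H39.BFL.Pb_mono hq.nonneg fun ω _ h3 h4 => h3 (h4.mono ?_)
    exact Real.exp_le_exp.2 (mul_le_mul_of_nonneg_right hec (by linarith))
  have hbd := bad3 hq.nonneg (path_bad hq.nonneg hbad s1) (path_bad hq.nonneg hbad s2)
    (path_bad hq.nonneg hbad s3)
  obtain ⟨E, hEdef⟩ : ∃ E : D.Ω → Prop, E = fun ω =>
      (∀ k < N, Adj D n (Real.exp (e * z)) (i + N * (2 ^ μ * u₁) - k * (2 ^ μ * u₁),
        j - N * (2 ^ μ * u₂) + k * (2 ^ μ * u₂)) (i + N * (2 ^ μ * u₁) - (k + 1) * (2 ^ μ * u₁),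
        j - N * (2 ^ μ * u₂) + (k + 1) * (2 ^ μ * u₂)) ω) ∧
      (∀ k < N, Adj D n (Real.exp (e * z)) (i + N * v₁ - k * v₁, j - N * v₂ + k * v₂)
        (i + N * v₁ - (k + 1) * v₁, j - N * v₂ + (k + 1) * v₂) ω) ∧
      ∀ k < N + N, Adj D n (Real.exp (e * z)) (cor i j u₁ u₂ (v₁ - u₁) (v₂ - u₂) N k)
        (cor i j u₁ u₂ (v₁ - u₁) (v₂ - u₂) N (k + 1)) ω := ⟨_, rfl⟩
  have hbE : Pb q (fun ω => ¬ E ω) ≤ η := by
    rw [hEdef]
    refine hbd.trans ?_
    push_cast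
    have h3 : (N : ℝ) * (η / (4 * Nm)) ≤ Nm * (η / (4 * Nm)) :=
      mul_le_mul_of_nonneg_right hNR (by positivity)
    have h4 : (Nm : ℝ) * (η / (4 * Nm)) = η / 4 := by
      field_simp
    linarith
  have hE : 1 / 2 ≤ Pb q E := by
    have := Pb_not hq.sum_one E
    linarith
  -- the errors
  have hR2 : (2 : ℝ) ^ l = N := by
    rw [hN]
    push_cast
    rfl
  rw [hR2] at hmi
  have hmi1 := hmi (-((2 ^ μ * u₁ : ℕ) : ℤ), ((2 ^ μ * u₂ : ℕ) : ℤ)) (by simp)
  have hmi2 := hmi (-(v₁ : ℤ), (v₂ : ℤ)) (by simp)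
  have hNz1 : (1 : ℝ) ≤ N * z := by
    have : (1 : ℝ) ≤ N := by exact_mod_cast hN1
    exact one_le_mul_of_one_le_of_one_le this hz1
  have hCtz : Ct * z ≤ κ' / 4 * (N * z) := by
    rw [div_le_iff₀ hκ'] at hNb2
    have := mul_le_mul_of_nonneg_right hNb2 (by linarith : (0 : ℝ) ≤ z)
    linarith
  have hκz : min κ₀ (κ' / 8) * z ≤ κ' / 8 * (N * z) := by
    have h3 : min κ₀ (κ' / 8) * z ≤ κ' / 8 * z :=
      mul_le_mul_of_nonneg_right (min_le_right _ _) (by linarith)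
    have h4 : (1 : ℝ) * z ≤ N * z :=
      mul_le_mul_of_nonneg_right (by exact_mod_cast hN1) (by linarith)
    have h5 : κ' / 8 * z ≤ κ' / 8 * (N * z) :=
      mul_le_mul_of_nonneg_left (by linarith) (by positivity)
    linarith
  have hKN : 0 ≤ κ' * (N * z) := mul_nonneg hκ'.le (by linarith only [hNz1])
  have hPr : ∀ r : ℕ, r ≤ V * (N * z) →
      Pb q (fun ω => ¬ E ω) * (n * ((r + 2) * Real.log 2)) ≤ κ' / 4 * (N * z) := by
    intro r hr
    have hr2 : (r : ℝ) ≤ V * (N * z) := by exact_mod_cast hr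
    have h3 : (n : ℝ) * ((r + 2) * Real.log 2) ≤ n * (V + 2) * (N * z) := by
      have h4 : ((r : ℝ) + 2) * Real.log 2 ≤ (r + 2) * 1 :=
        mul_le_mul_of_nonneg_left hl1 (by positivity)
      have h5 : (r : ℝ) + 2 ≤ (V + 2) * (N * z) := by linarith
      calc (n : ℝ) * ((r + 2) * Real.log 2) ≤ n * ((V + 2) * (N * z)) :=
            mul_le_mul_of_nonneg_left (by linarith) hn0.le
        _ = _ := by ring
    calc Pb q (fun ω => ¬ E ω) * (n * ((r + 2) * Real.log 2))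
        ≤ η * (n * (V + 2) * (N * z)) := mul_le_mul hbE h3 (by positivity) hη0.le
      _ = η * (n * (V + 2)) * (N * z) := by ring
      _ ≤ κ' / 4 * (N * z) := mul_le_mul_of_nonneg_right hη2 (by linarith)
  have hAe : 0 ≤ Av * (e + 1) * z ∧ 0 ≤ Ah * (e + 1) * z ∧ 0 ≤ Ar * (e + 1) * z :=
    ⟨by positivity, by positivity, by positivity⟩
  have hAez : Av * (e + 1) * z + Ah * (e + 1) * z + Ar * (e + 1) * z + 3 * Real.log 2 ≤
      κ' / 4 * (N * z) := by
    refine le_trans ?_ hCtz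
    have e1 : Ct * z = Av * (e + 1) * z + Ah * (e + 1) * z + Ar * (e + 1) * z + 3 * z := by
      rw [hCt]
      ring
    rw [e1]
    linarith only [hl1, hz1]
  have hs : (N : ℝ) ≤ Real.exp z := by
    have h3 : (Nm : ℝ) ≤ z := by exact_mod_cast (by omega : Nm ≤ z)
    have := Real.add_one_le_exp (z : ℝ)
    linarith
  have hs2 : ((N + N : ℕ) : ℝ) ≤ Real.exp z := by
    have h3 : ((N + N : ℕ) : ℝ) ≤ z := by exact_mod_cast (by omega : N + N ≤ z)
    have := Real.add_one_le_exp (z : ℝ)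
    linarith
  have hir : ir * N ≤ i := by omega
  have hjr : jr * N ≤ j := by omega
  have p1 : i - ir * N + ir * N = i := by omega
  have p2 : j - jr * N + jr * N = j := by omega
  have q12 : (ir - u₁) * N = ir * N - N * u₁ := by rw [Nat.sub_mul, Nat.mul_comm u₁ N]
  have q13 : (jr + u₂) * N = jr * N + N * u₂ := by rw [Nat.add_mul, Nat.mul_comm u₂ N]
  have q14 : N * u₁ ≤ ir * N := by rw [Nat.mul_comm]; exact Nat.mul_le_mul_right N hi
  have p3 : i - ir * N + (ir - u₁) * N = i - N * u₁ := by omega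
  have p4 : j - jr * N + (jr + u₂) * N = j + N * u₂ := by omega
  -- the place of the own pair
  obtain ⟨k₁, hk₁⟩ : ∃ k₁ : ℕ, N = k₁ * 2 ^ μ := by
    refine ⟨2 ^ (l - μ), ?_⟩
    rw [hN, ← pow_add]
    congr 1
    omega
  have hk₁N : k₁ ≤ N := by
    rw [hk₁]
    exact Nat.le_mul_of_pos_right _ (by positivity)
  have q15 : k₁ * (2 ^ μ * u₁) = N * u₁ := by rw [hk₁, Nat.mul_assoc]
  have q16 : k₁ * (2 ^ μ * u₂) = N * u₂ := by rw [hk₁, Nat.mul_assoc]
  have hiM : i ≤ M := by omega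
  have hjM : j ≤ M := by omega
  refine ⟨N, i - ir * N, j - jr * N, by exact_mod_cast hNb1, ⟨hN1, ?_, ?_⟩, ?_, ?_⟩
  · have : (M' + 1) * N = M' * N + N := by ring
    omega
  · have : (M' + 1) * N = M' * N + N := by ring
    omega
  · intro U' hU'
    show ((n - 1 : ℕ) : ℝ) * (U' * ((N * z : ℕ) : ℝ)) * Real.log 2 - κ' * ((N * z : ℕ) : ℝ) ≤
      CH q (D.vd n (i - ir * N + ir * N) (j - jr * N + jr * N) (U' * (N * z))) (fun ω =>
        (D.s (i - ir * N + (ir - u₁) * N) (j - jr * N + (jr + u₂) * N) ω,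
          (D.c (i - ir * N + ir * N) (j - jr * N + jr * N) ω, D.T ω)))
    rw [p1, p2, p3, p4]
    have hr : U' * (N * z) ≤ V * (N * z) := Nat.mul_le_mul_right _ hU'
    have r1 := hindv D J a₀ w₀ z M lam gam _ C₁ q hO e _ _ N ((i : ℤ), (j : ℤ))
      (-((2 ^ μ * u₁ : ℕ) : ℤ), ((2 ^ μ * u₂ : ℕ) : ℤ)) E k₁ N (i - N * u₁, j + N * u₂) i j
      (U' * (N * z)) he0 hzz3 w1 hs (fun ω hω => by rw [hEdef] at hω; exact hω.1) hE rfl
      (Prod.ext (by simp only; omega) (by simp only; omega))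
      (by
        rw [pl_left (by omega), Nat.zero_mul, Nat.zero_mul, Nat.sub_zero, Nat.add_zero]) hk₁N
      (by rw [pl_right (by omega), q15, q16]) (by simp only; omega) (by simp only; omega)
      (by
        have h3 : (U' : ℝ) ≤ V := by exact_mod_cast hU'
        have h4 : (U' : ℝ) * (N * z) ≤ 2 ^ μ * cu * (N * z) :=
          mul_le_mul_of_nonneg_right (h3.trans hμ) (by linarith)
        have h5 := mul_le_mul_of_nonneg_right h4 hl0.le
        have h6 : 0 ≤ e * (z : ℝ) := by positivity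
        push_cast
        linarith)
    have r2 := hO.full i hiM j hjM (U' * N) (by
      have := Nat.mul_le_mul_right N hU'
      omega)
    rw [show U' * N * z = U' * (N * z) by ring] at r2
    have r3 := hPr _ hr
    dsimp only at r1
    obtain ⟨t1, t2, t3⟩ := hAe
    have t4 : ((U' * N : ℕ) : ℝ) * z = U' * (N * z) := by
      push_cast
      ring
    have t5 : ((N * z : ℕ) : ℝ) = N * z := Nat.cast_mul _ _
    rw [t4] at r2
    rw [t5]
    linarith only [r1, r2, r3, t2, t3, hmi1, hκz, hAez, hKN]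
  · intro U' hU'
    show CH q (D.nd n (i - ir * N + ir * N) (j - jr * N + jr * N) (U * (N * z))) (fun ω =>
        (D.vd n (i - ir * N + ir * N) (j - jr * N + jr * N) (U' * (N * z)) ω,
          (D.c (i - ir * N + ir * N) (j - jr * N + jr * N) ω, D.T ω))) ≤
      CH q (D.nd n (i - ir * N + ir * N) (j - jr * N + jr * N) (U * (N * z))) (fun ω =>
        (D.ss n (i - ir * N + ir * N) (j - jr * N + jr * N) (i - ir * N + (ir - u₁) * N)
          (j - jr * N + (jr + u₂) * N) (U * (N * z)) ω,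
        (D.vd n (i - ir * N + ir * N) (j - jr * N + jr * N) (U' * (N * z)) ω,
          (D.c (i - ir * N + ir * N) (j - jr * N + jr * N) ω, D.T ω)))) +
        κ' * ((N * z : ℕ) : ℝ)
    rw [p1, p2, p3, p4]
    have hr' : U' * (N * z) ≤ V * (N * z) := Nat.mul_le_mul_right _ hU'
    have hr : U * (N * z) ≤ V * (N * z) := Nat.mul_le_mul_right _ hUV
    have hN2 : ((N : ℝ)) ≤ N := le_rfl
    have ec1 : cor i j u₁ u₂ (v₁ - u₁) (v₂ - u₂) N 0 = (i, j) := by
      unfold cor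
      rw [Nat.zero_min, Nat.zero_sub]
      simp
    have ec2 : cor i j u₁ u₂ (v₁ - u₁) (v₂ - u₂) N N = (i - N * u₁, j + N * u₂) := by
      unfold cor
      rw [min_self, Nat.sub_self]
      simp
    have ec3 : cor i j u₁ u₂ (v₁ - u₁) (v₂ - u₂) N (N + N) = (i - N * v₁, j + N * v₂) := by
      unfold cor
      rw [min_eq_right (by omega : N ≤ N + N), Nat.add_sub_cancel, q8, q9]
      exact Prod.ext (by simp only; omega) (by simp only; omega)
    have lv := fun (l : ℕ) (a : 1 ≤ l) (b : l ≤ n) =>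
      hom2 hO (p := (i - N * u₁, j + N * u₂)) (p' := (i, j)) (by simp only; omega)
        (by simp only; omega) hiM hjM a b
    have lv' := hom2 hO (p := (i, j)) (p' := (i - N * u₁, j + N * u₂)) hiM hjM
      (by simp only; omega) (by simp only; omega) hn le_rfl
    simp only at lv lv'
    have hfat : ∀ l, 1 ≤ l → l < n → D.g (i - N * u₁) (j + N * u₂) l ≤ D.g i j l := by
      intro l hl hln
      have h3 := lv l hl hln.le
      have h4 := hcu2 l hl hln
      rw [Nat.cast_sub (by omega)] at h3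
      push_cast at h3
      rw [div_le_iff₀ hcu] at hNb3
      have h5 : (N : ℝ) * cu ≤ N * (lam l * u₁ - gam l * u₂) :=
        mul_le_mul_of_nonneg_left (by linarith only [h4]) hN0.le
      have h6 : 2 * C₁ * z ≤ N * (lam l * u₁ - gam l * u₂) * z :=
        mul_le_mul_of_nonneg_right (hNb3.trans h5) (by linarith only [hz1])
      have h7 : (D.g (i - N * u₁) (j + N * u₂) l : ℝ) ≤ D.g i j l := by
        linarith only [h3, h6]
      exact_mod_cast h7
    have hthin : D.g i j n < D.g (i - N * u₁) (j + N * u₂) n := by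
      rw [Nat.cast_sub (by omega)] at lv'
      push_cast at lv'
      rw [div_le_iff₀ hδ0] at hNb4
      have h6 : (2 * C₁ + 1) * z ≤ N * δ * z :=
        mul_le_mul_of_nonneg_right hNb4 (by linarith only [hz1])
      rw [hδ] at h6
      have h7 : (D.g i j n : ℝ) < D.g (i - N * u₁) (j + N * u₂) n := by
        linarith only [lv', h6, hz1]
      exact_mod_cast h7
    have r0 := hrgt D J a₀ w₀ z M lam gam _ C₁ q hO e _ _ N ((i : ℤ), (j : ℤ))
      (-(v₁ : ℤ), (v₂ : ℤ)) E i j (i - N * u₁) (j + N * u₂) (i - N * v₁) (j + N * v₂)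
      (U * (N * z)) he0 hzz1 w3 hs2 (fun ω hω => by rw [hEdef] at hω; exact hω.2.2) hE rfl
      ec1 ec2 ec3 (pl_right (by omega)) hfat hthin (fun k hk hk' => by
        exact nd_cor hO hn hC heC hcu.le (by omega) hiM (by omega) (by linarith only [h2]) (by
          rw [Nat.cast_sub huv1, Nat.cast_sub huv2]
          exact hwn) hk hk'.le)
    have r1 := hindh D J a₀ w₀ z M lam gam _ C₁ q hO e _ _ N ((i : ℤ), (j : ℤ))
      (-(v₁ : ℤ), (v₂ : ℤ)) E N i j (U * (N * z)) (U' * (N * z)) (V * (N * z)) he0 hzz3 w2 hs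
      (fun ω hω => by rw [hEdef] at hω; exact hω.2.1) hE rfl
      (Prod.ext (by simp only; omega) (by simp only; omega))
      (by
        rw [pl_left (by omega), Nat.zero_mul, Nat.zero_mul, Nat.sub_zero, Nat.add_zero])
      (by
        have h3 : (U' : ℝ) ≤ V := by exact_mod_cast hU'
        have h4 : (U' : ℝ) * (N * z) ≤ V * (N * z) :=
          mul_le_mul_of_nonneg_right h3 (by linarith only [hNz1])
        have h5 := mul_le_mul_of_nonneg_right h4 hl0.le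
        have h6 : 0 ≤ e * (z : ℝ) := by positivity
        push_cast
        linarith only [h5, h6]) hr hr'
      (by
        have h3 := nd_line hO hn hC heC (c := V) (U := U) (by exact_mod_cast hUV)
          (i := i) (j := j) (x₁ := v₁) (x₂ := v₂) (N := N) (by omega) (by omega) hjM hvn
          (Nat.zero_le N)
        simp only [Nat.cast_zero, zero_mul, add_zero] at h3
        simpa using h3)
      (fun k hk => by
        exact nd_line hO hn hC heC (c := V) (U := U) (by exact_mod_cast hUV)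
          (i := i) (j := j) (x₁ := v₁) (x₂ := v₂) (N := N) (by omega) (by omega) hjM hvn hk.le)
      _ _ _ r0
    have r3 := hPr _ (le_refl (V * (N * z)))
    obtain ⟨t1, t2, t3⟩ := hAe
    have t5 : ((N * z : ℕ) : ℝ) = N * z := Nat.cast_mul _ _
    rw [t5]
    linarith only [r1, r3, t1, hmi2, hAez, hKN]

end Pool.MIC7
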