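import Pool.Agent.H7.MIC.Frz
import Pool.Agent.H20.MIC.Ctx
import Pool.Agent.H6.SYS2.Cor

/-!
# Neighbouring labels in a cell

Two pairs with a common refinement: the labels at the exact time agree on the natural box up to
`exp (c z)`, off an event of small probability.
-/

set_option autoImplicit false

namespace Pool.MIC7

open Finset Real MvPolynomial
open Pool.Agent.H49.Ent Pool.Agent.H32.Dense Pool.STK Pool.STAT Pool.MIC.Frm
open Pool.BFL (Pb)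

/-- The visible labels at `(i, j)` at the exact time. -/
noncomputable def fr (D : NDat2) (p : ℕ × ℕ) (ω : D.Ω) : ℕ → PN := fz (D.X ω 0) (D.Ψ p.1 p.2 ω)

/-- Neighbouring labels agree. -/
def Adj (D : NDat2) (n : ℕ) (E : ℝ) (p p' : ℕ × ℕ) (ω : D.Ω) : Prop :=
  ∀ l, 1 ≤ l → l ≤ n → ∀ b : ℕ → ℝ, (∀ k < l, |nat (D.g p.1 p.2) (fr D p ω) b k| ≤ 1) →
    |eval b (fr D p ω l) - eval b (fr D p' ω l)| ≤ E / 2 ^ D.g p.1 p.2 l

theorem Pb_un {Ω ι : Type} [Fintype Ω] {q : Ω → ℝ} (hq : ∀ w, 0 ≤ q w) (S : Finset ι)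
    (A : ι → Ω → Prop) : Pb q (fun w => ∃ i ∈ S, A i w) ≤ ∑ i ∈ S, Pb q (A i) := by
  classical
  unfold Pb
  rw [Finset.sum_comm]
  refine Finset.sum_le_sum fun w _ => ?_
  have h2 : ∀ i ∈ S, 0 ≤ (if A i w then q w else 0) := fun i _ => by
    split_ifs
    exacts [hq w, le_rfl]
  by_cases h3 : ∃ i ∈ S, A i w
  · rw [if_pos h3]
    obtain ⟨i, hi, h4⟩ := h3
    have := Finset.single_le_sum h2 hi
    rwa [if_pos h4] at this
  · rw [if_neg h3]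
    exact Finset.sum_nonneg h2

/-- One label against the common refinement. -/
theorem adj_one (n K S : ℕ) (η : ℝ) (hη : 0 < η) (hη1 : η ≤ 1) : ∃ (κ₀ : ℝ) (z₀ : ℕ), 0 < κ₀ ∧
    ∀ (D : NDat2) (J a₀ w₀ z M : ℕ) (lam gam : ℕ → ℝ) (κ C₁ : ℝ) (q : D.Ω → ℝ),
      D.Ok2 n K J a₀ w₀ z M lam gam κ C₁ q → κ ≤ κ₀ → z₀ ≤ z → ∀ (p r : ℕ × ℕ),
      p.1 ≤ M → p.2 ≤ M → r.1 < M → r.2 ≤ M → Det q (D.c r.1 r.2) (D.c p.1 p.2) →
      (∀ l ≤ n, D.g p.1 p.2 l ≤ D.g r.1 r.2 l + S * z) → ∀ l, 1 ≤ l → l ≤ n →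
      Pb q (fun ω => ¬ ∀ b : ℕ → ℝ, (∀ k < l, |nat (D.g r.1 r.2) (fr D r ω) b k| ≤ 1) →
        |eval b (fr D r ω l) - eval b (fr D p ω l)| ≤
          Real.exp ((S + 2 : ℕ) * z) / 2 ^ D.g p.1 p.2 l) ≤ η := by
  obtain ⟨C, hC, h⟩ := Pool.MIC.Frm.uni_ctx (n - 1) K 1 zero_le_one
  have hC0 : 0 < C := by linarith
  obtain ⟨z₁, hz₁⟩ := exists_nat_ge (4 * C / η)
  refine ⟨η / (4 * C), max z₁ 1, by positivity, ?_⟩
  intro D J a₀ w₀ z M lam gam κ C₁ q hO hκ hz p r hp1 hp2 hr1 hr2 hdet hg l hl hln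
  have hq := hO.isLaw
  have hz1 : (1 : ℝ) ≤ z := by exact_mod_cast (le_max_right _ _).trans hz
  have hzz : (z₁ : ℝ) ≤ z := by exact_mod_cast (le_max_left _ _).trans hz
  have hl2 : (1 : ℝ) / 2 ≤ Real.log 2 := by
    have := Real.log_two_gt_d9
    linarith
  have hl21 : Real.log 2 ≤ 1 := by
    have := Real.log_two_lt_d9
    linarith
  -- the exponent
  have hkey : C * (η / (4 * C) * z + 1) / η ≤ z * Real.log 2 := by
    rw [div_le_iff₀ hη]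
    have e1 : C * (η / (4 * C) * z + 1) = η * z / 4 + C := by
      field_simp
    have e2 : 4 * C ≤ z * η := by
      have := hz₁.trans hzz
      rwa [div_le_iff₀ hη] at this
    rw [e1]
    nlinarith
  have dy : Det q (fun ω => (D.c r.1 r.2 ω, D.T ω)) D.T := fun _ _ _ _ e => (Prod.ext_iff.1 e).2
  have ds1 : Det q (fun ω => (D.c r.1 r.2 ω, D.T ω)) (D.s r.1 r.2) := hO.s_c _ hr1.le _ hr2
  have ds2 : Det q (fun ω => (D.c r.1 r.2 ω, D.T ω)) (D.s p.1 p.2) := by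
    intro ω ω' a b e
    have e1 := Prod.ext_iff.1 e
    exact hO.s_c _ hp1 _ hp2 ω ω' a b (Prod.ext (hdet ω ω' a b e1.1) e1.2)
  have dX : ∀ ω ω', 0 < q ω → 0 < q ω' → D.T ω = D.T ω' → D.X ω 0 = D.X ω' 0 := by
    intro ω ω' _ _ e
    rw [hO.X_zero, hO.X_zero, e]
  set τ : D.Ω → ℝ := fun _ => 1 / 2 ^ D.g r.1 r.2 l + 1 / 2 ^ D.g p.1 p.2 l with hτ
  have τ0 : (0 : ℝ) < 1 / 2 ^ D.g r.1 r.2 l + 1 / 2 ^ D.g p.1 p.2 l := by positivity
  have hpos : ∀ (p : ℕ × ℕ), p.1 ≤ M → p.2 ≤ M → ∀ ω, 0 < q ω → ∀ k, 1 ≤ k → k ≤ n →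
      |D.X ω k - eval (D.X ω) (D.Ψ p.1 p.2 ω k)| ≤ 1 / 2 ^ D.g p.1 p.2 k := by
    intro p h1 h2 ω hω k hk hkn
    exact hO.pos _ h1 _ h2 ω hω k hk hkn
  have main := h (l - 1) (by omega) D.Ω _ q z (fun ω => (D.c r.1 r.2 ω, D.T ω)) (D.g r.1 r.2)
    (D.Ψ r.1 r.2) (fun ω => D.Ψ r.1 r.2 ω l - D.Ψ p.1 p.2 ω l) D.X
    (1 / 2 ^ D.g r.1 r.2 l + 1 / 2 ^ D.g p.1 p.2 l) (η / (4 * C) * z) η hq
    (fun ω ω' a b e => dX ω ω' a b (dy ω ω' a b e))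
    (fun ω ω' a b e => by
      have e1 := ds1 ω ω' a b e
      unfold NDat2.Ψ
      rw [e1])
    (fun ω ω' a b e => by
      have e1 := ds1 ω ω' a b e
      have e2 := ds2 ω ω' a b e
      unfold NDat2.Ψ
      simp only
      rw [e1, e2])
    (fun ω _ => hO.G_tri _ _ _) (fun ω _ k => hO.G_deg _ _ _ _)
    (fun ω _ => by
      rw [show l - 1 + 1 = l by omega]
      exact AdxRow.vars_sub_le (hO.G_tri _ _ _ l) (hO.G_tri _ _ _ l))
    (fun ω _ => (totalDegree_sub _ _).trans (max_le (hO.G_deg _ _ _ _) (hO.G_deg _ _ _ _)))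
    τ0 (by positivity) hη hη1
    (fun ω hω k hk hkn => by
      have := hpos r hr1.le hr2 ω hω k hk (by omega)
      unfold nat
      rw [abs_mul, abs_of_pos (by positivity)]
      rw [le_div_iff₀ (by positivity)] at this
      linarith)
    (by
      have e1 : D.vd n r.1 r.2 (1 * z) = fun ω (k : Fin (n - 1)) =>
          ⌊(2 : ℝ) ^ z * nat (D.g r.1 r.2) (D.Ψ r.1 r.2 ω) (D.X ω) (k + 1)⌋ := by
        funext ω k
        unfold NDat2.vd NDat2.sh nat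
        rw [one_mul, pow_add]
        congr 1
        ring
      have e2 := hO.full _ hr1.le _ hr2 1 hr1
      rw [e1] at e2
      refine le_trans ?_ e2
      push_cast
      have e3 : κ * z ≤ η / (4 * C) * z := mul_le_mul_of_nonneg_right hκ (by linarith)
      linarith)
    hkey
    (fun ω hω => by
      rw [map_sub]
      have e1 := hpos r hr1.le hr2 ω hω l hl hln
      have e2 := hpos p hp1 hp2 ω hω l hl hln
      have e3 : eval (D.X ω) (D.Ψ r.1 r.2 ω l) - eval (D.X ω) (D.Ψ p.1 p.2 ω l) =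
          (D.X ω l - eval (D.X ω) (D.Ψ p.1 p.2 ω l)) -
            (D.X ω l - eval (D.X ω) (D.Ψ r.1 r.2 ω l)) := by ring
      rw [e3]
      refine (abs_sub _ _).trans ?_
      linarith)
  refine le_trans (Pool.MIC.Frm.Pb_supp hq.nonneg fun ω hω hb => ?_) main
  intro hc
  refine hb fun b hbb => ?_
  have c1 := hc (Function.update b 0 (D.X ω 0)) (Function.update_self _ _ _) (fun k hk hk' => by
    have := hbb k (by omega)
    unfold fr at this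
    rwa [nat_fz _ _ _ _ hk] at this)
  rw [map_sub] at c1
  unfold fr
  rw [eval_fz _ _ _ hl, eval_fz _ _ _ hl]
  refine c1.trans ?_
  have hp2 : (0 : ℝ) < 2 ^ D.g p.1 p.2 l := by positivity
  rw [le_div_iff₀ hp2]
  have f1 : Real.exp (C * (η / (4 * C) * z + 1) / η) ≤ Real.exp z := by
    refine Real.exp_le_exp.2 (hkey.trans ?_)
    nlinarith
  have f2 : (1 / 2 ^ D.g r.1 r.2 l + 1 / 2 ^ D.g p.1 p.2 l) * (2 : ℝ) ^ D.g p.1 p.2 l ≤
      2 * 2 ^ (S * z) := by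
    have f3 : (2 : ℝ) ^ D.g p.1 p.2 l ≤ 2 ^ D.g r.1 r.2 l * 2 ^ (S * z) := by
      rw [← pow_add]
      exact pow_le_pow_right₀ one_le_two (hg l hln)
    have f4 : (1 : ℝ) ≤ 2 ^ (S * z) := one_le_pow₀ one_le_two
    have f5 : 1 / (2 : ℝ) ^ D.g r.1 r.2 l * 2 ^ D.g p.1 p.2 l ≤ 2 ^ (S * z) := by
      rw [one_div, inv_mul_le_iff₀ (by positivity)]
      exact f3
    have f6 : 1 / (2 : ℝ) ^ D.g p.1 p.2 l * 2 ^ D.g p.1 p.2 l = 1 := by
      field_simp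
    rw [add_mul, f6]
    linarith
  have f7 : (2 : ℝ) * 2 ^ (S * z) ≤ Real.exp ((S + 1 : ℕ) * z) := by
    have f8 : (2 : ℝ) ≤ Real.exp 1 := by
      have := Real.add_one_le_exp (1 : ℝ)
      linarith
    have f9 : (2 : ℝ) ^ (S * z) ≤ Real.exp (S * z) := by
      calc (2 : ℝ) ^ (S * z) ≤ Real.exp 1 ^ (S * z) := pow_le_pow_left₀ (by norm_num) f8 _
        _ = Real.exp (S * z) := by
            rw [← Real.exp_nat_mul, mul_one]
            push_cast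
            rfl
    have f10 : (2 : ℝ) ≤ Real.exp z := f8.trans (Real.exp_le_exp.2 hz1)
    calc (2 : ℝ) * 2 ^ (S * z) ≤ Real.exp z * Real.exp (S * z) :=
          mul_le_mul f10 f9 (by positivity) (Real.exp_pos _).le
      _ = Real.exp ((S + 1 : ℕ) * z) := by
          rw [← Real.exp_add]
          push_cast
          congr 1
          ring
  calc Real.exp (C * (η / (4 * C) * z + 1) / η) *
        (1 / 2 ^ D.g r.1 r.2 l + 1 / 2 ^ D.g p.1 p.2 l) * 2 ^ D.g p.1 p.2 l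
      = Real.exp (C * (η / (4 * C) * z + 1) / η) *
        ((1 / 2 ^ D.g r.1 r.2 l + 1 / 2 ^ D.g p.1 p.2 l) * 2 ^ D.g p.1 p.2 l) := by ring
    _ ≤ Real.exp z * Real.exp ((S + 1 : ℕ) * z) :=
        mul_le_mul f1 (f2.trans f7) (by positivity) (Real.exp_pos _).le
    _ = Real.exp ((S + 2 : ℕ) * z) := by
        rw [← Real.exp_add]
        push_cast
        congr 1
        ring

/-- **Neighbouring labels.** -/
theorem adj_ev (n K S : ℕ) : ∃ c : ℝ, 0 < c ∧ ∀ η : ℝ, 0 < η → η ≤ 1 → ∃ (κ₀ : ℝ) (z₀ : ℕ),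
    0 < κ₀ ∧ ∀ (D : NDat2) (J a₀ w₀ z M : ℕ) (lam gam : ℕ → ℝ) (κ C₁ : ℝ) (q : D.Ω → ℝ),
      D.Ok2 n K J a₀ w₀ z M lam gam κ C₁ q → κ ≤ κ₀ → z₀ ≤ z → ∀ (p p' r : ℕ × ℕ),
      p.1 ≤ M → p.2 ≤ M → p'.1 ≤ M → p'.2 ≤ M → r.1 < M → r.2 ≤ M →
      Det q (D.c r.1 r.2) (D.c p.1 p.2) → Det q (D.c r.1 r.2) (D.c p'.1 p'.2) →
      (∀ l ≤ n, D.g p.1 p.2 l ≤ D.g r.1 r.2 l + S * z) →
      (∀ l ≤ n, D.g r.1 r.2 l ≤ D.g p.1 p.2 l + S * z) →
      (∀ l ≤ n, D.g p'.1 p'.2 l ≤ D.g r.1 r.2 l + S * z) →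
      (∀ l ≤ n, D.g p.1 p.2 l ≤ D.g p'.1 p'.2 l + S * z) →
      Pb q (fun ω => ¬ Adj D n (Real.exp (c * z)) p p' ω) ≤ η := by
  obtain ⟨C, E, hC, hN⟩ := nbr n K
  refine ⟨E * (S + 2 : ℕ) + C, by positivity, fun η hη hη1 => ?_⟩
  obtain ⟨κ₀, z₀, hκ₀, h⟩ := adj_one n K S (η / (2 * n + 1)) (by positivity) (by
    rw [div_le_one (by positivity)]
    have : (0 : ℝ) ≤ n := Nat.cast_nonneg _
    linarith)
  refine ⟨κ₀, max z₀ 1, hκ₀, ?_⟩
  intro D J a₀ w₀ z M lam gam κ C₁ q hO hκ hz p p' r hp1 hp2 hp1' hp2' hr1 hr2 hd hd' g1 g2 g3 g4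
  have hz0 : z₀ ≤ z := (le_max_left _ _).trans hz
  have hz1 : (1 : ℝ) ≤ z := by exact_mod_cast (le_max_right _ _).trans hz
  have hq := hO.isLaw
  set F : ℝ := Real.exp ((S + 2 : ℕ) * z) with hF
  have hF1 : 1 ≤ F := Real.one_le_exp (by positivity)
  have hpw : ∀ {a b : ℕ}, a ≤ b + S * z → (2 : ℝ) ^ a ≤ F * 2 ^ b := by
    intro a b hab
    have f8 : (2 : ℝ) ≤ Real.exp 1 := by
      have := Real.add_one_le_exp (1 : ℝ)
      linarith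
    have f9 : (2 : ℝ) ^ (S * z) ≤ F := by
      calc (2 : ℝ) ^ (S * z) ≤ Real.exp 1 ^ (S * z) := pow_le_pow_left₀ (by norm_num) f8 _
        _ = Real.exp (S * z) := by
            rw [← Real.exp_nat_mul, mul_one]
            push_cast
            rfl
        _ ≤ F := Real.exp_le_exp.2 (by
            push_cast
            nlinarith)
    calc (2 : ℝ) ^ a ≤ 2 ^ (b + S * z) := pow_le_pow_right₀ one_le_two hab
      _ = 2 ^ (S * z) * 2 ^ b := by rw [pow_add, mul_comm]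
      _ ≤ F * 2 ^ b := mul_le_mul_of_nonneg_right f9 (by positivity)
  set Bp : ℕ → D.Ω → Prop := fun l ω => ¬ ∀ b : ℕ → ℝ,
    (∀ k < l, |nat (D.g r.1 r.2) (fr D r ω) b k| ≤ 1) →
    |eval b (fr D r ω l) - eval b (fr D p ω l)| ≤ F / 2 ^ D.g p.1 p.2 l with hBp
  set Bp' : ℕ → D.Ω → Prop := fun l ω => ¬ ∀ b : ℕ → ℝ,
    (∀ k < l, |nat (D.g r.1 r.2) (fr D r ω) b k| ≤ 1) →
    |eval b (fr D r ω l) - eval b (fr D p' ω l)| ≤ F / 2 ^ D.g p'.1 p'.2 l with hBp'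
  have u1 := Pb_un hq.nonneg (Icc 1 n) Bp
  have u2 := Pb_un hq.nonneg (Icc 1 n) Bp'
  have v1 : ∑ l ∈ Icc 1 n, Pb q (Bp l) ≤ ∑ l ∈ Icc 1 n, η / (2 * n + 1) :=
    sum_le_sum fun l hl => h D J a₀ w₀ z M lam gam κ C₁ q hO hκ hz0 p r hp1 hp2 hr1 hr2 hd g1 l
      (mem_Icc.1 hl).1 (mem_Icc.1 hl).2
  have v2 : ∑ l ∈ Icc 1 n, Pb q (Bp' l) ≤ ∑ l ∈ Icc 1 n, η / (2 * n + 1) :=
    sum_le_sum fun l hl => h D J a₀ w₀ z M lam gam κ C₁ q hO hκ hz0 p' r hp1' hp2' hr1 hr2 hd' g3 l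
      (mem_Icc.1 hl).1 (mem_Icc.1 hl).2
  rw [sum_const, Nat.card_Icc, nsmul_eq_mul] at v1 v2
  have w0 : Pb q (fun ω => (∃ l ∈ Icc 1 n, Bp l ω) ∨ ∃ l ∈ Icc 1 n, Bp' l ω) ≤
      Pb q (fun ω => ∃ l ∈ Icc 1 n, Bp l ω) + Pb q (fun ω => ∃ l ∈ Icc 1 n, Bp' l ω) := by
    classical
    unfold Pb
    rw [← Finset.sum_add_distrib]
    refine Finset.sum_le_sum fun w _ => ?_
    have := hq.nonneg w
    by_cases h1 : ∃ l ∈ Icc 1 n, Bp l w <;> by_cases h2 : ∃ l ∈ Icc 1 n, Bp' l w <;>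
      simp only [h1, h2, or_true, or_false, if_true, if_false] <;> linarith
  have w1 : Pb q (fun ω => ¬ Adj D n (Real.exp ((E * (S + 2 : ℕ) + C) * z)) p p' ω) ≤
      Pb q (fun ω => (∃ l ∈ Icc 1 n, Bp l ω) ∨ ∃ l ∈ Icc 1 n, Bp' l ω) := by
    refine Pool.MIC.Frm.Pb_supp hq.nonneg fun ω hω hb => ?_
    by_contra hcon
    push Not at hcon
    obtain ⟨c1, c2⟩ := hcon
    refine hb fun l hl hln b hbb => ?_
    have key := hN (D.g r.1 r.2) (D.g p.1 p.2) (D.g p'.1 p'.2) (fr D r ω) (fr D p ω) (fr D p' ω) F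
      hF1 (tri_fz (hO.G_tri _ _ _) _) (tri_fz (hO.G_tri _ _ _) _) (tri_fz (hO.G_tri _ _ _) _)
      (fun i _ => deg_fz (hO.G_deg _ _ _ _) _) (fun i _ => deg_fz (hO.G_deg _ _ _ _) _)
      (fun i _ => deg_fz (hO.G_deg _ _ _ _) _) (by
        unfold fr
        rw [fz_zero, fz_zero])
      (fun i hi => hpw (g2 i hi)) (fun i hi => hpw (g4 i hi))
      (fun l hl hln b hb => ⟨c1 l (mem_Icc.2 ⟨hl, hln⟩) b hb, c2 l (mem_Icc.2 ⟨hl, hln⟩) b hb⟩)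
      l hl hln b hbb
    refine key.trans (div_le_div_of_nonneg_right ?_ (by positivity))
    have e1 : C ≤ Real.exp (C * z) := by
      have := Real.add_one_le_exp (C * z)
      nlinarith
    calc C * F ^ E ≤ Real.exp (C * z) * Real.exp (E * ((S + 2 : ℕ) * z)) := by
          rw [hF, ← Real.exp_nat_mul]
          exact mul_le_mul_of_nonneg_right e1 (Real.exp_pos _).le
      _ = Real.exp ((E * (S + 2 : ℕ) + C) * z) := by
          rw [← Real.exp_add]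
          congr 1
          ring
  have w2 : ((n + 1 - 1 : ℕ) : ℝ) * (η / (2 * n + 1)) + ((n + 1 - 1 : ℕ) : ℝ) *
      (η / (2 * n + 1)) ≤ η := by
    rw [Nat.add_sub_cancel, ← mul_add, ← add_div, mul_div_assoc', div_le_iff₀ (by positivity)]
    nlinarith
  linarith

end Pool.MIC7
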