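import Pool.Agent.H7.MIC.LLc
import Pool.Agent.H25.MIC.SsFew

/-!
# Own leaves at a good place

`at_v`, `at_h`: at a place where the dyadic Markov lemma gives a small information in one
direction, for an own pair which depends on the scale.
-/

set_option autoImplicit false

namespace Pool.MIC7

open Finset Real MvPolynomial
open Pool.Agent.H49.Ent Pool.Agent.H32.Dense Pool.STK Pool.STAT Pool.MIC.Frm Pool.MIC24 Pool.DM
open Pool.MIC
open Pool.BFL (Pb)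

theorem ssFewA (n K : ℕ) : SsFew n K := by
  obtain ⟨C, hC, h⟩ := Pool.STAT.SsF.ss_few n K
  refine ⟨C, hC, ?_⟩
  intro D p i j i' j' ic jc r J τ
  exact h D p J i j i' j' ic jc r τ

/-- The slope of the base directions. -/
theorem cu_ex (n : ℕ) (lam gam : ℕ → ℝ) (u₁ u₂ V : ℕ)
    (h1 : ∀ l, 1 ≤ l → l < n → gam l * u₂ < lam l * u₁) :
    ∃ (cu : ℝ) (μ : ℕ), 0 < cu ∧ (V : ℝ) ≤ 2 ^ μ * cu ∧
      ∀ l, 1 ≤ l → l < n → cu + gam l * u₂ ≤ lam l * u₁ := by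
  obtain ⟨cu, hcu, hcu2⟩ : ∃ cu : ℝ, 0 < cu ∧
      ∀ l, 1 ≤ l → l < n → cu + gam l * u₂ ≤ lam l * u₁ := by
    induction n with
    | zero => exact ⟨1, one_pos, fun l _ h => absurd h (Nat.not_lt_zero _)⟩
    | succ n ih =>
      obtain ⟨c, hc, hc2⟩ := ih fun l a b => h1 l a (by omega)
      by_cases hn : 1 ≤ n
      · have h3 := h1 n hn (Nat.lt_succ_self n)
        refine ⟨min c (lam n * u₁ - gam n * u₂), lt_min hc (by linarith), fun l a b => ?_⟩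
        rcases Nat.lt_succ_iff_lt_or_eq.1 b with hl | hl
        · have := hc2 l a hl
          have := min_le_left c (lam n * u₁ - gam n * u₂)
          linarith
        · rw [hl]
          have := min_le_right c (lam n * u₁ - gam n * u₂)
          linarith
      · exact ⟨c, hc, fun l a b => by omega⟩
  obtain ⟨μ, hμ⟩ := pow_unbounded_of_one_lt ((V : ℝ) / cu) (one_lt_two)
  exact ⟨cu, μ, hcu, by rw [div_lt_iff₀ hcu] at hμ; linarith, hcu2⟩

/-- The error of the event. -/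
theorem err_ev {n V N z r : ℕ} {η κ' P : ℝ} (hP : P ≤ η) (hη : 0 ≤ η)
    (hη2 : η * (n * (V + 2)) ≤ κ' / 4) (hNz : (1 : ℝ) ≤ N * z) (hr : r ≤ V * (N * z)) :
    P * (n * ((r + 2) * Real.log 2)) ≤ κ' / 4 * (N * z) := by
  have hl0 : 0 < Real.log 2 := Real.log_pos (by norm_num)
  have hl1 : Real.log 2 ≤ 1 := by
    have := Real.log_two_lt_d9
    linarith
  have hr2 : (r : ℝ) ≤ V * (N * z) := by exact_mod_cast hr
  have h3 : (n : ℝ) * ((r + 2) * Real.log 2) ≤ n * (V + 2) * (N * z) := by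
    have h4 : ((r : ℝ) + 2) * Real.log 2 ≤ (r + 2) * 1 :=
      mul_le_mul_of_nonneg_left hl1 (by positivity)
    have h5 : (r : ℝ) + 2 ≤ (V + 2) * (N * z) := by linarith
    calc (n : ℝ) * ((r + 2) * Real.log 2) ≤ n * ((V + 2) * (N * z)) :=
          mul_le_mul_of_nonneg_left (by linarith) (Nat.cast_nonneg _)
      _ = _ := by ring
  calc P * (n * ((r + 2) * Real.log 2))
      ≤ η * (n * (V + 2) * (N * z)) := mul_le_mul hP h3 (by positivity) hη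
    _ = η * (n * (V + 2)) * (N * z) := by ring
    _ ≤ κ' / 4 * (N * z) := mul_le_mul_of_nonneg_right hη2 (by linarith)

/-- The choice of the size of the event. -/
theorem eta_ex {n : ℕ} (hn : 1 ≤ n) (V : ℕ) {κ' : ℝ} (hκ' : 0 < κ') :
    ∃ η : ℝ, 0 < η ∧ η ≤ 1 / 2 ∧ η * (n * (V + 2)) ≤ κ' / 4 := by
  have hn0 : (0 : ℝ) < n := by exact_mod_cast hn
  refine ⟨min (1 / 2) (κ' / (4 * (n * (V + 2)))), lt_min (by norm_num) (by positivity),
    min_le_left _ _, ?_⟩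
  have h3 : min (1 / 2) (κ' / (4 * (n * (V + 2)))) ≤ κ' / (4 * (n * (V + 2))) := min_le_right _ _
  rw [le_div_iff₀ (by positivity)] at h3
  linarith

/-- **The base is full given an own label**, at a good place. -/
theorem at_v (n K : ℕ) (hn : 1 ≤ n) (lam gam : ℕ → ℝ) (hlam : ∀ l, 1 ≤ lam l)
    (hgam : ∀ l, 0 ≤ gam l) (C₁ : ℝ) (hC : 0 ≤ C₁) (u₁ u₂ V : ℕ) (κ' : ℝ) (hκ' : 0 < κ')
    (h1 : ∀ l, 1 ≤ l → l < n → gam l * u₂ < lam l * u₁) :
    ∃ (d : ℤ × ℤ) (W m₁ : ℕ), d.1 ≤ 0 ∧ 0 ≤ d.2 ∧ ∀ Nm : ℕ, 1 ≤ Nm →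
    ∃ (κ₀ : ℝ) (z₀ : ℕ), 0 < κ₀ ∧ ∀ (J a₀ w₀ z M : ℕ) (κ : ℝ) (D : NDat2) (q : D.Ω → ℝ),
      z₀ ≤ z → κ ≤ κ₀ → D.Ok2 n K J a₀ w₀ z M lam gam κ C₁ q → ∀ (l N i j : ℕ), m₁ ≤ l →
      N = 2 ^ l → N ≤ Nm → W * N ≤ i → i + W * N ≤ M → W * N ≤ j → j + W * N ≤ M →
      mi q D.T (Rc D) (((i : ℤ), (j : ℤ)) - N • d) d N ≤ N * (κ' / 8 * z) →
      ∀ U' ≤ V, ((n - 1 : ℕ) : ℝ) * (U' * ((N * z : ℕ) : ℝ)) * Real.log 2 -
        κ' * ((N * z : ℕ) : ℝ) ≤ CH q (D.vd n i j (U' * (N * z))) (fun ω =>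
          (D.s (i - N * u₁) (j + N * u₂) ω, (D.c i j ω, D.T ω))) := by
  have hl0 : 0 < Real.log 2 := Real.log_pos (by norm_num)
  have hl1 : Real.log 2 ≤ 1 := by
    have := Real.log_two_lt_d9
    linarith
  obtain ⟨cu, μ, hcu, hμ, hcu2⟩ := cu_ex n lam gam u₁ u₂ V h1
  obtain ⟨S, hS⟩ : ∃ S : ℕ, S = 2 ^ μ * u₁ + 2 ^ μ * u₂ := ⟨_, rfl⟩
  obtain ⟨c, hc, hstp⟩ := stp_bad n K S lam gam C₁ hlam hgam hC
  obtain ⟨e, he⟩ : ∃ e : ℝ, e = c + 2 * C₁ := ⟨_, rfl⟩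
  have he0 : 0 ≤ e := by rw [he]; positivity
  have heC : 2 * C₁ ≤ e := by linarith
  have hec : c ≤ e := by linarith
  obtain ⟨Av, hAv, hindv⟩ := ind_v n K
  obtain ⟨Ct, hCt⟩ : ∃ Ct : ℝ, Ct = Av * (e + 1) + 3 := ⟨_, rfl⟩
  have hCt0 : 0 < Ct := by rw [hCt]; positivity
  obtain ⟨η, hη0, hη1, hη2⟩ := eta_ex hn V hκ'
  obtain ⟨m, hm⟩ := exists_nat_ge (4 * Ct / κ')
  refine ⟨(-((2 ^ μ * u₁ : ℕ) : ℤ), ((2 ^ μ * u₂ : ℕ) : ℤ)), 2 * S + V + 2, m + μ, ?_, ?_, ?_⟩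
  · simp only
    omega
  · simp only
    omega
  intro Nm hNm1
  have hNm0 : (1 : ℝ) ≤ Nm := by exact_mod_cast hNm1
  obtain ⟨κ₀, z₂, hκ₀, hstp2⟩ := hstp (η / Nm) (by positivity) (by
    rw [div_le_one (by positivity)]
    linarith)
  refine ⟨min κ₀ (κ' / 8), max z₂ (max 1 (2 * Nm)), lt_min hκ₀ (by positivity), ?_⟩
  intro J a₀ w₀ z M κ D q hz hκ hO l N i j hl hN hNN hWi hWi' hWj hWj' hmi
  have hq := hO.isLaw
  have hzz2 : z₂ ≤ z := (le_max_left _ _).trans hz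
  have hzz3 : 1 ≤ z := (le_max_left _ _).trans ((le_max_right _ _).trans hz)
  have hzz4 : 2 * Nm ≤ z := (le_max_right _ _).trans ((le_max_right _ _).trans hz)
  have hz1 : (1 : ℝ) ≤ z := by exact_mod_cast hzz3
  have hN1 : 1 ≤ N := by rw [hN]; exact Nat.one_le_two_pow
  have hNb : (m : ℝ) ≤ N := by
    have h3 : m ≤ 2 ^ l := by
      refine (Nat.lt_two_pow_self (n := m)).le.trans (Nat.pow_le_pow_right (by norm_num) ?_)
      omega
    rw [hN]
    exact_mod_cast h3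
  have hNR : (N : ℝ) ≤ Nm := by exact_mod_cast hNN
  have hNb2 := hm.trans hNb
  have hNz1 : (1 : ℝ) ≤ N * z := by
    have : (1 : ℝ) ≤ N := by exact_mod_cast hN1
    exact one_le_mul_of_one_le_of_one_le this hz1
  -- bounds for products
  have q1 : N * (2 ^ μ * u₁) ≤ N * S := Nat.mul_le_mul_left N (by omega)
  have q2 : N * (2 ^ μ * u₂) ≤ N * S := Nat.mul_le_mul_left N (by omega)
  have q5 : S ≤ N * S := Nat.le_mul_of_pos_left S hN1
  have q6 : N * u₁ ≤ N * (2 ^ μ * u₁) :=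
    Nat.mul_le_mul_left N (Nat.le_mul_of_pos_left _ (by positivity))
  have q7 : N * u₂ ≤ N * (2 ^ μ * u₂) :=
    Nat.mul_le_mul_left N (Nat.le_mul_of_pos_left _ (by positivity))
  have eW : (2 * S + V + 2) * N = 2 * (N * S) + V * N + 2 * N := by ring
  rw [eW] at hWi hWi' hWj hWj'
  have w1 := way_line hO hC heC (i := i + N * (2 ^ μ * u₁)) (j := j - N * (2 ^ μ * u₂))
    (x₁ := 2 ^ μ * u₁) (x₂ := 2 ^ μ * u₂) (N := N) (c := 2 ^ μ * cu) (by positivity)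
    (by omega) (by omega) (by omega) (fun l hl hln => by
      have h3 := mul_le_mul_of_nonneg_left (hcu2 l hl hln) (by positivity : (0 : ℝ) ≤ 2 ^ μ)
      push_cast
      linarith)
  have s1 : Steps M S (fun k => (i + N * (2 ^ μ * u₁) - k * (2 ^ μ * u₁),
      j - N * (2 ^ μ * u₂) + k * (2 ^ μ * u₂))) N :=
    steps_line (by omega) (by omega) (by omega) (by omega)
  have hbad : ∀ (p : ℕ × ℕ) (x₁ x₂ : ℕ), x₁ ≤ p.1 → x₁ + x₂ ≤ S → p.1 + x₂ < M → p.2 + x₂ ≤ M →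
      Pb q (fun ω => ¬ Adj D n (Real.exp (e * z)) p (p.1 - x₁, p.2 + x₂) ω) ≤ η / Nm := by
    intro p x₁ x₂ a1 a2 a3 a4
    refine le_trans ?_ (hstp2 D J a₀ w₀ z M _ q hO (hκ.trans (min_le_left _ _)) hzz2 p x₁ x₂ a1
      a2 a3 a4)
    refine Pool.Agent.H39.BFL.Pb_mono hq.nonneg fun ω _ h3 h4 => h3 (h4.mono ?_)
    exact Real.exp_le_exp.2 (mul_le_mul_of_nonneg_right hec (by linarith))
  have hbd := path_bad hq.nonneg hbad s1
  obtain ⟨E, hEdef⟩ : ∃ E : D.Ω → Prop, E = fun ω =>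
      ∀ k < N, Adj D n (Real.exp (e * z)) (i + N * (2 ^ μ * u₁) - k * (2 ^ μ * u₁),
        j - N * (2 ^ μ * u₂) + k * (2 ^ μ * u₂)) (i + N * (2 ^ μ * u₁) - (k + 1) * (2 ^ μ * u₁),
        j - N * (2 ^ μ * u₂) + (k + 1) * (2 ^ μ * u₂)) ω := ⟨_, rfl⟩
  have hbE : Pb q (fun ω => ¬ E ω) ≤ η := by
    have h2 : Pb q (fun ω => ¬ E ω) ≤ N * (η / Nm) := by
      refine le_trans ?_ hbd
      refine Pool.Agent.H39.BFL.Pb_mono hq.nonneg fun ω _ h3 => ?_
      rw [hEdef] at h3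
      push Not at h3
      obtain ⟨k, hk, hk2⟩ := h3
      exact ⟨k, mem_range.2 hk, hk2⟩
    refine h2.trans ?_
    have h3 : (N : ℝ) * (η / Nm) ≤ Nm * (η / Nm) :=
      mul_le_mul_of_nonneg_right hNR (by positivity)
    have h4 : (Nm : ℝ) * (η / Nm) = η := by
      field_simp
    linarith
  have hE : 1 / 2 ≤ Pb q E := by
    have := Pb_not hq.sum_one E
    linarith
  have hCtz : Ct * z ≤ κ' / 4 * (N * z) := by
    rw [div_le_iff₀ hκ'] at hNb2
    have := mul_le_mul_of_nonneg_right hNb2 (by linarith : (0 : ℝ) ≤ z)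
    linarith
  have hκz : κ * z ≤ κ' / 8 * (N * z) := by
    have h3 : κ * z ≤ κ' / 8 * z :=
      mul_le_mul_of_nonneg_right (hκ.trans (min_le_right _ _)) (by linarith)
    have h4 : (1 : ℝ) * z ≤ N * z :=
      mul_le_mul_of_nonneg_right (by exact_mod_cast hN1) (by linarith)
    have h5 : κ' / 8 * z ≤ κ' / 8 * (N * z) :=
      mul_le_mul_of_nonneg_left (by linarith) (by positivity)
    linarith
  have hKN : 0 ≤ κ' * (N * z) := mul_nonneg hκ'.le (by linarith only [hNz1])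
  have hAez : Av * (e + 1) * z + 3 * Real.log 2 ≤ κ' / 4 * (N * z) := by
    refine le_trans ?_ hCtz
    have e1 : Ct * z = Av * (e + 1) * z + 3 * z := by
      rw [hCt]
      ring
    rw [e1]
    linarith only [hl1, hz1]
  have hs : (N : ℝ) ≤ Real.exp z := by
    have h3 : (Nm : ℝ) ≤ z := by exact_mod_cast (by omega : Nm ≤ z)
    have := Real.add_one_le_exp (z : ℝ)
    linarith
  -- the place of the own pair
  obtain ⟨k₁, hk₁⟩ : ∃ k₁ : ℕ, N = k₁ * 2 ^ μ := by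
    refine ⟨2 ^ (l - μ), ?_⟩
    rw [hN, ← pow_add]
    congr 1
    omega
  have hk₁N : k₁ ≤ N := by
    rw [hk₁]
    exact Nat.le_mul_of_pos_right _ (by positivity)
  have q15 : k₁ * (2 ^ μ * u₁) = N * u₁ := by rw [hk₁, Nat.mul_assoc]
  have q16 : k₁ * (2 ^ μ * u₂) = N * u₂ := by rw [hk₁, Nat.mul_assoc]
  have hiM : i ≤ M := by omega
  have hjM : j ≤ M := by omega
  intro U' hU'
  have hr : U' * (N * z) ≤ V * (N * z) := Nat.mul_le_mul_right _ hU'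
  have r1 := hindv D J a₀ w₀ z M lam gam _ C₁ q hO e _ _ N ((i : ℤ), (j : ℤ))
    (-((2 ^ μ * u₁ : ℕ) : ℤ), ((2 ^ μ * u₂ : ℕ) : ℤ)) E k₁ N (i - N * u₁, j + N * u₂) i j
    (U' * (N * z)) he0 hzz3 w1 hs (fun ω hω => by rw [hEdef] at hω; exact hω) hE rfl
    (Prod.ext (by simp only; omega) (by simp only; omega))
    (by
      rw [pl_left (by omega), Nat.zero_mul, Nat.zero_mul, Nat.sub_zero, Nat.add_zero]) hk₁N
    (by rw [pl_right (by omega), q15, q16]) (by simp only; omega) (by simp only; omega)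
    (by
      have h3 : (U' : ℝ) ≤ V := by exact_mod_cast hU'
      have h4 : (U' : ℝ) * (N * z) ≤ 2 ^ μ * cu * (N * z) :=
        mul_le_mul_of_nonneg_right (h3.trans hμ) (by linarith)
      have h5 := mul_le_mul_of_nonneg_right h4 hl0.le
      have h6 : 0 ≤ e * (z : ℝ) := by positivity
      push_cast
      linarith)
  have r2 := hO.full i hiM j hjM (U' * N) (by
    have := Nat.mul_le_mul_right N hU'
    omega)
  rw [show U' * N * z = U' * (N * z) by ring] at r2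
  have r3 := err_ev (κ' := κ') hbE hη0.le hη2 hNz1 hr
  dsimp only at r1
  have t4 : ((U' * N : ℕ) : ℝ) * z = U' * (N * z) := by
    push_cast
    ring
  have t5 : ((N * z : ℕ) : ℝ) = N * z := Nat.cast_mul _ _
  rw [t4] at r2
  rw [t5]
  linarith only [r1, r2, r3, hmi, hκz, hAez, hKN]

/-- **The height of the target and the shape of the own leaf**, at a good place. -/
theorem at_h (n K : ℕ) (hn : 1 ≤ n) (lam gam : ℕ → ℝ) (hlam : ∀ l, 1 ≤ lam l)
    (hgam : ∀ l, 0 ≤ gam l) (C₁ : ℝ) (hC : 0 ≤ C₁) (u₁ u₂ U V : ℕ) (κ' : ℝ) (hκ' : 0 < κ')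
    (hUV : U ≤ V) (h1 : ∀ l, 1 ≤ l → l < n → gam l * u₂ < lam l * u₁)
    (h2 : lam n * u₁ + U < gam n * u₂) :
    ∃ (d : ℤ × ℤ) (W m₁ : ℕ), d.1 ≤ 0 ∧ 0 ≤ d.2 ∧ ∀ Nm : ℕ, 1 ≤ Nm →
    ∃ (κ₀ : ℝ) (z₀ : ℕ), 0 < κ₀ ∧ ∀ (J a₀ w₀ z M : ℕ) (κ : ℝ) (D : NDat2) (q : D.Ω → ℝ),
      z₀ ≤ z → κ ≤ κ₀ → D.Ok2 n K J a₀ w₀ z M lam gam κ C₁ q → ∀ (l N i j : ℕ), m₁ ≤ l →
      N = 2 ^ l → N ≤ Nm → W * N ≤ i → i + W * N ≤ M → W * N ≤ j → j + W * N ≤ M →
      mi q D.T (Rc D) (((i : ℤ), (j : ℤ)) - N • d) d N ≤ N * (κ' / 8 * z) →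
      ∀ U' ≤ V, CH q (D.nd n i j (U * (N * z))) (fun ω =>
          (D.vd n i j (U' * (N * z)) ω, (D.c i j ω, D.T ω))) ≤
        CH q (D.nd n i j (U * (N * z))) (fun ω =>
          (D.ss n i j (i - N * u₁) (j + N * u₂) (U * (N * z)) ω,
            (D.vd n i j (U' * (N * z)) ω, (D.c i j ω, D.T ω)))) + κ' * ((N * z : ℕ) : ℝ) := by
  have hl0 : 0 < Real.log 2 := Real.log_pos (by norm_num)
  have hl1 : Real.log 2 ≤ 1 := by
    have := Real.log_two_lt_d9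
    linarith
  obtain ⟨cu, μ, v₁, v₂, cw, hcu, hμ, hcu2, huv1, huv2, hcw, hv, hvn, hw, hwn⟩ :=
    dir_ex n lam gam hlam hgam u₁ u₂ U V h1 h2
  obtain ⟨S, hS⟩ : ∃ S : ℕ, S = v₁ + v₂ := ⟨_, rfl⟩
  obtain ⟨c, hc, hstp⟩ := stp_bad n K S lam gam C₁ hlam hgam hC
  obtain ⟨e, he⟩ : ∃ e : ℝ, e = c + 2 * C₁ := ⟨_, rfl⟩
  have he0 : 0 ≤ e := by rw [he]; positivity
  have heC : 2 * C₁ ≤ e := by linarith
  have hec : c ≤ e := by linarith
  obtain ⟨Ah, hAh, hindh⟩ := ind_h n K hn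
  obtain ⟨Ar, z₁, hAr, hrgt⟩ := rgt_ss n K hn (ssFewA n K)
  obtain ⟨Ct, hCt⟩ : ∃ Ct : ℝ, Ct = (Ah + Ar) * (e + 1) + 3 := ⟨_, rfl⟩
  have hCt0 : 0 < Ct := by rw [hCt]; positivity
  obtain ⟨η, hη0, hη1, hη2⟩ := eta_ex hn V hκ'
  set δ : ℝ := gam n * u₂ - lam n * u₁ with hδ
  have hδ0 : 0 < δ := by
    have : (0 : ℝ) ≤ U := Nat.cast_nonneg _
    linarith
  obtain ⟨m, hm⟩ := exists_nat_ge (max (4 * Ct / κ') (max (2 * C₁ / cu) ((2 * C₁ + 1) / δ)))
  refine ⟨(-(v₁ : ℤ), (v₂ : ℤ)), 2 * S + V + 2, m, ?_, ?_, ?_⟩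
  · simp only
    omega
  · simp only
    omega
  intro Nm hNm1
  have hNm0 : (1 : ℝ) ≤ Nm := by exact_mod_cast hNm1
  obtain ⟨κ₀, z₂, hκ₀, hstp2⟩ := hstp (η / (4 * Nm)) (by positivity) (by
    rw [div_le_one (by positivity)]
    linarith)
  refine ⟨min κ₀ (κ' / 8), max z₁ (max z₂ (max 1 (2 * Nm))), lt_min hκ₀ (by positivity), ?_⟩
  intro J a₀ w₀ z M κ D q hz hκ hO l N i j hl hN hNN hWi hWi' hWj hWj' hmi
  have hq := hO.isLaw
  have hzz1 : z₁ ≤ z := (le_max_left _ _).trans hz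
  have hzz2 : z₂ ≤ z := (le_max_left _ _).trans ((le_max_right _ _).trans hz)
  have hzz3 : 1 ≤ z := (le_max_left _ _).trans ((le_max_right _ _).trans
    ((le_max_right _ _).trans hz))
  have hzz4 : 2 * Nm ≤ z := (le_max_right _ _).trans ((le_max_right _ _).trans
    ((le_max_right _ _).trans hz))
  have hz1 : (1 : ℝ) ≤ z := by exact_mod_cast hzz3
  have hN1 : 1 ≤ N := by rw [hN]; exact Nat.one_le_two_pow
  have hN0 : (0 : ℝ) < N := by exact_mod_cast hN1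
  have hNb0 : (m : ℝ) ≤ N := by
    have h3 : m ≤ 2 ^ l :=
      (Nat.lt_two_pow_self (n := m)).le.trans (Nat.pow_le_pow_right (by norm_num) hl)
    rw [hN]
    exact_mod_cast h3
  have hNR : (N : ℝ) ≤ Nm := by exact_mod_cast hNN
  have hNb := hm.trans hNb0
  have hNb2 : 4 * Ct / κ' ≤ N := (le_max_left _ _).trans hNb
  have hNb3 : 2 * C₁ / cu ≤ N := (le_max_left _ _).trans ((le_max_right _ _).trans hNb)
  have hNb4 : (2 * C₁ + 1) / δ ≤ N := (le_max_right _ _).trans ((le_max_right _ _).trans hNb)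
  have hNz1 : (1 : ℝ) ≤ N * z := by
    have : (1 : ℝ) ≤ N := by exact_mod_cast hN1
    exact one_le_mul_of_one_le_of_one_le this hz1
  -- bounds for products
  have q3 : N * v₁ ≤ N * S := Nat.mul_le_mul_left N (by omega)
  have q4 : N * v₂ ≤ N * S := Nat.mul_le_mul_left N (by omega)
  have q5 : S ≤ N * S := Nat.le_mul_of_pos_left S hN1
  have q6 : N * u₁ ≤ N * v₁ := Nat.mul_le_mul_left N huv1
  have q7 : N * u₂ ≤ N * v₂ := Nat.mul_le_mul_left N huv2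
  have eW : (2 * S + V + 2) * N = 2 * (N * S) + V * N + 2 * N := by ring
  have q8 : N * (v₁ - u₁) = N * v₁ - N * u₁ := Nat.mul_sub N v₁ u₁
  have q9 : N * (v₂ - u₂) = N * v₂ - N * u₂ := Nat.mul_sub N v₂ u₂
  rw [eW] at hWi hWi' hWj hWj'
  have w2 := way_line hO hC heC (i := i + N * v₁) (j := j - N * v₂)
    (x₁ := v₁) (x₂ := v₂) (N := N) (c := V) (Nat.cast_nonneg _)
    (by omega) (by omega) (by omega) hv
  have w3 := way_cor hO hC heC (i := i) (j := j) (x₁ := u₁) (x₂ := u₂) (y₁ := v₁ - u₁)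
    (y₂ := v₂ - u₂) (N := N) (c := cu) (c' := cw) hcu.le hcw (by omega) (by omega) (by omega)
    hcu2 (fun l hl hln => by
      rw [Nat.cast_sub huv1, Nat.cast_sub huv2]
      exact hw l hl hln)
  have s2 : Steps M S (fun k => (i + N * v₁ - k * v₁, j - N * v₂ + k * v₂)) N :=
    steps_line (by omega) (by omega) (by omega) (by omega)
  have s3 : Steps M S (cor i j u₁ u₂ (v₁ - u₁) (v₂ - u₂) N) (N + N) :=
    steps_cor (by omega) (by omega) (by omega) (by omega) (by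
      have : u₁ + u₂ ≤ v₁ + v₂ := by omega
      omega) (by omega)
  have hbad : ∀ (p : ℕ × ℕ) (x₁ x₂ : ℕ), x₁ ≤ p.1 → x₁ + x₂ ≤ S → p.1 + x₂ < M → p.2 + x₂ ≤ M →
      Pb q (fun ω => ¬ Adj D n (Real.exp (e * z)) p (p.1 - x₁, p.2 + x₂) ω) ≤ η / (4 * Nm) := by
    intro p x₁ x₂ a1 a2 a3 a4
    refine le_trans ?_ (hstp2 D J a₀ w₀ z M _ q hO (hκ.trans (min_le_left _ _)) hzz2 p x₁ x₂ a1
      a2 a3 a4)
    refine Pool.Agent.H39.BFL.Pb_mono hq.nonneg fun ω _ h3 h4 => h3 (h4.mono ?_)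
    exact Real.exp_le_exp.2 (mul_le_mul_of_nonneg_right hec (by linarith))
  have hbd := bad3 hq.nonneg (path_bad hq.nonneg hbad s2) (path_bad hq.nonneg hbad s2)
    (path_bad hq.nonneg hbad s3)
  obtain ⟨E, hEdef⟩ : ∃ E : D.Ω → Prop, E = fun ω =>
      (∀ k < N, Adj D n (Real.exp (e * z)) (i + N * v₁ - k * v₁, j - N * v₂ + k * v₂)
        (i + N * v₁ - (k + 1) * v₁, j - N * v₂ + (k + 1) * v₂) ω) ∧
      (∀ k < N, Adj D n (Real.exp (e * z)) (i + N * v₁ - k * v₁, j - N * v₂ + k * v₂)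
        (i + N * v₁ - (k + 1) * v₁, j - N * v₂ + (k + 1) * v₂) ω) ∧
      ∀ k < N + N, Adj D n (Real.exp (e * z)) (cor i j u₁ u₂ (v₁ - u₁) (v₂ - u₂) N k)
        (cor i j u₁ u₂ (v₁ - u₁) (v₂ - u₂) N (k + 1)) ω := ⟨_, rfl⟩
  have hbE : Pb q (fun ω => ¬ E ω) ≤ η := by
    rw [hEdef]
    refine hbd.trans ?_
    push_cast
    have h3 : (N : ℝ) * (η / (4 * Nm)) ≤ Nm * (η / (4 * Nm)) :=
      mul_le_mul_of_nonneg_right hNR (by positivity)
    have h4 : (Nm : ℝ) * (η / (4 * Nm)) = η / 4 := by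
      field_simp
    linarith
  have hE : 1 / 2 ≤ Pb q E := by
    have := Pb_not hq.sum_one E
    linarith
  have hCtz : Ct * z ≤ κ' / 4 * (N * z) := by
    rw [div_le_iff₀ hκ'] at hNb2
    have := mul_le_mul_of_nonneg_right hNb2 (by linarith : (0 : ℝ) ≤ z)
    linarith
  have hKN : 0 ≤ κ' * (N * z) := mul_nonneg hκ'.le (by linarith only [hNz1])
  have hAez : Ah * (e + 1) * z + Ar * (e + 1) * z + 3 * Real.log 2 ≤ κ' / 4 * (N * z) := by
    refine le_trans ?_ hCtz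
    have e1 : Ct * z = Ah * (e + 1) * z + Ar * (e + 1) * z + 3 * z := by
      rw [hCt]
      ring
    rw [e1]
    linarith only [hl1, hz1]
  have hs : (N : ℝ) ≤ Real.exp z := by
    have h3 : (Nm : ℝ) ≤ z := by exact_mod_cast (by omega : Nm ≤ z)
    have := Real.add_one_le_exp (z : ℝ)
    linarith
  have hs2 : ((N + N : ℕ) : ℝ) ≤ Real.exp z := by
    have h3 : ((N + N : ℕ) : ℝ) ≤ z := by exact_mod_cast (by omega : N + N ≤ z)
    have := Real.add_one_le_exp (z : ℝ)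
    linarith
  have hiM : i ≤ M := by omega
  have hjM : j ≤ M := by omega
  intro U' hU'
  have hr' : U' * (N * z) ≤ V * (N * z) := Nat.mul_le_mul_right _ hU'
  have hr : U * (N * z) ≤ V * (N * z) := Nat.mul_le_mul_right _ hUV
  have ec1 : cor i j u₁ u₂ (v₁ - u₁) (v₂ - u₂) N 0 = (i, j) := by
    unfold cor
    rw [Nat.zero_min, Nat.zero_sub]
    simp
  have ec2 : cor i j u₁ u₂ (v₁ - u₁) (v₂ - u₂) N N = (i - N * u₁, j + N * u₂) := by
    unfold cor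
    rw [min_self, Nat.sub_self]
    simp
  have ec3 : cor i j u₁ u₂ (v₁ - u₁) (v₂ - u₂) N (N + N) = (i - N * v₁, j + N * v₂) := by
    unfold cor
    rw [min_eq_right (by omega : N ≤ N + N), Nat.add_sub_cancel, q8, q9]
    exact Prod.ext (by simp only; omega) (by simp only; omega)
  have lv := fun (l : ℕ) (a : 1 ≤ l) (b : l ≤ n) =>
    hom2 hO (p := (i - N * u₁, j + N * u₂)) (p' := (i, j)) (by simp only; omega)
      (by simp only; omega) hiM hjM a b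
  have lv' := hom2 hO (p := (i, j)) (p' := (i - N * u₁, j + N * u₂)) hiM hjM
    (by simp only; omega) (by simp only; omega) hn le_rfl
  simp only at lv lv'
  have hfat : ∀ l, 1 ≤ l → l < n → D.g (i - N * u₁) (j + N * u₂) l ≤ D.g i j l := by
    intro l hl hln
    have h3 := lv l hl hln.le
    have h4 := hcu2 l hl hln
    rw [Nat.cast_sub (by omega)] at h3
    push_cast at h3
    rw [div_le_iff₀ hcu] at hNb3
    have h5 : (N : ℝ) * cu ≤ N * (lam l * u₁ - gam l * u₂) :=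
      mul_le_mul_of_nonneg_left (by linarith only [h4]) hN0.le
    have h6 : 2 * C₁ * z ≤ N * (lam l * u₁ - gam l * u₂) * z :=
      mul_le_mul_of_nonneg_right (hNb3.trans h5) (by linarith only [hz1])
    have h7 : (D.g (i - N * u₁) (j + N * u₂) l : ℝ) ≤ D.g i j l := by
      linarith only [h3, h6]
    exact_mod_cast h7
  have hthin : D.g i j n < D.g (i - N * u₁) (j + N * u₂) n := by
    rw [Nat.cast_sub (by omega)] at lv'
    push_cast at lv'
    rw [div_le_iff₀ hδ0] at hNb4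
    have h6 : (2 * C₁ + 1) * z ≤ N * δ * z :=
      mul_le_mul_of_nonneg_right hNb4 (by linarith only [hz1])
    rw [hδ] at h6
    have h7 : (D.g i j n : ℝ) < D.g (i - N * u₁) (j + N * u₂) n := by
      linarith only [lv', h6, hz1]
    exact_mod_cast h7
  have r0 := hrgt D J a₀ w₀ z M lam gam _ C₁ q hO e _ _ N ((i : ℤ), (j : ℤ))
    (-(v₁ : ℤ), (v₂ : ℤ)) E i j (i - N * u₁) (j + N * u₂) (i - N * v₁) (j + N * v₂)
    (U * (N * z)) he0 hzz1 w3 hs2 (fun ω hω => by rw [hEdef] at hω; exact hω.2.2) hE rfl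
    ec1 ec2 ec3 (pl_right (by omega)) hfat hthin (fun k hk hk' => by
      exact nd_cor hO hn hC heC hcu.le (by omega) hiM (by omega) (by linarith only [h2]) (by
        rw [Nat.cast_sub huv1, Nat.cast_sub huv2]
        exact hwn) hk hk'.le)
  have r1 := hindh D J a₀ w₀ z M lam gam _ C₁ q hO e _ _ N ((i : ℤ), (j : ℤ))
    (-(v₁ : ℤ), (v₂ : ℤ)) E N i j (U * (N * z)) (U' * (N * z)) (V * (N * z)) he0 hzz3 w2 hs
    (fun ω hω => by rw [hEdef] at hω; exact hω.2.1) hE rfl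
    (Prod.ext (by simp only; omega) (by simp only; omega))
    (by
      rw [pl_left (by omega), Nat.zero_mul, Nat.zero_mul, Nat.sub_zero, Nat.add_zero])
    (by
      have h3 : (U' : ℝ) ≤ V := by exact_mod_cast hU'
      have h4 : (U' : ℝ) * (N * z) ≤ V * (N * z) :=
        mul_le_mul_of_nonneg_right h3 (by linarith only [hNz1])
      have h5 := mul_le_mul_of_nonneg_right h4 hl0.le
      have h6 : 0 ≤ e * (z : ℝ) := by positivity
      push_cast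
      linarith only [h5, h6]) hr hr'
    (by
      have h3 := nd_line hO hn hC heC (c := V) (U := U) (by exact_mod_cast hUV)
        (i := i) (j := j) (x₁ := v₁) (x₂ := v₂) (N := N) (by omega) (by omega) hjM hvn
        (Nat.zero_le N)
      simp only [Nat.cast_zero, zero_mul, add_zero] at h3
      simpa using h3)
    (fun k hk => by
      exact nd_line hO hn hC heC (c := V) (U := U) (by exact_mod_cast hUV)
        (i := i) (j := j) (x₁ := v₁) (x₂ := v₂) (N := N) (by omega) (by omega) hjM hvn hk.le)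
    _ _ _ r0
  have r3 := err_ev (κ' := κ') hbE hη0.le hη2 hNz1 (le_refl (V * (N * z)))
  have t5 : ((N * z : ℕ) : ℝ) = N * z := Nat.cast_mul _ _
  rw [t5]
  linarith only [r1, r3, hmi, hAez, hKN]

end Pool.MIC7
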