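import Pool.Agent.H7.MIC.Blk
import Pool.Agent.H25.ADJ.Adj

/-!
# Paths of pairs in a cell
-/

set_option autoImplicit false

namespace Pool.MIC7

open Finset Real MvPolynomial
open Pool.Agent.H49.Ent Pool.Agent.H32.Dense Pool.STK Pool.STAT Pool.MIC.Frm
open Pool.BFL (Pb)

section

variable {D : NDat2} {n K J a₀ w₀ z M : ℕ} {lam gam : ℕ → ℝ} {κ C₁ : ℝ} {q : D.Ω → ℝ}

/-- Differences of levels. -/
theorem hom2 (hO : D.Ok2 n K J a₀ w₀ z M lam gam κ C₁ q) {p p' : ℕ × ℕ} (h1 : p.1 ≤ M)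
    (h2 : p.2 ≤ M) (h1' : p'.1 ≤ M) (h2' : p'.2 ≤ M) {l : ℕ} (hl : 1 ≤ l) (hln : l ≤ n) :
    (D.g p.1 p.2 l : ℝ) + (lam l * p'.1 + gam l * p'.2) * z ≤
      D.g p'.1 p'.2 l + (lam l * p.1 + gam l * p.2) * z + 2 * C₁ * z := by
  have e1 := abs_le.1 (hO.hom _ h1 _ h2 l hl hln)
  have e2 := abs_le.1 (hO.hom _ h1' _ h2' l hl hln)
  linarith [e1.1, e1.2, e2.1, e2.2]

/-- The levels along a path from the steps. -/
theorem way_of (hO : D.Ok2 n K J a₀ w₀ z M lam gam κ C₁ q) (hC : 0 ≤ C₁) {e : ℝ}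
    (he : 2 * C₁ ≤ e) {P : ℕ → ℕ × ℕ} {t : ℕ → ℝ} {s : ℕ}
    (hle : ∀ k ≤ s, (P k).1 ≤ M ∧ (P k).2 ≤ M) (t0 : t 0 = 0) (tp : ∀ k ≤ s, 0 ≤ t k)
    (hst : ∀ k < s, ∀ l, 1 ≤ l → l < n →
      lam l * (P (k + 1)).1 + gam l * (P (k + 1)).2 + t (k + 1) ≤
        lam l * (P k).1 + gam l * (P k).2 + t k) :
    Way D n z M e P (fun k => t k * Real.log 2) s := by
  have hl0 : 0 < Real.log 2 := Real.log_pos (by norm_num)
  have hl1 : Real.log 2 ≤ 1 := by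
    have := Real.log_two_lt_d9
    linarith
  have hz : (0 : ℝ) ≤ z := Nat.cast_nonneg z
  refine ⟨hle, by rw [t0, zero_mul], fun k hk => mul_nonneg (tp k hk) hl0.le, ?_⟩
  intro k hk k' hk' l hl hln
  have mono : ∀ m, k' + m ≤ s → lam l * (P (k' + m)).1 + gam l * (P (k' + m)).2 + t (k' + m) ≤
      lam l * (P k').1 + gam l * (P k').2 + t k' := by
    intro m
    induction m with
    | zero => intro _; exact le_rfl
    | succ m ih =>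
      intro hm
      exact (hst (k' + m) (by omega) l hl hln).trans (ih (by omega))
  obtain ⟨m, rfl⟩ := Nat.exists_eq_add_of_le hk'
  have h1 := mono m hk
  have h2 := hom2 hO (hle (k' + m) hk).1 (hle (k' + m) hk).2 (hle k' (by omega)).1
    (hle k' (by omega)).2 hl hln.le
  have h3 : (D.g (P (k' + m)).1 (P (k' + m)).2 l : ℝ) + (t (k' + m) - t k') * z ≤
      D.g (P k').1 (P k').2 l + 2 * C₁ * z := by
    have := mul_le_mul_of_nonneg_right h1 hz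
    linarith
  have h4 := mul_le_mul_of_nonneg_right h3 hl0.le
  have h5 : 2 * C₁ * z * Real.log 2 ≤ e * z := by
    calc 2 * C₁ * z * Real.log 2 ≤ 2 * C₁ * z * 1 :=
          mul_le_mul_of_nonneg_left hl1 (by positivity)
      _ ≤ e * z := by
          rw [mul_one]
          exact mul_le_mul_of_nonneg_right he hz
  linarith

theorem Adj.mono {E E' : ℝ} (h : E ≤ E') {p p' : ℕ × ℕ} {ω : D.Ω} (hA : Adj D n E p p' ω) :
    Adj D n E' p p' ω := fun l hl hln b hb =>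
  (hA l hl hln b hb).trans (div_le_div_of_nonneg_right h (by positivity))

end

/-- One step of bounded size. -/
theorem stp_bad (n K X₀ : ℕ) (lam gam : ℕ → ℝ) (C₁ : ℝ) (hlam : ∀ l, 1 ≤ lam l)
    (hgam : ∀ l, 0 ≤ gam l) (hC : 0 ≤ C₁) : ∃ c : ℝ, 0 < c ∧ ∀ η : ℝ, 0 < η → η ≤ 1 →
    ∃ (κ₀ : ℝ) (z₀ : ℕ), 0 < κ₀ ∧ ∀ (D : NDat2) (J a₀ w₀ z M : ℕ) (κ : ℝ) (q : D.Ω → ℝ),
      D.Ok2 n K J a₀ w₀ z M lam gam κ C₁ q → κ ≤ κ₀ → z₀ ≤ z → ∀ (p : ℕ × ℕ) (x₁ x₂ : ℕ),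
      x₁ ≤ p.1 → x₁ + x₂ ≤ X₀ → p.1 + x₂ < M → p.2 + x₂ ≤ M →
      Pb q (fun ω => ¬ Adj D n (Real.exp (c * z)) p (p.1 - x₁, p.2 + x₂) ω) ≤ η := by
  obtain ⟨Λ, hΛ⟩ : ∃ Λ : ℝ, Λ = ∑ l ∈ range (n + 1), (lam l + gam l) := ⟨_, rfl⟩
  have hl : ∀ l ≤ n, lam l + gam l ≤ Λ := fun l hl => by
    rw [hΛ]
    exact Finset.single_le_sum (f := fun l => lam l + gam l)
      (fun i _ => by linarith [hlam i, hgam i]) (mem_range.2 (by omega))
  obtain ⟨S, hS⟩ := exists_nat_ge (Λ * X₀ + 2 * C₁ + X₀)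
  obtain ⟨c, hc, h⟩ := adj_ev n K S
  refine ⟨c, hc, fun η hη hη1 => ?_⟩
  obtain ⟨κ₀, z₀, hκ₀, h2⟩ := h η hη hη1
  refine ⟨κ₀, z₀, hκ₀, ?_⟩
  intro D J a₀ w₀ z M κ q hO hκ hz p x₁ x₂ h1 hx hM1 hM2
  have hz0 : (0 : ℝ) ≤ z := Nat.cast_nonneg z
  have hΛ0 : 0 ≤ Λ := by
    have := hl 0 (Nat.zero_le _)
    linarith [hlam 0, hgam 0]
  have hX0 : (0 : ℝ) ≤ X₀ := Nat.cast_nonneg _
  have hxx : (x₁ : ℝ) + x₂ ≤ X₀ := by exact_mod_cast hx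
  have hx1 : (0 : ℝ) ≤ x₁ := Nat.cast_nonneg _
  have hx2 : (0 : ℝ) ≤ x₂ := Nat.cast_nonneg _
  -- comparison of levels
  have cmp : ∀ (p p' : ℕ × ℕ), p.1 ≤ M → p.2 ≤ M → p'.1 ≤ M → p'.2 ≤ M →
      (p.2 ≤ p'.2 + X₀) → (∀ l, 1 ≤ l → l ≤ n → lam l * p.1 + gam l * p.2 ≤
        lam l * p'.1 + gam l * p'.2 + Λ * X₀) → ∀ l ≤ n, D.g p.1 p.2 l ≤ D.g p'.1 p'.2 l + S * z := by
    intro p p' a1 a2 a3 a4 a5 a6 l hln
    rcases Nat.eq_zero_or_pos l with rfl | hl0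
    · rw [hO.g_zero, hO.g_zero]
      have hSX : X₀ ≤ S := by
        have : (X₀ : ℝ) ≤ S := by
          have : 0 ≤ Λ * X₀ := by positivity
          linarith
        exact_mod_cast this
      have b1 : p.2 * z ≤ (p'.2 + X₀) * z := Nat.mul_le_mul_right z a5
      have b2 : X₀ * z ≤ S * z := Nat.mul_le_mul_right z hSX
      rw [Nat.add_mul] at b1
      omega
    · have b1 := hom2 hO a1 a2 a3 a4 hl0 hln
      have b2 := mul_le_mul_of_nonneg_right (a6 l hl0 hln) hz0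
      have b3 : (Λ * X₀ + 2 * C₁) * z ≤ S * z :=
        mul_le_mul_of_nonneg_right (by linarith) hz0
      have b4 : (D.g p.1 p.2 l : ℝ) ≤ D.g p'.1 p'.2 l + S * z := by linarith
      exact_mod_cast b4
  have hr1 : p.1 ≤ M := by omega
  have hr2 : p.2 ≤ M := by omega
  refine h2 D J a₀ w₀ z M lam gam κ C₁ q hO hκ hz p (p.1 - x₁, p.2 + x₂) (p.1 + x₂, p.2 + x₂)
    hr1 hr2 (by simp only; omega) hM2 hM1 hM2
    (Pool.ADJ.c_det hO (by omega) (by simp only; omega) hM1.le hM2)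
    (Pool.ADJ.c_det hO (by simp only; omega) (by simp only; omega) hM1.le hM2) ?_ ?_ ?_ ?_
  · refine cmp p (p.1 + x₂, p.2 + x₂) hr1 hr2 hM1.le hM2 (by simp only; omega) ?_
    intro l h1 h2
    have := hlam l
    have := hgam l
    have e1 : 0 ≤ lam l * x₂ := by positivity
    have e2 : 0 ≤ gam l * x₂ := by positivity
    have e3 : 0 ≤ Λ * X₀ := by positivity
    push_cast
    linarith
  · refine cmp (p.1 + x₂, p.2 + x₂) p hM1.le hM2 hr1 hr2 (by simp only; omega) ?_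
    intro l h1 h2
    have e1 : (lam l + gam l) * x₂ ≤ Λ * X₀ :=
      mul_le_mul (hl l h2) (by linarith) hx2 hΛ0
    push_cast
    linarith
  · refine cmp (p.1 - x₁, p.2 + x₂) (p.1 + x₂, p.2 + x₂) (by simp only; omega) hM2 hM1.le hM2
      (by simp only; omega) ?_
    intro l h3 h4
    have h5 := hlam l
    have e1 : 0 ≤ lam l * x₂ := by positivity
    have e2 : 0 ≤ lam l * x₁ := by positivity
    have e3 : 0 ≤ Λ * X₀ := by positivity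
    rw [Nat.cast_sub h1]
    push_cast
    linarith
  · refine cmp p (p.1 - x₁, p.2 + x₂) hr1 hr2 (by simp only; omega) hM2 (by simp only; omega) ?_
    intro l h3 h4
    have h5 := hlam l
    have h6 := hgam l
    have e0 : lam l ≤ Λ := by
      have := hl l h4
      linarith
    have e1 : lam l * x₁ ≤ Λ * X₀ := mul_le_mul e0 (by linarith) hx1 hΛ0
    have e2 : 0 ≤ gam l * x₂ := by positivity
    rw [Nat.cast_sub h1]
    push_cast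
    linarith

/-- A path of bounded steps. -/
structure Steps (M X₀ : ℕ) (P : ℕ → ℕ × ℕ) (s : ℕ) : Prop where
  st : ∀ k < s, ∃ x₁ x₂ : ℕ, x₁ ≤ (P k).1 ∧ P (k + 1) = ((P k).1 - x₁, (P k).2 + x₂) ∧
    x₁ + x₂ ≤ X₀ ∧ (P k).1 + x₂ < M ∧ (P k).2 + x₂ ≤ M

/-- Union over a path. -/
theorem path_bad {D : NDat2} {n M X₀ : ℕ} {E η : ℝ} {q : D.Ω → ℝ} (hq : ∀ ω, 0 ≤ q ω)
    (h : ∀ (p : ℕ × ℕ) (x₁ x₂ : ℕ), x₁ ≤ p.1 → x₁ + x₂ ≤ X₀ → p.1 + x₂ < M → p.2 + x₂ ≤ M →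
      Pb q (fun ω => ¬ Adj D n E p (p.1 - x₁, p.2 + x₂) ω) ≤ η) {P : ℕ → ℕ × ℕ} {s : ℕ}
    (hP : Steps M X₀ P s) :
    Pb q (fun ω => ∃ k ∈ range s, ¬ Adj D n E (P k) (P (k + 1)) ω) ≤ s * η := by
  refine (Pb_un hq (range s) _).trans ?_
  rw [← nsmul_eq_mul]
  refine (Finset.sum_le_card_nsmul _ _ η fun k hk => ?_).trans (by rw [card_range])
  obtain ⟨x₁, x₂, a1, a2, a3, a4, a5⟩ := hP.st k (mem_range.1 hk)
  rw [a2]
  exact h _ x₁ x₂ a1 a3 a4 a5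

end Pool.MIC7
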