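import Pool.Agent.H7.MIC.Inf
import Pool.Agent.H7.MIC.Wy
import Pool.Agent.H24.MIC.DmG

/-!
# Directions, straight paths, ranges

Preparations for the own leaves in a sub-cell.
-/

set_option autoImplicit false

namespace Pool.MIC7

open Finset Real MvPolynomial
open Pool.Agent.H49.Ent Pool.Agent.H32.Dense Pool.STK Pool.STAT Pool.MIC.Frm Pool.MIC24
open Pool.BFL (Pb)

/-- The directions. -/
theorem dir_ex (n : ℕ) (lam gam : ℕ → ℝ) (hlam : ∀ l, 1 ≤ lam l) (hgam : ∀ l, 0 ≤ gam l)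
    (u₁ u₂ U V : ℕ) (h1 : ∀ l, 1 ≤ l → l < n → gam l * u₂ < lam l * u₁)
    (h2 : lam n * u₁ + U < gam n * u₂) :
    ∃ (cu : ℝ) (μ v₁ v₂ : ℕ) (cw : ℝ), 0 < cu ∧ V ≤ 2 ^ μ * cu ∧
      (∀ l, 1 ≤ l → l < n → cu + gam l * u₂ ≤ lam l * u₁) ∧ u₁ ≤ v₁ ∧ u₂ ≤ v₂ ∧ 0 ≤ cw ∧
      (∀ l, 1 ≤ l → l < n → V + gam l * v₂ ≤ lam l * v₁) ∧ U + gam n * v₂ ≤ lam n * v₁ ∧
      (∀ l, 1 ≤ l → l < n → cw + gam l * ((v₂ : ℝ) - u₂) ≤ lam l * ((v₁ : ℝ) - u₁)) ∧
      lam n * ((v₁ : ℝ) - u₁) ≤ gam n * ((v₂ : ℝ) - u₂) + cw := by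
  have lp : ∀ l, 0 < lam l := fun l => by linarith [hlam l]
  -- the slope of the base directions
  obtain ⟨cu, hcu, hcu2⟩ : ∃ cu : ℝ, 0 < cu ∧
      ∀ l, 1 ≤ l → l < n → cu + gam l * u₂ ≤ lam l * u₁ := by
    clear h2
    induction n with
    | zero => exact ⟨1, one_pos, fun l _ h => absurd h (Nat.not_lt_zero _)⟩
    | succ n ih =>
      obtain ⟨c, hc, hc2⟩ := ih fun l a b => h1 l a (by omega)
      by_cases hn : 1 ≤ n
      · have h3 := h1 n hn (Nat.lt_succ_self n)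
        refine ⟨min c (lam n * u₁ - gam n * u₂), lt_min hc (by linarith), fun l a b => ?_⟩
        rcases Nat.lt_succ_iff_lt_or_eq.1 b with hl | hl
        · have := hc2 l a hl
          have := min_le_left c (lam n * u₁ - gam n * u₂)
          linarith
        · rw [hl]
          have := min_le_right c (lam n * u₁ - gam n * u₂)
          linarith
      · exact ⟨c, hc, fun l a b => by omega⟩
  obtain ⟨μ, hμ⟩ : ∃ μ : ℕ, (V : ℝ) ≤ 2 ^ μ * cu := by
    obtain ⟨μ, hμ⟩ := pow_unbounded_of_one_lt ((V : ℝ) / cu) (one_lt_two)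
    exact ⟨μ, by rw [div_lt_iff₀ hcu] at hμ; linarith⟩
  set ρ : ℝ := gam n / lam n with hρ
  have eρ : lam n * ρ = gam n := by
    rw [hρ]
    field_simp [(lp n).ne']
  set cw : ℝ := lam n * (U + 1) + gam n * u₂ with hcw
  have hcw0 : 0 ≤ cw := by
    have := (lp n).le
    have := hgam n
    positivity
  -- large `v₂`
  obtain ⟨v, hv⟩ : ∃ v : ℕ, ∀ l, 1 ≤ l → l < n → ∀ v' : ℕ, v ≤ v' →
      V + cw + lam l * u₁ + gam l * v' ≤ lam l * (ρ * v') := by
    have hslope : ∀ l, 1 ≤ l → l < n → gam l < lam l * ρ := by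
      intro l a b
      have h3 := h1 l a b
      have hu2 : (0 : ℝ) < u₂ := by
        rcases Nat.eq_zero_or_pos u₂ with h0 | h0
        · exfalso
          rw [h0] at h2
          have : 0 ≤ lam n * (u₁ : ℝ) := mul_nonneg (lp n).le (Nat.cast_nonneg _)
          have : (0 : ℝ) ≤ U := Nat.cast_nonneg _
          simp only [Nat.cast_zero, mul_zero] at h2
          linarith
        · exact_mod_cast h0
      have h4 : (u₁ : ℝ) < ρ * u₂ := by
        have h5 : lam n * u₁ < lam n * (ρ * u₂) := by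
          rw [← mul_assoc, eρ]
          have : (0 : ℝ) ≤ U := Nat.cast_nonneg _
          linarith
        exact lt_of_mul_lt_mul_left h5 (lp n).le
      have h6 : gam l * u₂ < (lam l * ρ) * u₂ := by
        have := mul_lt_mul_of_pos_left h4 (lp l)
        rw [mul_assoc]
        linarith
      exact lt_of_mul_lt_mul_right h6 hu2.le
    clear h1 h2 hcu2 hcw
    clear_value cw ρ
    clear hρ eρ
    induction n with
    | zero => exact ⟨0, fun l _ h => absurd h (Nat.not_lt_zero _)⟩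
    | succ n ih =>
      obtain ⟨v, hv⟩ := ih fun l a b => hslope l a (by omega)
      by_cases hn : 1 ≤ n
      · have h3 := hslope n hn (Nat.lt_succ_self n)
        obtain ⟨v', hv'⟩ := exists_nat_ge ((V + cw + lam n * u₁) / (lam n * ρ - gam n))
        refine ⟨max v v', fun l a b x hx => ?_⟩
        rcases Nat.lt_succ_iff_lt_or_eq.1 b with hl | hl
        · exact hv l a hl x ((le_max_left _ _).trans hx)
        · rw [hl]
          have h4 : (v' : ℝ) ≤ x := by exact_mod_cast (le_max_right _ _).trans hx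
          rw [div_le_iff₀ (by linarith)] at hv'
          have h5 := mul_le_mul_of_nonneg_right h4 (by linarith : 0 ≤ lam n * ρ - gam n)
          linarith
      · exact ⟨v, fun l a b => by omega⟩
  obtain ⟨v₂, hv₂⟩ : ∃ v₂ : ℕ, v₂ = max v u₂ := ⟨_, rfl⟩
  have hvv : v ≤ v₂ := by rw [hv₂]; exact le_max_left _ _
  have huv : u₂ ≤ v₂ := by rw [hv₂]; exact le_max_right _ _
  have hρ0 : 0 ≤ ρ := div_nonneg (hgam n) (lp n).le
  obtain ⟨v₁, hv₁⟩ : ∃ v₁ : ℕ, v₁ = ⌈ρ * v₂ + U⌉₊ := ⟨_, rfl⟩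
  have hv1 : ρ * v₂ + U ≤ v₁ := by
    rw [hv₁]
    exact Nat.le_ceil _
  have hv1' : (v₁ : ℝ) ≤ ρ * v₂ + U + 1 := by
    rw [hv₁]
    exact (Nat.ceil_lt_add_one (by positivity)).le
  have hU0 : (0 : ℝ) ≤ U := Nat.cast_nonneg _
  have huvR : (u₂ : ℝ) ≤ v₂ := by exact_mod_cast huv
  refine ⟨cu, μ, v₁, v₂, cw, hcu, hμ, hcu2, ?_, huv, hcw0, ?_, ?_, ?_, ?_⟩
  · have h3 : (u₁ : ℝ) < ρ * u₂ := by
      have h5 : lam n * u₁ < lam n * (ρ * u₂) := by
        rw [← mul_assoc, eρ]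
        linarith
      exact lt_of_mul_lt_mul_left h5 (lp n).le
    have h4 : (u₁ : ℝ) ≤ v₁ := by
      have := mul_le_mul_of_nonneg_left huvR hρ0
      linarith
    exact_mod_cast h4
  · intro l a b
    have h3 := hv l a b v₂ hvv
    have h4 := mul_le_mul_of_nonneg_left hv1 (lp l).le
    have h5 : 0 ≤ lam l * (u₁ : ℝ) := mul_nonneg (lp l).le (Nat.cast_nonneg _)
    have h6 : 0 ≤ lam l * (U : ℝ) := mul_nonneg (lp l).le hU0
    rw [mul_add] at h4
    linarith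
  · have h4 := mul_le_mul_of_nonneg_left hv1 (lp n).le
    have h6 : 1 * (U : ℝ) ≤ lam n * U := mul_le_mul_of_nonneg_right (hlam n) hU0
    have h7 : lam n * (ρ * v₂) = gam n * v₂ := by rw [← mul_assoc, eρ]
    rw [mul_add, h7] at h4
    linarith
  · intro l a b
    have h3 := hv l a b v₂ hvv
    have h4 := mul_le_mul_of_nonneg_left hv1 (lp l).le
    have h6 : 0 ≤ lam l * (U : ℝ) := mul_nonneg (lp l).le hU0
    have h8 : 0 ≤ gam l * (u₂ : ℝ) := mul_nonneg (hgam l) (Nat.cast_nonneg _)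
    have h9 : (0 : ℝ) ≤ V := Nat.cast_nonneg _
    rw [mul_add] at h4
    rw [mul_sub, mul_sub]
    linarith
  · have h4 := mul_le_mul_of_nonneg_left hv1' (lp n).le
    have h7 : lam n * (ρ * v₂) = gam n * v₂ := by rw [← mul_assoc, eρ]
    have h8 : 0 ≤ lam n * (u₁ : ℝ) := mul_nonneg (lp n).le (Nat.cast_nonneg _)
    rw [mul_add, mul_add, h7] at h4
    rw [mul_sub, mul_sub, hcw]
    linarith

/-! ### Straight paths -/

/-- A straight path. -/
theorem steps_line {i j x₁ x₂ N M X₀ : ℕ} (h1 : N * x₁ ≤ i) (h2 : i + x₂ < M)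
    (h3 : j + N * x₂ ≤ M) (hX : x₁ + x₂ ≤ X₀) :
    Steps M X₀ (fun k => (i - k * x₁, j + k * x₂)) N := by
  refine ⟨fun k hk => ⟨x₁, x₂, ?_, ?_, hX, ?_, ?_⟩⟩
  · have : (k + 1) * x₁ ≤ N * x₁ := Nat.mul_le_mul_right _ hk
    rw [Nat.add_mul] at this
    simp only
    omega
  · simp only
    rw [Nat.add_mul, Nat.add_mul, Nat.one_mul, Nat.one_mul]
    refine Prod.ext ?_ ?_ <;> simp only <;> omega
  · simp only
    omega
  · have : (k + 1) * x₂ ≤ N * x₂ := Nat.mul_le_mul_right _ hk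
    rw [Nat.add_mul] at this
    simp only
    omega

/-- A path with one corner. -/
def cor (i j x₁ x₂ y₁ y₂ N k : ℕ) : ℕ × ℕ :=
  (i - (min k N * x₁ + (k - N) * y₁), j + (min k N * x₂ + (k - N) * y₂))

theorem cor_succ_lt {i j x₁ x₂ y₁ y₂ N k : ℕ} (hk : k < N) :
    cor i j x₁ x₂ y₁ y₂ N (k + 1) =
      ((cor i j x₁ x₂ y₁ y₂ N k).1 - x₁, (cor i j x₁ x₂ y₁ y₂ N k).2 + x₂) := by
  unfold cor
  have e1 : min (k + 1) N = k + 1 := min_eq_left hk
  have e2 : min k N = k := min_eq_left hk.le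
  have e3 : k + 1 - N = 0 := by omega
  have e4 : k - N = 0 := by omega
  rw [e1, e2, e3, e4, Nat.add_mul, Nat.add_mul, Nat.one_mul, Nat.one_mul]
  refine Prod.ext ?_ ?_ <;> simp only <;> omega

theorem cor_succ_ge {i j x₁ x₂ y₁ y₂ N k : ℕ} (hk : N ≤ k) :
    cor i j x₁ x₂ y₁ y₂ N (k + 1) =
      ((cor i j x₁ x₂ y₁ y₂ N k).1 - y₁, (cor i j x₁ x₂ y₁ y₂ N k).2 + y₂) := by
  unfold cor
  have e1 : min (k + 1) N = N := min_eq_right (by omega)
  have e2 : min k N = N := min_eq_right hk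
  have e3 : k + 1 - N = (k - N) + 1 := by omega
  rw [e1, e2, e3, Nat.add_mul, Nat.add_mul, Nat.one_mul, Nat.one_mul]
  refine Prod.ext ?_ ?_ <;> simp only <;> omega

theorem steps_cor {i j x₁ x₂ y₁ y₂ N M X₀ : ℕ} (h1 : N * x₁ + N * y₁ ≤ i) (h2 : i + x₂ < M)
    (h2' : i + y₂ < M) (h3 : j + (N * x₂ + N * y₂) ≤ M) (hX : x₁ + x₂ ≤ X₀)
    (hY : y₁ + y₂ ≤ X₀) : Steps M X₀ (cor i j x₁ x₂ y₁ y₂ N) (N + N) := by
  have a1 : ∀ k, min k N * x₁ ≤ N * x₁ := fun k => Nat.mul_le_mul_right _ (min_le_right _ _)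
  have a2 : ∀ k, min k N * x₂ ≤ N * x₂ := fun k => Nat.mul_le_mul_right _ (min_le_right _ _)
  have c1 : ∀ k, (cor i j x₁ x₂ y₁ y₂ N k).1 ≤ i := fun k => Nat.sub_le _ _
  refine ⟨fun k hk => ?_⟩
  by_cases hkN : k < N
  · refine ⟨x₁, x₂, ?_, cor_succ_lt hkN, hX, ?_, ?_⟩
    · unfold cor
      rw [min_eq_left hkN.le, show k - N = 0 by omega]
      have : (k + 1) * x₁ ≤ N * x₁ := Nat.mul_le_mul_right _ hkN
      rw [Nat.add_mul] at this
      simp only
      omega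
    · have := c1 k
      omega
    · unfold cor
      rw [min_eq_left hkN.le, show k - N = 0 by omega]
      have : (k + 1) * x₂ ≤ N * x₂ := Nat.mul_le_mul_right _ hkN
      rw [Nat.add_mul] at this
      simp only
      omega
  · have hk1 : k - N + 1 ≤ N := by omega
    refine ⟨y₁, y₂, ?_, cor_succ_ge (by omega), hY, ?_, ?_⟩
    · unfold cor
      have := Nat.mul_le_mul_right y₁ hk1
      rw [Nat.add_mul] at this
      have := a1 k
      simp only
      omega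
    · have := c1 k
      omega
    · unfold cor
      have := Nat.mul_le_mul_right y₂ hk1
      rw [Nat.add_mul] at this
      have := a2 k
      simp only
      omega

end Pool.MIC7
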