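import Pool.Agent.H7.GEN.Dmo
import Pool.Agent.H24.MIC.DmG

/-!
# The dyadic Markov lemma in the grid of a cell, several places
-/

set_option autoImplicit false

namespace Pool.MIC7

open Finset Real
open Pool.Agent.H49.Ent Pool.Agent.H32.Dense Pool.STK Pool.STAT Pool.MIC24

/-- **The dyadic Markov lemma in a cell**, offsets and directions. -/
theorem dm_grid_o (dirs : Finset ((ℤ × ℤ) × (ℤ × ℤ))) (hd : ∀ x ∈ dirs, x.2.1 ≤ 0 ∧ 0 ≤ x.2.2)
    (W m₁ : ℕ) (C₁ ε : ℝ) (hε : 0 < ε) : ∃ m₂ M : ℕ, ∀ (D : NDat2) (q : D.Ω → ℝ) (z : ℕ),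
      IsLaw q → (∀ i < M, ∀ j ≤ M, Det q (D.c (i + 1) j) (D.c i j)) →
      (∀ i < M, ∀ j < M, CH q (D.c (i + 1) (j + 1)) (D.c i j) ≤ C₁ * z) →
      ∃ l i j : ℕ, m₁ ≤ l ∧ l < m₁ + m₂ ∧ W * 2 ^ l ≤ i ∧ i + W * 2 ^ l ≤ M ∧ W * 2 ^ l ≤ j ∧
        j + W * 2 ^ l ≤ M ∧ ∀ x ∈ dirs, Pool.DM.mi q D.T (Rc D)
          (((i : ℤ), (j : ℤ)) + 2 ^ l • x.1 - 2 ^ l • x.2) x.2 (2 ^ l) ≤ 2 ^ l * (ε * z) := by
  classical
  obtain ⟨K, hK⟩ : ∃ K : ℕ, ∀ x ∈ dirs, (-(K : ℤ) ≤ x.2.1 ∧ x.2.2 ≤ K) ∧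
      (-(K : ℤ) ≤ x.1.1 ∧ x.1.1 ≤ K) ∧ (-(K : ℤ) ≤ x.1.2 ∧ x.1.2 ≤ K) := by
    refine ⟨∑ x ∈ dirs, (x.2.1.natAbs + x.2.2.natAbs + x.1.1.natAbs + x.1.2.natAbs),
      fun x hx => ?_⟩
    have h1 := single_le_sum (f := fun x : (ℤ × ℤ) × (ℤ × ℤ) =>
      x.2.1.natAbs + x.2.2.natAbs + x.1.1.natAbs + x.1.2.natAbs) (fun _ _ => Nat.zero_le _) hx
    refine ⟨⟨?_, ?_⟩, ⟨?_, ?_⟩, ?_, ?_⟩ <;> omega
  obtain ⟨m₂, hm₂⟩ := exists_nat_ge (4 * dirs.card * (K * |C₁|) / ε)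
  obtain ⟨m, hm⟩ : ∃ m, m = m₂ + 1 := ⟨_, rfl⟩
  obtain ⟨N, hN⟩ : ∃ N : ℕ, N = 2 ^ (m₁ + m) := ⟨_, rfl⟩
  obtain ⟨S, hS⟩ : ∃ S : ℕ, S = 3 * (N * K) + W * N := ⟨_, rfl⟩
  obtain ⟨E, hE⟩ : ∃ E : ℕ, E = 12 * (N * K) := ⟨_, rfl⟩
  obtain ⟨M, hM⟩ : ∃ M : ℕ, M = S + E + 3 * (N * K) + K + W * N := ⟨_, rfl⟩
  refine ⟨m, M, ?_⟩
  intro D q z hq hc hf
  have hC : |C₁| * z ≥ C₁ * z := mul_le_mul_of_nonneg_right (le_abs_self _) (Nat.cast_nonneg z)
  set Q' : Finset (ℤ × ℤ) := Icc (S : ℤ) (S + E) ×ˢ Icc (S : ℤ) (S + E) with hQ'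
  set Q₁ : Finset (ℤ × ℤ) := Icc (S - N * K : ℤ) (S + E + N * K) ×ˢ
    Icc (S - N * K : ℤ) (S + E + N * K) with hQ₁
  set Q : Finset (ℤ × ℤ) := Icc (S - 2 * (N * K) : ℤ) (S + E + 2 * (N * K)) ×ˢ
    Icc (S - 2 * (N * K) : ℤ) (S + E + 2 * (N * K)) with hQ
  have hne : Q'.Nonempty := ⟨((S : ℤ), (S : ℤ)), by
    rw [hQ', mem_product, mem_Icc]
    exact ⟨⟨le_rfl, by omega⟩, ⟨le_rfl, by omega⟩⟩⟩
  have hcard : (Q.card : ℝ) ≤ 2 * Q'.card := by
    have e1 : Q.card = (E + 4 * (N * K) + 1) * (E + 4 * (N * K) + 1) := by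
      rw [hQ, card_product, Int.card_Icc]
      have : (S + E + 2 * (N * K) + 1 - (S - 2 * (N * K) : ℤ)).toNat =
          E + 4 * (N * K) + 1 := by
        have e : (S + E + 2 * (N * K) + 1 - (S - 2 * (N * K) : ℤ)) =
            ((E + 4 * (N * K) + 1 : ℕ) : ℤ) := by
          push_cast
          ring
        rw [e, Int.toNat_natCast]
      rw [this]
    have e2 : Q'.card = (E + 1) * (E + 1) := by
      rw [hQ', card_product, Int.card_Icc]
      have : (S + E + 1 - (S : ℤ)).toNat = E + 1 := by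
        have e : (S + E + 1 - (S : ℤ)) = ((E + 1 : ℕ) : ℤ) := by
          push_cast
          ring
        rw [e, Int.toNat_natCast]
      rw [this]
    rw [e1, e2, hE]
    push_cast
    nlinarith [Nat.cast_nonneg (α := ℝ) (N * K), mul_nonneg (Nat.cast_nonneg (α := ℝ) N)
      (Nat.cast_nonneg (α := ℝ) K)]
  have hNk : ∀ k : ℕ, k ≤ N → k * K ≤ N * K := fun k hk => Nat.mul_le_mul_right _ hk
  -- multiples of bounded integers
  have hmul : ∀ (k : ℕ) (a : ℤ), k ≤ N → -(K : ℤ) ≤ a → a ≤ K →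
      -((N * K : ℕ) : ℤ) ≤ k * a ∧ k * a ≤ ((N * K : ℕ) : ℤ) := by
    intro k a hk h1 h2
    have hk0 : (0 : ℤ) ≤ k := Int.natCast_nonneg k
    have hkN : ((k * K : ℕ) : ℤ) ≤ ((N * K : ℕ) : ℤ) := by exact_mod_cast hNk k hk
    push_cast at hkN ⊢
    constructor
    · nlinarith [mul_le_mul_of_nonneg_left h1 hk0]
    · nlinarith [mul_le_mul_of_nonneg_left h2 hk0]
  -- the coordinates of the points of a segment
  have hseg : ∀ x ∈ dirs, ∀ k : ℕ, k ≤ N → -((N * K : ℕ) : ℤ) ≤ (k • x.2).1 ∧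
      (k • x.2).1 ≤ 0 ∧ 0 ≤ (k • x.2).2 ∧ (k • x.2).2 ≤ ((N * K : ℕ) : ℤ) := by
    intro x hx k hk
    obtain ⟨⟨a1, a2⟩, -⟩ := hK x hx
    obtain ⟨b1, b2⟩ := hd x hx
    have hk0 : (0 : ℤ) ≤ k := Int.natCast_nonneg k
    have hK0 : (0 : ℤ) ≤ K := Int.natCast_nonneg K
    rw [Prod.smul_fst, Prod.smul_snd, nsmul_eq_mul, nsmul_eq_mul]
    refine ⟨(hmul k _ hk a1 (by omega)).1, ?_, mul_nonneg hk0 b2, (hmul k _ hk (by omega) a2).2⟩
    nlinarith [mul_le_mul_of_nonneg_left b1 hk0]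
  obtain ⟨l, hl1, hl2, b, hb, hb2⟩ := Pool.DM.dmo (T := D.T) (R := Rc D) hq.nonneg dirs m₁ m
    (by omega) Q Q₁ Q' hne (c := 2) (a := K * (|C₁| * z)) hcard (by positivity)
    (by
      intro x hx b hb l hl
      obtain ⟨-, ⟨a1, a2⟩, a3, a4⟩ := hK x hx
      have hl3 : 2 ^ l ≤ N := by
        rw [hN]
        exact Nat.pow_le_pow_right (by norm_num) hl.le
      have s1 := hmul (2 ^ l) _ hl3 a1 a2
      have s2 := hmul (2 ^ l) _ hl3 a3 a4
      rw [hQ', mem_product, mem_Icc, mem_Icc] at hb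
      rw [hQ₁, mem_product, mem_Icc, mem_Icc, Prod.fst_add, Prod.snd_add, Prod.smul_fst,
        Prod.smul_snd, nsmul_eq_mul, nsmul_eq_mul]
      rw [Nat.cast_mul N K] at s1 s2
      refine ⟨⟨?_, ?_⟩, ?_, ?_⟩ <;> linarith [hb.1.1, hb.1.2, hb.2.1, hb.2.2, s1.1, s1.2, s2.1,
        s2.2])
    (by
      intro x hx b hb k hk
      rw [← hN] at hk
      obtain ⟨s1, s2, s3, s4⟩ := hseg x hx k hk
      rw [hQ₁, mem_product, mem_Icc, mem_Icc] at hb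
      rw [hQ, mem_product, mem_Icc, mem_Icc, Prod.fst_sub, Prod.snd_sub]
      push_cast at s1 s4
      refine ⟨⟨?_, ?_⟩, ?_, ?_⟩ <;> linarith [hb.1.1, hb.1.2, hb.2.1, hb.2.2])
    (by
      intro x hx o ho k hk
      rw [← hN] at hk
      obtain ⟨s1, s2, s3, s4⟩ := hseg x hx k hk.le
      obtain ⟨⟨a1, a2⟩, -⟩ := hK x hx
      obtain ⟨b1, b2⟩ := hd x hx
      rw [hQ, mem_product, mem_Icc, mem_Icc] at ho
      push_cast at s1 s4
      have hS' : (S : ℤ) = 3 * (N * K) + W * N := by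
        rw [hS]
        push_cast
        ring
      have hM' : (M : ℤ) = S + E + 3 * (N * K) + K + W * N := by
        rw [hM]
        push_cast
        ring
      have hWN : (0 : ℤ) ≤ W * N := by positivity
      have hNK : (0 : ℤ) ≤ N * K := by positivity
      -- one more step of the segment
      obtain ⟨t1, t2, t3, t4⟩ := hseg x hx (k + 1) hk
      rw [succ_nsmul] at t1 t2 t3 t4
      rw [Prod.fst_add] at t1 t2
      rw [Prod.snd_add] at t3 t4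
      push_cast at t1 t4
      refine (few_step hq.nonneg hc hf (o + k • x.2) x.2 b1 b2 ?_ ?_ ?_ ?_).trans ?_
      · rw [Prod.fst_add]
        linarith [ho.1.1]
      · rw [Prod.snd_add]
        linarith [ho.2.1]
      · rw [Prod.fst_add]
        linarith [ho.1.2]
      · rw [Prod.snd_add]
        linarith [ho.2.2]
      · have e1 : ((x.2.2.toNat : ℕ) : ℝ) ≤ K := by
          have : x.2.2.toNat ≤ K := by omega
          exact_mod_cast this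
        refine (mul_le_mul_of_nonneg_left hC (Nat.cast_nonneg _)).trans ?_
        exact mul_le_mul_of_nonneg_right e1 (by positivity))
  have hb' := hb
  rw [hQ', mem_product, mem_Icc, mem_Icc] at hb'
  have hl3 : 2 ^ l ≤ N := by
    rw [hN]
    exact Nat.pow_le_pow_right (by norm_num) hl2.le
  have hW : W * 2 ^ l ≤ W * N := Nat.mul_le_mul_left _ hl3
  have hS1 : W * N ≤ S := by rw [hS]; exact Nat.le_add_left _ _
  have hb1 : (b.1.toNat : ℤ) = b.1 := Int.toNat_of_nonneg (by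
    have : (0 : ℤ) ≤ S := Int.natCast_nonneg S
    linarith [hb'.1.1])
  have hb3 : (b.2.toNat : ℤ) = b.2 := Int.toNat_of_nonneg (by
    have : (0 : ℤ) ≤ S := Int.natCast_nonneg S
    linarith [hb'.2.1])
  have g1 : S ≤ b.1.toNat := by
    have := hb'.1.1
    rw [← hb1] at this
    exact_mod_cast this
  have g2 : b.1.toNat ≤ S + E := by
    have := hb'.1.2
    rw [← hb1] at this
    exact_mod_cast this
  have g3 : S ≤ b.2.toNat := by
    have := hb'.2.1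
    rw [← hb3] at this
    exact_mod_cast this
  have g4 : b.2.toNat ≤ S + E := by
    have := hb'.2.2
    rw [← hb3] at this
    exact_mod_cast this
  refine ⟨l, b.1.toNat, b.2.toNat, hl1, hl2, by omega, by omega, by omega, by omega, ?_⟩
  intro x hx
  have h1 := hb2 x hx
  have e1 : ((b.1.toNat : ℤ), (b.2.toNat : ℤ)) = b := by
    rw [hb1, hb3]
  rw [e1]
  refine h1.trans (mul_le_mul_of_nonneg_left ?_ (by positivity))
  have hm0 : (0 : ℝ) < m := by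
    have : 0 < m := by omega
    exact_mod_cast this
  have hm3 : 4 * dirs.card * (K * |C₁|) ≤ ε * m := by
    rw [div_le_iff₀ hε] at hm₂
    have : (m₂ : ℝ) ≤ m := by
      rw [hm]
      push_cast
      linarith
    nlinarith
  rw [div_le_iff₀ hm0]
  have hz : (0 : ℝ) ≤ z := Nat.cast_nonneg z
  nlinarith [mul_le_mul_of_nonneg_right hm3 hz]

end Pool.MIC7
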