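import Pool.Agent.H7.MIC.Var

/-!
# Frames at one time, neighbouring frames

`fz t Ψ`: the system at the time `t`. `nbr`: two systems which are close to a third one with a
smaller box are close on their own boxes.
-/

set_option autoImplicit false

namespace Pool.MIC7

open Finset Real MvPolynomial
open Pool.STAT Pool.MIC.Frm

/-! ### Fixed time -/

/-- The substitution of the time. -/
noncomputable def tx (t : ℝ) (k : ℕ) : PN := if k = 0 then C t else X k

/-- The system at the time `t`. -/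
noncomputable def fz (t : ℝ) (Ψ : ℕ → PN) (l : ℕ) : PN := if l = 0 then C t else bind₁ (tx t) (Ψ l)

theorem fz_zero (t : ℝ) (Ψ : ℕ → PN) : fz t Ψ 0 = C t := if_pos rfl

theorem fz_pos (t : ℝ) (Ψ : ℕ → PN) {l : ℕ} (hl : 1 ≤ l) : fz t Ψ l = bind₁ (tx t) (Ψ l) :=
  if_neg (by omega)

theorem eval_tx (t : ℝ) (b : ℕ → ℝ) : (fun k => eval b (tx t k)) = Function.update b 0 t := by
  funext k
  unfold tx
  by_cases hk : k = 0
  · subst hk
    rw [if_pos rfl, Function.update_self, eval_C]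
  · rw [if_neg hk, Function.update_of_ne hk, eval_X]

theorem eval_fz (t : ℝ) (Ψ : ℕ → PN) (b : ℕ → ℝ) {l : ℕ} (hl : 1 ≤ l) :
    eval b (fz t Ψ l) = eval (Function.update b 0 t) (Ψ l) := by
  rw [fz_pos t Ψ hl, AdxRow.evl_bnd, eval_tx]

theorem tri_fz {Ψ : ℕ → PN} (h : TriN Ψ) (t : ℝ) : TriN (fz t Ψ) := by
  intro l
  by_cases hl : l = 0
  · subst hl
    rw [fz_zero, vars_C]
    exact Finset.empty_subset _
  · rw [fz_pos t Ψ (by omega)]
    refine AdxRow.vars_bnd (h l) fun k hk => ?_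
    unfold tx
    split_ifs with h0
    · rw [vars_C]
      exact Finset.empty_subset _
    · refine (vars_X (R := ℝ) (n := k)).le.trans ?_
      rw [Finset.singleton_subset_iff]
      exact mem_range.2 hk

theorem deg_fz {Ψ : ℕ → PN} {K l : ℕ} (h : (Ψ l).totalDegree ≤ K) (t : ℝ) :
    (fz t Ψ l).totalDegree ≤ K := by
  by_cases hl : l = 0
  · subst hl
    rw [fz_zero, totalDegree_C]
    exact Nat.zero_le _
  · rw [fz_pos t Ψ (by omega)]
    refine (Dgb.deg_bind (B := 1) fun k _ => ?_).trans (by rw [mul_one]; exact h)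
    unfold tx
    split_ifs with h0
    · rw [totalDegree_C]
      exact Nat.zero_le _
    · exact (totalDegree_X k).le

theorem nat_fz_zero (g : ℕ → ℕ) (t : ℝ) (Ψ : ℕ → PN) (b : ℕ → ℝ) :
    nat g (fz t Ψ) b 0 = 2 ^ g 0 * (b 0 - t) := by
  unfold nat
  rw [fz_zero, eval_C]

theorem nat_fz (g : ℕ → ℕ) (t : ℝ) (Ψ : ℕ → PN) (b : ℕ → ℝ) {l : ℕ} (hl : 1 ≤ l) :
    nat g (fz t Ψ) b l = nat g Ψ (Function.update b 0 t) l := by
  unfold nat
  rw [eval_fz t Ψ b hl, Function.update_of_ne (by omega)]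

theorem nat_fz' (g : ℕ → ℕ) {t : ℝ} (Ψ : ℕ → PN) {b : ℕ → ℝ} (hb : b 0 = t) {l : ℕ}
    (hl : 1 ≤ l) : nat g (fz t Ψ) b l = nat g Ψ b l := by
  rw [nat_fz g t Ψ b hl]
  congr 1
  rw [← hb]
  exact Function.update_eq_self 0 b

theorem eval_fz' {t : ℝ} (Ψ : ℕ → PN) {b : ℕ → ℝ} (hb : b 0 = t) {l : ℕ} (hl : 1 ≤ l) :
    eval b (fz t Ψ l) = eval b (Ψ l) := by
  rw [eval_fz t Ψ b hl, ← hb, Function.update_eq_self]

/-! ### Neighbours -/

/-- The box of `P` in the frame `A`. -/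
theorem nbr_box (n K : ℕ) : ∀ m ≤ n, ∃ (C : ℝ) (D : ℕ), 1 ≤ C ∧ ∀ (gA gP : ℕ → ℕ)
    (A P : ℕ → PN) (E : ℝ), 1 ≤ E → TriN A → TriN P → (∀ i ≤ n, (A i).totalDegree ≤ K) →
    (∀ i ≤ n, (P i).totalDegree ≤ K) → A 0 = P 0 →
    (∀ i ≤ n, (2 : ℝ) ^ gA i ≤ E * 2 ^ gP i) →
    (∀ l, 1 ≤ l → l ≤ n → ∀ b : ℕ → ℝ, (∀ i < l, |nat gA A b i| ≤ 1) →
      |eval b (A l) - eval b (P l)| ≤ E / 2 ^ gP l) →
    ∀ b : ℕ → ℝ, (∀ i < m, |nat gP P b i| ≤ 1) → ∀ i < m, |nat gA A b i| ≤ C * E ^ D := by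
  intro m
  induction m with
  | zero =>
    intro _
    exact ⟨1, 0, le_rfl, fun _ _ _ _ _ _ _ _ _ _ _ _ _ _ _ i hi => absurd hi (Nat.not_lt_zero _)⟩
  | succ m ih =>
    intro hm
    obtain ⟨C, D, hC, h⟩ := ih (by omega)
    obtain ⟨C', D', hC', h'⟩ := grow_fr m K
    refine ⟨C + (1 + C' * C ^ D'), D + (D * D' + 2), by
      have : 0 ≤ C' * C ^ D' := by positivity
      linarith, ?_⟩
    intro gA gP A P E hE tA tP dA dP h0 hg hcl b hb i hi
    have h1 := h gA gP A P E hE tA tP dA dP h0 hg hcl b fun i hi => hb i (by omega)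
    have hE0 : 0 < E := by linarith
    have key : C * E ^ D ≤ (C + (1 + C' * C ^ D')) * E ^ (D + (D * D' + 2)) := by
      refine mul_le_mul ?_ (pow_le_pow_right₀ hE (by omega)) (by positivity) (by positivity)
      have : 0 ≤ C' * C ^ D' := by positivity
      linarith
    rcases Nat.lt_or_ge i m with hi' | hi'
    · exact (h1 i hi').trans key
    · obtain rfl : i = m := by omega
      have e0 : nat gA A b i = 2 ^ gA i / 2 ^ gP i * nat gP P b i -
          2 ^ gA i * (eval b (A i) - eval b (P i)) := by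
        unfold nat
        have e : (2 : ℝ) ^ gA i / 2 ^ gP i * (2 ^ gP i * (b i - eval b (P i))) =
            2 ^ gA i * (b i - eval b (P i)) := by
          field_simp
        rw [e]
        ring
      have a1 : (2 : ℝ) ^ gA i / 2 ^ gP i ≤ E := by
        rw [div_le_iff₀ (by positivity)]
        exact hg i (by omega)
      have t1 : |(2 : ℝ) ^ gA i / 2 ^ gP i * nat gP P b i| ≤ E := by
        rw [abs_mul, abs_of_pos (by positivity)]
        have := hb i hi
        calc (2 : ℝ) ^ gA i / 2 ^ gP i * |nat gP P b i| ≤ E * 1 :=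
              mul_le_mul a1 this (abs_nonneg _) hE0.le
          _ = E := mul_one _
      have t2 : |eval b (A i) - eval b (P i)| ≤ C' * (C * E ^ D) ^ D' * (E / 2 ^ gP i) := by
        rcases Nat.eq_zero_or_pos i with rfl | hi0
        · rw [h0, sub_self, abs_zero]
          positivity
        · have g1 := h' gA A (A i - P i) (E / 2 ^ gP i) (C * E ^ D) tA
            (fun i hi => dA i (by omega)) (by
              have := one_le_pow₀ (n := D) hE
              nlinarith) (AdxRow.vars_sub_le (tA i) (tP i))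
            ((totalDegree_sub _ _).trans (max_le (dA i (by omega)) (dP i (by omega))))
            (fun b hb => by
              rw [map_sub]
              exact hcl i hi0 (by omega) b hb) b h1
          rw [map_sub] at g1
          exact g1
      have t3 : |(2 : ℝ) ^ gA i * (eval b (A i) - eval b (P i))| ≤
          C' * (C * E ^ D) ^ D' * (E * E) := by
        rw [abs_mul, abs_of_pos (by positivity)]
        calc (2 : ℝ) ^ gA i * |eval b (A i) - eval b (P i)|
            ≤ 2 ^ gA i * (C' * (C * E ^ D) ^ D' * (E / 2 ^ gP i)) :=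
              mul_le_mul_of_nonneg_left t2 (by positivity)
          _ = C' * (C * E ^ D) ^ D' * E * (2 ^ gA i / 2 ^ gP i) := by ring
          _ ≤ C' * (C * E ^ D) ^ D' * E * E := mul_le_mul_of_nonneg_left a1 (by positivity)
          _ = _ := by ring
      rw [e0]
      refine (abs_sub _ _).trans ((add_le_add t1 t3).trans ?_)
      have b1 : E ≤ E ^ (D + (D * D' + 2)) := by
        have := pow_le_pow_right₀ hE (show 1 ≤ D + (D * D' + 2) by omega)
        rwa [pow_one] at this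
      have b2 : C' * (C * E ^ D) ^ D' * (E * E) = C' * C ^ D' * E ^ (D * D' + 2) := by
        rw [mul_pow, ← pow_mul, pow_add]
        ring
      have b3 : E ^ (D * D' + 2) ≤ E ^ (D + (D * D' + 2)) := pow_le_pow_right₀ hE (by omega)
      rw [b2]
      have b4 : C' * C ^ D' * E ^ (D * D' + 2) ≤ C' * C ^ D' * E ^ (D + (D * D' + 2)) :=
        mul_le_mul_of_nonneg_left b3 (by positivity)
      have b5 : 0 ≤ C * E ^ (D + (D * D' + 2)) := by positivity
      have b6 : (C + (1 + C' * C ^ D')) * E ^ (D + (D * D' + 2)) =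
          C * E ^ (D + (D * D' + 2)) + (E ^ (D + (D * D' + 2)) +
            C' * C ^ D' * E ^ (D + (D * D' + 2))) := by ring
      rw [b6]
      linarith

/-- **Two systems close to a third one.** -/
theorem nbr (n K : ℕ) : ∃ (C : ℝ) (D : ℕ), 1 ≤ C ∧ ∀ (gA gP gQ : ℕ → ℕ)
    (A P Q : ℕ → PN) (E : ℝ), 1 ≤ E → TriN A → TriN P → TriN Q →
    (∀ i ≤ n, (A i).totalDegree ≤ K) → (∀ i ≤ n, (P i).totalDegree ≤ K) →
    (∀ i ≤ n, (Q i).totalDegree ≤ K) → A 0 = P 0 →
    (∀ i ≤ n, (2 : ℝ) ^ gA i ≤ E * 2 ^ gP i) → (∀ i ≤ n, (2 : ℝ) ^ gP i ≤ E * 2 ^ gQ i) →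
    (∀ l, 1 ≤ l → l ≤ n → ∀ b : ℕ → ℝ, (∀ i < l, |nat gA A b i| ≤ 1) →
      |eval b (A l) - eval b (P l)| ≤ E / 2 ^ gP l ∧
      |eval b (A l) - eval b (Q l)| ≤ E / 2 ^ gQ l) →
    ∀ l, 1 ≤ l → l ≤ n → ∀ b : ℕ → ℝ, (∀ i < l, |nat gP P b i| ≤ 1) →
      |eval b (P l) - eval b (Q l)| ≤ C * E ^ D / 2 ^ gP l := by
  obtain ⟨C, D, hC, h⟩ : ∃ (C : ℝ) (D : ℕ), 1 ≤ C ∧ ∀ m ≤ n, ∀ (gA gP : ℕ → ℕ)
      (A P : ℕ → PN) (E : ℝ), 1 ≤ E → TriN A → TriN P → (∀ i ≤ n, (A i).totalDegree ≤ K) →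
      (∀ i ≤ n, (P i).totalDegree ≤ K) → A 0 = P 0 →
      (∀ i ≤ n, (2 : ℝ) ^ gA i ≤ E * 2 ^ gP i) →
      (∀ l, 1 ≤ l → l ≤ n → ∀ b : ℕ → ℝ, (∀ i < l, |nat gA A b i| ≤ 1) →
        |eval b (A l) - eval b (P l)| ≤ E / 2 ^ gP l) →
      ∀ b : ℕ → ℝ, (∀ i < m, |nat gP P b i| ≤ 1) → ∀ i < m, |nat gA A b i| ≤ C * E ^ D := by
    have H := nbr_box n K
    choose! C D hC h using H
    refine ⟨1 + ∑ m ∈ range (n + 1), |C m|, ∑ m ∈ range (n + 1), D m, by
      have : 0 ≤ ∑ m ∈ range (n + 1), |C m| := sum_nonneg fun _ _ => abs_nonneg _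
      linarith, ?_⟩
    intro m hm gA gP A P E hE tA tP dA dP h0 hg hcl b hb i hi
    refine (h m hm gA gP A P E hE tA tP dA dP h0 hg hcl b hb i hi).trans ?_
    have e1 : C m ≤ 1 + ∑ m ∈ range (n + 1), |C m| := by
      have := Finset.single_le_sum (f := fun m => |C m|) (fun i _ => abs_nonneg _)
        (mem_range.2 (show m < n + 1 by omega))
      have := le_abs_self (C m)
      linarith
    have e2 : D m ≤ ∑ m ∈ range (n + 1), D m :=
      Finset.single_le_sum (f := D) (fun i _ => Nat.zero_le _)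
        (mem_range.2 (show m < n + 1 by omega))
    have hE0 : 0 < E := by linarith
    exact mul_le_mul e1 (pow_le_pow_right₀ hE e2) (by positivity) (by
      have : 0 ≤ ∑ m ∈ range (n + 1), |C m| := sum_nonneg fun _ _ => abs_nonneg _
      linarith)
  choose C' D' hC' h' using fun m => grow_fr m K
  set C₁ := ∑ m ∈ range (n + 1), C' m * C ^ D' m with hC₁
  set D₁ := ∑ m ∈ range (n + 1), D' m with hD₁
  have hC0 : 0 < C := by linarith
  have t0 : ∀ m ∈ range (n + 1), 0 ≤ C' m * C ^ D' m := fun m _ => by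
    have := hC' m
    positivity
  have hC₁0 : 0 ≤ C₁ := sum_nonneg t0
  refine ⟨2 * C₁ + 1, D * D₁ + 2, by linarith, ?_⟩
  intro gA gP gQ A P Q E hE tA tP tQ dA dP dQ h0 hg hg' hcl l hl hln b hb
  have hE0 : 0 < E := by linarith
  have hbx := h l hln gA gP A P E hE tA tP dA dP h0 hg (fun l h1 h2 b hb => (hcl l h1 h2 b hb).1)
    b hb
  have hB : 1 ≤ C * E ^ D := by
    have := one_le_pow₀ (n := D) hE
    nlinarith
  have grw : ∀ (R : ℕ → PN) (gR : ℕ → ℕ), TriN R → (∀ i ≤ n, (R i).totalDegree ≤ K) →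
      (∀ b : ℕ → ℝ, (∀ i < l, |nat gA A b i| ≤ 1) →
        |eval b (A l) - eval b (R l)| ≤ E / 2 ^ gR l) →
      |eval b (A l) - eval b (R l)| ≤ C₁ * E ^ (D * D₁) * (E / 2 ^ gR l) := by
    intro R gR tR dR hR
    have g1 := h' l gA A (A l - R l) (E / 2 ^ gR l) (C * E ^ D) tA
      (fun i hi => dA i (by omega)) hB (AdxRow.vars_sub_le (tA l) (tR l))
      ((totalDegree_sub _ _).trans (max_le (dA l hln) (dR l hln)))
      (fun b hb => by
        rw [map_sub]
        exact hR b hb) b hbx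
    rw [map_sub] at g1
    refine g1.trans (mul_le_mul_of_nonneg_right ?_ (by positivity))
    rw [mul_pow, ← pow_mul, ← mul_assoc]
    refine mul_le_mul ?_ (pow_le_pow_right₀ hE ?_) (by positivity) hC₁0
    · exact Finset.single_le_sum (f := fun m => C' m * C ^ D' m) t0
        (mem_range.2 (show l < n + 1 by omega))
    · refine Nat.mul_le_mul_left _ ?_
      exact Finset.single_le_sum (f := D') (fun i _ => Nat.zero_le _)
        (mem_range.2 (show l < n + 1 by omega))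
  have g1 := grw P gP tP dP fun b hb => (hcl l hl hln b hb).1
  have g2 := grw Q gQ tQ dQ fun b hb => (hcl l hl hln b hb).2
  have e1 : E / 2 ^ gQ l ≤ E * E / 2 ^ gP l := by
    rw [div_le_div_iff₀ (by positivity) (by positivity)]
    have := hg' l hln
    nlinarith [mul_le_mul_of_nonneg_left this hE0.le]
  have e2 : E / 2 ^ gP l ≤ E * E / 2 ^ gP l :=
    div_le_div_of_nonneg_right (by nlinarith) (by positivity)
  have e3 : eval b (P l) - eval b (Q l) = (eval b (A l) - eval b (Q l)) -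
      (eval b (A l) - eval b (P l)) := by ring
  rw [e3]
  refine (abs_sub _ _).trans ((add_le_add g2 g1).trans ?_)
  have e4 : C₁ * E ^ (D * D₁) * (E / 2 ^ gQ l) + C₁ * E ^ (D * D₁) * (E / 2 ^ gP l) ≤
      C₁ * E ^ (D * D₁) * (E * E / 2 ^ gP l) + C₁ * E ^ (D * D₁) * (E * E / 2 ^ gP l) :=
    add_le_add (mul_le_mul_of_nonneg_left e1 (by positivity))
      (mul_le_mul_of_nonneg_left e2 (by positivity))
  refine e4.trans ?_
  have e5 : C₁ * E ^ (D * D₁) * (E * E / 2 ^ gP l) + C₁ * E ^ (D * D₁) * (E * E / 2 ^ gP l) =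
      2 * C₁ * E ^ (D * D₁ + 2) / 2 ^ gP l := by
    rw [pow_add]
    ring
  rw [e5]
  refine div_le_div_of_nonneg_right ?_ (by positivity)
  exact mul_le_mul_of_nonneg_right (by linarith) (by positivity)

end Pool.MIC7
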