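import Pool.Agent.H7.MIC.AtP
import Pool.Agent.H7.MIC.DmO

/-!
# Own leaves in a sub-cell, all pairs at once

`LLA`: for all pairs of pairs of the grid where the slopes of the base coordinates decrease, the
base is full given the label of the second pair; if moreover the slope of the target increases,
the height of the target is almost independent of the shape of the own leaf. `lla`: every cell
has a sub-cell with `LLA`.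
-/

set_option autoImplicit false

namespace Pool.STAT

open Pool.Agent.H49.Ent Pool.Agent.H32.Dense

/-- **Own leaves at all pairs.** -/
structure NDat2.LLA (D : NDat2) (n z M : ℕ) (lam gam : ℕ → ℝ) (κ : ℝ) (q : D.Ω → ℝ) : Prop where
  v : ∀ i j u₁ u₂ U : ℕ, i ≤ M → j + u₂ ≤ M → u₁ ≤ i → U ≤ M →
    (∀ l, 1 ≤ l → l < n → gam l * u₂ < lam l * u₁) →
    ((n - 1 : ℕ) : ℝ) * (U * z) * Real.log 2 - κ * z ≤
      CH q (D.vd n i j (U * z)) (fun ω => (D.s (i - u₁) (j + u₂) ω, (D.c i j ω, D.T ω)))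
  h : ∀ i j u₁ u₂ U U' : ℕ, i ≤ M → j + u₂ ≤ M → u₁ ≤ i → U ≤ M → U' ≤ M →
    (∀ l, 1 ≤ l → l < n → gam l * u₂ < lam l * u₁) → lam n * u₁ + U < gam n * u₂ →
    CH q (D.nd n i j (U * z)) (fun ω => (D.vd n i j (U' * z) ω, (D.c i j ω, D.T ω))) ≤
      CH q (D.nd n i j (U * z)) (fun ω => (D.ss n i j (i - u₁) (j + u₂) (U * z) ω,
        (D.vd n i j (U' * z) ω, (D.c i j ω, D.T ω)))) + κ * z

end Pool.STAT

namespace Pool.MIC7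

open Finset Real MvPolynomial
open Pool.Agent.H49.Ent Pool.Agent.H32.Dense Pool.STK Pool.STAT Pool.MIC.Frm Pool.MIC24 Pool.DM
open Pool.MIC
open Pool.BFL (Pb)

theorem pos_lb {α : Type} (F : Finset α) (f : α → ℝ) (hf : ∀ x, 0 < f x) :
    ∃ κ : ℝ, 0 < κ ∧ ∀ x ∈ F, κ ≤ f x := by
  classical
  induction F using Finset.induction_on with
  | empty => exact ⟨1, one_pos, fun x hx => absurd hx (Finset.notMem_empty x)⟩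
  | insert a F _ ih =>
    obtain ⟨κ, hκ, h⟩ := ih
    refine ⟨min κ (f a), lt_min hκ (hf a), fun x hx => ?_⟩
    rcases mem_insert.1 hx with rfl | hx
    · exact min_le_right _ _
    · exact (min_le_left _ _).trans (h x hx)

theorem nat_ub {α : Type} (F : Finset α) (f : α → ℕ) : ∃ m : ℕ, ∀ x ∈ F, f x ≤ m :=
  ⟨F.sup f, fun _ hx => Finset.le_sup hx⟩

/-- **Own leaves in a sub-cell, at all pairs.** -/
theorem lla (n K : ℕ) (hn : 1 ≤ n) (lam gam : ℕ → ℝ) (hlam : ∀ l, 1 ≤ lam l)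
    (hgam : ∀ l, 0 ≤ gam l) (C₁ : ℝ) (hC : 0 ≤ C₁) (M' m₀ : ℕ) (κ' : ℝ) (hκ' : 0 < κ') :
    ∃ (M : ℕ) (κ : ℝ) (z₀ : ℕ), 0 < κ ∧ ∀ (J a₀ w₀ z : ℕ) (D : NDat2) (q : D.Ω → ℝ), z₀ ≤ z →
      D.Ok2 n K J a₀ w₀ z M lam gam κ C₁ q → ∃ (N i₀ j₀ : ℕ), m₀ ≤ N ∧ NDat2.SubG i₀ j₀ N M' M ∧
      (D.sc J w₀ i₀ j₀ N z).LLA n (N * z) M' lam gam κ' q := by
  classical
  -- the directions
  have hv : ∀ x : ℕ × ℕ, ∃ (d : ℤ × ℤ) (W m₁ : ℕ), d.1 ≤ 0 ∧ 0 ≤ d.2 ∧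
      ((∀ l, 1 ≤ l → l < n → gam l * x.2 < lam l * x.1) → ∀ Nm : ℕ, 1 ≤ Nm →
      ∃ (κ₀ : ℝ) (z₀ : ℕ), 0 < κ₀ ∧ ∀ (J a₀ w₀ z M : ℕ) (κ : ℝ) (D : NDat2) (q : D.Ω → ℝ),
      z₀ ≤ z → κ ≤ κ₀ → D.Ok2 n K J a₀ w₀ z M lam gam κ C₁ q → ∀ (l N i j : ℕ), m₁ ≤ l →
      N = 2 ^ l → N ≤ Nm → W * N ≤ i → i + W * N ≤ M → W * N ≤ j → j + W * N ≤ M →
      mi q D.T (Rc D) (((i : ℤ), (j : ℤ)) - N • d) d N ≤ N * (κ' / 8 * z) →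
      ∀ U' ≤ M', ((n - 1 : ℕ) : ℝ) * (U' * ((N * z : ℕ) : ℝ)) * Real.log 2 -
        κ' * ((N * z : ℕ) : ℝ) ≤ CH q (D.vd n i j (U' * (N * z))) (fun ω =>
          (D.s (i - N * x.1) (j + N * x.2) ω, (D.c i j ω, D.T ω)))) := by
    intro x
    by_cases hx : ∀ l, 1 ≤ l → l < n → gam l * x.2 < lam l * x.1
    · obtain ⟨d, W, m₁, h1, h2, h3⟩ := at_v n K hn lam gam hlam hgam C₁ hC x.1 x.2 M' κ' hκ' hx
      exact ⟨d, W, m₁, h1, h2, fun _ => h3⟩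
    · exact ⟨(0, 0), 0, 0, le_rfl, le_rfl, fun h => absurd h hx⟩
  have hh : ∀ x : ℕ × ℕ × ℕ, ∃ (d : ℤ × ℤ) (W m₁ : ℕ), d.1 ≤ 0 ∧ 0 ≤ d.2 ∧
      ((∀ l, 1 ≤ l → l < n → gam l * x.2.1 < lam l * x.1) →
        lam n * x.1 + x.2.2 < gam n * x.2.1 → x.2.2 ≤ M' → ∀ Nm : ℕ, 1 ≤ Nm →
      ∃ (κ₀ : ℝ) (z₀ : ℕ), 0 < κ₀ ∧ ∀ (J a₀ w₀ z M : ℕ) (κ : ℝ) (D : NDat2) (q : D.Ω → ℝ),
      z₀ ≤ z → κ ≤ κ₀ → D.Ok2 n K J a₀ w₀ z M lam gam κ C₁ q → ∀ (l N i j : ℕ), m₁ ≤ l →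
      N = 2 ^ l → N ≤ Nm → W * N ≤ i → i + W * N ≤ M → W * N ≤ j → j + W * N ≤ M →
      mi q D.T (Rc D) (((i : ℤ), (j : ℤ)) - N • d) d N ≤ N * (κ' / 8 * z) →
      ∀ U' ≤ M', CH q (D.nd n i j (x.2.2 * (N * z))) (fun ω =>
          (D.vd n i j (U' * (N * z)) ω, (D.c i j ω, D.T ω))) ≤
        CH q (D.nd n i j (x.2.2 * (N * z))) (fun ω =>
          (D.ss n i j (i - N * x.1) (j + N * x.2.1) (x.2.2 * (N * z)) ω,
            (D.vd n i j (U' * (N * z)) ω, (D.c i j ω, D.T ω)))) +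
              κ' * ((N * z : ℕ) : ℝ)) := by
    intro x
    by_cases hx : (∀ l, 1 ≤ l → l < n → gam l * x.2.1 < lam l * x.1) ∧
        lam n * x.1 + x.2.2 < gam n * x.2.1 ∧ x.2.2 ≤ M'
    · obtain ⟨d, W, m₁, h1, h2, h3⟩ := at_h n K hn lam gam hlam hgam C₁ hC x.1 x.2.1 x.2.2 M' κ'
        hκ' hx.2.2 hx.1 hx.2.1
      exact ⟨d, W, m₁, h1, h2, fun _ _ _ => h3⟩
    · exact ⟨(0, 0), 0, 0, le_rfl, le_rfl, fun a b c => absurd ⟨a, b, c⟩ hx⟩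
  choose dv Wv mv hv1 hv2 hv3 using hv
  choose dh Wh mh hh1 hh2 hh3 using hh
  obtain ⟨R, hR⟩ : ∃ R : Finset ℕ, R = range (M' + 1) := ⟨_, rfl⟩
  have hmR : ∀ x, x ≤ M' → x ∈ R := fun x hx => by
    rw [hR, mem_range]
    omega
  obtain ⟨W1, hW1⟩ := nat_ub (R ×ˢ R) Wv
  obtain ⟨W2, hW2⟩ := nat_ub (R ×ˢ (R ×ˢ R)) Wh
  obtain ⟨k1, hk1⟩ := nat_ub (R ×ˢ R) mv
  obtain ⟨k2, hk2⟩ := nat_ub (R ×ˢ (R ×ˢ R)) mh
  obtain ⟨m₂, M, hdm⟩ := dm_grid_o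
    (((R ×ˢ R) ×ˢ (R ×ˢ R)).image (fun x => (((x.1.1 : ℤ), (x.1.2 : ℤ)), dv x.2)) ∪
      ((R ×ˢ R) ×ˢ (R ×ˢ (R ×ˢ R))).image (fun x => (((x.1.1 : ℤ), (x.1.2 : ℤ)), dh x.2)))
    (by
      intro x hx
      rcases mem_union.1 hx with h | h
      · obtain ⟨y, -, rfl⟩ := mem_image.1 h
        exact ⟨hv1 _, hv2 _⟩
      · obtain ⟨y, -, rfl⟩ := mem_image.1 h
        exact ⟨hh1 _, hh2 _⟩) (W1 + W2 + M' + 1) (k1 + k2 + m₀) C₁ (κ' / 8) (by positivity)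
  obtain ⟨Nm, hNm⟩ : ∃ Nm : ℕ, Nm = 2 ^ (k1 + k2 + m₀ + m₂) := ⟨_, rfl⟩
  have hNm1 : 1 ≤ Nm := by rw [hNm]; exact Nat.one_le_two_pow
  -- the constants
  have gv : ∀ x : ℕ × ℕ, ∃ (κ₀ : ℝ) (z₀ : ℕ), 0 < κ₀ ∧
      ((∀ l, 1 ≤ l → l < n → gam l * x.2 < lam l * x.1) →
      ∀ (J a₀ w₀ z M : ℕ) (κ : ℝ) (D : NDat2) (q : D.Ω → ℝ),
      z₀ ≤ z → κ ≤ κ₀ → D.Ok2 n K J a₀ w₀ z M lam gam κ C₁ q → ∀ (l N i j : ℕ), mv x ≤ l →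
      N = 2 ^ l → N ≤ Nm → Wv x * N ≤ i → i + Wv x * N ≤ M → Wv x * N ≤ j → j + Wv x * N ≤ M →
      mi q D.T (Rc D) (((i : ℤ), (j : ℤ)) - N • dv x) (dv x) N ≤ N * (κ' / 8 * z) →
      ∀ U' ≤ M', ((n - 1 : ℕ) : ℝ) * (U' * ((N * z : ℕ) : ℝ)) * Real.log 2 -
        κ' * ((N * z : ℕ) : ℝ) ≤ CH q (D.vd n i j (U' * (N * z))) (fun ω =>
          (D.s (i - N * x.1) (j + N * x.2) ω, (D.c i j ω, D.T ω)))) := by
    intro x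
    by_cases hx : ∀ l, 1 ≤ l → l < n → gam l * x.2 < lam l * x.1
    · obtain ⟨κ₀, z₀, h1, h2⟩ := hv3 x hx Nm hNm1
      exact ⟨κ₀, z₀, h1, fun _ => h2⟩
    · exact ⟨1, 0, one_pos, fun h => absurd h hx⟩
  have gh : ∀ x : ℕ × ℕ × ℕ, ∃ (κ₀ : ℝ) (z₀ : ℕ), 0 < κ₀ ∧
      ((∀ l, 1 ≤ l → l < n → gam l * x.2.1 < lam l * x.1) →
        lam n * x.1 + x.2.2 < gam n * x.2.1 → x.2.2 ≤ M' →
      ∀ (J a₀ w₀ z M : ℕ) (κ : ℝ) (D : NDat2) (q : D.Ω → ℝ),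
      z₀ ≤ z → κ ≤ κ₀ → D.Ok2 n K J a₀ w₀ z M lam gam κ C₁ q → ∀ (l N i j : ℕ), mh x ≤ l →
      N = 2 ^ l → N ≤ Nm → Wh x * N ≤ i → i + Wh x * N ≤ M → Wh x * N ≤ j → j + Wh x * N ≤ M →
      mi q D.T (Rc D) (((i : ℤ), (j : ℤ)) - N • dh x) (dh x) N ≤ N * (κ' / 8 * z) →
      ∀ U' ≤ M', CH q (D.nd n i j (x.2.2 * (N * z))) (fun ω =>
          (D.vd n i j (U' * (N * z)) ω, (D.c i j ω, D.T ω))) ≤
        CH q (D.nd n i j (x.2.2 * (N * z))) (fun ω =>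
          (D.ss n i j (i - N * x.1) (j + N * x.2.1) (x.2.2 * (N * z)) ω,
            (D.vd n i j (U' * (N * z)) ω, (D.c i j ω, D.T ω)))) +
              κ' * ((N * z : ℕ) : ℝ)) := by
    intro x
    by_cases hx : (∀ l, 1 ≤ l → l < n → gam l * x.2.1 < lam l * x.1) ∧
        lam n * x.1 + x.2.2 < gam n * x.2.1 ∧ x.2.2 ≤ M'
    · obtain ⟨κ₀, z₀, h1, h2⟩ := hh3 x hx.1 hx.2.1 hx.2.2 Nm hNm1
      exact ⟨κ₀, z₀, h1, fun _ _ _ => h2⟩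
    · exact ⟨1, 0, one_pos, fun a b c => absurd ⟨a, b, c⟩ hx⟩
  choose κv zv pv gv2 using gv
  choose κh zh ph gh2 using gh
  obtain ⟨κ1, hκ1, hκ1'⟩ := pos_lb (R ×ˢ R) κv pv
  obtain ⟨κ2, hκ2, hκ2'⟩ := pos_lb (R ×ˢ (R ×ˢ R)) κh ph
  obtain ⟨z1, hz1⟩ := nat_ub (R ×ˢ R) zv
  obtain ⟨z2, hz2⟩ := nat_ub (R ×ˢ (R ×ˢ R)) zh
  refine ⟨M, min κ1 κ2, max z1 z2, lt_min hκ1 hκ2, ?_⟩
  intro J a₀ w₀ z D q hz hO
  obtain ⟨l, i₀, j₀, hl, hl', hWi, hWi', hWj, hWj', hmi⟩ := hdm D q z hO.isLaw hO.c_i hO.ij_few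
  obtain ⟨N, hN⟩ : ∃ N : ℕ, N = 2 ^ l := ⟨_, rfl⟩
  have hR2 : (2 : ℝ) ^ l = N := by
    rw [hN]
    push_cast
    rfl
  rw [hR2] at hmi
  rw [← hN] at hWi hWi' hWj hWj' hmi
  have hN1 : 1 ≤ N := by rw [hN]; exact Nat.one_le_two_pow
  have hNN : N ≤ Nm := by
    rw [hN, hNm]
    exact Nat.pow_le_pow_right (by norm_num) hl'.le
  have hm0 : m₀ ≤ N := by
    rw [hN]
    refine (Nat.lt_two_pow_self (n := m₀)).le.trans (Nat.pow_le_pow_right (by norm_num) ?_)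
    omega
  have eW : (W1 + W2 + M' + 1) * N = W1 * N + W2 * N + M' * N + N := by ring
  rw [eW] at hWi hWi' hWj hWj'
  have epl : ∀ i j : ℕ, (((i₀ : ℤ), (j₀ : ℤ)) : ℤ × ℤ) + N • ((i : ℤ), (j : ℤ)) =
      (((i₀ + i * N : ℕ) : ℤ), ((j₀ + j * N : ℕ) : ℤ)) := by
    intro i j
    refine Prod.ext ?_ ?_
    · simp
      ring
    · simp
      ring
  have hmul : ∀ i, i ≤ M' → i * N ≤ M' * N := fun i hi => Nat.mul_le_mul_right N hi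
  refine ⟨N, i₀, j₀, hm0, ⟨hN1, ?_, ?_⟩, ?_, ?_⟩
  · have : (M' + 1) * N = M' * N + N := by ring
    omega
  · have : (M' + 1) * N = M' * N + N := by ring
    omega
  · intro i j u₁ u₂ U hi hj hu hU hc
    show ((n - 1 : ℕ) : ℝ) * (U * ((N * z : ℕ) : ℝ)) * Real.log 2 - κ' * ((N * z : ℕ) : ℝ) ≤
      CH q (D.vd n (i₀ + i * N) (j₀ + j * N) (U * (N * z))) (fun ω =>
        (D.s (i₀ + (i - u₁) * N) (j₀ + (j + u₂) * N) ω,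
          (D.c (i₀ + i * N) (j₀ + j * N) ω, D.T ω)))
    have hx : (u₁, u₂) ∈ R ×ˢ R := mem_product.2 ⟨hmR _ (by omega), hmR _ (by omega)⟩
    have hij : (i, j) ∈ R ×ˢ R := mem_product.2 ⟨hmR _ hi, hmR _ (by omega)⟩
    have hy : ((((i : ℤ), (j : ℤ)), dv (u₁, u₂)) : (ℤ × ℤ) × (ℤ × ℤ)) ∈
        ((R ×ˢ R) ×ˢ (R ×ˢ R)).image (fun x => (((x.1.1 : ℤ), (x.1.2 : ℤ)), dv x.2)) ∪
        ((R ×ˢ R) ×ˢ (R ×ˢ (R ×ˢ R))).image (fun x => (((x.1.1 : ℤ), (x.1.2 : ℤ)), dh x.2)) :=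
      mem_union_left _ (mem_image.2 ⟨((i, j), (u₁, u₂)), mem_product.2 ⟨hij, hx⟩, rfl⟩)
    have h1 := hmi _ hy
    simp only at h1
    rw [epl] at h1
    have a1 := hmul i hi
    have a2 := hmul j (by omega)
    have a3 := Nat.mul_le_mul_right N (hW1 _ hx)
    have h2 := gv2 (u₁, u₂) hc J a₀ w₀ z M _ D q ((hz1 _ hx).trans ((le_max_left _ _).trans hz))
      ((min_le_left _ _).trans (hκ1' _ hx)) hO l N (i₀ + i * N) (j₀ + j * N)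
      (by have := hk1 _ hx; omega) hN hNN (by omega) (by omega) (by omega) (by omega) h1 U hU
    simp only at h2
    have e1 : i₀ + i * N - N * u₁ = i₀ + (i - u₁) * N := by
      have b1 := Nat.mul_le_mul_right N hu
      rw [Nat.sub_mul, Nat.mul_comm N u₁]
      omega
    have e2 : j₀ + j * N + N * u₂ = j₀ + (j + u₂) * N := by ring
    rw [e1, e2] at h2
    exact h2
  · intro i j u₁ u₂ U U' hi hj hu hU hU' hc hcn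
    show CH q (D.nd n (i₀ + i * N) (j₀ + j * N) (U * (N * z))) (fun ω =>
        (D.vd n (i₀ + i * N) (j₀ + j * N) (U' * (N * z)) ω,
          (D.c (i₀ + i * N) (j₀ + j * N) ω, D.T ω))) ≤
      CH q (D.nd n (i₀ + i * N) (j₀ + j * N) (U * (N * z))) (fun ω =>
        (D.ss n (i₀ + i * N) (j₀ + j * N) (i₀ + (i - u₁) * N) (j₀ + (j + u₂) * N)
          (U * (N * z)) ω, (D.vd n (i₀ + i * N) (j₀ + j * N) (U' * (N * z)) ω,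
          (D.c (i₀ + i * N) (j₀ + j * N) ω, D.T ω)))) + κ' * ((N * z : ℕ) : ℝ)
    have hx : (u₁, u₂, U) ∈ R ×ˢ (R ×ˢ R) := mem_product.2 ⟨hmR u₁ (by omega),
      mem_product.2 ⟨hmR u₂ (by omega), hmR U hU⟩⟩
    have hij : (i, j) ∈ R ×ˢ R := mem_product.2 ⟨hmR _ hi, hmR _ (by omega)⟩
    have hy : ((((i : ℤ), (j : ℤ)), dh (u₁, u₂, U)) : (ℤ × ℤ) × (ℤ × ℤ)) ∈
        ((R ×ˢ R) ×ˢ (R ×ˢ R)).image (fun x => (((x.1.1 : ℤ), (x.1.2 : ℤ)), dv x.2)) ∪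
        ((R ×ˢ R) ×ˢ (R ×ˢ (R ×ˢ R))).image (fun x => (((x.1.1 : ℤ), (x.1.2 : ℤ)), dh x.2)) :=
      mem_union_right _ (mem_image.2 ⟨((i, j), (u₁, u₂, U)), mem_product.2 ⟨hij, hx⟩, rfl⟩)
    have h1 := hmi _ hy
    simp only at h1
    rw [epl] at h1
    have a1 := hmul i hi
    have a2 := hmul j (by omega)
    have a3 := Nat.mul_le_mul_right N (hW2 _ hx)
    have h2 := gh2 (u₁, u₂, U) hc hcn hU J a₀ w₀ z M _ D q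
      ((hz2 _ hx).trans ((le_max_right _ _).trans hz))
      ((min_le_right _ _).trans (hκ2' _ hx)) hO l N (i₀ + i * N) (j₀ + j * N)
      (by have := hk2 _ hx; omega) hN hNN (by omega) (by omega) (by omega) (by omega) h1 U' hU'
    simp only at h2
    have e1 : i₀ + i * N - N * u₁ = i₀ + (i - u₁) * N := by
      have b1 := Nat.mul_le_mul_right N hu
      rw [Nat.sub_mul, Nat.mul_comm N u₁]
      omega
    have e2 : j₀ + j * N + N * u₂ = j₀ + (j + u₂) * N := by ring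
    rw [e1, e2] at h2
    exact h2

end Pool.MIC7
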