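import Pool.Agent.H14.P4.Thin
import Pool.Agent.H35.LBK.Lbk
import Pool.Agent.H40.ISO.Nb

/-!
# Thin labels are chains of two-sided labels of the mixed system

`MxS`: the mixed system at `(i, j)`: the labels of the cell in `R`, the labels with gain outside
`R`. `mix_low`, `mix_top`: growth of polynomials from the natural boxes of the labels of the cell,
respectively of the mixed system, to the boxes of the mixed system whose sides have lost
`E ^ (k + 1) z` digits. `chok_of_newT`: the chain of a thin new label, `new_chokT`: on an event of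
the mass of the new label.
-/

set_option autoImplicit false

namespace Pool.P4

open Finset Real MvPolynomial
open Pool.Agent.H49.Ent Pool.Agent.H32.Dense Pool.STK Pool.KA Pool.KSAT Pool.K2S Pool.PB Pool.S6C
open Pool.GEN (bt bd PtT LnT DepC NBx ChOK ChN Chn)
open Pool.STAT (PN NDat2 CDat2)
open Pool.STAT.Glu (Bt Tr dilB DilP)
open Pool.STAT.OKI (NbP)
open Pool.LBK (tr vc)
open Pool.BFL (Pb)

/-! ### Growth -/

/-- Absorption of the constants of the growth. -/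
theorem grow_num {C x D : ℕ} {E z : ℕ} (hz : 1 ≤ z) {q : ℕ} (hq : C ≤ 2 ^ q) (l : ℕ)
    (hE1 : 1 ≤ E) (hE : q + (x + 1) * D ≤ E) :
    (C : ℝ) * (2 ^ ((x + E ^ l) * z)) ^ D ≤ 2 ^ (E ^ (l + 1) * z) := by
  have h1 : (C : ℝ) ≤ 2 ^ (q * z) := by
    have h2 : (C : ℝ) ≤ 2 ^ q := by exact_mod_cast hq
    exact h2.trans (pow_le_pow_right₀ (by norm_num) (Nat.le_mul_of_pos_right _ hz))
  calc (C : ℝ) * (2 ^ ((x + E ^ l) * z)) ^ D ≤ 2 ^ (q * z) * (2 ^ ((x + E ^ l) * z)) ^ D :=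
        mul_le_mul_of_nonneg_right h1 (by positivity)
    _ = 2 ^ ((q + (x + E ^ l) * D) * z) := by
        rw [← pow_mul, ← pow_add]
        congr 1
        ring
    _ ≤ 2 ^ (E ^ (l + 1) * z) := by
        refine pow_le_pow_right₀ (by norm_num) (Nat.mul_le_mul_right _ ?_)
        have h3 : 1 ≤ E ^ l := Nat.one_le_pow _ _ hE1
        calc q + (x + E ^ l) * D ≤ q * E ^ l + (x * E ^ l + E ^ l) * D := by
              refine Nat.add_le_add (Nat.le_mul_of_pos_right _ h3) (Nat.mul_le_mul_right _ ?_)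
              exact Nat.add_le_add_right (Nat.le_mul_of_pos_right _ h3) _
          _ = (q + (x + 1) * D) * E ^ l := by ring
          _ ≤ E * E ^ l := Nat.mul_le_mul_right _ hE
          _ = E ^ (l + 1) := by ring

/-- **Growth**: from the natural boxes of `Ψ` (`low`) and of the mixed system `Mx` (`top`) to the
boxes of `Mx` with sides which have lost digits. -/
theorem mix_grow (n K B₁ : ℕ) : ∃ E : ℕ, 1 ≤ E ∧ ∀ {P : ℝ → Prop} {g gx : ℕ → ℕ} {z : ℕ}
    {Ψ Mx : ℕ → PN}, Tr K Ψ → Tr K Mx → 1 ≤ z → ∀ l, l ≤ n → (∀ k, 1 ≤ k → k < l → g k ≤ gx k) →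
    NbP (l - 1) P g (2 ^ (B₁ * z)) Ψ Mx → ∀ F : PN, F.vars ⊆ range l →
    F.totalDegree ≤ K → ∀ S₀ : ℝ, 0 ≤ S₀ →
    ((∀ b, Bt 1 P g Ψ l b → |eval b F| ≤ S₀) →
      ∀ b, Bt 1 P (fun k => gx k - E ^ (k + 1) * z) Mx l b →
        |eval b F| ≤ 2 ^ (E ^ (l + 1) * z) * S₀) ∧
    ((∀ b, Bt 1 P gx Mx l b → |eval b F| ≤ S₀) →
      ∀ b, Bt 1 P (fun k => gx k - E ^ (k + 1) * z) Mx l b →
        |eval b F| ≤ 2 ^ (E ^ (l + 1) * z) * S₀) := by
  obtain ⟨C, hC, hdil⟩ := dilB n K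
  obtain ⟨c, hc, hbox⟩ := NbP.box' n K
  obtain ⟨D, hD⟩ : ∃ D : ℕ, D = K * (K + 1) ^ (n + 1) := ⟨_, rfl⟩
  obtain ⟨C', hC'⟩ := exists_nat_ge C
  obtain ⟨q, hq⟩ : ∃ q : ℕ, C' * c ^ (c * D) ≤ 2 ^ q :=
    ⟨_, (Nat.lt_two_pow_self (n := C' * c ^ (c * D))).le⟩
  obtain ⟨E, hE⟩ : ∃ E : ℕ, E = 1 + q + (B₁ + 1) * (c * D) := ⟨_, rfl⟩
  refine ⟨E, by omega, ?_⟩
  intro P g gx z Ψ Mx hΨ hMx hz l hl hg hnb F hv hdeg S₀ hS
  have hE1 : 1 ≤ E := by omega
  -- the dilated box of the mixed system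
  have hb0 : ∀ b, Bt 1 P (fun k => gx k - E ^ (k + 1) * z) Mx l b →
      Bt (2 ^ (E ^ l * z)) P gx Mx l b := by
    intro b hb
    refine ⟨hb.1, fun k h1 h2 => (hb.2 k h1 h2).trans ?_⟩
    rw [div_le_div_iff₀ (by positivity) (by positivity), one_mul, ← pow_add]
    refine pow_le_pow_right₀ (by norm_num) ?_
    have h3 : E ^ (k + 1) * z ≤ E ^ l * z :=
      Nat.mul_le_mul_right _ (Nat.pow_le_pow_right hE1 (by omega))
    beta_reduce
    omega
  have h1R : (1 : ℝ) ≤ 2 ^ (E ^ l * z) := one_le_pow₀ (by norm_num)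
  have h1S : (1 : ℝ) ≤ 2 ^ (B₁ * z) := one_le_pow₀ (by norm_num)
  have hc1 : (1 : ℝ) ≤ c := by exact_mod_cast hc
  refine ⟨fun hF b hb => ?_, fun hF b hb => ?_⟩
  · -- the system which is `Mx` before `l` and `Ψ` from `l` on
    obtain ⟨Mc, hMc⟩ : ∃ Mc : ℕ → PN, Mc = fun k => if k < l then Mx k else Ψ k := ⟨_, rfl⟩
    have hMcT : Tr K Mc := by
      rw [hMc]
      refine ⟨fun k => ?_, fun k => ?_⟩
      · split_ifs
        · exact hMx.tri k
        · exact hΨ.tri k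
      · split_ifs
        · exact hMx.deg k
        · exact hΨ.deg k
    have hMcN : NbP n P g (2 ^ (B₁ * z)) Ψ Mc := by
      intro k k1 k2 b hb
      rw [hMc]
      beta_reduce
      split_ifs with hk
      · exact hnb k k1 (by omega) b hb
      · rw [sub_self, abs_zero]
        positivity
    have h1 : Bt (2 ^ (E ^ l * z)) P g Mc l b := by
      refine ⟨(hb0 b hb).1, fun k k1 k2 => ?_⟩
      have h2 := (hb0 b hb).2 k k1 k2
      rw [hMc]
      beta_reduce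
      rw [if_pos k2]
      refine h2.trans ?_
      exact div_le_div_of_nonneg_left (by positivity) (by positivity)
        (pow_le_pow_right₀ (by norm_num) (hg k k1 (by omega)))
    have h2 := hbox hΨ hMcT h1S h1R hMcN l (by omega) b h1
    have h4 : (1 : ℝ) ≤ ((c : ℝ) * (2 ^ (B₁ * z) * 2 ^ (E ^ l * z))) ^ c := by
      refine one_le_pow₀ ?_
      have : (1 : ℝ) ≤ 2 ^ (B₁ * z) * 2 ^ (E ^ l * z) := by nlinarith
      nlinarith
    have h3 := hdil Ψ g F l P S₀ _ hΨ.tri hΨ.deg hl hv hdeg h4 hF b h2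
    refine h3.trans ?_
    rw [← hD]
    have h5 : C * S₀ * (((c : ℝ) * (2 ^ (B₁ * z) * 2 ^ (E ^ l * z))) ^ c) ^ D =
        C * (c : ℝ) ^ (c * D) * (2 ^ ((B₁ + E ^ l) * z)) ^ (c * D) * S₀ := by
      rw [← pow_mul, mul_pow, ← pow_add]
      rw [show B₁ * z + E ^ l * z = (B₁ + E ^ l) * z by ring]
      ring
    rw [h5]
    refine mul_le_mul_of_nonneg_right ?_ hS
    have h6 := grow_num (C := C' * c ^ (c * D)) (x := B₁) (D := c * D) (E := E) (z := z) hz hq l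
      hE1 (by omega)
    refine le_trans ?_ h6
    refine mul_le_mul_of_nonneg_right ?_ (by positivity)
    push_cast
    exact mul_le_mul_of_nonneg_right hC' (by positivity)
  · have h3 := hdil Mx gx F l P S₀ _ hMx.tri hMx.deg hl hv hdeg h1R hF b (hb0 b hb)
    refine h3.trans ?_
    rw [← hD]
    have h5 : C * S₀ * (2 ^ (E ^ l * z)) ^ D = C * (2 ^ (E ^ l * z)) ^ D * S₀ := by ring
    rw [h5]
    refine mul_le_mul_of_nonneg_right ?_ hS
    have h6 := grow_num (C := C' * c ^ (c * D)) (x := B₁) (D := c * D) (E := E) (z := z) hz hq l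
      hE1 (by omega)
    refine le_trans ?_ h6
    have e1 : (1 : ℝ) ≤ (c : ℝ) ^ (c * D) := one_le_pow₀ hc1
    have e2 : (0 : ℝ) ≤ C' := by linarith
    have e3 : C ≤ ((C' * c ^ (c * D) : ℕ) : ℝ) := by
      push_cast
      nlinarith
    have e4 : ((2 : ℝ) ^ (E ^ l * z)) ^ D ≤ (2 ^ ((B₁ + E ^ l) * z)) ^ (c * D) := by
      rw [← pow_mul, ← pow_mul]
      refine pow_le_pow_right₀ (by norm_num) ?_
      have e5 : E ^ l * z ≤ (B₁ + E ^ l) * z := Nat.mul_le_mul_right _ (Nat.le_add_left _ _)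
      have e6 : D ≤ c * D := Nat.le_mul_of_pos_left _ hc
      exact Nat.mul_le_mul e5 e6
    exact mul_le_mul e3 e4 (by positivity) (by positivity)

/-! ### The mixed box -/

open Classical in
/-- The mixed system, visible side. -/
noncomputable def MxD (D : NDat2) (U : GnL D) (R : ℕ → Prop) (i j : ℕ) (ω : D.Ω) (l : ℕ) : PN :=
  if R l then D.Ψ i j ω l else U.UD l (D.pt ω)

open Classical in
/-- The precisions of the mixed system. -/
noncomputable def gx (D : NDat2) (z Q : ℕ) (R : ℕ → Prop) (i j l : ℕ) : ℕ :=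
  if R l then D.g i j l else D.g i j l + Q * z

theorem gx_ge (D : NDat2) (z Q : ℕ) (R : ℕ → Prop) (i j l : ℕ) :
    D.g i j l ≤ gx D z Q R i j l := by
  unfold gx
  split_ifs
  · exact le_rfl
  · exact Nat.le_add_right _ _

theorem nbt_iff {D : NDat2} {U : GnL D} {z Q : ℕ} {R : ℕ → Prop} {i j ρ m : ℕ} {ω : D.Ω}
    {b : ℕ → ℝ} : NBT D U z Q R i j ρ m ω b ↔
      Bt 1 (fun t => |t - D.X ω 0| ≤ 1 / 2 ^ ρ) (gx D z Q R i j) (MxD D U R i j ω) m b := by
  constructor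
  · rintro ⟨h1, h2⟩
    refine ⟨h1, fun u u1 u2 => ?_⟩
    unfold gx MxD
    split_ifs with hR
    · exact (h2 u u1 u2).1 hR
    · exact (h2 u u1 u2).2 hR
  · rintro ⟨h1, h2⟩
    refine ⟨h1, fun u u1 u2 => ⟨fun hR => ?_, fun hR => ?_⟩⟩
    · have h3 := h2 u u1 u2
      unfold gx MxD at h3
      rwa [if_pos hR, if_pos hR] at h3
    · have h3 := h2 u u1 u2
      unfold gx MxD at h3
      rwa [if_neg hR, if_neg hR] at h3

theorem nb_iff {D : NDat2} {i j ρ m : ℕ} {ω : D.Ω} {b : ℕ → ℝ} : D.NB i j ρ m ω b ↔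
      Bt 1 (fun t => |t - D.X ω 0| ≤ 1 / 2 ^ ρ) (D.g i j) (D.Ψ i j ω) m b := Iff.rfl

/-- The losses are a power of two. -/
theorem exp_le_two (C₁ : ℝ) : ∃ B₁ : ℕ, ∀ z : ℕ, exp (C₁ * z) ≤ 2 ^ (B₁ * z) := by
  obtain ⟨B, hB⟩ := exists_nat_ge (C₁ / Real.log 2)
  have hl : 0 < Real.log 2 := Real.log_pos (by norm_num)
  rw [div_le_iff₀ hl] at hB
  refine ⟨B, fun z => ?_⟩
  have h1 : (2 : ℝ) ^ (B * z) = exp ((B * Real.log 2) * z) := by
    rw [mul_right_comm, ← Nat.cast_mul, mul_comm (((B * z : ℕ) : ℝ)), Real.exp_mul,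
      Real.exp_log (by norm_num), Real.rpow_natCast]
  rw [h1]
  exact exp_le_exp.2 (mul_le_mul_of_nonneg_right hB (Nat.cast_nonneg _))

/-! ### The chain of a thin new label -/

section
variable {m J n : ℕ} {F : Fam m J} {C : CDat2 F n} {X : F.Ω → ℕ → ℝ}
  {pa : Pool.STAT.Ln2 F → ℕ → Polynomial ℝ} {a₀ w₀ z M : ℕ} {g : ℕ → ℕ → ℕ → ℕ}
  {A : F.Ω → Prop}

open Classical in
/-- The visible polynomials. -/
noncomputable def GvT (C : CDat2 F n) (U : GnL (C.nd2 X pa w₀ z M g)) (R : ℕ → Prop)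
    (c : ℕ → Fin m) (i j l : ℕ) (Gn : Pool.STAT.Pt2 F → PN) (y : PtT F) (k : ℕ) :
    MvPolynomial (Option (Fin m)) ℝ :=
  if k < l then
    (if R (k + 1) then tr c (C.G i j (C.s i j y) (k + 1)) else tr c (U.UD (k + 1) y))
  else if k = l then tr c (Gn y) else 0

open Classical in
/-- The polynomials of the lines. -/
noncomputable def HvT (C : CDat2 F n) (U : GnL (C.nd2 X pa w₀ z M g)) (R : ℕ → Prop)
    (c : ℕ → Fin m) (w₀ w i j l : ℕ) (Hn : Pool.STAT.Ln2 F × ℕ → PN) (s : LnT F) (k : ℕ) :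
    MvPolynomial (Option (Fin m)) ℝ :=
  if k < l then
    (if R (k + 1) then tr c (C.P i j (C.li i j s) (k + 1)) else
      tr c (U.UL (k + 1) ((s.1, s.2.1, s.2.2 / 2 ^ (w - w₀)), s.2.2 / 2 ^ (w - w₀))))
  else if k = l then tr c (Hn ((s.1, s.2.1, s.2.2 / 2 ^ (w - w₀)), s.2.2)) else 0

open Classical in
/-- The precisions: `Cf k z` digits are lost at the coordinate `k`. -/
noncomputable def gvT (g : ℕ → ℕ → ℕ → ℕ) (R : ℕ → Prop) (z Q i j l P E : ℕ) (k : ℕ) : ℕ :=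
  if k < l then
    (if R (k + 1) then g i j (k + 1) else g i j (k + 1) + Q * z) - E ^ (k + 2) * z
  else P - E ^ (l + 2) * z

/-- The facts on the labels with gain at a sample. -/
structure UPt (C : CDat2 F n) (U : GnL (C.nd2 X pa w₀ z M g)) (R : ℕ → Prop)
    (J a₀ i j Q l : ℕ) (C₁ : ℝ) (ω : F.Ω) : Prop where
  own : ∀ k, 1 ≤ k → k ≤ l → ¬ R k →
    |X ω k - eval (X ω) (U.UD k (ptr F J ω))| ≤ 1 / 2 ^ (g i j k + Q * z)
  two : ∀ k, 1 ≤ k → k ≤ l → ¬ R k → ∀ b : ℕ → ℝ, C.Nb2 X g i j (a₀ + i * z) k ω b →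
    |eval b (U.UD k (ptr F J ω)) - eval b (U.UL k (slam F w₀ ω, F.T1 w₀ ω))| ≤
      1 / 2 ^ (g i j k + Q * z)
  near : ∀ k, 1 ≤ k → k ≤ l → ¬ R k → ∀ b : ℕ → ℝ, C.Nb2 X g i j (a₀ + i * z) k ω b →
    |eval b (U.UD k (ptr F J ω)) - eval b (C.Ps2 i j ω k)| ≤ exp (C₁ * z) / 2 ^ g i j k

end

/-- The two bounds after the loss of digits. -/
theorem loss_le {x : ℝ} {G e : ℕ} (h : e ≤ G) (hx : |x| ≤ 2 ^ e * (1 / 2 ^ G)) :
    |x| ≤ 1 / 2 ^ (G - e) := by
  refine hx.trans (le_of_eq ?_)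
  have h1 : (2 : ℝ) ^ G = 2 ^ (G - e) * 2 ^ e := by rw [← pow_add, Nat.sub_add_cancel h]
  rw [h1]
  field_simp

theorem prec_le {x : ℝ} {G e : ℕ} (hx : |x| ≤ 1 / 2 ^ G) : |x| ≤ 1 / 2 ^ (G - e) :=
  hx.trans (div_le_div_of_nonneg_left zero_le_one (by positivity)
    (pow_le_pow_right₀ (by norm_num) (Nat.sub_le _ _)))

/-- **The chain of a thin new label**, explicitly: the labels of the mixed system, the sides have
lost `E ^ (k + 2) z` digits. -/
theorem chok_of_newT (n K K' : ℕ) (C₁ : ℝ) : ∃ E : ℕ, 1 ≤ E ∧ ∀ {m J : ℕ} {F : Fam m J}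
    {C : CDat2 F n} {X : F.Ω → ℕ → ℝ} {pa : Pool.STAT.Ln2 F → ℕ → Polynomial ℝ}
    {a₀ w₀ z M Q : ℕ} {g : ℕ → ℕ → ℕ → ℕ} {A : F.Ω → Prop} {R : ℕ → Prop}
    (U : GnL (C.nd2 X pa w₀ z M g)), C.Cnd2 X pa K a₀ w₀ z M g A → ∀ (c : ℕ → Fin m),
    (∀ ω, A ω → ∀ k < n, X ω (k + 1) = F.x ω (c k)) → 1 ≤ z →
    ∀ {i j l P : ℕ}, i ≤ M → j ≤ M → w₀ + j * z ≤ J → l < n →
    (∀ k x, (U.UD k x).totalDegree ≤ K) → (∀ k x, (U.UL k x).totalDegree ≤ K) →
    (∀ k x, (U.UD k x).vars ⊆ range k) → (∀ k x, (U.UL k x).vars ⊆ range k) →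
    ∀ {Gn : Pool.STAT.Pt2 F → PN} {Hn : Pool.STAT.Ln2 F × ℕ → PN},
    (∀ x, (Gn x).totalDegree ≤ K' ∧ (Gn x).vars ⊆ range (l + 1)) →
    (∀ x, (Hn x).totalDegree ≤ K' ∧ (Hn x).vars ⊆ range (l + 1)) →
    ∀ {B : F.Ω → Prop}, (∀ ω, B ω → A ω) → (∀ ω, B ω → UPt C U R J a₀ i j Q l C₁ ω) →
    (∀ ω, B ω → |X ω (l + 1) - eval (X ω) (Gn (ptr F J ω))| ≤ 1 / 2 ^ P) →
    (∀ ω, B ω → ∀ b : ℕ → ℝ, NBT (C.nd2 X pa w₀ z M g) U z Q R i j (a₀ + i * z) (l + 1) ω b →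
      |eval b (Gn (ptr F J ω)) - eval b (Hn (slam F w₀ ω, F.T1 (w₀ + j * z) ω))| ≤ 1 / 2 ^ P) →
    (∀ k, 1 ≤ k → k ≤ l → E ^ (n + 1) * z ≤ g i j k) → E ^ (n + 1) * z ≤ P →
    ∃ e : ℕ, ChOK F c (l + 1) (fun _ => max K K') (a₀ + i * z) (w₀ + j * z) e
      (gvT g R z Q i j l P E) B (GvT C U R c i j l Gn) (HvT C U R c w₀ (w₀ + j * z) i j l Hn) := by
  classical
  obtain ⟨B₁, hB₁⟩ := exp_le_two C₁
  obtain ⟨E, hE, hgrow⟩ := mix_grow n (max K K') B₁
  refine ⟨E, hE, ?_⟩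
  intro m J F C X pa a₀ w₀ z M Q g A R U hC c hX hz i j l P hi hj hwJ hl hUD hUL hVD hVL Gn Hn
    hGn hHn B hBA hU hpos hagr hbig hbigP
  have hslm : ∀ ω, (((slam F (w₀ + j * z) ω).1, (slam F (w₀ + j * z) ω).2.1,
      (slam F (w₀ + j * z) ω).2.2 / 2 ^ (w₀ + j * z - w₀)) : Pool.STAT.Ln2 F) = slam F w₀ ω :=
    fun ω => (slam_coarse F (Nat.le_add_right w₀ (j * z)) hwJ ω).symm
  have hT : ∀ ω, (slam F (w₀ + j * z) ω).2.2 / 2 ^ (w₀ + j * z - w₀) = F.T1 w₀ ω := fun ω =>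
    congrArg (·.2.2) (hslm ω)
  have hdG : ∀ y k, DepC c k (GvT C U R c i j l Gn y k) := by
    intro y k
    unfold GvT
    split_ifs with h1 h2 h3
    · exact Pool.LBK.dep_tr (hC.Gtri i hi j hj _ _ (by omega) (by omega))
    · exact Pool.LBK.dep_tr (hVD _ _)
    · rw [h3]
      exact Pool.LBK.dep_tr (hGn y).2
    · intro b b' _ _
      rw [map_zero, map_zero]
  obtain ⟨e, he⟩ := Pool.LBK.lip_ex F (l + 1) (a₀ + i * z) (gvT g R z Q i j l P E) hdG
  -- the values at the point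
  have hbt : ∀ ω, A ω → ∀ (Q : PN) (k : ℕ), k ≤ n → Q.vars ⊆ range (k + 1) →
      eval (bt F ω) (tr c Q) = eval (X ω) Q := by
    intro ω hω Q k hk hQ
    rw [Pool.LBK.eval_tr]
    refine Pool.LBK.eval_vars hQ fun k' hk' => ?_
    cases k' with
    | zero => exact (hC.X_zero ω).symm
    | succ k' => exact (hX ω hω k' (by omega)).symm
  -- the systems
  have hTrP : ∀ ω, Tr (max K K') ((C.nd2 X pa w₀ z M g).Ψ i j ω) := by
    intro ω
    refine ⟨fun k => ?_, fun k => ?_⟩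
    · change (if 1 ≤ k ∧ k ≤ n ∧ i ≤ M ∧ j ≤ M then C.G i j (C.s i j (ptr F J ω)) k
        else 0).vars ⊆ range k
      split_ifs with h
      · exact hC.Gtri i hi j hj _ k h.1 h.2.1
      · rw [vars_0]
        exact Finset.empty_subset _
    · change (if 1 ≤ k ∧ k ≤ n ∧ i ≤ M ∧ j ≤ M then C.G i j (C.s i j (ptr F J ω)) k
        else 0).totalDegree ≤ max K K'
      split_ifs with h
      · exact (hC.Gdeg i hi j hj _ k h.1 h.2.1).trans (le_max_left _ _)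
      · rw [totalDegree_zero]
        exact Nat.zero_le _
  have hTrM : ∀ ω, Tr (max K K') (MxD (C.nd2 X pa w₀ z M g) U R i j ω) := by
    intro ω
    refine ⟨fun k => ?_, fun k => ?_⟩
    · unfold MxD
      split_ifs
      · exact (hTrP ω).tri k
      · exact hVD k _
    · unfold MxD
      split_ifs
      · exact (hTrP ω).deg k
      · exact (hUD k _).trans (le_max_left _ _)
  have hnb : ∀ ω, B ω → ∀ l' ≤ l + 1, NbP (l' - 1) (fun t => |t - X ω 0| ≤ 1 / 2 ^ (a₀ + i * z))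
      ((C.nd2 X pa w₀ z M g).g i j) (2 ^ (B₁ * z)) ((C.nd2 X pa w₀ z M g).Ψ i j ω)
      (MxD (C.nd2 X pa w₀ z M g) U R i j ω) := by
    intro ω hω l' hl' k k1 k2 b hb
    unfold MxD
    split_ifs with hR
    · rw [sub_self, abs_zero]
      positivity
    · rw [CDat2.nd2_g C X pa w₀ z M g k1, CDat2.nd2_Ψ C X pa w₀ z M g hi hj k1 (by omega)]
      rw [abs_sub_comm]
      refine ((hU ω hω).near k k1 (by omega) hR b ?_).trans
        (div_le_div_of_nonneg_right (hB₁ z) (by positivity))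
      exact (CDat2.nd2_NB C X pa w₀ z M g hi hj (by omega) ω b).1 hb
  have hgx : ∀ k, 1 ≤ k → gx (C.nd2 X pa w₀ z M g) z Q R i j k =
      if R k then g i j k else g i j k + Q * z := by
    intro k hk
    unfold gx
    rw [CDat2.nd2_g C X pa w₀ z M g hk]
  -- the boxes
  have hbx : ∀ ω, ∀ k ≤ l, ∀ b : Option (Fin m) → ℝ,
      NBx c (GvT C U R c i j l Gn (ptr F J ω)) (gvT g R z Q i j l P E) (a₀ + i * z) (F.t ω) k b →
      Bt 1 (fun t => |t - X ω 0| ≤ 1 / 2 ^ (a₀ + i * z))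
        (fun u => gx (C.nd2 X pa w₀ z M g) z Q R i j u - E ^ (u + 1) * z)
        (MxD (C.nd2 X pa w₀ z M g) U R i j ω) (k + 1) (b ∘ vc c) := by
    intro ω k hk b hb
    refine ⟨?_, fun u u1 u2 => ?_⟩
    · change |(b ∘ vc c) 0 - X ω 0| ≤ _
      rw [hC.X_zero ω]
      exact hb.1
    · obtain ⟨v, rfl⟩ : ∃ v, u = v + 1 := ⟨u - 1, by omega⟩
      have h3 := hb.2 v (by omega)
      have hvl : v < l := by omega
      unfold GvT gvT at h3
      rw [if_pos hvl, if_pos hvl] at h3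
      beta_reduce
      rw [hgx (v + 1) (by omega)]
      unfold MxD
      by_cases hR : R (v + 1)
      · rw [if_pos hR, if_pos hR] at h3
        rw [if_pos hR, if_pos hR,
          CDat2.nd2_Ψ C X pa w₀ z M g hi hj (l := v + 1) (by omega) (by omega)]
        rw [Pool.LBK.eval_tr] at h3
        exact h3
      · rw [if_neg hR, if_neg hR] at h3
        rw [if_neg hR, if_neg hR]
        rw [Pool.LBK.eval_tr] at h3
        exact h3
  have hpw : ∀ k, k < l → E ^ (k + 1 + 1) * z ≤ g i j (k + 1) := fun k hk =>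
    (Nat.mul_le_mul_right _ (Nat.pow_le_pow_right hE (by omega))).trans
      (hbig (k + 1) (by omega) (by omega))
  have hpwP : E ^ (l + 1 + 1) * z ≤ P :=
    (Nat.mul_le_mul_right _ (Nat.pow_le_pow_right hE (by omega))).trans hbigP
  refine ⟨e, ?_, ?_, hdG, ?_, ?_, ?_, ?_⟩
  · intro y k
    unfold GvT
    split_ifs with h1 h2 h3
    · exact (Pool.LBK.deg_tr c _).trans ((hC.Gdeg i hi j hj _ _ (by omega) (by omega)).trans
        (le_max_left _ _))
    · exact (Pool.LBK.deg_tr c _).trans ((hUD _ _).trans (le_max_left _ _))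
    · exact (Pool.LBK.deg_tr c _).trans ((hGn y).1.trans (le_max_right _ _))
    · rw [totalDegree_zero]
      exact Nat.zero_le _
  · intro s k
    unfold HvT
    split_ifs with h1 h2 h3
    · exact (Pool.LBK.deg_tr c _).trans ((hC.Pdeg i hi j hj _ _ (by omega) (by omega)).trans
        (le_max_left _ _))
    · exact (Pool.LBK.deg_tr c _).trans ((hUL _ _).trans (le_max_left _ _))
    · exact (Pool.LBK.deg_tr c _).trans ((hHn _).1.trans (le_max_right _ _))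
    · rw [totalDegree_zero]
      exact Nat.zero_le _
  · intro s k
    unfold HvT
    split_ifs with h1 h2 h3
    · exact Pool.LBK.dep_tr (hC.Ptri i hi j hj _ _ (by omega) (by omega))
    · exact Pool.LBK.dep_tr (hVL _ _)
    · rw [h3]
      exact Pool.LBK.dep_tr (hHn _).2
    · intro b b' _ _
      rw [map_zero, map_zero]
  · intro ω hω k hk
    have hA := hBA ω hω
    rcases Nat.lt_succ_iff_lt_or_eq.1 hk with hk | rfl
    · unfold GvT gvT
      rw [if_pos hk, if_pos hk]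
      by_cases hR : R (k + 1)
      · rw [if_pos hR, if_pos hR, hbt ω hA _ k (by omega)
          (hC.Gtri i hi j hj _ _ (by omega) (by omega)), ← hX ω hA k (by omega)]
        exact prec_le (hC.pos i hi j hj ω hA (k + 1) (by omega) (by omega))
      · have h1 := hbt ω hA (U.UD (k + 1) (ptr F J ω)) k (by omega) (hVD (k + 1) _)
        rw [if_neg hR, if_neg hR, ← hX ω hA k (by omega)]
        refine prec_le (le_of_eq_of_le ?_ ((hU ω hω).own (k + 1) (by omega) (by omega) hR))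
        exact congrArg (fun y => |X ω (k + 1) - y|) h1
    · unfold GvT gvT
      rw [if_neg (lt_irrefl k), if_pos rfl, if_neg (lt_irrefl k), hbt ω hA _ k (by omega)
        (hGn _).2, ← hX ω hA k (by omega)]
      exact prec_le (hpos ω hω)
  · intro ω hω k hk b hb
    have hA := hBA ω hω
    have hb' := hbx ω k (by omega) b hb
    rcases Nat.lt_succ_iff_lt_or_eq.1 hk with hk | rfl
    · have hgr := hgrow (hTrP ω) (hTrM ω) hz (k + 1) (by omega)
        (fun u _ _ => gx_ge (C.nd2 X pa w₀ z M g) z Q R i j u) (hnb ω hω (k + 1) (by omega))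
      unfold GvT HvT gvT
      rw [if_pos hk, if_pos hk, if_pos hk]
      by_cases hR : R (k + 1)
      · rw [if_pos hR, if_pos hR, if_pos hR, Pool.LBK.eval_tr, Pool.LBK.eval_tr, ← map_sub]
        refine loss_le (hpw k hk) ((hgr _ ((vars_sub_subset _).trans (Finset.union_subset
          (hC.Gtri i hi j hj _ _ (by omega) (by omega))
          (hC.Ptri i hi j hj _ _ (by omega) (by omega))))
          ((totalDegree_sub _ _).trans (max_le
            ((hC.Gdeg i hi j hj _ _ (by omega) (by omega)).trans (le_max_left _ _))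
            ((hC.Pdeg i hi j hj _ _ (by omega) (by omega)).trans (le_max_left _ _))))
          (1 / 2 ^ g i j (k + 1)) (by positivity)).1 ?_ _ hb')
        intro b' hb''
        have h1 := hC.agr i hi j hj ω hA (k + 1) (by omega) (by omega) b'
          ((CDat2.nd2_NB C X pa w₀ z M g hi hj (by omega) ω b').1 hb'')
        unfold CDat2.Ps2 CDat2.Ph2 at h1
        rw [if_neg (by omega)] at h1
        rw [map_sub]
        exact h1
      · rw [if_neg hR, if_neg hR, if_neg hR, Pool.LBK.eval_tr, Pool.LBK.eval_tr, ← map_sub]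
        refine loss_le ((hpw k hk).trans (Nat.le_add_right _ _)) ((hgr _
          ((vars_sub_subset _).trans (Finset.union_subset (hVD _ _) (hVL _ _)))
          ((totalDegree_sub _ _).trans (max_le
            ((hUD _ _).trans (le_max_left _ _)) ((hUL _ _).trans (le_max_left _ _))))
          (1 / 2 ^ (g i j (k + 1) + Q * z)) (by positivity)).1 ?_ _ hb')
        intro b' hb''
        have h1 := (hU ω hω).two (k + 1) (by omega) (by omega) hR b'
          ((CDat2.nd2_NB C X pa w₀ z M g hi hj (by omega) ω b').1 hb'')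
        rw [map_sub]
        rw [hslm ω, hT ω]
        exact h1
    · have hgr := hgrow (hTrP ω) (hTrM ω) hz (k + 1) (by omega)
        (fun u _ _ => gx_ge (C.nd2 X pa w₀ z M g) z Q R i j u) (hnb ω hω (k + 1) (by omega))
      unfold GvT HvT gvT
      rw [if_neg (lt_irrefl k), if_pos rfl, if_neg (lt_irrefl k), if_pos rfl,
        if_neg (lt_irrefl k), Pool.LBK.eval_tr, Pool.LBK.eval_tr, ← map_sub]
      refine loss_le hpwP ((hgr _
        ((vars_sub_subset _).trans (Finset.union_subset (hGn _).2 (hHn _).2))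
        ((totalDegree_sub _ _).trans (max_le
          ((hGn _).1.trans (le_max_right _ _)) ((hHn _).1.trans (le_max_right _ _))))
        (1 / 2 ^ P) (by positivity)).2 ?_ _ hb')
      intro b' hb''
      have h1 := hagr ω hω b' (nbt_iff.2 hb'')
      rw [map_sub]
      rw [hslm ω]
      exact h1
  · intro ω hω k hk b hb k' hk'
    exact he ω k hk b hb k' hk'

/-- The facts at a sample, from `GnL.Ok`. -/
theorem upt_of_ok {m J n K Q : ℕ} {F : Fam m J} {C : CDat2 F n} {X : F.Ω → ℕ → ℝ}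
    {pa : Pool.STAT.Ln2 F → ℕ → Polynomial ℝ} {a₀ w₀ z M : ℕ} {g : ℕ → ℕ → ℕ → ℕ}
    {R : ℕ → Prop} {C₁ : ℝ} {U : GnL (C.nd2 X pa w₀ z M g)} {q : F.Ω → ℝ}
    (hU : U.Ok n K J a₀ w₀ z M Q R C₁ q) {i j l : ℕ} (hi : i ≤ M) (hj : j ≤ M) (hl : l < n)
    {ω : F.Ω} (hω : 0 < q ω) : UPt C U R J a₀ i j Q l C₁ ω := by
  refine ⟨fun k k1 k2 hR => ?_, fun k k1 k2 hR b hb => ?_, fun k k1 k2 hR b hb => ?_⟩
  · have h1 := hU.own k k1 (by omega) hR ω hω
    have h2 := hU.deep k k1 (by omega) hR i hi j hj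
    rw [CDat2.nd2_g C X pa w₀ z M g k1] at h2
    exact h1.trans (div_le_div_of_nonneg_left zero_le_one (by positivity)
      (pow_le_pow_right₀ (by norm_num) h2))
  · have h1 := hU.two k k1 (by omega) hR i hi j hj ω hω b
      ((CDat2.nd2_NB C X pa w₀ z M g hi hj (by omega) ω b).2 hb)
    have h2 := hU.deep k k1 (by omega) hR i hi j hj
    rw [CDat2.nd2_g C X pa w₀ z M g k1] at h2
    exact h1.trans (div_le_div_of_nonneg_left zero_le_one (by positivity)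
      (pow_le_pow_right₀ (by norm_num) h2))
  · have h1 := hU.near k k1 (by omega) hR i hi j hj ω hω b
      ((CDat2.nd2_NB C X pa w₀ z M g hi hj (by omega) ω b).2 hb)
    rw [CDat2.nd2_g C X pa w₀ z M g k1,
      CDat2.nd2_Ψ C X pa w₀ z M g hi hj k1 (by omega)] at h1
    exact h1

/-- **`NewLabT` in the cell of a family**, explicitly. -/
theorem new_chokT (n K K' : ℕ) (C₁ : ℝ) : ∃ E : ℕ, 1 ≤ E ∧ ∀ {m J : ℕ} {F : Fam m J}
    {C : CDat2 F n} {X : F.Ω → ℕ → ℝ} {pa : Pool.STAT.Ln2 F → ℕ → Polynomial ℝ}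
    {a₀ w₀ z M Q : ℕ} {g : ℕ → ℕ → ℕ → ℕ} {A : F.Ω → Prop} {R : ℕ → Prop}
    (U : GnL (C.nd2 X pa w₀ z M g)) {q : F.Ω → ℝ}, C.Cnd2 X pa K a₀ w₀ z M g A →
    ∀ (c : ℕ → Fin m), (∀ ω, A ω → ∀ k < n, X ω (k + 1) = F.x ω (c k)) → 1 ≤ z →
    (∀ ω, 0 ≤ q ω) → (∀ ω, 0 < q ω → A ω) → U.Ok n K J a₀ w₀ z M Q R C₁ q →
    ∀ {i j l A' : ℕ} {η' : ℝ}, i ≤ M → j ≤ M → w₀ + j * z ≤ J → l < n →
    (∀ k, 1 ≤ k → k ≤ l + 1 → E ^ (n + 1) * z ≤ g i j k) →
    NewLabT (C.nd2 X pa w₀ z M g) U J a₀ w₀ z Q R i j (l + 1) A' K' η' q →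
    ∃ (B : F.Ω → Prop) (Gn : Pool.STAT.Pt2 F → PN) (Hn : Pool.STAT.Ln2 F × ℕ → PN) (e : ℕ),
      (∀ ω, B ω → A ω) ∧ η' ≤ Pb q B ∧
      ((∀ x, (Gn x).totalDegree ≤ K' ∧ (Gn x).vars ⊆ range (l + 1)) ∧
        (∀ x, (Hn x).totalDegree ≤ K' ∧ (Hn x).vars ⊆ range (l + 1))) ∧
      (∀ ω, B ω → 0 < q ω ∧ |X ω (l + 1) - eval (X ω) (Gn (ptr F J ω))| ≤
          1 / 2 ^ (g i j (l + 1) + A' * z) ∧
        ∀ b : ℕ → ℝ, NBT (C.nd2 X pa w₀ z M g) U z Q R i j (a₀ + i * z) (l + 1) ω b →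
          |eval b (Gn (ptr F J ω)) - eval b (Hn (slam F w₀ ω, F.T1 (w₀ + j * z) ω))| ≤
            1 / 2 ^ (g i j (l + 1) + A' * z)) ∧
      ChOK F c (l + 1) (fun _ => max K K') (a₀ + i * z) (w₀ + j * z) e
        (gvT g R z Q i j l (g i j (l + 1) + A' * z) E) B (GvT C U R c i j l Gn)
        (HvT C U R c w₀ (w₀ + j * z) i j l Hn) := by
  classical
  obtain ⟨E, hE, key⟩ := chok_of_newT n K K' C₁
  refine ⟨E, hE, ?_⟩
  intro m J F C X pa a₀ w₀ z M Q g A R U q hC c hX hz hq0 hqA hU i j l A' η' hi hj hwJ hl hbig hN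
  obtain ⟨Gn, Hn, hGn, hHn, hP⟩ := hN
  have e1 : (C.nd2 X pa w₀ z M g).g i j (l + 1) = g i j (l + 1) :=
    CDat2.nd2_g C X pa w₀ z M g (by omega)
  rw [e1] at hP
  obtain ⟨B, hB⟩ : ∃ B : F.Ω → Prop, B = fun ω => 0 < q ω ∧
      |X ω (l + 1) - eval (X ω) (Gn (ptr F J ω))| ≤
      1 / 2 ^ (g i j (l + 1) + A' * z) ∧ ∀ b : ℕ → ℝ,
        NBT (C.nd2 X pa w₀ z M g) U z Q R i j (a₀ + i * z) (l + 1) ω b →
      |eval b (Gn (ptr F J ω)) - eval b (Hn (slam F w₀ ω, F.T1 (w₀ + j * z) ω))| ≤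
        1 / 2 ^ (g i j (l + 1) + A' * z) := ⟨_, rfl⟩
  have hB2 : ∀ ω, B ω → 0 < q ω ∧ |X ω (l + 1) - eval (X ω) (Gn (ptr F J ω))| ≤
          1 / 2 ^ (g i j (l + 1) + A' * z) ∧
        ∀ b : ℕ → ℝ, NBT (C.nd2 X pa w₀ z M g) U z Q R i j (a₀ + i * z) (l + 1) ω b →
          |eval b (Gn (ptr F J ω)) - eval b (Hn (slam F w₀ ω, F.T1 (w₀ + j * z) ω))| ≤
            1 / 2 ^ (g i j (l + 1) + A' * z) := fun ω h => by rw [hB] at h; exact h
  have hBA : ∀ ω, B ω → A ω := fun ω h => hqA ω (hB2 ω h).1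
  obtain ⟨e, he⟩ := key U hC c hX hz (i := i) (j := j) (l := l)
    (P := g i j (l + 1) + A' * z) hi hj hwJ hl hU.degD hU.degL hU.varD hU.varL hGn hHn hBA
    (fun ω h => upt_of_ok hU hi hj hl (hB2 ω h).1) (fun ω h => (hB2 ω h).2.1)
    (fun ω h => (hB2 ω h).2.2) (fun k k1 k2 => hbig k k1 (by omega))
    ((hbig (l + 1) (by omega) le_rfl).trans (Nat.le_add_right _ _))
  refine ⟨B, Gn, Hn, e, hBA, hP.trans ?_, ⟨hGn, hHn⟩, hB2, he⟩
  unfold Pb
  change ∑ ω : F.Ω, _ ≤ _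
  refine Finset.sum_le_sum fun ω _ => ?_
  rcases (hq0 ω).eq_or_lt with h0 | h0
  · rw [← h0]
    simp
  · split_ifs with h1 h2
    · exact le_rfl
    · refine absurd ?_ h2
      rw [hB]
      exact ⟨h0, h1.1, fun b hb => h1.2 b hb⟩
    · exact h0.le
    · exact le_rfl

end Pool.P4
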