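import Pool.Agent.H7.MIC.Rgt

/-!
# The three paths through a place
-/

set_option autoImplicit false

namespace Pool.MIC7

open Finset Real MvPolynomial
open Pool.Agent.H49.Ent Pool.Agent.H32.Dense Pool.STK Pool.STAT Pool.MIC.Frm Pool.MIC24 Pool.DM
open Pool.MIC
open Pool.BFL (Pb)

variable {D : NDat2} {n K J a₀ w₀ z M : ℕ} {lam gam : ℕ → ℝ} {κ C₁ : ℝ} {q : D.Ω → ℝ}

/-- The levels along a straight path. -/
theorem way_line (hO : D.Ok2 n K J a₀ w₀ z M lam gam κ C₁ q) (hC : 0 ≤ C₁) {e : ℝ}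
    (he : 2 * C₁ ≤ e) {i j x₁ x₂ N : ℕ} {c : ℝ} (hc : 0 ≤ c) (h1 : N * x₁ ≤ i) (h2 : i ≤ M)
    (h3 : j + N * x₂ ≤ M) (h : ∀ l, 1 ≤ l → l < n → c + gam l * x₂ ≤ lam l * x₁) :
    Way D n z M e (fun k => (i - k * x₁, j + k * x₂)) (fun k => k * c * Real.log 2) N := by
  refine way_of hO hC he (t := fun k => k * c) ?_ (by simp) (fun k _ => by positivity) ?_
  · intro k hk
    have := Nat.mul_le_mul_right x₂ hk
    simp only
    omega
  · intro k hk l hl hln
    have e1 : (k + 1) * x₁ ≤ i := (Nat.mul_le_mul_right x₁ hk).trans h1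
    have e2 : k * x₁ ≤ i := (Nat.mul_le_mul_right x₁ hk.le).trans h1
    have h4 := h l hl hln
    simp only
    rw [Nat.cast_sub e1, Nat.cast_sub e2]
    push_cast
    nlinarith

theorem two_le_of {N : ℕ} {k : ℕ} (h : k ≤ N) : ((N - k : ℕ) : ℝ) = N - k := Nat.cast_sub h

/-- The target along the straight path to the place. -/
theorem nd_line (hO : D.Ok2 n K J a₀ w₀ z M lam gam κ C₁ q) (hn : 1 ≤ n) (hC : 0 ≤ C₁) {e : ℝ}
    (he : 2 * C₁ ≤ e) {i j x₁ x₂ N U : ℕ} {c : ℝ} (hc : U ≤ c) (h2 : i + N * x₁ ≤ M)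
    (h3 : N * x₂ ≤ j) (h4 : j ≤ M) (h : U + gam n * x₂ ≤ lam n * x₁) {k : ℕ} (hk : k ≤ N) :
    ((D.g i j n + U * (N * z) : ℕ) : ℝ) * Real.log 2 ≤
      D.g (i + N * x₁ - k * x₁) (j - N * x₂ + k * x₂) n * Real.log 2 + k * c * Real.log 2 * z +
        e * z := by
  have hl0 : 0 < Real.log 2 := Real.log_pos (by norm_num)
  have hl1 : Real.log 2 ≤ 1 := by
    have := Real.log_two_lt_d9
    linarith
  have hz : (0 : ℝ) ≤ z := Nat.cast_nonneg z
  have e1 : k * x₁ ≤ N * x₁ := Nat.mul_le_mul_right x₁ hk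
  have e2 : k * x₂ ≤ N * x₂ := Nat.mul_le_mul_right x₂ hk
  have key := hom2 hO (p := (i, j)) (p' := (i + N * x₁ - k * x₁, j - N * x₂ + k * x₂))
    (by simp only; omega) (by simp only; omega) (by simp only; omega) (by simp only; omega) hn
    le_rfl
  simp only at key
  rw [Nat.cast_sub (by omega : k * x₁ ≤ i + N * x₁), Nat.cast_add (j - N * x₂),
    Nat.cast_sub h3] at key
  push_cast at key ⊢
  have hkN : (k : ℝ) ≤ N := by exact_mod_cast hk
  have h5 : ((N : ℝ) - k) * U + k * c ≥ N * U := by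
    have : (k : ℝ) * U ≤ k * c := mul_le_mul_of_nonneg_left hc (Nat.cast_nonneg _)
    linarith
  have h6 : ((N : ℝ) - k) * U ≤ (N - k) * (lam n * x₁ - gam n * x₂) :=
    mul_le_mul_of_nonneg_left (by linarith) (by linarith)
  have h7 : (D.g i j n : ℝ) + U * (N * z) ≤
      D.g (i + N * x₁ - k * x₁) (j - N * x₂ + k * x₂) n + k * c * z + 2 * C₁ * z := by
    have h8 : (N : ℝ) * U * z ≤ ((N - k) * (lam n * x₁ - gam n * x₂) + k * c) * z :=
      mul_le_mul_of_nonneg_right (by linarith) hz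
    nlinarith
  have h9 := mul_le_mul_of_nonneg_right h7 hl0.le
  have h10 : 2 * C₁ * z * Real.log 2 ≤ e * z := by
    calc 2 * C₁ * z * Real.log 2 ≤ 2 * C₁ * z * 1 :=
          mul_le_mul_of_nonneg_left hl1 (by positivity)
      _ ≤ e * z := by
          rw [mul_one]
          exact mul_le_mul_of_nonneg_right he hz
  linarith

/-- The levels along the path with a corner. -/
theorem way_cor (hO : D.Ok2 n K J a₀ w₀ z M lam gam κ C₁ q) (hC : 0 ≤ C₁) {e : ℝ}
    (he : 2 * C₁ ≤ e) {i j x₁ x₂ y₁ y₂ N : ℕ} {c c' : ℝ} (hc : 0 ≤ c) (hc' : 0 ≤ c')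
    (h1 : N * x₁ + N * y₁ ≤ i) (h2 : i ≤ M) (h3 : j + (N * x₂ + N * y₂) ≤ M)
    (h : ∀ l, 1 ≤ l → l < n → c + gam l * x₂ ≤ lam l * x₁)
    (h' : ∀ l, 1 ≤ l → l < n → c' + gam l * y₂ ≤ lam l * y₁) :
    Way D n z M e (cor i j x₁ x₂ y₁ y₂ N)
      (fun k => ((min k N : ℕ) * c + (k - N : ℕ) * c') * Real.log 2) (N + N) := by
  have a1 : ∀ k, min k N * x₁ ≤ N * x₁ := fun k => Nat.mul_le_mul_right _ (min_le_right _ _)
  have a2 : ∀ k, min k N * x₂ ≤ N * x₂ := fun k => Nat.mul_le_mul_right _ (min_le_right _ _)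
  have a3 : ∀ k, k ≤ N + N → (k - N) * y₁ ≤ N * y₁ := fun k hk =>
    Nat.mul_le_mul_right _ (by omega)
  have a4 : ∀ k, k ≤ N + N → (k - N) * y₂ ≤ N * y₂ := fun k hk =>
    Nat.mul_le_mul_right _ (by omega)
  refine way_of hO hC he (t := fun k => (min k N : ℕ) * c + (k - N : ℕ) * c') ?_ (by simp)
    (fun k _ => by positivity) ?_
  · intro k hk
    unfold cor
    have := a2 k
    have := a4 k hk
    simp only
    omega
  · intro k hk l hl hln
    have b1 := a1 k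
    have b3 := a3 k hk.le
    have b1' := a1 (k + 1)
    have b3' := a3 (k + 1) hk
    unfold cor
    simp only
    rw [Nat.cast_sub (by omega : min (k + 1) N * x₁ + (k + 1 - N) * y₁ ≤ i),
      Nat.cast_sub (by omega : min k N * x₁ + (k - N) * y₁ ≤ i)]
    by_cases hkN : k < N
    · have h4 := h l hl hln
      rw [min_eq_left hkN.le, min_eq_left (by omega : k + 1 ≤ N), show k - N = 0 by omega,
        show k + 1 - N = 0 by omega]
      push_cast
      nlinarith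
    · have h4 := h' l hl hln
      rw [min_eq_right (by omega : N ≤ k), min_eq_right (by omega : N ≤ k + 1),
        show k + 1 - N = (k - N) + 1 by omega]
      push_cast
      nlinarith

/-- The target along the second part of the path with a corner. -/
theorem nd_cor (hO : D.Ok2 n K J a₀ w₀ z M lam gam κ C₁ q) (hn : 1 ≤ n) (hC : 0 ≤ C₁) {e : ℝ}
    (he : 2 * C₁ ≤ e) {i j x₁ x₂ y₁ y₂ N U : ℕ} {c c' : ℝ} (hc : 0 ≤ c)
    (h1 : N * x₁ + N * y₁ ≤ i) (h2 : i ≤ M) (h3 : j + (N * x₂ + N * y₂) ≤ M)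
    (h : lam n * x₁ + U ≤ gam n * x₂) (h' : lam n * y₁ ≤ gam n * y₂ + c') {k : ℕ}
    (hk : N ≤ k) (hk' : k ≤ N + N) :
    ((D.g i j n + U * (N * z) : ℕ) : ℝ) * Real.log 2 ≤
      D.g (cor i j x₁ x₂ y₁ y₂ N k).1 (cor i j x₁ x₂ y₁ y₂ N k).2 n * Real.log 2 +
        ((min k N : ℕ) * c + (k - N : ℕ) * c') * Real.log 2 * z + e * z := by
  have hl0 : 0 < Real.log 2 := Real.log_pos (by norm_num)
  have hl1 : Real.log 2 ≤ 1 := by
    have := Real.log_two_lt_d9
    linarith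
  have hz : (0 : ℝ) ≤ z := Nat.cast_nonneg z
  obtain ⟨m, rfl⟩ := Nat.exists_eq_add_of_le hk
  have hm : m ≤ N := by omega
  have b1 : m * y₁ ≤ N * y₁ := Nat.mul_le_mul_right _ hm
  have b2 : m * y₂ ≤ N * y₂ := Nat.mul_le_mul_right _ hm
  have ec : cor i j x₁ x₂ y₁ y₂ N (N + m) = (i - (N * x₁ + m * y₁), j + (N * x₂ + m * y₂)) := by
    unfold cor
    rw [min_eq_right (by omega : N ≤ N + m), Nat.add_sub_cancel_left]
  rw [ec, min_eq_right (by omega : N ≤ N + m), Nat.add_sub_cancel_left]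
  have key := hom2 hO (p := (i, j)) (p' := (i - (N * x₁ + m * y₁), j + (N * x₂ + m * y₂)))
    (by simp only; omega) (by simp only; omega) (by simp only; omega) (by simp only; omega) hn
    le_rfl
  simp only at key ⊢
  rw [Nat.cast_sub (by omega : N * x₁ + m * y₁ ≤ i)] at key
  push_cast at key ⊢
  have hN0 : (0 : ℝ) ≤ N := Nat.cast_nonneg _
  have hm0 : (0 : ℝ) ≤ m := Nat.cast_nonneg _
  have h5 : (N : ℝ) * U ≤ N * (gam n * x₂ - lam n * x₁) + m * (gam n * y₂ - lam n * y₁ + c') := by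
    have p1 : (N : ℝ) * U ≤ N * (gam n * x₂ - lam n * x₁) :=
      mul_le_mul_of_nonneg_left (by linarith) hN0
    have p2 : 0 ≤ m * (gam n * y₂ - lam n * y₁ + c') := mul_nonneg hm0 (by linarith)
    linarith
  have h6 : 0 ≤ (N : ℝ) * c := by positivity
  have h7 : (D.g i j n : ℝ) + U * (N * z) ≤
      D.g (i - (N * x₁ + m * y₁)) (j + (N * x₂ + m * y₂)) n + (N * c + m * c') * z +
        2 * C₁ * z := by
    have h8 := mul_le_mul_of_nonneg_right h5 hz
    have h9 : 0 ≤ (N : ℝ) * c * z := by positivity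
    nlinarith
  have h9 := mul_le_mul_of_nonneg_right h7 hl0.le
  have h10 : 2 * C₁ * z * Real.log 2 ≤ e * z := by
    calc 2 * C₁ * z * Real.log 2 ≤ 2 * C₁ * z * 1 :=
          mul_le_mul_of_nonneg_left hl1 (by positivity)
      _ ≤ e * z := by
          rw [mul_one]
          exact mul_le_mul_of_nonneg_right he hz
  linarith

end Pool.MIC7
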