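import Pool.Agent.H7.MIC.Ind
import Pool.Agent.H19.STAT.Sys2L

/-!
# The other side knows the shape of the own leaf
-/

set_option autoImplicit false

namespace Pool.MIC7

open Finset Real MvPolynomial
open Pool.Agent.H49.Ent Pool.Agent.H32.Dense Pool.STK Pool.STAT Pool.MIC.Frm Pool.MIC24 Pool.DM
open Pool.MIC
open Pool.BFL (Pb)

/-- The shape of the own leaf is few given a second label which differs from it by almost a
constant on the natural box. -/
def SsFew (n K : ℕ) : Prop := ∃ C : ℝ, 1 ≤ C ∧ ∀ (D : NDat2) (p : D.Ω → ℝ)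
  (i j i' j' ic jc r J : ℕ) (τ : ℝ), IsLaw p → 1 ≤ n → 0 < τ →
  (∀ x l, (D.P i j x l).totalDegree ≤ K) → (∀ x, TriN (D.P i j x)) →
  (∀ x l, (D.G i' j' x l).totalDegree ≤ K) → (∀ x, TriN (D.G i' j' x)) →
  (∀ x l, (D.G ic jc x l).totalDegree ≤ K) → (∀ x, TriN (D.G ic jc x)) →
  (∀ ω, D.X ω 0 = (D.T ω : ℝ) / 2 ^ J) →
  (∀ l, 1 ≤ l → l < n → D.g i' j' l ≤ D.g i j l) → D.g i j n < D.g i' j' n →
  (∀ ω, 0 < p ω → ∃ a : ℝ, ∀ b : ℕ → ℝ, b 0 = D.X ω 0 →
    (∀ k, 1 ≤ k → k < n → |b k - eval b (D.Φ i j ω k)| ≤ 1 / 2 ^ D.g i j k) →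
    |eval b (D.Ψ i' j' ω n) - eval b (D.Ψ ic jc ω n) - a| ≤ τ) →
  CH p (D.ss n i j i' j' r) (fun ω => (D.s ic jc ω, (D.c i j ω, D.T ω))) ≤
    C * (Real.log (2 ^ (D.g i j n + r) * τ + 1) + 1)

/-- **The other side knows the shape.** -/
theorem rgt_ss (n K : ℕ) (hn : 1 ≤ n) (hss : SsFew n K) : ∃ (A : ℝ) (z₁ : ℕ), 1 ≤ A ∧
    ∀ (D : NDat2) (J a₀ w₀ z M : ℕ) (lam gam : ℕ → ℝ) (κ C₁ : ℝ) (q : D.Ω → ℝ),
    D.Ok2 n K J a₀ w₀ z M lam gam κ C₁ q → ∀ (e : ℝ) (Q : ℕ → ℕ × ℕ) (θ : ℕ → ℝ) (N : ℕ)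
    (b d : ℤ × ℤ) (E : D.Ω → Prop) (i j i' j' ic jc r : ℕ), 0 ≤ e → z₁ ≤ z →
    Way D n z M e Q θ (N + N) → ((N + N : ℕ) : ℝ) ≤ Real.exp z →
    (∀ ω, E ω → ∀ k < N + N, Adj D n (Real.exp (e * z)) (Q k) (Q (k + 1)) ω) → 1 / 2 ≤ Pb q E →
    b = ((i : ℤ), (j : ℤ)) → Q 0 = (i, j) → Q N = (i', j') → Q (N + N) = (ic, jc) →
    b + N • d = ((ic : ℤ), (jc : ℤ)) → (∀ l, 1 ≤ l → l < n → D.g i' j' l ≤ D.g i j l) →
    D.g i j n < D.g i' j' n →
    (∀ k, N ≤ k → k < N + N → ((D.g i j n + r : ℕ) : ℝ) * Real.log 2 ≤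
      D.g (Q k).1 (Q k).2 n * Real.log 2 + θ k * z + e * z) →
    CH (cond q E True) (D.ss n i j i' j' r) (fun ω => (sg (Rc D) b d N ω, D.T ω)) ≤
      A * (e + 1) * z := by
  obtain ⟨C, hC, h⟩ := hss
  obtain ⟨A, hA, hw⟩ := way_bd n K
  obtain ⟨B, hB, hbox⟩ := line_box n K
  obtain ⟨z₁, hz₁⟩ := exists_nat_ge B
  refine ⟨C * (A + 3), max z₁ 1, by nlinarith, ?_⟩
  intro D J a₀ w₀ z M lam gam κ C₁ q hO e Q θ N b d E i j i' j' ic jc r he hz hW hs hadj hE hb hQ0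
    hQN hQ2 hbd hfat hthin hk
  have hz1 : (1 : ℝ) ≤ z := by exact_mod_cast (le_max_right _ _).trans hz
  have hzB : B ≤ z := hz₁.trans (by exact_mod_cast (le_max_left _ _).trans hz)
  have hBz : B ≤ Real.exp z := hzB.trans (by
    have := Real.add_one_le_exp (z : ℝ)
    linarith)
  have hq := hO.isLaw
  have hE0 : 0 < Pb q E := by linarith
  have hl := isLaw_ev hq E hE0
  have hpos : ∀ ω, 0 < cond q E True ω → 0 < q ω := fun ω hω => (ev_pos hq.nonneg E hω).1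
  obtain ⟨hi, hj⟩ := hW.le 0 (Nat.zero_le _)
  rw [hQ0] at hi hj
  obtain ⟨hic, hjc⟩ := hW.le (N + N) le_rfl
  rw [hQ2] at hic hjc
  set L : ℝ := ((D.g i j n + r : ℕ) : ℝ) * Real.log 2 - e * z with hL
  have h1 := h D (cond q E True) i j i' j' ic jc r J (Real.exp (A * (e + 1) * z) * Real.exp (-L))
    hl hn (by positivity) (fun x l => hO.P_deg _ _ x l) (fun x => hO.P_tri _ _ x)
    (fun x l => hO.G_deg _ _ x l) (fun x => hO.G_tri _ _ x) (fun x l => hO.G_deg _ _ x l)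
    (fun x => hO.G_tri _ _ x) hO.X_zero hfat hthin (fun ω hω => by
      obtain ⟨hω1, hω2⟩ := ev_pos hq.nonneg E hω
      refine ⟨eval (D.X ω) (fr D (Q N) ω n) - eval (D.X ω) (fr D (Q (N + N)) ω n), ?_⟩
      intro b' b0 hb'
      have h3 := (hw D J a₀ w₀ z M lam gam κ C₁ q hO e B Q θ (N + N) he hB hBz
        (by exact_mod_cast hz1) hW hs ω hω1 (hadj ω hω2) b' b0 (by
          rw [hQ0]
          exact hbox D J a₀ w₀ z M lam gam κ C₁ q hO (i, j) hi hj ω hω1 b' b0 hb')).2 N N n L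
        le_rfl le_rfl (fun k h4 h5 => by
          have := hk k h4 h5
          rw [hL]
          linarith)
      have e1 : eval b' (fr D (Q N) ω n) = eval b' (D.Ψ i' j' ω n) := by
        rw [hQN]
        exact eval_fz' _ b0 hn
      have e2 : eval b' (fr D (Q (N + N)) ω n) = eval b' (D.Ψ ic jc ω n) := by
        rw [hQ2]
        exact eval_fz' _ b0 hn
      rw [e1, e2] at h3
      exact h3)
  have two : ∀ m : ℕ, (2 : ℝ) ^ m = Real.exp (m * Real.log 2) := fun m => by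
    rw [Real.exp_nat_mul, Real.exp_log (by norm_num)]
  have h2 : (2 : ℝ) ^ (D.g i j n + r) * (Real.exp (A * (e + 1) * z) * Real.exp (-L)) =
      Real.exp (A * (e + 1) * z + e * z) := by
    rw [two, ← Real.exp_add, ← Real.exp_add, hL]
    congr 1
    ring
  rw [h2] at h1
  have h3 : CH (cond q E True) (D.ss n i j i' j' r) (fun ω => (sg (Rc D) b d N ω, D.T ω)) ≤
      CH (cond q E True) (D.ss n i j i' j' r)
        (fun ω => (D.s ic jc ω, (D.c i j ω, D.T ω))) := by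
    refine CH_mono_cond hl.nonneg ?_
    intro ω ω' a1 a2 hh
    have d1 := sg_s hO (o := b) (d := d) (r := N) (k := N) (a := (ic, jc)) le_rfl hbd hic hjc hpos
      ω ω' a1 a2 hh
    have d2 := sg_c (o := b) (d := d) (r := N) (k := 0) (a := (i, j)) (Nat.zero_le _)
      (by rw [zero_smul, add_zero, hb]) (cond q E True) ω ω' a1 a2 hh
    have d3 := (Prod.ext_iff.1 hh).2
    exact Prod.ext d1 (Prod.ext d2 d3)
  refine h3.trans (h1.trans ?_)
  have hez : 0 ≤ e * (z : ℝ) := by positivity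
  have hAez : 0 ≤ A * (e + 1) * (z : ℝ) := by positivity
  have h4 : Real.log (Real.exp (A * (e + 1) * z + e * z) + 1) ≤ A * (e + 1) * z + e * z + 1 := by
    have h5 : Real.exp (A * (e + 1) * z + e * z) + 1 ≤
        Real.exp (A * (e + 1) * z + e * z + 1) := by
      have h6 : 1 ≤ Real.exp (A * (e + 1) * z + e * z) := Real.one_le_exp (by linarith)
      have h7 : (2 : ℝ) ≤ Real.exp 1 := by
        have := Real.exp_one_gt_d9
        linarith
      rw [Real.exp_add _ 1]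
      nlinarith
    calc _ ≤ Real.log (Real.exp (A * (e + 1) * z + e * z + 1)) :=
          Real.log_le_log (by positivity) h5
      _ = _ := Real.log_exp _
  have h5 : Real.log (Real.exp (A * (e + 1) * z + e * z) + 1) + 1 ≤ (A + 3) * (e + 1) * z := by
    have : (e + 1) * z ≥ 1 * (1 : ℝ) := mul_le_mul (by linarith) hz1 zero_le_one (by linarith)
    have p1 : A * (e + 1) * z + e * z + 2 ≤ (A + 3) * (e + 1) * z := by
      have : (A + 3) * (e + 1) * z = A * (e + 1) * z + e * z + z + 2 * ((e + 1) * z) := by ring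
      linarith
    linarith
  calc C * (Real.log (Real.exp (A * (e + 1) * z + e * z) + 1) + 1) ≤
        C * ((A + 3) * (e + 1) * z) := mul_le_mul_of_nonneg_left h5 (by linarith)
    _ = C * (A + 3) * (e + 1) * z := by ring

end Pool.MIC7
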