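import Pool.Agent.H7.MIC.LLa

/-!
# Sub-cells with finitely many local statements

`Loc`: a statement about a place of a cell and a scale which holds if the dyadic Markov lemma gives
a small information in one direction at this place and this scale. `sub_gen`: every cell has a
sub-cell with finitely many such statements at given places.
-/

set_option autoImplicit false

namespace Pool.MIC7

open Finset Real MvPolynomial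
open Pool.Agent.H49.Ent Pool.Agent.H32.Dense Pool.STK Pool.STAT Pool.MIC.Frm Pool.MIC24 Pool.DM
open Pool.MIC
open Pool.BFL (Pb)

/-- **A local statement.** -/
def Loc (n K : ℕ) (lam gam : ℕ → ℝ) (C₁ κ' : ℝ)
    (Pr : ∀ D : NDat2, (D.Ω → ℝ) → ℕ → ℕ → ℕ → ℕ → Prop) : Prop :=
  ∃ (d : ℤ × ℤ) (W m₁ : ℕ), d.1 ≤ 0 ∧ 0 ≤ d.2 ∧ ∀ Nm : ℕ, 1 ≤ Nm →
    ∃ (κ₀ : ℝ) (z₀ : ℕ), 0 < κ₀ ∧ ∀ (J a₀ w₀ z M : ℕ) (κ : ℝ) (D : NDat2) (q : D.Ω → ℝ),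
      z₀ ≤ z → κ ≤ κ₀ → D.Ok2 n K J a₀ w₀ z M lam gam κ C₁ q → ∀ (l N i j : ℕ), m₁ ≤ l →
      N = 2 ^ l → N ≤ Nm → W * N ≤ i → i + W * N ≤ M → W * N ≤ j → j + W * N ≤ M →
      mi q D.T (Rc D) (((i : ℤ), (j : ℤ)) - N • d) d N ≤ N * (κ' * z) → Pr D q z N i j

/-- **Sub-cells** with finitely many local statements. -/
theorem sub_gen {α : Type} (n K : ℕ) (lam gam : ℕ → ℝ) (C₁ κ' : ℝ) (hκ' : 0 < κ') (M' m₀ : ℕ)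
    (F : Finset α) (o : α → ℕ × ℕ) (ho : ∀ x ∈ F, (o x).1 ≤ M' ∧ (o x).2 ≤ M')
    (Pr : α → ∀ D : NDat2, (D.Ω → ℝ) → ℕ → ℕ → ℕ → ℕ → Prop)
    (H : ∀ x ∈ F, Loc n K lam gam C₁ κ' (Pr x)) :
    ∃ (M : ℕ) (κ : ℝ) (z₀ : ℕ), 0 < κ ∧ ∀ (J a₀ w₀ z : ℕ) (D : NDat2) (q : D.Ω → ℝ), z₀ ≤ z →
      D.Ok2 n K J a₀ w₀ z M lam gam κ C₁ q → ∃ (N i₀ j₀ : ℕ), m₀ ≤ N ∧ NDat2.SubG i₀ j₀ N M' M ∧
      ∀ x ∈ F, Pr x D q z N (i₀ + (o x).1 * N) (j₀ + (o x).2 * N) := by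
  classical
  have hH : ∀ x : α, ∃ (d : ℤ × ℤ) (W m₁ : ℕ), d.1 ≤ 0 ∧ 0 ≤ d.2 ∧ (x ∈ F → ∀ Nm : ℕ, 1 ≤ Nm →
      ∃ (κ₀ : ℝ) (z₀ : ℕ), 0 < κ₀ ∧ ∀ (J a₀ w₀ z M : ℕ) (κ : ℝ) (D : NDat2) (q : D.Ω → ℝ),
      z₀ ≤ z → κ ≤ κ₀ → D.Ok2 n K J a₀ w₀ z M lam gam κ C₁ q → ∀ (l N i j : ℕ), m₁ ≤ l →
      N = 2 ^ l → N ≤ Nm → W * N ≤ i → i + W * N ≤ M → W * N ≤ j → j + W * N ≤ M →
      mi q D.T (Rc D) (((i : ℤ), (j : ℤ)) - N • d) d N ≤ N * (κ' * z) → Pr x D q z N i j) := by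
    intro x
    by_cases hx : x ∈ F
    · obtain ⟨d, W, m₁, h1, h2, h3⟩ := H x hx
      exact ⟨d, W, m₁, h1, h2, fun _ => h3⟩
    · exact ⟨(0, 0), 0, 0, le_rfl, le_rfl, fun h => absurd h hx⟩
  choose dv Wv mv hv1 hv2 hv3 using hH
  obtain ⟨W1, hW1⟩ := nat_ub F Wv
  obtain ⟨k1, hk1⟩ := nat_ub F mv
  obtain ⟨m₂, M, hdm⟩ := dm_grid_o
    (F.image (fun x => ((((o x).1 : ℤ), ((o x).2 : ℤ)), dv x)))
    (by
      intro x hx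
      obtain ⟨y, -, rfl⟩ := mem_image.1 hx
      exact ⟨hv1 _, hv2 _⟩) (W1 + M' + 1) (k1 + m₀) C₁ κ' hκ'
  obtain ⟨Nm, hNm⟩ : ∃ Nm : ℕ, Nm = 2 ^ (k1 + m₀ + m₂) := ⟨_, rfl⟩
  have hNm1 : 1 ≤ Nm := by rw [hNm]; exact Nat.one_le_two_pow
  have gv : ∀ x : α, ∃ (κ₀ : ℝ) (z₀ : ℕ), 0 < κ₀ ∧ (x ∈ F →
      ∀ (J a₀ w₀ z M : ℕ) (κ : ℝ) (D : NDat2) (q : D.Ω → ℝ),
      z₀ ≤ z → κ ≤ κ₀ → D.Ok2 n K J a₀ w₀ z M lam gam κ C₁ q → ∀ (l N i j : ℕ), mv x ≤ l →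
      N = 2 ^ l → N ≤ Nm → Wv x * N ≤ i → i + Wv x * N ≤ M → Wv x * N ≤ j → j + Wv x * N ≤ M →
      mi q D.T (Rc D) (((i : ℤ), (j : ℤ)) - N • dv x) (dv x) N ≤ N * (κ' * z) →
      Pr x D q z N i j) := by
    intro x
    by_cases hx : x ∈ F
    · obtain ⟨κ₀, z₀, h1, h2⟩ := hv3 x hx Nm hNm1
      exact ⟨κ₀, z₀, h1, fun _ => h2⟩
    · exact ⟨1, 0, one_pos, fun h => absurd h hx⟩
  choose κv zv pv gv2 using gv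
  obtain ⟨κ1, hκ1, hκ1'⟩ := pos_lb F κv pv
  obtain ⟨z1, hz1⟩ := nat_ub F zv
  refine ⟨M, κ1, z1, hκ1, ?_⟩
  intro J a₀ w₀ z D q hz hO
  obtain ⟨l, i₀, j₀, hl, hl', hWi, hWi', hWj, hWj', hmi⟩ := hdm D q z hO.isLaw hO.c_i hO.ij_few
  obtain ⟨N, hN⟩ : ∃ N : ℕ, N = 2 ^ l := ⟨_, rfl⟩
  have hR2 : (2 : ℝ) ^ l = N := by
    rw [hN]
    push_cast
    rfl
  rw [hR2] at hmi
  rw [← hN] at hWi hWi' hWj hWj' hmi
  have hN1 : 1 ≤ N := by rw [hN]; exact Nat.one_le_two_pow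
  have hNN : N ≤ Nm := by
    rw [hN, hNm]
    exact Nat.pow_le_pow_right (by norm_num) hl'.le
  have hm0 : m₀ ≤ N := by
    rw [hN]
    refine (Nat.lt_two_pow_self (n := m₀)).le.trans (Nat.pow_le_pow_right (by norm_num) ?_)
    omega
  have eW : (W1 + M' + 1) * N = W1 * N + M' * N + N := by ring
  rw [eW] at hWi hWi' hWj hWj'
  have epl : ∀ i j : ℕ, (((i₀ : ℤ), (j₀ : ℤ)) : ℤ × ℤ) + N • ((i : ℤ), (j : ℤ)) =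
      (((i₀ + i * N : ℕ) : ℤ), ((j₀ + j * N : ℕ) : ℤ)) := by
    intro i j
    refine Prod.ext ?_ ?_
    · simp
      ring
    · simp
      ring
  have hmul : ∀ i, i ≤ M' → i * N ≤ M' * N := fun i hi => Nat.mul_le_mul_right N hi
  refine ⟨N, i₀, j₀, hm0, ⟨hN1, ?_, ?_⟩, ?_⟩
  · have : (M' + 1) * N = M' * N + N := by ring
    omega
  · have : (M' + 1) * N = M' * N + N := by ring
    omega
  · intro x hx
    have h1 := hmi _ (mem_image_of_mem _ hx)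
    simp only at h1
    rw [epl] at h1
    have a1 := hmul _ (ho x hx).1
    have a2 := hmul _ (ho x hx).2
    have a3 := Nat.mul_le_mul_right N (hW1 _ hx)
    exact gv2 x hx J a₀ w₀ z M _ D q ((hz1 _ hx).trans hz)
      (hκ1' _ hx) hO l N (i₀ + (o x).1 * N) (j₀ + (o x).2 * N)
      (by have := hk1 _ hx; omega) hN hNN (by omega) (by omega) (by omega) (by omega) h1

end Pool.MIC7
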