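import Pool.Agent.H20.MIC.Frm
import Pool.Agent.H35.SYS.Nat

/-!
# Paths of frames whose boxes grow

Frames `(g k, Φ k)`, `k ≤ s`, such that neighbouring frames agree on the natural box of the first
one up to the factor `E`, and the box of the frame `0` has the relative size `ρ k` in the frame
`k`. The sample point `X` is in all boxes. Then the box of the frame `0` has the relative size
`ρ k` in the frame `k` up to a power of `N E`, `N ≥ s`, and the difference of the labels of
neighbouring frames varies on this box only by the factor `ρ k`. The exponent does not depend on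
the number of steps.
-/

set_option autoImplicit false

namespace Pool.MIC7

open Finset Real MvPolynomial
open Pool.STAT Pool.MIC.Frm

/-- A path of frames. -/
structure Pth (n K s : ℕ) (g : ℕ → ℕ → ℕ) (Φ : ℕ → ℕ → PN) (X : ℕ → ℝ) (ρ : ℕ → ℝ)
    (N E : ℝ) : Prop where
  sN : (s : ℝ) ≤ N
  N1 : 1 ≤ N
  E1 : 1 ≤ E
  tri : ∀ k ≤ s, TriN (Φ k)
  deg : ∀ k ≤ s, ∀ i ≤ n, (Φ k i).totalDegree ≤ K
  r0 : ρ 0 = 1
  rp : ∀ k ≤ s, 0 < ρ k
  r1 : ∀ k ≤ s, ρ k ≤ 1
  pos : ∀ k ≤ s, ∀ i < n, |nat (g k) (Φ k) X i| ≤ 1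
  lev : ∀ k ≤ s, ∀ k' ≤ k, ∀ i, 1 ≤ i → i < n → (2 : ℝ) ^ g k i * ρ k' ≤ E * ρ k * 2 ^ g k' i
  adj : ∀ k < s, ∀ l, 1 ≤ l → l ≤ n → ∀ b : ℕ → ℝ, (∀ i < l, |nat (g k) (Φ k) b i| ≤ 1) →
    |eval b (Φ k l) - eval b (Φ (k + 1) l)| ≤ E / 2 ^ g k l

/-- **Variation.** A polynomial which is bounded on the natural box. -/
theorem vr (n K : ℕ) : ∃ (C : ℝ) (D : ℕ), 1 ≤ C ∧ ∀ (m : ℕ) (g : ℕ → ℕ) (Φ : ℕ → PN) (F : PN)
    (S B ε : ℝ) (b b' : ℕ → ℝ), m ≤ n → TriN Φ → (∀ i < m, (Φ i).totalDegree ≤ K) → 1 ≤ B →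
    0 ≤ S → 0 ≤ ε → F.vars ⊆ range m → F.totalDegree ≤ K →
    (∀ b : ℕ → ℝ, (∀ i < m, |nat g Φ b i| ≤ 1) → |eval b F| ≤ S) →
    (∀ i < m, |nat g Φ b i| ≤ B) → (∀ i < m, |nat g Φ b' i| ≤ B) →
    (∀ i < m, |nat g Φ b i - nat g Φ b' i| ≤ ε) → |eval b F - eval b' F| ≤ C * B ^ D * S * ε := by
  choose C hC h using fun m => Pool.SYS35.nrm_of_sup m (K * (K + 1) ^ m)
  set D := K * (K + 1) ^ n with hD
  set C₁ := ∑ m ∈ range (n + 1), C m with hC₁
  have hCm : ∀ m ≤ n, C m ≤ C₁ := fun m hm =>
    Finset.single_le_sum (f := C) (fun i _ => by linarith [hC i]) (mem_range.2 (by omega))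
  have hC1 : 1 ≤ C₁ := (hC 0).trans (hCm 0 (Nat.zero_le _))
  refine ⟨(D + 1) * C₁, D, by
    have : (0 : ℝ) ≤ D := Nat.cast_nonneg _
    nlinarith, ?_⟩
  intro m g Φ F S B ε b b' hm hΦ hK hB hS hε hv hF hs h1 h2 h3
  have dK : K * (K + 1) ^ m ≤ D := by
    rw [hD]
    exact Nat.mul_le_mul_left _ (Nat.pow_le_pow_right (Nat.succ_pos _) hm)
  set G := bind₁ (nuc g Φ) F with hG
  have vG : G.vars ⊆ range m := vars_fr hΦ hv
  have dG : G.totalDegree ≤ K * (K + 1) ^ m := deg_fr hΦ hK hv hF
  have nG : nrm (fun _ => 1) 1 G ≤ C m * S := by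
    refine h m (fun _ => 1) 1 G S one_pos vG dG fun z hz => ?_
    rw [hG, eval_fr']
    refine hs _ fun i hi => ?_
    rw [nat_pt hΦ]
    have := hz i hi
    rwa [one_pow] at this
  have w1 : ∀ k ∈ G.support, Finsupp.weight (fun _ : ℕ => 1) k ≤ D := by
    intro k hk
    refine le_trans (le_of_eq ?_) (((le_totalDegree hk).trans dG).trans dK)
    rw [Finsupp.weight_apply]
    refine Finset.sum_congr rfl fun j _ => ?_
    change k j • 1 = k j
    rw [smul_eq_mul, mul_one]
  have := Pool.SYS35.lip_eval (d := fun _ => 1) (fun _ => le_rfl) w1 one_pos hB hε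
    (Y := nat g Φ b) (Y' := nat g Φ b')
    (fun i hi => by
      have := h1 i (mem_range.1 (vG hi))
      simpa using this)
    (fun i hi => by
      have := h2 i (mem_range.1 (vG hi))
      simpa using this)
    (fun i hi => by
      have := h3 i (mem_range.1 (vG hi))
      simpa using this)
  rw [eval_fr hΦ, eval_fr hΦ] at this
  refine this.trans ?_
  have hB0 : 0 < B := by linarith
  have e1 : nrm (fun _ => 1) 1 G ≤ C₁ * S :=
    nG.trans (mul_le_mul_of_nonneg_right (hCm m hm) hS)
  calc (D : ℝ) * B ^ D * nrm (fun _ => 1) 1 G * ε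
      ≤ (D + 1) * B ^ D * (C₁ * S) * ε := by
        refine mul_le_mul_of_nonneg_right ?_ hε
        refine mul_le_mul ?_ e1 (Pool.SYS35.nrm_nonneg' _ zero_le_one _) (by positivity)
        exact mul_le_mul_of_nonneg_right (by linarith) (by positivity)
    _ = (D + 1) * C₁ * B ^ D * S * ε := by ring

/-- The value of a constant label. -/
theorem ev_zero {F : PN} (hF : F.vars ⊆ range 0) (b b' : ℕ → ℝ) : eval b F = eval b' F :=
  Pool.SYS35.eval_congr hF fun _ hi => absurd hi (Nat.not_lt_zero _)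

/-- **The box of the first frame in the later frames.** -/
theorem pth_aux (n K : ℕ) : ∀ m ≤ n, ∃ (C : ℝ) (D : ℕ), 1 ≤ C ∧ ∀ (s : ℕ) (g : ℕ → ℕ → ℕ)
    (Φ : ℕ → ℕ → PN) (X : ℕ → ℝ) (ρ : ℕ → ℝ) (N E B : ℝ), Pth n K s g Φ X ρ N E → 1 ≤ B →
    ∀ b : ℕ → ℝ, b 0 = X 0 → (∀ i < n, |nat (g 0) (Φ 0) b i| ≤ B) →
    (∀ k ≤ s, ∀ i < m, |nat (g k) (Φ k) b i - nat (g k) (Φ k) X i| ≤
      C * (N * E * B) ^ D * ρ k) ∧
    ∀ k < s, ∀ l ≤ m, |(eval b (Φ k l) - eval b (Φ (k + 1) l)) -
      (eval X (Φ k l) - eval X (Φ (k + 1) l))| ≤ C * (N * E * B) ^ D * ρ k / 2 ^ g k l := by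
  obtain ⟨C₀, D₀, hC₀, h₀⟩ := vr n K
  intro m
  induction m with
  | zero =>
    intro _
    refine ⟨1, 0, le_rfl, ?_⟩
    intro s g Φ X ρ N E B H hB b b0 hb
    refine ⟨fun k _ _ hi => absurd hi (Nat.not_lt_zero _), fun k hk l hl => ?_⟩
    obtain rfl : l = 0 := by omega
    have := H.rp k hk.le
    rw [ev_zero (H.tri k hk.le 0) b X, ev_zero (H.tri (k + 1) hk 0) b X, sub_self, abs_zero]
    positivity
  | succ m ih =>
    intro hm
    obtain ⟨C, D, hC, h⟩ := ih (by omega)
    -- the constants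
    have hC0 : 0 < C := by linarith
    set A₁ := 2 * C with hA₁
    -- first part for i < m + 1 with constant 2 + C, exponent D + 1
    set C₂ := C₀ * (1 + (2 + C)) ^ D₀ * (2 + C) with hC₂
    set D₂ := (D + 1) * D₀ + 1 + (D + 1) with hD₂
    have hC₂0 : 0 < C₂ := by rw [hC₂]; positivity
    refine ⟨(2 + C) + C₂, (D + 1) + D₂, by linarith, ?_⟩
    intro s g Φ X ρ N E B H hB b b0 hb
    obtain ⟨h1, h2⟩ := h s g Φ X ρ N E B H hB b b0 hb
    have hN := H.N1
    have hE := H.E1
    set W := N * E * B with hW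
    have hNE : 1 ≤ N * E := one_le_mul_of_one_le_of_one_le hN hE
    have hW1 : 1 ≤ W := one_le_mul_of_one_le_of_one_le hNE hB
    have hW0 : 0 < W := by linarith
    have hEW : E ≤ W := by
      rw [hW]
      have : E * 1 ≤ E * (N * B) :=
        mul_le_mul_of_nonneg_left (one_le_mul_of_one_le_of_one_le hN hB) (by linarith)
      nlinarith
    have hNEW : N * E ≤ W := by
      rw [hW]
      nlinarith
    have hEBW : E * B ≤ W := by
      rw [hW]
      have h0 : 0 < E * B := by nlinarith
      nlinarith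
    -- the coordinate m
    have g1 : ∀ k ≤ s, ∀ i < m + 1, |nat (g k) (Φ k) b i - nat (g k) (Φ k) X i| ≤
        (2 + C) * W ^ (D + 1) * ρ k := by
      intro k hk i hi
      have rk := H.rp k hk
      rcases Nat.lt_or_ge i m with hi' | hi'
      · refine (h1 k hk i hi').trans (mul_le_mul_of_nonneg_right ?_ rk.le)
        refine mul_le_mul (by linarith) (pow_le_pow_right₀ hW1 (Nat.le_succ _)) (by positivity)
          (by linarith)
      · obtain rfl : i = m := by omega
        rcases Nat.eq_zero_or_pos i with rfl | hi0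
        · unfold nat
          rw [ev_zero (H.tri k hk 0) b X, b0, sub_self, abs_zero]
          positivity
        -- the telescope
        have e1 : ∀ k, eval b (Φ k i) - eval X (Φ k i) = (eval b (Φ 0 i) - eval X (Φ 0 i)) -
            ∑ k' ∈ range k, ((eval b (Φ k' i) - eval b (Φ (k' + 1) i)) -
              (eval X (Φ k' i) - eval X (Φ (k' + 1) i))) := by
          intro k
          induction k with
          | zero => simp
          | succ k ihk =>
            rw [sum_range_succ, ← sub_sub, ← ihk]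
            ring
        have e2 : nat (g k) (Φ k) b i - nat (g k) (Φ k) X i =
            2 ^ g k i / 2 ^ g 0 i * (nat (g 0) (Φ 0) b i - nat (g 0) (Φ 0) X i) +
            ∑ k' ∈ range k, 2 ^ g k i * ((eval b (Φ k' i) - eval b (Φ (k' + 1) i)) -
              (eval X (Φ k' i) - eval X (Φ (k' + 1) i))) := by
          have e3 := e1 k
          rw [← mul_sum]
          unfold nat
          have e4 : (2 : ℝ) ^ g k i / 2 ^ g 0 i * (2 ^ g 0 i * (b i - eval b (Φ 0 i)) -
              2 ^ g 0 i * (X i - eval X (Φ 0 i))) =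
              2 ^ g k i * ((b i - eval b (Φ 0 i)) - (X i - eval X (Φ 0 i))) := by
            field_simp
          rw [e4, ← mul_sub, ← mul_add]
          congr 1
          linarith
        rw [e2]
        have l0 := H.lev k hk 0 (Nat.zero_le _) i hi0 (by omega)
        rw [H.r0, mul_one] at l0
        have t1 : |(2 : ℝ) ^ g k i / 2 ^ g 0 i * (nat (g 0) (Φ 0) b i - nat (g 0) (Φ 0) X i)| ≤
            2 * W * ρ k := by
          rw [abs_mul, abs_of_pos (by positivity)]
          have a1 : (2 : ℝ) ^ g k i / 2 ^ g 0 i ≤ E * ρ k := by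
            rw [div_le_iff₀ (by positivity)]
            exact l0
          have a2 : |nat (g 0) (Φ 0) b i - nat (g 0) (Φ 0) X i| ≤ 2 * B := by
            refine (abs_sub _ _).trans ?_
            have := hb i (by omega)
            have := H.pos 0 (Nat.zero_le _) i (by omega)
            linarith
          calc (2 : ℝ) ^ g k i / 2 ^ g 0 i * |nat (g 0) (Φ 0) b i - nat (g 0) (Φ 0) X i|
              ≤ (E * ρ k) * (2 * B) := mul_le_mul a1 a2 (abs_nonneg _) (by positivity)
            _ = 2 * (E * B) * ρ k := by ring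
            _ ≤ 2 * W * ρ k := mul_le_mul_of_nonneg_right (by linarith) rk.le
        have t2 : ∀ k' ∈ range k, |(2 : ℝ) ^ g k i * ((eval b (Φ k' i) -
            eval b (Φ (k' + 1) i)) - (eval X (Φ k' i) - eval X (Φ (k' + 1) i)))| ≤
            C * W ^ D * E * ρ k := by
          intro k' hk'
          have hk2 := mem_range.1 hk'
          have a1 := h2 k' (by omega) i le_rfl
          have a2 := H.lev k hk k' hk2.le i hi0 (by omega)
          have a3 := H.rp k' (by omega)
          rw [abs_mul, abs_of_pos (by positivity)]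
          calc (2 : ℝ) ^ g k i * _ ≤ 2 ^ g k i * (C * W ^ D * ρ k' / 2 ^ g k' i) :=
                mul_le_mul_of_nonneg_left a1 (by positivity)
            _ = C * W ^ D * (2 ^ g k i * ρ k' / 2 ^ g k' i) := by ring
            _ ≤ C * W ^ D * (E * ρ k) := by
                refine mul_le_mul_of_nonneg_left ?_ (by positivity)
                rw [div_le_iff₀ (by positivity)]
                exact a2
            _ = C * W ^ D * E * ρ k := by ring
        have t3 : |∑ k' ∈ range k, 2 ^ g k i * ((eval b (Φ k' i) - eval b (Φ (k' + 1) i)) -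
            (eval X (Φ k' i) - eval X (Φ (k' + 1) i)))| ≤ C * W ^ D * W * ρ k := by
          refine (abs_sum_le_sum_abs _ _).trans ((sum_le_sum t2).trans ?_)
          rw [sum_const, card_range, nsmul_eq_mul]
          have a4 : (k : ℝ) ≤ N := le_trans (by exact_mod_cast hk) H.sN
          calc (k : ℝ) * (C * W ^ D * E * ρ k) ≤ N * (C * W ^ D * E * ρ k) :=
                mul_le_mul_of_nonneg_right a4 (by positivity)
            _ = C * W ^ D * (N * E) * ρ k := by ring
            _ ≤ C * W ^ D * W * ρ k := by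
                refine mul_le_mul_of_nonneg_right ?_ rk.le
                exact mul_le_mul_of_nonneg_left hNEW (by positivity)
        refine (abs_add_le _ _).trans ((add_le_add t1 t3).trans ?_)
        have a5 : W ≤ W ^ (D + 1) := by
          have := pow_le_pow_right₀ hW1 (show 1 ≤ D + 1 by omega)
          rwa [pow_one] at this
        calc 2 * W * ρ k + C * W ^ D * W * ρ k = (2 * W + C * W ^ (D + 1)) * ρ k := by
              rw [pow_succ]
              ring
          _ ≤ (2 * W ^ (D + 1) + C * W ^ (D + 1)) * ρ k :=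
              mul_le_mul_of_nonneg_right (by linarith) rk.le
          _ = (2 + C) * W ^ (D + 1) * ρ k := by ring
    refine ⟨fun k hk i hi => ?_, fun k hk l hl => ?_⟩
    · have rk := H.rp k hk
      refine (g1 k hk i hi).trans (mul_le_mul_of_nonneg_right ?_ rk.le)
      exact mul_le_mul (by linarith) (pow_le_pow_right₀ hW1 (by omega)) (by positivity)
        (by linarith)
    · have rk := H.rp k hk.le
      rcases Nat.lt_or_ge m l with hl' | hl'
      · obtain rfl : l = m + 1 := by omega
        have hb1 : ∀ i < m + 1, |nat (g k) (Φ k) X i| ≤ 1 + (2 + C) * W ^ (D + 1) := by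
          intro i hi
          have := H.pos k hk.le i (by omega)
          have : 0 ≤ (2 + C) * W ^ (D + 1) := by positivity
          linarith
        have hb2 : ∀ i < m + 1, |nat (g k) (Φ k) b i| ≤ 1 + (2 + C) * W ^ (D + 1) := by
          intro i hi
          have a1 := g1 k hk.le i hi
          have a2 := H.pos k hk.le i (by omega)
          have a3 : (2 + C) * W ^ (D + 1) * ρ k ≤ (2 + C) * W ^ (D + 1) * 1 :=
            mul_le_mul_of_nonneg_left (H.r1 k hk.le) (by positivity)
          have a4 := abs_add_le (nat (g k) (Φ k) b i - nat (g k) (Φ k) X i)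
            (nat (g k) (Φ k) X i)
          rw [sub_add_cancel] at a4
          linarith
        have main := h₀ (m + 1) (g k) (Φ k) (Φ k (m + 1) - Φ (k + 1) (m + 1))
          (E / 2 ^ g k (m + 1)) (1 + (2 + C) * W ^ (D + 1)) ((2 + C) * W ^ (D + 1) * ρ k) b X
          hm (H.tri k hk.le) (fun i hi => H.deg k hk.le i (by omega)) (by
            have : 0 ≤ (2 + C) * W ^ (D + 1) := by positivity
            linarith) (by positivity) (by positivity)
          (AdxRow.vars_sub_le (H.tri k hk.le (m + 1)) (H.tri (k + 1) hk (m + 1)))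
          ((totalDegree_sub _ _).trans (max_le (H.deg k hk.le _ hm) (H.deg (k + 1) hk _ hm)))
          (fun b hb => by
            rw [map_sub]
            exact H.adj k hk (m + 1) (by omega) hm b hb)
          hb2 hb1 (g1 k hk.le)
        rw [map_sub, map_sub] at main
        refine main.trans ?_
        have b1 : 1 + (2 + C) * W ^ (D + 1) ≤ (1 + (2 + C)) * W ^ (D + 1) := by
          have := one_le_pow₀ (n := D + 1) hW1
          nlinarith
        have b2 : (1 + (2 + C) * W ^ (D + 1)) ^ D₀ ≤ (1 + (2 + C)) ^ D₀ * W ^ ((D + 1) * D₀) := by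
          rw [pow_mul, ← mul_pow]
          exact pow_le_pow_left₀ (by positivity) b1 _
        calc C₀ * (1 + (2 + C) * W ^ (D + 1)) ^ D₀ * (E / 2 ^ g k (m + 1)) *
              ((2 + C) * W ^ (D + 1) * ρ k)
            ≤ C₀ * ((1 + (2 + C)) ^ D₀ * W ^ ((D + 1) * D₀)) * (W / 2 ^ g k (m + 1)) *
              ((2 + C) * W ^ (D + 1) * ρ k) := by
              refine mul_le_mul_of_nonneg_right ?_ (by positivity)
              refine mul_le_mul (mul_le_mul_of_nonneg_left b2 (by linarith))
                (div_le_div_of_nonneg_right hEW (by positivity)) (by positivity) (by positivity)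
          _ = C₂ * W ^ D₂ * ρ k / 2 ^ g k (m + 1) := by
              rw [hC₂, hD₂, pow_add, pow_add, pow_one]
              ring
          _ ≤ (2 + C + C₂) * W ^ (D + 1 + D₂) * ρ k / 2 ^ g k (m + 1) := by
              refine div_le_div_of_nonneg_right ?_ (by positivity)
              refine mul_le_mul_of_nonneg_right ?_ rk.le
              exact mul_le_mul (by linarith) (pow_le_pow_right₀ hW1 (by omega)) (by positivity)
                (by positivity)
      · refine (h2 k hk l hl').trans ?_
        refine div_le_div_of_nonneg_right ?_ (by positivity)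
        refine mul_le_mul_of_nonneg_right ?_ rk.le
        exact mul_le_mul (by linarith) (pow_le_pow_right₀ hW1 (by omega)) (by positivity)
          (by positivity)

/-- **The box of the first frame in the later frames**, all coordinates. -/
theorem pth (n K : ℕ) : ∃ (C : ℝ) (D : ℕ), 1 ≤ C ∧ ∀ (s : ℕ) (g : ℕ → ℕ → ℕ)
    (Φ : ℕ → ℕ → PN) (X : ℕ → ℝ) (ρ : ℕ → ℝ) (N E B : ℝ), Pth n K s g Φ X ρ N E → 1 ≤ B →
    ∀ b : ℕ → ℝ, b 0 = X 0 → (∀ i < n, |nat (g 0) (Φ 0) b i| ≤ B) →
    (∀ k ≤ s, ∀ i < n, |nat (g k) (Φ k) b i - nat (g k) (Φ k) X i| ≤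
      C * (N * E * B) ^ D * ρ k) ∧
    ∀ k < s, ∀ l ≤ n, |(eval b (Φ k l) - eval b (Φ (k + 1) l)) -
      (eval X (Φ k l) - eval X (Φ (k + 1) l))| ≤ C * (N * E * B) ^ D * ρ k / 2 ^ g k l :=
  pth_aux n K n le_rfl

end Pool.MIC7
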